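import Pool.Agent.Lib.MP_51bb46_lc.S.Grid

/-!
Coordinatewise paths.
-/

set_option linter.unusedSectionVars false

namespace FrS

open Finset
open scoped Classical

variable {D : ℕ}

/-- coordinatewise path from `p` to `p'` (coordinate `0` first) -/
noncomputable def cp (p p' : V D) : Ch D := fun e =>
  if (∀ k, k < e.2 → e.1 k = p' k) ∧ (∀ k, e.2 < k → e.1 k = p k) ∧
    min (p e.2) (p' e.2) ≤ e.1 e.2 ∧ e.1 e.2 < max (p e.2) (p' e.2) then 1 else 0

/-- the intermediate points of the coordinatewise path -/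
def Path_s (p p' : V D) (j : ℕ) : V D := fun k => if k.val < j then p' k else p k

theorem Path_eq_s_iff (p p' v : V D) (i : Fin (D + 3)) :
    v = Path_s p p' i.val ↔
      ((∀ k, k < i → v k = p' k) ∧ (∀ k, i < k → v k = p k)) ∧ v i = p i := by
  constructor
  · rintro rfl
    refine ⟨⟨fun k hk => ?_, fun k hk => ?_⟩, ?_⟩
    · have : k.val < i.val := hk
      simp [Path_s, this]
    · have : ¬ k.val < i.val := by have : i.val < k.val := hk; omega
      simp [Path_s, this]
    · simp [Path_s]
  · rintro ⟨⟨h1, h2⟩, h3⟩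
    funext k
    rcases lt_trichotomy k i with h | h | h
    · have h' : k.val < i.val := h
      simp [Path_s, h', h1 k h]
    · subst h; simp [Path_s, h3]
    · have h' : ¬ k.val < i.val := by have : i.val < k.val := h; omega
      simp [Path_s, h', h2 k h]

theorem Path_eq_s_succ_iff (p p' v : V D) (i : Fin (D + 3)) :
    v = Path_s p p' (i.val + 1) ↔
      ((∀ k, k < i → v k = p' k) ∧ (∀ k, i < k → v k = p k)) ∧ v i = p' i := by
  constructor
  · rintro rfl
    refine ⟨⟨fun k hk => ?_, fun k hk => ?_⟩, ?_⟩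
    · have : k.val < i.val + 1 := by have : k.val < i.val := hk; omega
      simp only [Path_s, this, if_true]
    · have : ¬ k.val < i.val + 1 := by have : i.val < k.val := hk; omega
      simp only [Path_s, this, if_false]
    · simp only [Path_s, Nat.lt_succ_self, if_true]
  · rintro ⟨⟨h1, h2⟩, h3⟩
    funext k
    rcases lt_trichotomy k i with h | h | h
    · have h' : k.val < i.val + 1 := by have : k.val < i.val := h; omega
      simp only [Path_s, h', if_true, h1 k h]
    · subst h; simp only [Path_s, Nat.lt_succ_self, if_true, h3]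
    · have h' : ¬ k.val < i.val + 1 := by have : i.val < k.val := h; omega
      simp only [Path_s, h', if_false, h2 k h]

theorem Path_num (P : Prop) [Decidable P] (a b x : ℤ) :
    ((if P ∧ (min a b ≤ x ∧ x < max a b) then 1 else 0) +
      (if P ∧ (min a b ≤ x - 1 ∧ x - 1 < max a b) then 1 else 0) : ZMod 2) =
    (if P ∧ x = a then 1 else 0) + (if P ∧ x = b then 1 else 0) := by
  by_cases hP : P
  · simp only [hP, true_and]
    rcases le_total a b with h | h
    · rw [min_eq_left h, max_eq_right h]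
      split_ifs <;> first | rfl | (exfalso; omega)
    · rw [min_eq_right h, max_eq_left h]
      split_ifs <;> first | rfl | (exfalso; omega)
  · simp only [hP, false_and, if_false]

theorem Path_dl {A : Type} (a b : A) (Q : Prop) [Decidable Q] (h : b = a ↔ Q) :
    dl a b = if Q then 1 else 0 := by
  by_cases hQ : Q
  · rw [if_pos hQ, h.2 hQ, dl_self]
  · rw [if_neg hQ]
    exact dl_ne fun e => hQ (h.1 e)

theorem Path_term (p p' v : V D) (i : Fin (D + 3)) :
    cp p p' (v, i) + cp p p' (v - ev i, i) =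
      dl (Path_s p p' i.val) v + dl (Path_s p p' (i.val + 1)) v := by
  have e1 : ((∀ k, k < i → (v - ev i) k = p' k) ∧ (∀ k, i < k → (v - ev i) k = p k)) ↔
      ((∀ k, k < i → v k = p' k) ∧ (∀ k, i < k → v k = p k)) := by
    refine and_congr (forall_congr' fun k => ?_) (forall_congr' fun k => ?_)
    · refine imp_congr_right fun hk => ?_
      rw [Pi.sub_apply, ev_ne hk.ne, sub_zero]
    · refine imp_congr_right fun hk => ?_
      rw [Pi.sub_apply, ev_ne hk.ne', sub_zero]
  have e2 : (v - ev i) i = v i - 1 := by rw [Pi.sub_apply, ev_same]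
  have c1 : cp p p' (v, i) = if ((∀ k, k < i → v k = p' k) ∧ (∀ k, i < k → v k = p k)) ∧
      (min (p i) (p' i) ≤ v i ∧ v i < max (p i) (p' i)) then 1 else 0 :=
    if_congr (by rw [and_assoc]) rfl rfl
  have c2 : cp p p' (v - ev i, i) = if ((∀ k, k < i → v k = p' k) ∧ (∀ k, i < k → v k = p k)) ∧
      (min (p i) (p' i) ≤ v i - 1 ∧ v i - 1 < max (p i) (p' i)) then 1 else 0 :=
    if_congr (by rw [← e1, and_assoc, ← e2]) rfl rfl
  have c3 : dl (Path_s p p' i.val) v = if ((∀ k, k < i → v k = p' k) ∧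
      (∀ k, i < k → v k = p k)) ∧ v i = p i then 1 else 0 :=
    Path_dl _ _ _ (Path_eq_s_iff p p' v i)
  have c4 : dl (Path_s p p' (i.val + 1)) v = if ((∀ k, k < i → v k = p' k) ∧
      (∀ k, i < k → v k = p k)) ∧ v i = p' i then 1 else 0 :=
    Path_dl _ _ _ (Path_eq_s_succ_iff p p' v i)
  rw [c1, c2, c3, c4]
  exact Path_num _ _ _ _

theorem Path_tele (f : ℕ → ZMod 2) (n : ℕ) :
    ∑ j ∈ range n, (f j + f (j + 1)) = f 0 + f n := by
  induction n with
  | zero => simp [CharTwo.add_self_eq_zero]
  | succ n ih =>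
    rw [Finset.sum_range_succ, ih]
    have : f 0 + f n + (f n + f (n + 1)) = f 0 + f (n + 1) + (f n + f n) := by ring
    rw [this, CharTwo.add_self_eq_zero, add_zero]

/-- the boundary of the path -/
theorem bd_cp (p p' : V D) : bd (cp p p') = dl p + dl p' := by
  funext v
  simp only [bd, Pi.add_apply, Path_term]
  rw [Fin.sum_univ_eq_sum_range
    (fun j => dl (Path_s p p' j) v + dl (Path_s p p' (j + 1)) v) (D + 3), Path_tele]
  have h3 : Path_s p p' (D + 3) = p' := by
    funext k; simp [Path_s, k.isLt]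
  have h0 : Path_s p p' 0 = p := by
    funext k; simp [Path_s]
  rw [h3, h0]

theorem Path_of_ne {p p' : V D} {e : E D} (h : cp p p' e ≠ 0) :
    (∀ k, k < e.2 → e.1 k = p' k) ∧ (∀ k, e.2 < k → e.1 k = p k) ∧
    min (p e.2) (p' e.2) ≤ e.1 e.2 ∧ e.1 e.2 < max (p e.2) (p' e.2) := by
  by_contra hc
  exact h (by simp only [cp, hc, if_false])

theorem cp_between {p p' : V D} {e : E D} (h : cp p p' e ≠ 0) (k : Fin (D + 3)) :
    min (p k) (p' k) ≤ e.1 k ∧ e.1 k ≤ (e.1 + ev e.2) k ∧ (e.1 + ev e.2) k ≤ max (p k) (p' k) := by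
  obtain ⟨h1, h2, h3, h4⟩ := Path_of_ne h
  rcases lt_trichotomy k e.2 with hk | hk | hk
  · rw [Pi.add_apply, ev_ne hk.ne, add_zero, h1 k hk]
    exact ⟨min_le_right _ _, le_rfl, le_max_right _ _⟩
  · subst hk
    rw [Pi.add_apply, ev_same]
    exact ⟨h3, by omega, by omega⟩
  · rw [Pi.add_apply, ev_ne hk.ne', add_zero, h2 k hk]
    exact ⟨min_le_left _ _, le_rfl, le_max_left _ _⟩

theorem supp_cp {n : ℕ} {p p' : V D} (hp : p ∈ box D n) (hp' : p' ∈ box D n) :
    Supp n (cp p p') := by
  intro e he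
  by_contra hne
  apply he
  have hb := cp_between hne
  rw [mem_box] at hp hp'
  rw [mem_edges, mem_box, mem_box]
  refine ⟨fun k => ?_, fun k => ?_⟩
  · obtain ⟨h1, h2, h3⟩ := hb k
    have := hp k
    have := hp' k
    omega
  · obtain ⟨h1, h2, h3⟩ := hb k
    have := hp k
    have := hp' k
    omega

theorem cp_self (p : V D) : cp p p = 0 := by
  funext e
  by_contra hne
  obtain ⟨h1, h2, h3, h4⟩ := Path_of_ne hne
  rw [min_self] at h3
  rw [max_self] at h4
  omega

theorem cp_ev (p : V D) (i : Fin (D + 3)) : cp p (p + ev i) = dl (p, i) := by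
  funext e
  by_cases he : e = (p, i)
  · subst he
    rw [dl_self]
    simp only [cp]
    refine if_pos ⟨fun k hk => ?_, fun k hk => trivial, ?_, ?_⟩
    · rw [Pi.add_apply, ev_ne (ne_of_lt hk), add_zero]
    · exact min_le_left _ _
    · rw [Pi.add_apply, ev_same]
      exact lt_of_lt_of_le (lt_add_one _) (le_max_right _ _)
  · rw [dl_ne he]
    by_contra hne
    obtain ⟨h1, h2, h3, h4⟩ := Path_of_ne hne
    apply he
    have hei : e.2 = i := by
      by_contra hc
      rw [Pi.add_apply, ev_ne hc, add_zero] at h3 h4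
      rw [min_self] at h3
      rw [max_self] at h4
      omega
    obtain ⟨w, j⟩ := e
    simp only at hei h1 h2 h3 h4
    subst hei
    rw [Prod.mk.injEq]
    refine ⟨?_, rfl⟩
    funext k
    rcases lt_trichotomy k j with hk | hk | hk
    · rw [h1 k hk, Pi.add_apply, ev_ne hk.ne, add_zero]
    · subst hk
      rw [Pi.add_apply, ev_same] at h3 h4
      rw [min_eq_left (by omega)] at h3
      rw [max_eq_right (by omega)] at h4
      omega
    · exact h2 k hk

/-- every `Yt` is nonempty -/
theorem exists_Yt {n : ℕ} {t : V D} (ht : t ∈ box D n) : ∃ y : Ch D, Yt n t y := by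
  have h0 : (0 : V D) ∈ box D n := by
    rw [mem_box] at ht ⊢
    intro k
    have := ht k
    rw [Pi.zero_apply]
    omega
  exact ⟨cp 0 t, supp_cp h0 ht, bd_cp 0 t⟩

end FrS
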