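import Pool.Agent.Lib.MP_51bb46_lc.S.Base
import Pool.Agent.Lib.MP_51bb46_lc.B.Sound

section

/-!
The Tseitin formula of the grid.
-/

set_option linter.unusedSectionVars false

namespace FrS

open Finset Fr56
open scoped Classical

variable {D : ℕ}

/-! ### disjunctions and conjunctions of lists -/

private theorem bA_disj_vars {X : Type} (d : Fm X) (l : List (Fm X)) (hl : l ≠ []) (v : X) :
    v ∈ (Fm.disj d l).vars ↔ ∃ f ∈ l, v ∈ f.vars := by
  induction l with
  | nil => exact absurd rfl hl
  | cons f l ih =>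
    cases l with
    | nil => simp [Fm.disj]
    | cons g l =>
      have h := ih (by simp)
      simp only [Fm.disj, Fm.vars, Set.mem_union]
      rw [h]
      simp

private theorem bA_disj_eval {X : Type} (d : Fm X) (l : List (Fm X)) (hl : l ≠ [])
    (x : X → Bool) : (Fm.disj d l).eval x = true ↔ ∃ f ∈ l, f.eval x = true := by
  induction l with
  | nil => exact absurd rfl hl
  | cons f l ih =>
    cases l with
    | nil => simp [Fm.disj]
    | cons g l =>
      have h := ih (by simp)
      simp only [Fm.disj, Fm.eval, Bool.or_eq_true]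
      rw [h]
      simp

private theorem bA_conj_eval {X : Type} (d : Fm X) (l : List (Fm X)) (hl : l ≠ [])
    (x : X → Bool) : (Fm.conj d l).eval x = true ↔ ∀ f ∈ l, f.eval x = true := by
  induction l with
  | nil => exact absurd rfl hl
  | cons f l ih =>
    cases l with
    | nil => simp [Fm.conj]
    | cons g l =>
      have h := ih (by simp)
      simp only [Fm.conj, Fm.eval, Bool.and_eq_true]
      rw [h]
      simp

private theorem bA_conj_ind {X : Type} (d F : Fm X) (P : Fm X → Prop) (l : List (Fm X))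
    (hl : l ≠ []) (hs : Fm.conj d l ∈ F.subs) (h1 : ∀ f ∈ l, f ∈ F.subs → P f)
    (h2 : ∀ f g, Fm.and f g ∈ F.subs → P f → P g → P (Fm.and f g)) : P (Fm.conj d l) := by
  induction l with
  | nil => exact absurd rfl hl
  | cons f l ih =>
    cases l with
    | nil => exact h1 f (by simp) hs
    | cons g l =>
      have hf : f ∈ F.subs := Fm.subs_trans (by
        simp only [Fm.conj, Fm.subs, List.mem_cons, List.mem_append]
        exact Or.inr (Or.inl (Fm.self_mem_subs f))) hs
      have hg : Fm.conj d (g :: l) ∈ F.subs := Fm.subs_trans (by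
        simp only [Fm.conj, Fm.subs, List.mem_cons, List.mem_append]
        exact Or.inr (Or.inr (Fm.self_mem_subs _))) hs
      exact h2 _ _ hs (h1 f (by simp) hf)
        (ih (by simp) hg fun f' hf' => h1 f' (List.mem_cons_of_mem _ hf'))

private theorem bA_leaves_disj_le {X : Type} (d : Fm X) (hd : d.leaves = 1) (l : List (Fm X))
    (hl : ∀ f ∈ l, f.leaves = 1) (n : ℕ) (hn : 1 ≤ n) (hln : l.length ≤ n) :
    (Fm.disj d l).leaves ≤ n := by
  induction l generalizing n with
  | nil => simpa [Fm.disj, hd] using hn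
  | cons f l ih =>
    cases l with
    | nil => simpa [Fm.disj, hl f (by simp)] using hn
    | cons g l =>
      have h1 := ih (fun f hf => hl f (List.mem_cons_of_mem _ hf)) (n - 1)
        (by simp only [List.length_cons] at hln; omega)
        (by simp only [List.length_cons] at hln ⊢; omega)
      have h2 := hl f (by simp)
      simp only [Fm.disj, Fm.leaves, h2]
      simp only [List.length_cons] at hln
      omega

private theorem bA_isClause_disj {X : Type} (d : Fm X) (l : List (Fm X)) (hne : l ≠ [])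
    (hl : ∀ f ∈ l, Fm.IsClause 1 f) : Fm.IsClause l.length (Fm.disj d l) := by
  induction l with
  | nil => exact absurd rfl hne
  | cons f l ih =>
    cases l with
    | nil => simpa [Fm.disj] using hl f (by simp)
    | cons g l =>
      have h1 := ih (by simp) (fun f hf => hl f (List.mem_cons_of_mem _ hf))
      have h2 := Fm.IsClause.or (hl f (by simp)) h1
      have h3 : (f :: g :: l).length = 1 + (g :: l).length := by
        simp only [List.length_cons]; omega
      rw [h3]
      simpa [Fm.disj] using h2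

private theorem bA_size_disj_le {X : Type} (d : Fm X) (l : List (Fm X)) (hne : l ≠ [])
    (hl : ∀ f ∈ l, f.size ≤ 2) : (Fm.disj d l).size + 1 ≤ 3 * l.length := by
  induction l with
  | nil => exact absurd rfl hne
  | cons f l ih =>
    cases l with
    | nil =>
      have := hl f (by simp)
      simp only [Fm.disj, List.length_cons, List.length_nil]; omega
    | cons g l =>
      have h1 := ih (by simp) (fun f hf => hl f (List.mem_cons_of_mem _ hf))
      have h2 := hl f (by simp)
      simp only [Fm.disj, Fm.size, List.length_cons] at h1 ⊢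
      omega

private theorem bA_isCNF_conj {X : Type} (k : ℕ) (d : Fm X) (l : List (Fm X)) (hne : l ≠ [])
    (hl : ∀ f ∈ l, Fm.IsCNF k f) : Fm.IsCNF k (Fm.conj d l) := by
  induction l with
  | nil => exact absurd rfl hne
  | cons f l ih =>
    cases l with
    | nil => simpa [Fm.conj] using hl f (by simp)
    | cons g l =>
      have h1 := ih (by simp) (fun f hf => hl f (List.mem_cons_of_mem _ hf))
      simpa [Fm.conj] using Fm.IsCNF.and (hl f (by simp)) h1

private theorem bA_size_conj_le {X : Type} (s : ℕ) (d : Fm X) (l : List (Fm X)) (hne : l ≠ [])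
    (hl : ∀ f ∈ l, f.size ≤ s) : (Fm.conj d l).size + 1 ≤ (s + 1) * l.length := by
  induction l with
  | nil => exact absurd rfl hne
  | cons f l ih =>
    cases l with
    | nil =>
      have := hl f (by simp)
      simp only [Fm.conj, List.length_cons, List.length_nil]; omega
    | cons g l =>
      have h1 := ih (by simp) (fun f hf => hl f (List.mem_cons_of_mem _ hf))
      have h2 := hl f (by simp)
      simp only [Fm.conj, Fm.size, List.length_cons] at h1 ⊢
      nlinarith

private theorem bA_le_size_conj {X : Type} (d : Fm X) (l : List (Fm X)) :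
    l.length ≤ (Fm.conj d l).size := by
  have hone : ∀ f : Fm X, 1 ≤ f.size := fun f => (Fm.leaves_pos f).trans (Fm.leaves_le_size f)
  induction l with
  | nil => simp
  | cons f l ih =>
    cases l with
    | nil => simpa [Fm.conj] using hone f
    | cons g l =>
      simp only [Fm.conj, Fm.size, List.length_cons] at ih ⊢
      omega

/-! ### stars -/

private theorem bA_mem_star {N : ℕ} {v : V D} {e : E D} :
    e ∈ star N v ↔ e ∈ edges D N ∧ (e.1 = v ∨ e.1 + ev e.2 = v) := by
  simp [star]

private theorem bA_ev_ne_zero (i : Fin (D + 3)) : (ev i : V D) ≠ 0 := by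
  intro h
  have := congrFun h i
  simp at this

private theorem bA_card_star (N : ℕ) (v : V D) : (star N v).card ≤ 2 * (D + 3) := by
  have hsub : star N v ⊆ (univ : Finset (Fin (D + 3))).image (fun i => ((v, i) : E D)) ∪
      (univ : Finset (Fin (D + 3))).image (fun i => ((v - ev i, i) : E D)) := by
    intro e he
    rw [bA_mem_star] at he
    rw [mem_union, mem_image, mem_image]
    rcases he.2 with h | h
    · left
      exact ⟨e.2, mem_univ _, by rw [← h]⟩
    · right
      exact ⟨e.2, mem_univ _, by rw [← h]; simp⟩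
  have h1 := ((card_le_card hsub).trans (card_union_le _ _)).trans
    (add_le_add card_image_le card_image_le)
  rw [card_univ, Fintype.card_fin] at h1
  omega

private theorem bA_star_ne {N : ℕ} (hN : 2 ≤ N) {v : V D} (hv : v ∈ box D N) :
    (star N v).Nonempty := by
  have hv' := mem_box.1 hv
  by_cases h : v 0 + 1 < N
  · refine ⟨(v, 0), bA_mem_star.2 ⟨mem_edges.2 ⟨hv, mem_box.2 fun k => ?_⟩, Or.inl rfl⟩⟩
    have := hv' k
    by_cases hk : k = 0
    · subst hk
      simp only [Pi.add_apply, ev_same]
      omega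
    · simp only [Pi.add_apply, ev_ne hk]
      omega
  · refine ⟨(v - ev 0, 0), bA_mem_star.2 ⟨mem_edges.2 ⟨mem_box.2 fun k => ?_, ?_⟩,
      Or.inr (by simp)⟩⟩
    · have := hv' k
      by_cases hk : k = 0
      · subst hk
        simp only [Pi.sub_apply, ev_same]
        omega
      · simp only [Pi.sub_apply, ev_ne hk]
        omega
    · simpa using hv

private theorem bA_list_ne {N : ℕ} (hN : 2 ≤ N) {v : V D} (hv : v ∈ box D N)
    (T : Finset (E D)) :
    ((star N v).toList.map fun u => if u ∈ T then Fm.neg (.var u) else Fm.var u) ≠ [] := by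
  intro h0
  rw [List.map_eq_nil_iff, Finset.toList_eq_nil] at h0
  exact (bA_star_ne hN hv).ne_empty h0

theorem clause_vars {N : ℕ} (hN : 2 ≤ N) (u0 : E D) {v : V D} (hv : v ∈ box D N)
    (T : Finset (E D)) : ∃ e, e ∈ (clause u0 N v T).vars ∧ (e.1 = v ∨ e.1 + ev e.2 = v) := by
  obtain ⟨e, he⟩ := bA_star_ne hN hv
  refine ⟨e, ?_, (bA_mem_star.1 he).2⟩
  unfold clause
  rw [bA_disj_vars _ _ (bA_list_ne hN hv T)]
  refine ⟨_, List.mem_map.2 ⟨e, Finset.mem_toList.2 he, rfl⟩, ?_⟩
  split_ifs
  · exact rfl
  · exact rfl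

private theorem bA_clause_eval {N : ℕ} (hN : 2 ≤ N) (u0 : E D) {v : V D} (hv : v ∈ box D N)
    (T : Finset (E D)) (x : E D → Bool) :
    (clause u0 N v T).eval x = true ↔ ∃ u ∈ star N v, ¬ (u ∈ T ↔ x u = true) := by
  unfold clause
  rw [bA_disj_eval _ _ (bA_list_ne hN hv T)]
  simp only [List.mem_map, Finset.mem_toList]
  constructor
  · rintro ⟨f, ⟨w, hw, rfl⟩, hu⟩
    refine ⟨w, hw, ?_⟩
    split_ifs at hu with h1
    · simp only [Fm.eval, Bool.not_eq_true'] at hu
      rw [hu]
      simp [h1]
    · simp only [Fm.eval] at hu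
      rw [hu]
      simp [h1]
  · rintro ⟨w, hw, hn⟩
    refine ⟨_, ⟨w, hw, rfl⟩, ?_⟩
    split_ifs with h1
    · simp only [Fm.eval, Bool.not_eq_true']
      by_contra hc
      rw [Bool.not_eq_false] at hc
      exact hn (by simp [h1, hc])
    · simp only [Fm.eval]
      by_contra hc
      exact hn (by simp [h1, hc])

private theorem bA_zmod2 (c : ZMod 2) (h : c ≠ 1) : c = 0 := by
  revert c; decide

private theorem bA_bd_eq_card {N : ℕ} {y : Ch D} (hy : Supp N y) (v : V D) :
    bd y v = (((star N v).filter fun u => y u = 1).card : ZMod 2) := by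
  conv_lhs => rw [chain_eq_sum hy]
  rw [bd_sum, Finset.sum_apply, Finset.card_filter, Nat.cast_sum]
  unfold star
  rw [Finset.sum_filter, Finset.sum_filter]
  refine Finset.sum_congr rfl fun e _ => ?_
  rw [bd_dl, Pi.add_apply]
  have hne : e.1 ≠ e.1 + ev e.2 := fun h => bA_ev_ne_zero e.2 (by simpa using h.symm)
  by_cases h1 : y e = 1
  · rw [if_pos h1]
    by_cases h2 : e.1 = v
    · have h3 : v ≠ e.1 + ev e.2 := by rw [← h2]; exact hne
      rw [if_pos (Or.inl h2), if_pos h1, h2, dl_self]
      rw [dl_ne (by rw [← h2]; exact hne)]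
      simp
    · by_cases h3 : e.1 + ev e.2 = v
      · rw [if_pos (Or.inr h3), if_pos h1, h3, dl_self, dl_ne (Ne.symm h2)]
        simp
      · rw [if_neg (by rintro (h | h) <;> contradiction), dl_ne (Ne.symm h2), dl_ne (Ne.symm h3)]
        simp
  · rw [if_neg h1, if_neg h1]
    simp

/-- a clause is true unless its vertex is violated -/
theorem clause_true {N : ℕ} (hN : 2 ≤ N) (u0 : E D) {p : V D × Finset (E D)}
    (hp : p ∈ clauses D N) {t : V D} {y : Ch D} (hy : Yt N t y) (ht : t ≠ p.1) :
    (clause u0 N p.1 p.2).eval (fun e => tbit (y e)) = true := by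
  unfold clauses at hp
  rw [mem_filter, mem_product] at hp
  obtain ⟨⟨hbox, _⟩, hsub, hcard⟩ := hp
  rw [bA_clause_eval hN _ hbox]
  by_contra hcon
  push Not at hcon
  apply hcard
  have h1 : bd y p.1 = dl (0 : V D) p.1 := by
    rw [hy.2, Pi.add_apply, dl_ne (Ne.symm ht), add_zero]
  rw [← h1, bA_bd_eq_card hy.1]
  congr 2
  ext u
  rw [Finset.mem_filter]
  constructor
  · intro hu
    refine ⟨hsub hu, ?_⟩
    have := (hcon u (hsub hu)).1 hu
    by_contra hne
    rw [bA_zmod2 _ hne] at this
    simp [tbit] at this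
  · rintro ⟨hu1, hu2⟩
    refine (hcon u hu1).2 ?_
    rw [hu2]
    simp [tbit]

theorem leaves_clause (u0 : E D) (N : ℕ) {v : V D} (T : Finset (E D)) :
    (clause u0 N v T).leaves ≤ 2 * (D + 3) := by
  unfold clause
  apply bA_leaves_disj_le _ rfl
  · intro f hf
    rw [List.mem_map] at hf
    obtain ⟨u, _, rfl⟩ := hf
    split_ifs <;> rfl
  · omega
  · rw [List.length_map, length_toList]
    exact bA_card_star N v

private theorem bA_mem_clauses {N : ℕ} {p : V D × Finset (E D)} :
    p ∈ clauses D N ↔ p.1 ∈ box D N ∧ p.2 ⊆ star N p.1 ∧ (p.2.card : ZMod 2) ≠ dl (0 : V D) p.1 := by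
  unfold clauses
  rw [mem_filter, mem_product, mem_powerset]
  constructor
  · rintro ⟨⟨h1, _⟩, h2, h3⟩
    exact ⟨h1, h2, h3⟩
  · rintro ⟨h1, h2, h3⟩
    exact ⟨⟨h1, h2.trans (filter_subset _ _)⟩, h2, h3⟩

private theorem bA_zero_mem_box {N : ℕ} (hN : 2 ≤ N) : (0 : V D) ∈ box D N :=
  mem_box.2 fun k => by simp only [Pi.zero_apply]; omega

private theorem bA_clauses_ne {N : ℕ} (hN : 2 ≤ N) :
    ((clauses D N).toList.map fun p => clause (0, 0) N p.1 p.2) ≠ [] := by
  intro hnil
  rw [List.map_eq_nil_iff, Finset.toList_eq_nil] at hnil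
  have : ((0, ∅) : V D × Finset (E D)) ∈ clauses D N :=
    bA_mem_clauses.2 ⟨bA_zero_mem_box hN, empty_subset _, by simp⟩
  rw [hnil] at this
  simp at this

private theorem bA_sum_dl {N : ℕ} {a : V D} (ha : a ∈ box D N) :
    ∑ v ∈ box D N, (dl a v : ZMod 2) = 1 := by
  rw [Finset.sum_eq_single a]
  · simp
  · intro b _ hb; exact dl_ne hb
  · intro h; exact absurd ha h

theorem Ts_unsat {N : ℕ} (hN : 2 ≤ N) : (Ts D N).Unsat := by
  intro x
  by_contra hne
  rw [Bool.not_eq_false] at hne
  unfold Ts at hne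
  rw [bA_conj_eval _ _ (bA_clauses_ne hN)] at hne
  let y : Ch D := fun e => if e ∈ edges D N ∧ x e = true then 1 else 0
  have hy : Supp N y := fun e he => by simp [y, he]
  have hy1 : ∀ e, e ∈ edges D N → (y e = 1 ↔ x e = true) := by
    intro e he
    by_cases h : x e = true
    · simp [y, he, h]
    · simp [y, h]
  have key : ∀ v ∈ box D N, bd y v = dl (0 : V D) v := by
    intro v hv
    rw [bA_bd_eq_card hy]
    by_contra hcard
    have hmem : ((v, (star N v).filter fun u => y u = 1) : V D × Finset (E D)) ∈ clauses D N :=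
      bA_mem_clauses.2 ⟨hv, filter_subset _ _, hcard⟩
    have hev := hne _ (List.mem_map.2 ⟨_, Finset.mem_toList.2 hmem, rfl⟩)
    rw [bA_clause_eval hN _ hv] at hev
    obtain ⟨u, hu, hn⟩ := hev
    apply hn
    rw [Finset.mem_filter, hy1 u (bA_mem_star.1 hu).1]
    exact ⟨fun hh => hh.2, fun hh => ⟨hu, hh⟩⟩
  have h1 : ∑ v ∈ box D N, bd y v = 1 := by
    rw [Finset.sum_congr rfl key, bA_sum_dl (bA_zero_mem_box hN)]
  have h2 : ∑ v ∈ box D N, bd y v = 0 := by
    conv_lhs => rw [chain_eq_sum hy]
    simp only [bd_sum, Finset.sum_apply]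
    rw [Finset.sum_comm]
    refine Finset.sum_eq_zero fun e he => ?_
    have he' := mem_edges.1 (mem_filter.1 he).1
    simp only [bd_dl, Pi.add_apply, Finset.sum_add_distrib]
    rw [bA_sum_dl he'.1, bA_sum_dl he'.2]
    decide
  rw [h1] at h2
  exact one_ne_zero h2

private theorem bA_clause_isClause {N : ℕ} (hN : 2 ≤ N) (u0 : E D) {v : V D} (hv : v ∈ box D N)
    (T : Finset (E D)) : Fm.IsClause (star N v).card (clause u0 N v T) := by
  have h2 := bA_isClause_disj (.var u0) _ (bA_list_ne hN hv T) (by
    intro f hf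
    rw [List.mem_map] at hf
    obtain ⟨u, _, rfl⟩ := hf
    split_ifs
    · exact Fm.IsClause.neg u
    · exact Fm.IsClause.pos u)
  rw [List.length_map, length_toList] at h2
  exact h2

theorem Ts_cnf {N : ℕ} (hN : 2 ≤ N) : (Ts D N).IsCNF (2 * (D + 3)) := by
  unfold Ts
  apply bA_isCNF_conj _ _ _ (bA_clauses_ne hN)
  intro f hf
  rw [List.mem_map] at hf
  obtain ⟨p, hp, rfl⟩ := hf
  rw [mem_toList, bA_mem_clauses] at hp
  exact Fm.IsCNF.clause (bA_card_star N p.1) (bA_clause_isClause hN _ hp.1 p.2)

private theorem bA_card_box (N : ℕ) : (box D N).card = N ^ (D + 3) := by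
  unfold box
  rw [Fintype.card_piFinset]
  simp

private theorem bA_card_clauses (N : ℕ) :
    (clauses D N).card ≤ N ^ (D + 3) * 2 ^ (2 * (D + 3)) := by
  have h1 : clauses D N ⊆ (box D N).biUnion
      (fun v => (star N v).powerset.image (fun T => (v, T))) := by
    intro p hp
    rw [bA_mem_clauses] at hp
    simp only [mem_biUnion, mem_image, mem_powerset]
    exact ⟨p.1, hp.1, p.2, hp.2.1, rfl⟩
  refine (card_le_card h1).trans ?_
  refine (card_biUnion_le_card_mul _ _ (2 ^ (2 * (D + 3))) ?_).trans (by rw [bA_card_box])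
  intro v _
  refine card_image_le.trans ?_
  rw [card_powerset]
  exact Nat.pow_le_pow_right (by norm_num) (bA_card_star N v)

theorem Ts_size {N : ℕ} (hN : 2 ≤ N) :
    (Ts D N).size ≤ N ^ (D + 3) * 2 ^ (2 * (D + 3)) * (4 * (D + 3) + 1) * 2 := by
  have hcs : ∀ f ∈ ((clauses D N).toList.map fun p => clause (0, 0) N p.1 p.2),
      f.size ≤ 6 * (D + 3) := by
    intro f hf
    rw [List.mem_map] at hf
    obtain ⟨p, hp, rfl⟩ := hf
    rw [mem_toList, bA_mem_clauses] at hp
    have h2 := bA_size_disj_le (.var ((0, 0) : E D)) _ (bA_list_ne hN hp.1 p.2) (by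
      intro f hf
      rw [List.mem_map] at hf
      obtain ⟨u, _, rfl⟩ := hf
      split_ifs
      · simp [Fm.size]
      · simp [Fm.size])
    rw [List.length_map, length_toList] at h2
    have h3 := bA_card_star (D := D) N p.1
    unfold clause
    omega
  have h1 := bA_size_conj_le (6 * (D + 3)) (.var ((0, 0) : E D)) _ (bA_clauses_ne hN) hcs
  rw [List.length_map, length_toList] at h1
  have h2 := bA_card_clauses (D := D) N
  have h3 : (Ts D N).size ≤ (6 * (D + 3) + 1) * (N ^ (D + 3) * 2 ^ (2 * (D + 3))) := by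
    refine le_trans ?_ (Nat.mul_le_mul_left _ h2)
    unfold Ts
    omega
  refine h3.trans ?_
  calc (6 * (D + 3) + 1) * (N ^ (D + 3) * 2 ^ (2 * (D + 3)))
      ≤ ((4 * (D + 3) + 1) * 2) * (N ^ (D + 3) * 2 ^ (2 * (D + 3))) :=
        Nat.mul_le_mul_right _ (by omega)
    _ = _ := by ring

theorem le_Ts_size {N : ℕ} (hN : 2 ≤ N) : N ^ (D + 3) ≤ (Ts D N).size := by
  have h1 := bA_le_size_conj (.var ((0, 0) : E D))
    ((clauses D N).toList.map fun p => clause (0, 0) N p.1 p.2)
  rw [List.length_map, length_toList] at h1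
  refine le_trans ?_ h1
  rw [← bA_card_box]
  have hex : ∀ v : V D, ∃ e : E D, v ∈ box D N → e ∈ star N v := by
    intro v
    by_cases hv : v ∈ box D N
    · obtain ⟨e, he⟩ := bA_star_ne hN hv
      exact ⟨e, fun _ => he⟩
    · exact ⟨(0, 0), fun h => absurd h hv⟩
  choose g hg using hex
  refine card_le_card_of_injOn (fun v => ((v, if v = 0 then ∅ else {g v}) :
    V D × Finset (E D))) ?_ ?_
  · intro v hv
    rw [mem_coe] at hv
    rw [mem_coe]
    rw [bA_mem_clauses]
    refine ⟨hv, ?_, ?_⟩
    · dsimp only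
      split_ifs
      · simp
      · simpa using hg v hv
    · dsimp only
      by_cases h0 : v = 0
      · subst h0; simp
      · rw [if_neg h0, dl_ne h0]; simp
  · intro v _ w _ hvw
    simp only [Prod.mk.injEq] at hvw
    exact hvw.1

/-- induction principle for the conjunction of the clauses -/
theorem Ts_induction {N : ℕ} (hN : 2 ≤ N) (P : Fm (E D) → Prop)
    (h1 : ∀ p ∈ clauses D N, clause (0, 0) N p.1 p.2 ∈ (Ts D N).subs →
      P (clause (0, 0) N p.1 p.2))
    (h2 : ∀ f g, Fm.and f g ∈ (Ts D N).subs → P f → P g → P (.and f g)) : P (Ts D N) := by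
  refine bA_conj_ind (.var (0, 0)) (Ts D N) P _ (bA_clauses_ne hN) (Fm.self_mem_subs _) ?_ h2
  intro f hf hs
  obtain ⟨p, hp, rfl⟩ := List.mem_map.1 hf
  exact h1 p (Finset.mem_toList.1 hp) hs

end FrS
end

section

/-!
The base level.
-/

set_option linter.unusedSectionVars false

namespace FrS

open Finset Fr56
open scoped Classical

variable {D : ℕ}

theorem val_evT (O : Ob (E D)) (x : Ch D) :
    (evT O).val x = O.eval (Sum.elim (fun e => tbit (x e)) id) := by
  induction O with
  | var v =>
    rcases v with e | b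
    · by_cases h : x e = 0
      · simp [evT, DT.val, Fm.eval, tbit, h]
      · simp [evT, DT.val, Fm.eval, tbit, h]
    · simp [evT, DT.val, Fm.eval]
  | neg f ih => simp only [evT, DT.val_map, Fm.eval, ih]
  | and f g ihf ihg => simp only [evT, DT.val_bind, DT.val_map, Fm.eval, ihf, ihg]
  | or f g ihf ihg => simp only [evT, DT.val_bind, DT.val_map, Fm.eval, ihf, ihg]

theorem depth_evT (O : Ob (E D)) : (evT O).depth ≤ vl2 O := by
  induction O with
  | var v =>
    rcases v with e | b
    · simp [evT, DT.depth, vl2]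
    · simp [evT, DT.depth, vl2]
  | neg f ih => simp only [evT, DT.depth_map, vl2]; exact ih
  | and f g ihf ihg =>
    simp only [evT, vl2]
    refine (DT.depth_bind (evT f) _ (m := (evT g).depth) fun a => ?_).trans
      (Nat.add_le_add ihf ihg)
    rw [DT.depth_map]
  | or f g ihf ihg =>
    simp only [evT, vl2]
    refine (DT.depth_bind (evT f) _ (m := (evT g).depth) fun a => ?_).trans
      (Nat.add_le_add ihf ihg)
    rw [DT.depth_map]

/-- all variables of `O` are read -/
theorem mem_reads_evT (O : Ob (E D)) (x : Ch D) (e : E D) (h : Sum.inl e ∈ O.vars) :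
    e ∈ (evT O).reads x := by
  induction O with
  | var v =>
    rcases v with e' | b
    · have h' : (Sum.inl e : E D ⊕ Bool) = Sum.inl e' := h
      have he : e = e' := Sum.inl_injective h'
      subst he
      simp [evT, DT.reads]
    · exact absurd (h : (Sum.inl e : E D ⊕ Bool) = Sum.inr b) Sum.inl_ne_inr
  | neg f ih =>
    simp only [evT, DT.reads_map]
    exact ih h
  | and f g ihf ihg =>
    simp only [evT, DT.reads_bind, DT.reads_map, List.mem_append]
    rcases h with h | h
    · exact Or.inl (ihf h)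
    · exact Or.inr (ihg h)
  | or f g ihf ihg =>
    simp only [evT, DT.reads_bind, DT.reads_map, List.mem_append]
    rcases h with h | h
    · exact Or.inl (ihf h)
    · exact Or.inr (ihg h)

theorem baseB_lab_nohole {X : Type} (C : Fm (Option X)) (h : hasHole C = false) :
    lab false C = lab true C := by
  induction C with
  | var v =>
    rcases v with _ | x
    · simp [hasHole] at h
    · rfl
  | neg f ih =>
    have := ih (by simpa [hasHole] using h)
    simp only [lab, Fm.map] at this ⊢
    rw [this]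
  | and f g ihf ihg =>
    simp only [hasHole, Bool.or_eq_false_iff] at h
    have h1 := ihf h.1
    have h2 := ihg h.2
    simp only [lab, Fm.map] at h1 h2 ⊢
    rw [h1, h2]
  | or f g ihf ihg =>
    simp only [hasHole, Bool.or_eq_false_iff] at h
    have h1 := ihf h.1
    have h2 := ihg h.2
    simp only [lab, Fm.map] at h1 h2 ⊢
    rw [h1, h2]

theorem baseB_mono_aux {X : Type} (u : X ⊕ Bool → Bool) (hu : ∀ b, u (Sum.inr b) = b)
    (C : Fm (Option X)) (hC : One C) (hh : hasHole C = true) :
    Mn (pol C) ((lab false C).eval u) ((lab true C).eval u) := by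
  induction C with
  | var v =>
    rcases v with _ | x
    · simp [Mn, pol, lab, Fm.map, Fm.eval, hu]
    · simp [hasHole] at hh
  | neg f ih =>
    have h := ih hC (by simpa [hasHole] using hh)
    simp only [pol, lab, Fm.map, Fm.eval] at h ⊢
    revert h
    cases pol f <;> simp only [Mn] <;>
      cases (Fm.map _ f).eval u <;> cases (Fm.map _ f).eval u <;> simp
  | and f g ihf ihg =>
    obtain ⟨h1, h2, h3⟩ := hC
    by_cases hf : hasHole f = true
    · have hg : hasHole g = false := by
        by_contra hcon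
        exact h3 ⟨hf, by simpa using hcon⟩
      have h := ihf h1 hf
      have e := baseB_lab_nohole g hg
      have ep : pol (Fm.and f g) = pol f := by simp [pol, hf]
      have e0 : (lab false (Fm.and f g)).eval u =
        ((lab false f).eval u && (lab false g).eval u) := rfl
      have e1 : (lab true (Fm.and f g)).eval u =
        ((lab true f).eval u && (lab true g).eval u) := rfl
      rw [ep, e0, e1, ← e]
      revert h
      cases pol f <;> simp only [Mn] <;> cases (lab false f).eval u <;>
        cases (lab true f).eval u <;> simp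
    · have hf' : hasHole f = false := by simpa using hf
      have hg : hasHole g = true := by simpa [hasHole, hf'] using hh
      have h := ihg h2 hg
      have e := baseB_lab_nohole f hf'
      have ep : pol (Fm.and f g) = pol g := by simp [pol, hf']
      have e0 : (lab false (Fm.and f g)).eval u =
        ((lab false f).eval u && (lab false g).eval u) := rfl
      have e1 : (lab true (Fm.and f g)).eval u =
        ((lab true f).eval u && (lab true g).eval u) := rfl
      rw [ep, e0, e1, ← e]
      revert h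
      cases pol g <;> simp only [Mn] <;> cases (lab false g).eval u <;>
        cases (lab true g).eval u <;> simp
  | or f g ihf ihg =>
    obtain ⟨h1, h2, h3⟩ := hC
    by_cases hf : hasHole f = true
    · have hg : hasHole g = false := by
        by_contra hcon
        exact h3 ⟨hf, by simpa using hcon⟩
      have h := ihf h1 hf
      have e := baseB_lab_nohole g hg
      have ep : pol (Fm.or f g) = pol f := by simp [pol, hf]
      have e0 : (lab false (Fm.or f g)).eval u =
        ((lab false f).eval u || (lab false g).eval u) := rfl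
      have e1 : (lab true (Fm.or f g)).eval u =
        ((lab true f).eval u || (lab true g).eval u) := rfl
      rw [ep, e0, e1, ← e]
      revert h
      cases pol f <;> simp only [Mn] <;> cases (lab false f).eval u <;>
        cases (lab true f).eval u <;> simp
    · have hf' : hasHole f = false := by simpa using hf
      have hg : hasHole g = true := by simpa [hasHole, hf'] using hh
      have h := ihg h2 hg
      have e := baseB_lab_nohole f hf'
      have ep : pol (Fm.or f g) = pol g := by simp [pol, hf']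
      have e0 : (lab false (Fm.or f g)).eval u =
        ((lab false f).eval u || (lab false g).eval u) := rfl
      have e1 : (lab true (Fm.or f g)).eval u =
        ((lab true f).eval u || (lab true g).eval u) := rfl
      rw [ep, e0, e1, ← e]
      revert h
      cases pol g <;> simp only [Mn] <;> cases (lab false g).eval u <;>
        cases (lab true g).eval u <;> simp

theorem baseB_vars_map {A B : Type} (σ : A → B) (f : Fm A) (a : A) (h : a ∈ f.vars) :
    σ a ∈ (f.map σ).vars := by
  induction f with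
  | var v =>
    have : a = v := h
    subst this
    exact rfl
  | neg f ih => exact ih h
  | and f g ihf ihg => exact h.imp ihf ihg
  | or f g ihf ihg => exact h.imp ihf ihg

/-- **base level** -/
theorem base (Obs : Set (Ob (E D))) {N k S : ℕ} (hN : 2 ≤ N) (hS : S ≤ k) :
    IsLvl Obs (ClsOf D N) N k S evT where
  const b := rfl
  depth O _ h := (depth_evT O).trans (h.trans hS)
  neg P _ _ t _ y _ _ _ := by rw [val_evT, val_evT, Fm.eval]
  and P Q _ _ t _ y _ _ _ _ := by rw [val_evT, val_evT, val_evT, Fm.eval]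
  or P Q _ _ t _ y _ _ _ _ := by rw [val_evT, val_evT, val_evT, Fm.eval]
  mono C hC hh _ _ t _ y _ _ := by
    rw [val_evT, val_evT]
    exact baseB_mono_aux _ (fun b => rfl) C hC hh
  cls O hO t ht y hy hfar := by
    obtain ⟨p, hp, rfl⟩ := hO
    have hpb : p.1 ∈ box D N := (mem_product.1 (mem_filter.1 hp).1).1
    obtain ⟨e, he, hev⟩ := clause_vars hN (0, 0) hpb p.2
    have hmem := mem_reads_evT ((clause (0, 0) N p.1 p.2).map Sum.inl) y e (baseB_vars_map _ _ _ he)
    have hf := hfar e hmem
    have hne : t ≠ p.1 := by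
      rintro rfl
      rcases hev with h | h
      · exact hf.1 (by rw [h])
      · exact hf.2 (by rw [h])
    rw [val_evT, Fm.eval_map]
    exact clause_true hN (0, 0) hp hy hne

end FrS
end

section

/-!
A level interpretation of all lines of a derivation contradicts soundness.
-/

set_option linter.unusedSectionVars false

namespace FrS

open Finset Fr56
open scoped Classical

variable {D : ℕ}

/-- extension inside a level: the violated vertex can be moved away from the reads of a tree -/
theorem extend_level {n : ℕ} {α : Type} (U : Finset (V D)) (A : DT (E D) α) {M : ℕ}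
    (hA : A.depth ≤ M) (hc : U.card + 3 * M + 3 < n) {t : V D} (ht : t ∈ box D n)
    (hU : Off U (t 0)) {y : Ch D} (hy : Yt n t y) :
    ∃ t' ∈ box D n, ∃ y', Yt n t' y' ∧ Agr U y' y ∧ Off U (t' 0) ∧ Far (A.reads y') (t' 0) := by
  obtain ⟨t', ht', y', hy', hag, hoff, htl⟩ :=
    clean_tree (Rst.idr D n) U A hA hc ht hU hy
  refine ⟨t', ht', y', hy', hag, hoff, ?_⟩
  have hx : (Rst.idr D n).x y' = y' := Rst.idr_x (show Supp n y' from hy'.1)
  rw [hx] at htl
  intro e he
  have key : ∀ h : ℤ, (h = e.1 0 ∨ h = e.1 0 + 1) → t' 0 ≠ h := by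
    intro h hh hcon
    apply htl
    refine ⟨e, he, ?_⟩
    have h1 : ((Rst.idr D n).T : ℤ) = 1 := rfl
    unfold tch
    rw [h1, Int.ediv_one, hcon]
    rcases hh with rfl | rfl <;> constructor <;> omega
  refine ⟨fun h => key _ (Or.inl rfl) h.symm, fun h => key ((e.1 + ev e.2) 0) ?_ h.symm⟩
  rw [Pi.add_apply, ev_apply]
  split_ifs
  · exact Or.inr rfl
  · exact Or.inl (add_zero _)

/-- the number of variable leaves of an object without constants -/
theorem semL_vl2 {X : Type} (f : Fm X) : vl2 (f.map (Sum.inl : X → X ⊕ Bool)) = f.leaves := by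
  induction f with
  | var x => rfl
  | neg f ih => exact ih
  | and f g ihf ihg =>
    show vl2 (f.map Sum.inl) + vl2 (g.map Sum.inl) = f.leaves + g.leaves
    rw [ihf, ihg]
  | or f g ihf ihg =>
    show vl2 (f.map Sum.inl) + vl2 (g.map Sum.inl) = f.leaves + g.leaves
    rw [ihf, ihg]

/-- endpoints of the reads -/
noncomputable def semL_ends (L : List (E D)) : Finset (V D) :=
  (L.map fun e => e.1).toFinset ∪ (L.map fun e => e.1 + ev e.2).toFinset

theorem semL_card_ends (L : List (E D)) : (semL_ends L).card ≤ 2 * L.length := by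
  unfold semL_ends
  have h1 := Finset.card_union_le (L.map fun e => e.1).toFinset
    (L.map fun e => e.1 + ev e.2).toFinset
  have h2 := List.toFinset_card_le (L.map fun e => e.1)
  have h3 := List.toFinset_card_le (L.map fun e => e.1 + ev e.2)
  rw [List.length_map] at h2 h3
  omega

theorem semL_mem_ends (L : List (E D)) (v : V D) :
    v ∈ semL_ends L ↔ ∃ e ∈ L, e.1 = v ∨ e.1 + ev e.2 = v := by
  unfold semL_ends
  rw [Finset.mem_union, List.mem_toFinset, List.mem_toFinset, List.mem_map, List.mem_map]
  constructor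
  · rintro (⟨e, he, rfl⟩ | ⟨e, he, rfl⟩)
    · exact ⟨e, he, Or.inl rfl⟩
    · exact ⟨e, he, Or.inr rfl⟩
  · rintro ⟨e, he, rfl | rfl⟩
    · exact Or.inl ⟨e, he, rfl⟩
    · exact Or.inr ⟨e, he, rfl⟩

/-- reads with endpoints in `U` are far from a hyperplane without points of `U` -/
theorem semL_far {U : Finset (V D)} {L : List (E D)} {h : ℤ} (hU : Off U h)
    (hL : ∀ e ∈ L, e.1 ∈ U ∧ e.1 + ev e.2 ∈ U) : Far L h :=
  fun e he => ⟨hU _ (hL e he).1, hU _ (hL e he).2⟩

/-- the local semantics given by a level interpretation -/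
noncomputable def semL {Obs : Set (Ob (E D))} {N n k S C : ℕ}
    {I : Ob (E D) → DT (E D) Bool} (hI : IsLvl Obs (ClsOf D N) n k S I)
    (hn : C * (2 * k) + 3 * k + 3 < n) : Sem (E D) (V D) (Ch D) where
  Agree := Agr
  Ok U y := ∃ t ∈ box D n, Yt n t y ∧ Off U (t 0)
  Quiet f U y := (f.map Sum.inl ∈ Obs ∧ f.leaves ≤ S) ∧
    ∀ e ∈ (I (f.map Sum.inl)).reads y, e.1 ∈ U ∧ e.1 + ev e.2 ∈ U
  val f _ y := (I (f.map Sum.inl)).val y
  cap := C * (2 * k)
  w := 2 * k
  good := {f | f.map Sum.inl ∈ Obs ∧ f.leaves ≤ S}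
  agree_refl := fun _ _ _ _ => rfl
  agree_trans := fun _ _ _ _ h h' e he => (h e he).trans (h' e he)
  agree_mono := fun _ _ _ _ h h' e he => h' e (he.mono h)
  ok_mono := by
    rintro U U' y h ⟨t, ht, hy, ho⟩
    exact ⟨t, ht, hy, fun w hw => ho w (h hw)⟩
  ok_empty := by
    have h0 : (0 : V D) ∈ box D n := by
      rw [mem_box]
      intro k
      simp only [Pi.zero_apply, le_refl, true_and]
      omega
    obtain ⟨y, hy⟩ := exists_Yt h0
    exact ⟨y, 0, h0, hy, fun w hw => absurd hw (Finset.notMem_empty w)⟩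
  mono := by
    rintro f U U' y y' hU _ ⟨hf, hq⟩ hag _
    have h1 := DT.congr (I (f.map Sum.inl)) (x := y) (x' := y') (fun e he =>
      (hag e (Or.inl (cl_of_mem (hq e he).1))).symm)
    refine ⟨⟨hf, ?_⟩, h1.2⟩
    rw [h1.1]
    exact fun e he => ⟨hU (hq e he).1, hU (hq e he).2⟩
  val_neg := by
    rintro f U y _ ⟨t, ht, hy, ho⟩ ⟨hf, hq⟩ ⟨hn, hqn⟩
    exact hI.neg (f.map Sum.inl) hn.1 (by rw [semL_vl2]; exact hf.2) t ht y hy (semL_far ho hq)
      (semL_far ho hqn)
  val_and := by
    rintro f g U y _ ⟨t, ht, hy, ho⟩ ⟨hf, hqf⟩ ⟨hg, hqg⟩ ⟨hn, hqn⟩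
    exact hI.and (f.map Sum.inl) (g.map Sum.inl) hn.1 (by rw [semL_vl2, semL_vl2]; exact hn.2)
      t ht y hy (semL_far ho hqf) (semL_far ho hqg) (semL_far ho hqn)
  val_or := by
    rintro f g U y _ ⟨t, ht, hy, ho⟩ ⟨hf, hqf⟩ ⟨hg, hqg⟩ ⟨hn, hqn⟩
    exact hI.or (f.map Sum.inl) (g.map Sum.inl) hn.1 (by rw [semL_vl2, semL_vl2]; exact hn.2)
      t ht y hy (semL_far ho hqf) (semL_far ho hqg) (semL_far ho hqn)
  extend := by
    rintro f hf U y hc ⟨t, ht, hy, ho⟩
    have hd : (I (f.map Sum.inl)).depth ≤ k := hI.depth _ hf.1 (by rw [semL_vl2]; exact hf.2)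
    obtain ⟨t', ht', y', hy', hag, hoff, hfar⟩ :=
      extend_level U (I (f.map Sum.inl)) hd (by omega) ht ho hy
    refine ⟨semL_ends ((I (f.map Sum.inl)).reads y'), y', ?_, ⟨hf, ?_⟩, ?_, t', ht', hy', ?_⟩
    · have h1 := semL_card_ends ((I (f.map Sum.inl)).reads y')
      have h2 := DT.length_reads (I (f.map Sum.inl)) y'
      omega
    · intro e he
      rw [semL_mem_ends, semL_mem_ends]
      exact ⟨⟨e, he, Or.inl rfl⟩, ⟨e, he, Or.inr rfl⟩⟩
    · exact fun e he => (hag e he).symm
    · intro w hw
      rcases (@Finset.mem_union (V D) (fun a b => Classical.propDecidable (a = b)) _ _ _).1 hw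
        with h | h
      · exact hoff w h
      · obtain ⟨e, he, h3⟩ := (semL_mem_ends _ _).1 h
        rcases h3 with h3 | h3
        · rw [← h3]; exact (hfar e he).1
        · rw [← h3]; exact (hfar e he).2

/-- **no refutation** all of whose lines are interpreted at one level -/
theorem no_refutation_level {Obs : Set (Ob (E D))} {N n k S C : ℕ} (hN : 2 ≤ N)
    {I : Ob (E D) → DT (E D) Bool} (hI : IsLvl Obs (ClsOf D N) n k S I)
    (hk : 1 ≤ k) (R : List Rule) (hR : ∀ r ∈ R, r.Sound) (b : Fm ℕ) (hb : b.Unsat)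
    (hC : ∀ r ∈ R, r.nodes + 1 ≤ C) (hCb : b.size + 1 ≤ C) (hC4 : 4 ≤ C)
    (hn : C * (2 * k) + 3 * k + 3 < n) (τ : ℕ → E D) (π : List (Fm (E D)))
    (hπ : IsDerivation R (Ts D N) π) (hlast : b.map τ ∈ π)
    (hobs : ∀ A ∈ Ts D N :: π, ∀ B ∈ A.subs, B.map Sum.inl ∈ Obs ∧ B.leaves ≤ S) : False := by
  have hcap4 : 4 * (2 * k) ≤ C * (2 * k) := Nat.mul_le_mul_right _ hC4
  have hgF : ∀ B ∈ (Ts D N).subs, B.map Sum.inl ∈ Obs ∧ B.leaves ≤ S :=
    hobs _ List.mem_cons_self
  have hF : (semL hI hn).True' (Ts D N) := by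
    refine Ts_induction hN (fun f => (semL hI hn).True' f) ?_ ?_
    · rintro p hp _ U y _ ⟨t, ht, hy, ho⟩ ⟨_, hq⟩
      exact hI.cls _ ⟨p, hp, rfl⟩ t ht y hy (semL_far ho hq)
    · intro f g hfg h1 h2
      have m1 : f ∈ (Fm.and f g).subs := by
        simp only [Fm.subs, List.mem_cons, List.mem_append]
        exact Or.inr (Or.inl (Fm.self_mem_subs _))
      have m2 : g ∈ (Fm.and f g).subs := by
        simp only [Fm.subs, List.mem_cons, List.mem_append]
        exact Or.inr (Or.inr (Fm.self_mem_subs _))
      exact (semL hI hn).and_true hcap4 f g (hgF _ (Fm.subs_trans m1 hfg))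
        (hgF _ (Fm.subs_trans m2 hfg)) (hgF _ hfg) h1 h2
  exact (semL hI hn).no_refutation R hR (Ts D N) hF b hb τ π hπ hlast
    (fun A hA B hB => hobs A (List.mem_cons_of_mem _ hA) B hB)
    (fun r hr => Nat.mul_le_mul_right _ (hC r hr)) (Nat.mul_le_mul_right _ hCb)

end FrS
end
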