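import Mathlib

/-!
Decision trees.
-/

set_option linter.unusedSectionVars false

namespace FrS

open Finset
open scoped Classical

/-- decision trees reading bits indexed by `ε`, with labels in `α` -/
inductive DT (ε α : Type) : Type where
  | leaf (a : α) : DT ε α
  | node (e : ε) (l r : DT ε α) : DT ε α

namespace DT

variable {ε α β : Type}

/-- the label that is reached -/
def val : DT ε α → (ε → ZMod 2) → α
  | leaf a, _ => a
  | node e l r, x => if x e = 0 then val l x else val r x

/-- the bits that are read, in this order -/
def reads : DT ε α → (ε → ZMod 2) → List ε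
  | leaf _, _ => []
  | node e l r, x => e :: (if x e = 0 then reads l x else reads r x)

/-- depth -/
def depth : DT ε α → ℕ
  | leaf _ => 0
  | node _ l r => max (depth l) (depth r) + 1

/-- sequential composition -/
def bind : DT ε α → (α → DT ε β) → DT ε β
  | leaf a, k => k a
  | node e l r, k => node e (bind l k) (bind r k)

/-- change of labels -/
def map (f : α → β) : DT ε α → DT ε β
  | leaf a => leaf (f a)
  | node e l r => node e (map f l) (map f r)

/-- read all bits of a list and return them (`0` outside the list) -/
noncomputable def ask : List ε → DT ε (ε → ZMod 2)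
  | [] => leaf 0
  | e :: l => node e (map (fun f => Function.update f e 0) (ask l))
      (map (fun f => Function.update f e 1) (ask l))

/-- run all trees of a list -/
def seq : List (DT ε α) → DT ε (List α)
  | [] => leaf []
  | A :: l => bind A fun a => map (fun as => a :: as) (seq l)

/-- is some bit with `P` read? -/
noncomputable def hit (P : ε → Prop) : DT ε α → DT ε Bool
  | leaf _ => leaf false
  | node e l r => if P e then node e (leaf true) (leaf true) else node e (hit P l) (hit P r)

theorem length_reads (A : DT ε α) (x : ε → ZMod 2) : (A.reads x).length ≤ A.depth := by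
  induction A with
  | leaf a => simp [reads]
  | node e l r hl hr =>
    simp only [reads, depth, List.length_cons]
    split_ifs
    · exact Nat.succ_le_succ (hl.trans (le_max_left _ _))
    · exact Nat.succ_le_succ (hr.trans (le_max_right _ _))

/-- the run depends only on the bits that are read -/
theorem congr (A : DT ε α) {x x' : ε → ZMod 2} (h : ∀ e ∈ A.reads x, x' e = x e) :
    A.reads x' = A.reads x ∧ A.val x' = A.val x := by
  induction A with
  | leaf a => exact ⟨rfl, rfl⟩
  | node e l r hl hr =>
    have he : x' e = x e := h e (by simp [reads])
    by_cases h0 : x e = 0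
    · have h0' : x' e = 0 := by rw [he, h0]
      obtain ⟨h1, h2⟩ := hl (fun e' he' => h e' (by
        simp only [reads, if_pos h0, List.mem_cons]; exact Or.inr he'))
      simp only [reads, val, if_pos h0, if_pos h0', h1, h2, and_self]
    · have h0' : ¬ x' e = 0 := by rw [he]; exact h0
      obtain ⟨h1, h2⟩ := hr (fun e' he' => h e' (by
        simp only [reads, if_neg h0, List.mem_cons]; exact Or.inr he'))
      simp only [reads, val, if_neg h0, if_neg h0', h1, h2, and_self]

theorem val_bind (A : DT ε α) (k : α → DT ε β) (x : ε → ZMod 2) :
    (A.bind k).val x = (k (A.val x)).val x := by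
  induction A with
  | leaf a => rfl
  | node e l r hl hr =>
    simp only [bind, val]
    split_ifs
    · exact hl
    · exact hr

theorem reads_bind (A : DT ε α) (k : α → DT ε β) (x : ε → ZMod 2) :
    (A.bind k).reads x = A.reads x ++ (k (A.val x)).reads x := by
  induction A with
  | leaf a => simp [bind, reads, val]
  | node e l r hl hr =>
    simp only [bind, reads, val]
    split_ifs
    · rw [hl]; simp
    · rw [hr]; simp

theorem depth_bind (A : DT ε α) (k : α → DT ε β) {m : ℕ} (h : ∀ a, (k a).depth ≤ m) :
    (A.bind k).depth ≤ A.depth + m := by
  induction A with
  | leaf a => simpa [bind, depth] using h a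
  | node e l r hl hr =>
    simp only [bind, depth]
    have h1 := le_max_left l.depth r.depth
    have h2 := le_max_right l.depth r.depth
    have h3 : max (l.bind k).depth (r.bind k).depth ≤ max l.depth r.depth + m :=
      max_le (by omega) (by omega)
    omega

theorem val_map (f : α → β) (A : DT ε α) (x : ε → ZMod 2) : (A.map f).val x = f (A.val x) := by
  induction A with
  | leaf a => rfl
  | node e l r hl hr =>
    simp only [map, val]
    split_ifs
    · exact hl
    · exact hr

theorem reads_map (f : α → β) (A : DT ε α) (x : ε → ZMod 2) :
    (A.map f).reads x = A.reads x := by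
  induction A with
  | leaf a => rfl
  | node e l r hl hr => simp only [map, reads, hl, hr]

theorem depth_map (f : α → β) (A : DT ε α) : (A.map f).depth = A.depth := by
  induction A with
  | leaf a => rfl
  | node e l r hl hr => simp only [map, depth, hl, hr]

theorem val_ask (l : List ε) (x : ε → ZMod 2) :
    (ask l).val x = fun e => if e ∈ l then x e else 0 := by
  induction l with
  | nil => funext e; simp [ask, val]
  | cons a l ih =>
    funext e
    have h2 : ∀ b : ZMod 2, b ≠ 0 → b = 1 := by decide
    by_cases h0 : x a = 0
    · simp only [ask, val, if_pos h0, val_map, ih]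
      by_cases hea : e = a
      · subst hea; simp [h0]
      · simp [hea]
    · simp only [ask, val, if_neg h0, val_map, ih]
      by_cases hea : e = a
      · subst hea; simp [h2 _ h0]
      · simp [hea]

theorem reads_ask (l : List ε) (x : ε → ZMod 2) : (ask l).reads x = l := by
  induction l with
  | nil => rfl
  | cons a l ih =>
    simp only [ask, reads, reads_map, ih, ite_self]

theorem depth_ask (l : List ε) : (ask l).depth = l.length := by
  induction l with
  | nil => rfl
  | cons a l ih =>
    simp only [ask, depth, depth_map, ih, max_self, List.length_cons]

theorem val_seq (l : List (DT ε α)) (x : ε → ZMod 2) :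
    (seq l).val x = l.map fun A => A.val x := by
  induction l with
  | nil => rfl
  | cons A l ih => simp only [seq, val_bind, val_map, ih, List.map_cons]

theorem reads_seq (l : List (DT ε α)) (x : ε → ZMod 2) :
    (seq l).reads x = l.flatMap fun A => A.reads x := by
  induction l with
  | nil => rfl
  | cons A l ih => simp only [seq, reads_bind, reads_map, ih, List.flatMap_cons]

theorem depth_seq (l : List (DT ε α)) {k : ℕ} (h : ∀ A ∈ l, A.depth ≤ k) :
    (seq l).depth ≤ l.length * k := by
  induction l with
  | nil => simp [seq, depth]
  | cons A l ih =>
    have h1 := h A (by simp)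
    have h2 := ih fun B hB => h B (by simp [hB])
    have h3 : (seq (A :: l)).depth ≤ A.depth + (seq l).depth := by
      simp only [seq]
      exact depth_bind _ _ fun a => (depth_map _ _).le
    rw [List.length_cons, add_mul, one_mul]
    omega

theorem val_hit (P : ε → Prop) (A : DT ε α) (x : ε → ZMod 2) :
    (A.hit P).val x = true ↔ ∃ e ∈ A.reads x, P e := by
  induction A with
  | leaf a => simp [hit, val, reads]
  | node e l r hl hr =>
    by_cases hP : P e
    · simp only [hit, if_pos hP, val, ite_self, true_iff]
      exact ⟨e, by simp [reads], hP⟩
    · simp only [hit, if_neg hP, val, reads]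
      by_cases h0 : x e = 0
      · simp only [if_pos h0, hl, List.mem_cons, exists_eq_or_imp, hP, false_or]
      · simp only [if_neg h0, hr, List.mem_cons, exists_eq_or_imp, hP, false_or]

theorem depth_hit (P : ε → Prop) (A : DT ε α) : (A.hit P).depth ≤ A.depth := by
  induction A with
  | leaf a => simp [hit, depth]
  | node e l r hl hr =>
    by_cases hP : P e
    · simp only [hit, if_pos hP, depth]
      omega
    · simp only [hit, if_neg hP, depth]
      exact Nat.succ_le_succ (max_le_max hl hr)

end DT

end FrS
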