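import Mathlib

/-!
Theorem S (namespace `FrS`): geometry of the grid `{0,…,n-1}^(D+3)`.
Vertices are points of `ℤ^(D+3)`, the edge `(v, i)` joins `v` and `v + ev i`, chains are functions
from edges to `ZMod 2`.
-/

set_option linter.unusedSectionVars false

namespace FrS

open Finset
open scoped Classical

/-- vertices of the infinite grid -/
abbrev V (D : ℕ) : Type := Fin (D + 3) → ℤ
/-- edges: `(v, i)` joins `v` and `v + ev i` -/
abbrev E (D : ℕ) : Type := V D × Fin (D + 3)
/-- chains -/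
abbrev Ch (D : ℕ) : Type := E D → ZMod 2
/-- squares: `(v, i, j)` has the corners `v, v + ev i, v + ev j, v + ev i + ev j` -/
abbrev Sq (D : ℕ) : Type := V D × Fin (D + 3) × Fin (D + 3)

variable {D : ℕ}

/-- unit vectors -/
def ev (i : Fin (D + 3)) : V D := Pi.single i 1

/-- point mass modulo 2 -/
noncomputable def dl {A : Type} (a : A) : A → ZMod 2 := fun b => if b = a then 1 else 0

/-- the boundary of a chain -/
def bd (y : Ch D) : V D → ZMod 2 := fun v => ∑ i, (y (v, i) + y (v - ev i, i))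

/-- the box `{0,…,n-1}^(D+3)` -/
noncomputable def box (D n : ℕ) : Finset (V D) := Fintype.piFinset fun _ => Finset.Ico (0 : ℤ) n

/-- the edges of the box -/
noncomputable def edges (D n : ℕ) : Finset (E D) :=
  (box D n ×ˢ univ).filter fun e => e.1 + ev e.2 ∈ box D n

/-- `y` is supported in the box -/
def Supp (n : ℕ) (y : Ch D) : Prop := ∀ e, e ∉ edges D n → y e = 0

/-- the chains that violate the charge `dl 0` exactly at `t` (for `t = 0`: the closed chains) -/
def Yt (n : ℕ) (t : V D) (y : Ch D) : Prop := Supp n y ∧ bd y = dl 0 + dl t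

/-- the chain of a square -/
noncomputable def sqc (F : Sq D) : Ch D :=
  dl (F.1, F.2.1) + dl (F.1, F.2.2) + dl (F.1 + ev F.2.1, F.2.2) + dl (F.1 + ev F.2.2, F.2.1)

/-- the corners of a square -/
noncomputable def verts (F : Sq D) : Finset (V D) :=
  {F.1, F.1 + ev F.2.1, F.1 + ev F.2.2, F.1 + ev F.2.1 + ev F.2.2}

/-- the squares of the box -/
noncomputable def sqs (D n : ℕ) : Finset (Sq D) :=
  (box D n ×ˢ univ).filter fun F => F.2.1 < F.2.2 ∧ verts F ⊆ box D n

/-- the product closure of `W` -/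
def Cl (W : Finset (V D)) (v : V D) : Prop := ∀ k, ∃ w ∈ W, v k = w k

/-- the edges that meet the product closure of `W` -/
def Inc (W : Finset (V D)) (e : E D) : Prop := Cl W e.1 ∨ Cl W (e.1 + ev e.2)

/-- the square has no corner in the product closure of `W` -/
def Av (W : Finset (V D)) (F : Sq D) : Prop := ∀ v ∈ verts F, ¬ Cl W v

/-- the edges of the box that meet the product closure of `W` -/
noncomputable def incf (n : ℕ) (W : Finset (V D)) : Finset (E D) := (edges D n).filter (Inc W)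

/-- the finite set of chains supported in the box -/
noncomputable def chains (D n : ℕ) : Finset (Ch D) :=
  (edges D n).powerset.image fun S => ∑ e ∈ S, dl e

/-- `Yt n t` as a finite set -/
noncomputable def YF (n : ℕ) (t : V D) : Finset (Ch D) := (chains D n).filter (Yt n t)

/-- the closed chains -/
noncomputable def cyc (D n : ℕ) : Finset (Ch D) := (chains D n).filter fun y => bd y = 0

/-- the point `(h, 0, …, 0)` -/
def pt (D : ℕ) (h : ℤ) : V D := Pi.single 0 h

/-! ### basic facts -/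

theorem mem_box {n : ℕ} {v : V D} : v ∈ box D n ↔ ∀ k, 0 ≤ v k ∧ v k < n := by
  simp [box, Fintype.mem_piFinset]

theorem mem_edges {n : ℕ} {e : E D} : e ∈ edges D n ↔ e.1 ∈ box D n ∧ e.1 + ev e.2 ∈ box D n := by
  simp [edges]

theorem mem_sqs {n : ℕ} {F : Sq D} :
    F ∈ sqs D n ↔ F.2.1 < F.2.2 ∧ verts F ⊆ box D n := by
  simp only [sqs, mem_filter, mem_product, mem_univ, and_true]
  refine ⟨fun h => h.2, fun h => ⟨h.2 (by simp [verts]), h⟩⟩

@[simp] theorem ev_same (i : Fin (D + 3)) : (ev i : V D) i = 1 := by simp [ev]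

theorem ev_ne {i j : Fin (D + 3)} (h : j ≠ i) : (ev i : V D) j = 0 := by simp [ev, h]

theorem ev_apply (i j : Fin (D + 3)) : (ev i : V D) j = if j = i then 1 else 0 := by
  by_cases h : j = i
  · subst h; simp
  · simp [ev, h]

@[simp] theorem dl_self {A : Type} (a : A) : dl a a = 1 := by simp [dl]

theorem dl_ne {A : Type} {a b : A} (h : b ≠ a) : dl a b = 0 := by simp [dl, h]

theorem add_self_fun {A : Type} (f : A → ZMod 2) : f + f = 0 := by
  funext a
  exact CharTwo.add_self_eq_zero (f a)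

theorem bd_zero : bd (0 : Ch D) = 0 := by
  funext v; simp [bd]

theorem bd_add (y z : Ch D) : bd (y + z) = bd y + bd z := by
  funext v
  simp only [bd, Pi.add_apply, ← Finset.sum_add_distrib]
  exact Finset.sum_congr rfl fun i _ => by ring

theorem bd_sum {ι : Type} (s : Finset ι) (f : ι → Ch D) :
    bd (∑ i ∈ s, f i) = ∑ i ∈ s, bd (f i) := by
  induction s using Finset.induction_on with
  | empty => simp [bd_zero]
  | insert a s ha ih => rw [Finset.sum_insert ha, Finset.sum_insert ha, bd_add, ih]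

theorem bd_dl (e : E D) : bd (dl e : Ch D) = dl e.1 + dl (e.1 + ev e.2) := by
  funext v
  obtain ⟨w, j⟩ := e
  simp only [bd, Pi.add_apply, Finset.sum_add_distrib]
  congr 1
  · rw [Finset.sum_eq_single j]
    · simp [dl, Prod.ext_iff]
    · intro i _ hi; simp [dl, Prod.ext_iff, hi]
    · simp
  · rw [Finset.sum_eq_single j]
    · simp [dl, Prod.ext_iff, sub_eq_iff_eq_add]
    · intro i _ hi; simp [dl, Prod.ext_iff, hi]
    · simp

theorem Supp.zero {n : ℕ} : Supp n (0 : Ch D) := fun _ _ => rfl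

theorem Supp.add {n : ℕ} {y z : Ch D} (hy : Supp n y) (hz : Supp n z) : Supp n (y + z) := by
  intro e he; simp [hy e he, hz e he]

theorem Supp.sum {n : ℕ} {ι : Type} {s : Finset ι} {f : ι → Ch D} (h : ∀ i ∈ s, Supp n (f i)) :
    Supp n (∑ i ∈ s, f i) := by
  intro e he
  rw [Finset.sum_apply]
  exact Finset.sum_eq_zero fun i hi => h i hi e he

theorem supp_dl {n : ℕ} {e : E D} (he : e ∈ edges D n) : Supp n (dl e) := by
  intro e' he'
  exact dl_ne fun h => he' (h ▸ he)

theorem chain_eq_sum {n : ℕ} {y : Ch D} (hy : Supp n y) :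
    y = ∑ e ∈ (edges D n).filter (fun e => y e = 1), dl e := by
  funext e
  rw [Finset.sum_apply]
  by_cases h : y e = 1
  · rw [Finset.sum_eq_single e]
    · simp [h]
    · intro b _ hb; exact dl_ne (Ne.symm hb)
    · intro h'
      exfalso
      apply h'
      rw [mem_filter]
      refine ⟨?_, h⟩
      by_contra h2
      rw [hy e h2] at h
      exact zero_ne_one h
  · have h0 : y e = 0 := by
      have : ∀ a : ZMod 2, a ≠ 1 → a = 0 := by decide
      exact this _ h
    rw [h0, Finset.sum_eq_zero]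
    intro b hb
    refine dl_ne fun h' => ?_
    rw [mem_filter] at hb
    exact h (h' ▸ hb.2)

theorem mem_chains {n : ℕ} {y : Ch D} : y ∈ chains D n ↔ Supp n y := by
  constructor
  · intro h
    obtain ⟨S, hS, rfl⟩ := mem_image.1 h
    exact Supp.sum fun e he => supp_dl (mem_powerset.1 hS he)
  · intro h
    rw [chains, mem_image]
    exact ⟨_, mem_powerset.2 (filter_subset _ _), (chain_eq_sum h).symm⟩

theorem mem_YF {n : ℕ} {t : V D} {y : Ch D} : y ∈ YF n t ↔ Yt n t y := by
  rw [YF, mem_filter, mem_chains]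
  exact ⟨fun h => h.2, fun h => ⟨h.1, h⟩⟩

theorem mem_cyc {n : ℕ} {y : Ch D} : y ∈ cyc D n ↔ Supp n y ∧ bd y = 0 := by
  rw [cyc, mem_filter, mem_chains]

theorem bd_sqc (F : Sq D) : bd (sqc F) = 0 := by
  obtain ⟨v, i, j⟩ := F
  simp only [sqc, bd_add, bd_dl]
  have h : v + ev j + ev i = v + ev i + ev j := by abel
  rw [h]
  set a := (dl v : V D → ZMod 2)
  set b := (dl (v + ev i) : V D → ZMod 2)
  set c := (dl (v + ev j) : V D → ZMod 2)
  set e := (dl (v + ev i + ev j) : V D → ZMod 2)
  have : a + b + (a + c) + (b + e) + (c + e) = (a + a) + (b + b) + (c + c) + (e + e) := by abel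
  rw [this]
  simp only [add_self_fun, add_zero]

theorem supp_sqc {n : ℕ} {F : Sq D} (hF : F ∈ sqs D n) : Supp n (sqc F) := by
  obtain ⟨v, i, j⟩ := F
  rw [mem_sqs] at hF
  have hv := hF.2
  simp only [verts, Finset.insert_subset_iff, Finset.singleton_subset_iff] at hv
  obtain ⟨h1, h2, h3, h4⟩ := hv
  have h5 : v + ev j + ev i ∈ box D n := by
    have : v + ev j + ev i = v + ev i + ev j := by abel
    rw [this]; exact h4
  unfold sqc
  refine ((Supp.add (supp_dl ?_) (supp_dl ?_)).add (supp_dl ?_)).add (supp_dl ?_) <;>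
    rw [mem_edges] <;> refine ⟨?_, ?_⟩ <;> assumption

theorem Yt.add_closed {n : ℕ} {t : V D} {y z : Ch D} (hy : Yt n t y) (hz : Supp n z)
    (hbz : bd z = 0) : Yt n t (y + z) :=
  ⟨hy.1.add hz, by rw [bd_add, hbz, add_zero, hy.2]⟩

theorem Yt.add_sq {n : ℕ} {t : V D} {y : Ch D} (hy : Yt n t y) {F : Sq D} (hF : F ∈ sqs D n) :
    Yt n t (y + sqc F) := hy.add_closed (supp_sqc hF) (bd_sqc F)

theorem Yt.add_sum {n : ℕ} {t : V D} {y : Ch D} (hy : Yt n t y) {S : Finset (Sq D)}
    (hS : S ⊆ sqs D n) : Yt n t (y + ∑ F ∈ S, sqc F) :=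
  hy.add_closed (Supp.sum fun F hF => supp_sqc (hS hF)) (by
    rw [bd_sum]; exact Finset.sum_eq_zero fun F _ => bd_sqc F)

theorem Yt.sub_closed {n : ℕ} {t : V D} {y z : Ch D} (hy : Yt n t y) (hz : Yt n t z) :
    Supp n (y + z) ∧ bd (y + z) = 0 :=
  ⟨hy.1.add hz.1, by rw [bd_add, hy.2, hz.2, add_self_fun]⟩

theorem Cl.mono {W W' : Finset (V D)} (h : W ⊆ W') {v : V D} (hv : Cl W v) : Cl W' v :=
  fun k => let ⟨w, hw, e⟩ := hv k; ⟨w, h hw, e⟩

theorem Inc.mono {W W' : Finset (V D)} (h : W ⊆ W') {e : E D} (he : Inc W e) : Inc W' e :=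
  he.imp (Cl.mono h) (Cl.mono h)

theorem Av.anti {W W' : Finset (V D)} (h : W ⊆ W') {F : Sq D} (hF : Av W' F) : Av W F :=
  fun v hv hc => hF v hv (hc.mono h)

theorem cl_of_mem {W : Finset (V D)} {v : V D} (h : v ∈ W) : Cl W v := fun _ => ⟨v, h, rfl⟩

theorem not_cl_empty {v : V D} : ¬ Cl (∅ : Finset (V D)) v := by
  intro h; obtain ⟨w, hw, _⟩ := h 0; simp at hw

theorem not_inc_empty {e : E D} : ¬ Inc (∅ : Finset (V D)) e := by
  rintro (h | h) <;> exact not_cl_empty h

/-- a square avoiding the closure of `W` has no edge that meets it -/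
theorem sqc_eq_zero_of_av {W : Finset (V D)} {F : Sq D} (hF : Av W F) {e : E D} (he : Inc W e) :
    sqc F e = 0 := by
  obtain ⟨v, i, j⟩ := F
  have h1 : ¬ Cl W v := hF _ (by simp [verts])
  have h2 : ¬ Cl W (v + ev i) := hF _ (by simp [verts])
  have h3 : ¬ Cl W (v + ev j) := hF _ (by simp [verts])
  have h4 : ¬ Cl W (v + ev i + ev j) := hF _ (by simp [verts])
  have h5 : ¬ Cl W (v + ev j + ev i) := by
    have : v + ev j + ev i = v + ev i + ev j := by abel
    rw [this]; exact h4
  have key : ∀ e' : E D, ¬ Cl W e'.1 → ¬ Cl W (e'.1 + ev e'.2) → dl e' e = 0 := by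
    intro e' ha hb
    refine dl_ne fun h => ?_
    subst h
    exact he.elim ha hb
  simp only [sqc, Pi.add_apply]
  rw [key (v, i) h1 h2, key (v, j) h1 h3, key (v + ev i, j) h2 h4, key (v + ev j, i) h3 h5]
  simp

end FrS
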