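import Pool.Agent.Lib.MP_51bb46_lc.S.Path

/-!
Restrictions from a fine grid to a coarse grid of side `n`, with blocks of side `T`.
-/

set_option linter.unusedSectionVars false

namespace FrS

open Finset
open scoped Classical

variable {D : ℕ}

/-- the data of a restriction: positions `a v` of the centres in the blocks, a fine chain `β` -/
structure Rst (D : ℕ) where
  /-- side of the coarse grid -/
  n : ℕ
  /-- side of the blocks -/
  T : ℕ
  hT : 0 < T
  /-- positions of the centres -/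
  a : V D → V D
  ha : ∀ v k, 0 ≤ a v k ∧ a v k < T
  /-- base chain -/
  β : Ch D

namespace Rst

variable (ρ : Rst D)

/-- the centre of the block of `v` -/
def cen (v : V D) : V D := fun k => ρ.T * v k + ρ.a v k

/-- the fine path of a coarse edge -/
noncomputable def Pe (e : E D) : Ch D := cp (ρ.cen e.1) (ρ.cen (e.1 + ev e.2))

/-- the fine chain of a coarse chain -/
noncomputable def P (y : Ch D) : Ch D := fun z => ∑ e ∈ edges D ρ.n, y e * ρ.Pe e z

/-- the fine assignment of a coarse assignment -/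
noncomputable def x (y : Ch D) : Ch D := ρ.β + cp 0 (ρ.cen 0) + ρ.P y

/-- `β` is a closed chain of the fine grid of side `N`, which contains the blocks -/
def Good (N : ℕ) : Prop := Supp N ρ.β ∧ bd ρ.β = 0 ∧ ρ.n * ρ.T ≤ N

theorem P_add (y z : Ch D) : ρ.P (y + z) = ρ.P y + ρ.P z := by
  funext u
  simp only [P, Pi.add_apply, add_mul, Finset.sum_add_distrib]

theorem P_zero : ρ.P 0 = 0 := by
  funext u; simp [P]

theorem P_sum {ι : Type} (s : Finset ι) (f : ι → Ch D) :
    ρ.P (∑ i ∈ s, f i) = ∑ i ∈ s, ρ.P (f i) := by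
  induction s using Finset.induction_on with
  | empty => simp [P_zero]
  | insert a s ha ih => rw [Finset.sum_insert ha, Finset.sum_insert ha, P_add, ih]

theorem x_add (y z : Ch D) : ρ.x (y + z) = ρ.x y + ρ.P z := by
  simp only [x, P_add]; abel

theorem P_dl {e : E D} (he : e ∈ edges D ρ.n) : ρ.P (dl e) = ρ.Pe e := by
  funext z
  simp only [P]
  rw [Finset.sum_eq_single e]
  · simp
  · intro b _ hb; rw [dl_ne hb, zero_mul]
  · exact fun h => absurd he h

theorem P_eq_zero {y : Ch D} {z : E D} (h : ∀ e ∈ edges D ρ.n, y e ≠ 0 → ρ.Pe e z = 0) :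
    ρ.P y z = 0 := by
  refine Finset.sum_eq_zero fun e he => ?_
  by_cases h' : y e = 0
  · rw [h', zero_mul]
  · rw [h e he h', mul_zero]

theorem cen_mem {N : ℕ} (hN : ρ.n * ρ.T ≤ N) {v : V D} (hv : v ∈ box D ρ.n) :
    ρ.cen v ∈ box D N := by
  rw [mem_box] at hv ⊢
  intro k
  obtain ⟨h1, h2⟩ := hv k
  obtain ⟨h3, h4⟩ := ρ.ha v k
  have hT : (0 : ℤ) < ρ.T := by exact_mod_cast ρ.hT
  have hN' : (ρ.n : ℤ) * ρ.T ≤ N := by exact_mod_cast hN
  simp only [cen]
  constructor
  · positivity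
  · have h5 : v k + 1 ≤ ρ.n := by omega
    nlinarith

theorem bd_Pe (e : E D) : bd (ρ.Pe e) = dl (ρ.cen e.1) + dl (ρ.cen (e.1 + ev e.2)) := bd_cp _ _

theorem bd_P_apply (y : Ch D) (u : V D) :
    bd (ρ.P y) u = ∑ e ∈ edges D ρ.n, y e * (dl (ρ.cen e.1) u + dl (ρ.cen (e.1 + ev e.2)) u) := by
  have h : ∀ e, y e * (dl (ρ.cen e.1) u + dl (ρ.cen (e.1 + ev e.2)) u) = y e * bd (ρ.Pe e) u := by
    intro e
    rw [bd_Pe]; rfl
  rw [Finset.sum_congr rfl fun e _ => h e]
  simp only [bd, P]
  rw [Finset.sum_congr rfl fun i _ => (Finset.sum_add_distrib (s := edges D ρ.n)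
    (f := fun e => y e * ρ.Pe e (u, i)) (g := fun e => y e * ρ.Pe e (u - ev i, i))).symm]
  rw [Finset.sum_comm]
  refine Finset.sum_congr rfl fun e _ => ?_
  rw [Finset.mul_sum]
  exact Finset.sum_congr rfl fun i _ => by rw [mul_add]

/-- the boundary of a pushed chain -/
theorem bd_P {y : Ch D} (hy : Supp ρ.n y) :
    bd (ρ.P y) = ∑ v ∈ box D ρ.n, fun u => bd y v * dl (ρ.cen v) u := by
  funext u
  rw [bd_P_apply, Finset.sum_apply]
  simp only [mul_add, Finset.sum_add_distrib, bd, add_mul, Finset.sum_mul]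
  congr 1
  · rw [← Finset.sum_product' (f := fun v i => y (v, i) * dl (ρ.cen v) u)]
    refine Finset.sum_subset (Finset.filter_subset _ _) fun e _ he' => ?_
    rw [show y (e.1, e.2) = 0 from hy _ he', zero_mul]
  · rw [← Finset.sum_product' (f := fun v i => y (v - ev i, i) * dl (ρ.cen v) u)]
    refine Finset.sum_of_injOn (fun e => (e.1 + ev e.2, e.2)) ?_ ?_ ?_ ?_
    · rintro ⟨v, i⟩ _ ⟨w, j⟩ _ h
      simp only [Prod.mk.injEq] at h
      obtain ⟨h1, rfl⟩ := h
      rw [add_left_injective _ h1]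
    · intro e he
      rw [Finset.mem_coe, mem_edges] at he
      simp only [Finset.coe_product, Set.mem_prod, Finset.mem_coe, Finset.mem_univ, and_true]
      exact he.2
    · rintro ⟨v, i⟩ _ h
      have : y (v - ev i, i) = 0 := by
        refine hy _ fun h' => h ⟨(v - ev i, i), h', ?_⟩
        simp
      simp only [this, zero_mul]
    · rintro ⟨v, i⟩ _
      simp

theorem bd_P_path {y : Ch D} (hy : Supp ρ.n y) {t t' : V D} (ht : t ∈ box D ρ.n)
    (ht' : t' ∈ box D ρ.n) (hb : bd y = dl t + dl t') :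
    bd (ρ.P y) = dl (ρ.cen t) + dl (ρ.cen t') := by
  rw [bd_P ρ hy, hb]
  funext u
  rw [Finset.sum_apply]
  simp only [Pi.add_apply, add_mul, Finset.sum_add_distrib]
  congr 1
  · rw [Finset.sum_eq_single t]
    · simp
    · intro b _ hb; rw [dl_ne hb, zero_mul]
    · exact fun h => absurd ht h
  · rw [Finset.sum_eq_single t']
    · simp
    · intro b _ hb; rw [dl_ne hb, zero_mul]
    · exact fun h => absurd ht' h

theorem bd_P_closed {y : Ch D} (hy : Supp ρ.n y) (hb : bd y = 0) : bd (ρ.P y) = 0 := by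
  rw [bd_P ρ hy, hb]
  funext u
  simp

theorem supp_P {N : ℕ} (hN : ρ.n * ρ.T ≤ N) (y : Ch D) : Supp N (ρ.P y) := by
  intro z hz
  refine ρ.P_eq_zero fun e he _ => ?_
  rw [mem_edges] at he
  exact supp_cp (ρ.cen_mem hN he.1) (ρ.cen_mem hN he.2) z hz

/-- restricted assignments have exactly one violated vertex, the centre -/
theorem Yt_x {N : ℕ} (h : ρ.Good N) {t : V D} (ht : t ∈ box D ρ.n) {y : Ch D}
    (hy : Yt ρ.n t y) : Yt N (ρ.cen t) (ρ.x y) := by
  obtain ⟨h1, h2, h3⟩ := h
  have h0 : (0 : V D) ∈ box D ρ.n := by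
    rw [mem_box] at ht ⊢
    intro k
    have := ht k
    exact ⟨le_refl _, by simp only [Pi.zero_apply]; omega⟩
  have h0' : (0 : V D) ∈ box D N := by
    have := (mem_box.1 (ρ.cen_mem h3 ht))
    rw [mem_box]
    intro k
    have := this k
    exact ⟨le_refl _, by simp only [Pi.zero_apply]; omega⟩
  refine ⟨(h1.add (supp_cp h0' (ρ.cen_mem h3 h0))).add (ρ.supp_P h3 y), ?_⟩
  rw [x, bd_add, bd_add, h2, bd_cp, ρ.bd_P_path hy.1 h0 ht hy.2, zero_add]
  have : (dl (0 : V D) + dl (ρ.cen 0) + (dl (ρ.cen 0) + dl (ρ.cen t)) : V D → ZMod 2)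
      = (dl (ρ.cen 0) + dl (ρ.cen 0)) + (dl 0 + dl (ρ.cen t)) := by abel
  rw [this, add_self_fun, zero_add]

theorem div_eq_of {T : ℕ} (hT : 0 < T) {z u : ℤ} (h1 : T * u ≤ z) (h2 : z < T * u + T) :
    z / T = u := by
  have hT' : (0 : ℤ) < T := by exact_mod_cast hT
  refine le_antisymm ?_ ?_
  · have : z / T < u + 1 := Int.ediv_lt_of_lt_mul hT' (by rw [mul_comm, mul_add, mul_one]; exact h2)
    omega
  · exact Int.le_ediv_of_mul_le hT' (by rw [mul_comm]; exact h1)

/-- **block lemma** -/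
theorem Pe_block {u : V D} {i : Fin (D + 3)} {z : E D} (h : ρ.Pe (u, i) z ≠ 0) :
    (∀ k, k ≠ i → z.1 k / ρ.T = u k) ∧ (z.1 i / ρ.T = u i ∨ z.1 i / ρ.T = u i + 1) := by
  constructor
  · intro k hk
    obtain ⟨h1, h2, h3⟩ := cp_between h k
    have e1 : (u + ev i) k = u k := by rw [Pi.add_apply, ev_ne hk, add_zero]
    simp only [cen, e1] at h1 h2 h3
    obtain ⟨h4, h5⟩ := ρ.ha u k
    obtain ⟨h6, h7⟩ := ρ.ha (u + ev i) k
    refine div_eq_of ρ.hT ?_ ?_
    · refine le_trans (le_min ?_ ?_) h1 <;> omega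
    · refine lt_of_le_of_lt (h2.trans h3) (max_lt ?_ ?_) <;> omega
  · obtain ⟨h1, h2, h3⟩ := cp_between h i
    have e1 : (u + ev i) i = u i + 1 := by rw [Pi.add_apply, ev_same]
    simp only [cen, e1, mul_add, mul_one] at h1 h2 h3
    obtain ⟨h4, h5⟩ := ρ.ha u i
    obtain ⟨h6, h7⟩ := ρ.ha (u + ev i) i
    have h8 : (ρ.T : ℤ) * u i ≤ z.1 i := by
      refine le_trans (le_min ?_ ?_) h1 <;> omega
    have h9 : z.1 i < (ρ.T : ℤ) * u i + ρ.T + ρ.T := by
      refine lt_of_le_of_lt (h2.trans h3) (max_lt ?_ ?_) <;> omega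
    rcases lt_or_ge (z.1 i) (ρ.T * u i + ρ.T) with h10 | h10
    · exact Or.inl (div_eq_of ρ.hT h8 h10)
    · refine Or.inr (div_eq_of ρ.hT ?_ ?_)
      · rw [mul_add, mul_one]; exact h10
      · rw [mul_add, mul_one]; exact h9

/-- the first coordinate of the centre is in the block -/
theorem cen_div (v : V D) (k : Fin (D + 3)) : ρ.cen v k / ρ.T = v k := by
  obtain ⟨h1, h2⟩ := ρ.ha v k
  refine div_eq_of ρ.hT ?_ ?_ <;> simp only [cen] <;> omega

end Rst

/-- the fine edge `z` touches the hyperplane `v 0 = h` -/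
def tch (T : ℕ) (z : E D) (h : ℤ) : Prop := z.1 0 / T - 1 ≤ h ∧ h ≤ z.1 0 / T + 1

/-- the same for coordinate `1` -/
def tch1 (T : ℕ) (z : E D) (h : ℤ) : Prop := z.1 1 / T - 1 ≤ h ∧ h ≤ z.1 1 / T + 1

namespace Rst

variable (ρ : Rst D)

theorem tch_of_Pe {e z : E D} (h : ρ.Pe e z ≠ 0) :
    tch ρ.T z (e.1 0) ∧ tch ρ.T z ((e.1 + ev e.2) 0) := by
  obtain ⟨u, i⟩ := e
  obtain ⟨h1, h2⟩ := ρ.Pe_block h
  simp only [tch, Pi.add_apply]
  by_cases hi : (0 : Fin (D + 3)) = i
  · subst hi
    rw [ev_same]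
    rcases h2 with h2 | h2 <;> rw [h2] <;> omega
  · rw [ev_ne hi, h1 0 hi]; omega

theorem tch1_of_Pe {e z : E D} (h : ρ.Pe e z ≠ 0) :
    tch1 ρ.T z (e.1 1) ∧ tch1 ρ.T z ((e.1 + ev e.2) 1) := by
  obtain ⟨u, i⟩ := e
  obtain ⟨h1, h2⟩ := ρ.Pe_block h
  simp only [tch1, Pi.add_apply]
  by_cases hi : (1 : Fin (D + 3)) = i
  · subst hi
    rw [ev_same]
    rcases h2 with h2 | h2 <;> rw [h2] <;> omega
  · rw [ev_ne hi, h1 1 hi]; omega

/-- a fine edge with an endpoint in the hyperplane of the centre of `t` touches `t 0` -/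
theorem tch_cen {t : V D} {z : E D}
    (h : z.1 0 = ρ.cen t 0 ∨ (z.1 + ev z.2) 0 = ρ.cen t 0) : tch ρ.T z (t 0) := by
  have hT : (0 : ℤ) < ρ.T := by exact_mod_cast ρ.hT
  obtain ⟨h1, h2⟩ := ρ.ha t 0
  have h3 : z.1 0 = ρ.cen t 0 ∨ z.1 0 = ρ.cen t 0 - 1 := by
    rcases h with h | h
    · exact Or.inl h
    · rw [Pi.add_apply, ev_apply] at h
      split_ifs at h
      · right; omega
      · left; omega
  simp only [cen] at h3
  have h4 : z.1 0 / ρ.T < t 0 + 1 := by
    refine Int.ediv_lt_of_lt_mul hT ?_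
    rw [mul_comm, mul_add, mul_one]; omega
  have h5 : t 0 - 1 ≤ z.1 0 / ρ.T := by
    refine Int.le_ediv_of_mul_le hT ?_
    rw [mul_comm, mul_sub, mul_one]; omega
  unfold tch
  omega

/-- a touched hyperplane is one of three -/
theorem tch_iff (T : ℕ) (z : E D) (h : ℤ) :
    tch T z h ↔ h ∈ Finset.Icc (z.1 0 / T - 1) (z.1 0 / T + 1) := by
  simp [tch]

/-- all edges of the squares that have a corner in the hyperplane `h` are pushed to fine edges
touching `h` -/
theorem tch_of_sq {F : Sq D} {v : V D} (hv : v ∈ verts F) {z : E D} (hz : ρ.P (sqc F) z ≠ 0) :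
    tch ρ.T z (v 0) := by
  obtain ⟨w, i, j⟩ := F
  by_cases hij : i = j
  · subst hij
    exfalso
    apply hz
    have : sqc ((w, i, i) : Sq D) = 0 := by
      simp only [sqc, add_self_fun, zero_add]
    rw [this, ρ.P_zero]; rfl
  · have h1 : ∃ e : E D, sqc (w, i, j) e ≠ 0 ∧ ρ.Pe e z ≠ 0 := by
      by_contra hcon
      push Not at hcon
      exact hz (ρ.P_eq_zero fun e _ he => hcon e he)
    obtain ⟨e, he, he'⟩ := h1
    have h2 : e = (w, i) ∨ e = (w, j) ∨ e = (w + ev i, j) ∨ e = (w + ev j, i) := by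
      by_contra hcon
      push Not at hcon
      obtain ⟨c1, c2, c3, c4⟩ := hcon
      apply he
      simp only [sqc, Pi.add_apply]
      rw [dl_ne c1, dl_ne c2, dl_ne c3, dl_ne c4]
      simp
    simp only [verts, Finset.mem_insert, Finset.mem_singleton] at hv
    have h3 : z.1 0 / ρ.T = w 0 ∨ (z.1 0 / ρ.T = w 0 + 1 ∧ (i = 0 ∨ j = 0)) := by
      rcases h2 with rfl | rfl | rfl | rfl
      · obtain ⟨a1, a2⟩ := ρ.Pe_block he'
        by_cases hi : i = 0
        · subst hi
          rcases a2 with a2 | a2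
          · exact Or.inl a2
          · exact Or.inr ⟨a2, Or.inl rfl⟩
        · exact Or.inl (a1 0 (Ne.symm hi))
      · obtain ⟨a1, a2⟩ := ρ.Pe_block he'
        by_cases hi : j = 0
        · subst hi
          rcases a2 with a2 | a2
          · exact Or.inl a2
          · exact Or.inr ⟨a2, Or.inr rfl⟩
        · exact Or.inl (a1 0 (Ne.symm hi))
      · obtain ⟨a1, a2⟩ := ρ.Pe_block he'
        by_cases hi : j = 0
        · subst hi
          rw [Pi.add_apply, ev_ne (Ne.symm hij), add_zero] at a2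
          rcases a2 with a2 | a2
          · exact Or.inl a2
          · exact Or.inr ⟨a2, Or.inr rfl⟩
        · have := a1 0 (Ne.symm hi)
          rw [Pi.add_apply, ev_apply] at this
          split_ifs at this with h4
          · exact Or.inr ⟨this, Or.inl h4.symm⟩
          · exact Or.inl (by rw [this, add_zero])
      · obtain ⟨a1, a2⟩ := ρ.Pe_block he'
        by_cases hi : i = 0
        · subst hi
          rw [Pi.add_apply, ev_ne hij, add_zero] at a2
          rcases a2 with a2 | a2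
          · exact Or.inl a2
          · exact Or.inr ⟨a2, Or.inl rfl⟩
        · have := a1 0 (Ne.symm hi)
          rw [Pi.add_apply, ev_apply] at this
          split_ifs at this with h4
          · exact Or.inr ⟨this, Or.inr h4.symm⟩
          · exact Or.inl (by rw [this, add_zero])
    have h4 : v 0 = w 0 ∨ v 0 = w 0 + 1 := by
      rcases hv with rfl | rfl | rfl | rfl
      · exact Or.inl rfl
      · rw [Pi.add_apply, ev_apply]
        split_ifs
        · exact Or.inr rfl
        · exact Or.inl (by rw [add_zero])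
      · rw [Pi.add_apply, ev_apply]
        split_ifs
        · exact Or.inr rfl
        · exact Or.inl (by rw [add_zero])
      · rw [Pi.add_apply, Pi.add_apply, ev_apply, ev_apply]
        split_ifs with h5 h6 h6
        · exact absurd (h5.symm.trans h6) hij
        · exact Or.inr (by rw [add_zero])
        · exact Or.inr (by rw [add_zero])
        · exact Or.inl (by rw [add_zero, add_zero])
    unfold tch
    rcases h3 with h3 | ⟨h3, _⟩ <;> rcases h4 with h4 | h4 <;> rw [h3, h4] <;> omega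

/-- the identity restriction -/
def idr (D n : ℕ) : Rst D where
  n := n
  T := 1
  hT := Nat.one_pos
  a := 0
  ha := by intro v k; simp
  β := 0

theorem idr_x {n : ℕ} {y : Ch D} (hy : Supp n y) : (idr D n).x y = y := by
  have hc : ∀ v : V D, (idr D n).cen v = v := by
    intro v
    funext k
    simp [cen, idr]
  have hPe : ∀ e : E D, (idr D n).Pe e = dl e := by
    intro e
    rw [Pe, hc, hc, cp_ev]
  have hβ : (idr D n).β = 0 := rfl
  rw [x, hβ, hc, cp_self, zero_add, zero_add]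
  funext z
  simp only [P, hPe]
  by_cases hz : z ∈ edges D n
  · rw [Finset.sum_eq_single z]
    · simp
    · intro b _ hb; rw [dl_ne (Ne.symm hb), mul_zero]
    · exact fun h => absurd hz h
  · rw [hy z hz]
    refine Finset.sum_eq_zero fun e he => ?_
    have h : z ≠ e := by
      intro h
      rw [h] at hz
      exact hz he
    rw [dl_ne h, mul_zero]

end Rst

end FrS
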