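import Pool.Agent.Lib.MP_51bb46_lc.C.Frame
import Pool.Agent.Lib.MP_51bb46_lc.S.Grid
import Pool.Agent.Lib.MP_51bb46_lc.S.Path
import Pool.Agent.Lib.MP_51bb46_lc.S.Rst
import Pool.Agent.Lib.MP_51bb46_lc.S.DT

section

/-!
Basic facts about states; running a decision tree; no refutation for valuations.
-/

set_option linter.unusedSectionVars false

namespace FrC

open Finset Fr56
open scoped Classical

section
variable {V E : Type} (G : Gph V E)

theorem Gph.inc_mono {U U' : Finset V} (h : U ⊆ U') : G.inc U ⊆ G.inc U' := by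
  rintro e (he | he)
  · exact Or.inl (h he)
  · exact Or.inr (h he)

theorem Gph.Agree.refl (U : Finset V) (y : E → ZMod 2) : G.Agree U y y := fun _ _ => rfl

variable {G}

theorem Gph.Agree.symm {U : Finset V} {y y' : E → ZMod 2} (h : G.Agree U y y') : G.Agree U y' y :=
  fun e he => (h e he).symm

theorem Gph.Agree.trans {U : Finset V} {y y' y'' : E → ZMod 2} (h : G.Agree U y y')
    (h' : G.Agree U y' y'') : G.Agree U y y'' := fun e he => (h e he).trans (h' e he)

theorem Gph.Agree.mono {U U' : Finset V} (h : U ⊆ U') {y y' : E → ZMod 2}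
    (hy : G.Agree U' y y') : G.Agree U y y' := fun e he => hy e (G.inc_mono h he)

end

section
variable {V E : Type} [Fintype E] [DecidableEq V] (G : Gph V E)

theorem Gph.bd_add (y z : E → ZMod 2) : G.bd (y + z) = G.bd y + G.bd z := by
  funext h
  simp only [Gph.bd, Pi.add_apply]
  rw [← Finset.sum_add_distrib]
  refine Finset.sum_congr rfl fun u _ => ?_
  split_ifs <;> ring

theorem Gph.bd_zero : G.bd (0 : E → ZMod 2) = 0 := by
  funext h
  simp [Gph.bd]

theorem Gph.bd_sum {ι : Type} (s : Finset ι) (f : ι → E → ZMod 2) :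
    G.bd (∑ i ∈ s, f i) = ∑ i ∈ s, G.bd (f i) := by
  induction s using Finset.induction_on with
  | empty => simp [Gph.bd_zero]
  | insert i s hi ih => rw [Finset.sum_insert hi, Finset.sum_insert hi, Gph.bd_add, ih]

/-- in characteristic two every function is its own inverse -/
theorem add_self2 {β : Type} (f : β → ZMod 2) : f + f = 0 := by
  funext b
  exact CharTwo.add_self_eq_zero (f b)

variable {G} (Fr : Frame G) {v0 : V}

theorem Frame.Ok.mono {Fr : Frame G} {U U' : Finset V} (h : U ⊆ U') {y : E → ZMod 2}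
    (hy : Fr.Ok v0 U' y) : Fr.Ok v0 U y := by
  obtain ⟨t, ht, hf⟩ := hy
  exact ⟨t, ht, Fr.anti h hf⟩

theorem Frame.exists_ok (h0 : Fr.Free ∅ v0) : ∃ y, Fr.Ok v0 ∅ y :=
  ⟨0, v0, by rw [Gph.bd_zero, add_self2], h0⟩

/-- moving the violated vertex: states can be extended to more revealed vertices -/
theorem Frame.move {U U' : Finset V} (hU : U ⊆ U') (hc : U'.card ≤ Fr.m) {y : E → ZMod 2}
    (hy : Fr.Ok v0 U y) : ∃ y', G.Agree U y y' ∧ Fr.Ok v0 U' y' := by
  obtain ⟨t, ht, hf⟩ := hy
  obtain ⟨t', ht'⟩ := Fr.ne U' hc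
  have hcU : U.card ≤ Fr.m := (Finset.card_le_card hU).trans hc
  obtain ⟨γ, hγ, hγ0⟩ := Fr.conn U t t' hcU hf (Fr.anti hU ht')
  refine ⟨y + γ, ?_, t', ?_, ht'⟩
  · intro e he
    rw [Pi.add_apply, hγ0 e he, add_zero]
  · rw [Gph.bd_add, ht, hγ]
    calc pt v0 + pt t + (pt t + pt t') = pt v0 + (pt t + pt t) + pt t' := by
          rw [add_assoc, add_assoc, add_assoc]
      _ = pt v0 + pt t' := by rw [add_self2, add_zero]

/-- Decision trees may be run with more budget. -/
theorem Dec.mono {Fr : Frame G} {Q : Bool → Finset V → (E → ZMod 2) → Prop} {k k' : ℕ} {U : Finset V}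
    {y : E → ZMod 2} (h : Dec Fr v0 Q k U y) (hk : k ≤ k') : Dec Fr v0 Q k' U y := by
  induction h generalizing k' with
  | leaf b h => exact Dec.leaf b h
  | @node k n U y N hN h ih =>
    have hk' : n + (k' - n) = k' := by omega
    rw [← hk']
    exact Dec.node N hN fun y' hag hok => ih y' hag hok (by omega)

/-- Running a decision tree at a state at which further vertices `U` are revealed. -/
theorem Dec.run {Fr : Frame G} {Q : Bool → Finset V → (E → ZMod 2) → Prop} {k : ℕ} {W : Finset V}
    {y : E → ZMod 2} (h : Dec Fr v0 Q k W y) (U : Finset V) (hok : Fr.Ok v0 (U ∪ W) y)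
    (hc : (U ∪ W).card + k ≤ Fr.m) :
    ∃ (W' : Finset V) (y' : E → ZMod 2) (b : Bool), W ⊆ W' ∧ W'.card ≤ W.card + k ∧
      G.Agree (U ∪ W) y y' ∧ Fr.Ok v0 (U ∪ W') y' ∧ Q b W' y' := by
  induction h generalizing U with
  | leaf b h => exact ⟨_, _, b, Finset.Subset.refl _, by omega, Gph.Agree.refl G _ _, hok, h⟩
  | @node k n W y N hN h ih =>
    have hUW : U ∪ W ⊆ U ∪ (W ∪ N) := Finset.union_subset_union_right Finset.subset_union_left
    have hcard : (U ∪ (W ∪ N)).card ≤ (U ∪ W).card + n := by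
      rw [← Finset.union_assoc]
      exact (Finset.card_union_le _ _).trans (by omega)
    obtain ⟨y1, hag1, hok1⟩ := Fr.move hUW (by omega) hok
    obtain ⟨W', y', b, hW, hc', hag', hok', hQ⟩ :=
      ih y1 (hag1.mono Finset.subset_union_right) (hok1.mono Finset.subset_union_right) U hok1
        (by omega)
    refine ⟨W', y', b, Finset.subset_union_left.trans hW, ?_, hag1.trans (hag'.mono hUW), hok', hQ⟩
    have := Finset.card_union_le W N
    omega

end

section
variable {V E : Type} [Fintype E] [DecidableEq V] {G : Gph V E} {Fr : Frame G} {v0 : V}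
  {X : Type} {Φ : Set (Fm X)} {cap : ℕ}

theorem Frame.ok_of_mem {S S' : Finset V} {y : E → ZMod 2} (h : ∀ x, x ∈ S ↔ x ∈ S')
    (hS : Fr.Ok v0 S y) : Fr.Ok v0 S' y := by
  rw [← Finset.ext h]; exact hS

/-- the truth value of a quiet formula -/
theorem Valn.decide_eq (S : Valn Fr v0 X Φ cap) {f : Fm X} (hf : f ∈ Φ) {b : Bool} {U : Finset V}
    {y : E → ZMod 2} (hc : U.card ≤ cap) (hok : Fr.Ok v0 U y) (hQ : S.Q f b U y) :
    decide (S.Q f true U y) = b := by
  cases b with
  | true => exact decide_eq_true hQ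
  | false => exact decide_eq_false fun h => S.uniq f hf U y hc hok h hQ

theorem Valn.sem_mono (S : Valn Fr v0 X Φ cap) (f : Fm X) (U U' : Finset V) (y y' : E → ZMod 2)
    (hU : U ⊆ U') (hc : U'.card ≤ cap) (hq : f ∈ Φ ∧ ∃ b, S.Q f b U y) (hag : G.Agree U y y')
    (hok : Fr.Ok v0 U' y') :
    (f ∈ Φ ∧ ∃ b, S.Q f b U' y') ∧ decide (S.Q f true U' y') = decide (S.Q f true U y) := by
  obtain ⟨hf, b, hb⟩ := hq
  have hb' := S.mono f hf b U U' y y' hU hc hb hag hok
  refine ⟨⟨hf, b, hb'⟩, ?_⟩
  rw [S.decide_eq hf hc hok hb']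
  cases b with
  | true => exact (decide_eq_true hb).symm
  | false =>
    exact (decide_eq_false fun h =>
      S.uniq f hf U' y' hc hok (S.mono f hf true U U' y y' hU hc h hag hok) hb').symm

theorem Valn.sem_neg (S : Valn Fr v0 X Φ cap) (f : Fm X) (U : Finset V) (y : E → ZMod 2)
    (hc : U.card ≤ cap) (hok : Fr.Ok v0 U y) (hq : f ∈ Φ ∧ ∃ b, S.Q f b U y)
    (hq' : f.neg ∈ Φ ∧ ∃ b, S.Q f.neg b U y) :
    decide (S.Q f.neg true U y) = !(decide (S.Q f true U y)) := by
  obtain ⟨hf, b, hb⟩ := hq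
  obtain ⟨hf', b', hb'⟩ := hq'
  rw [S.decide_eq hf hc hok hb, S.decide_eq hf' hc hok hb']
  exact S.neg f hf hf' b b' U y hc hok hb hb'

theorem Valn.sem_and (S : Valn Fr v0 X Φ cap) (f g : Fm X) (U : Finset V) (y : E → ZMod 2)
    (hc : U.card ≤ cap) (hok : Fr.Ok v0 U y) (hq : f ∈ Φ ∧ ∃ b, S.Q f b U y)
    (hq' : g ∈ Φ ∧ ∃ b, S.Q g b U y) (hq'' : f.and g ∈ Φ ∧ ∃ b, S.Q (f.and g) b U y) :
    decide (S.Q (f.and g) true U y) = (decide (S.Q f true U y) && decide (S.Q g true U y)) := by
  obtain ⟨hf, b, hb⟩ := hq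
  obtain ⟨hf', b', hb'⟩ := hq'
  obtain ⟨hf'', b'', hb''⟩ := hq''
  rw [S.decide_eq hf hc hok hb, S.decide_eq hf' hc hok hb', S.decide_eq hf'' hc hok hb'']
  exact S.and f g hf hf' hf'' b b' b'' U y hc hok hb hb' hb''

theorem Valn.sem_or (S : Valn Fr v0 X Φ cap) (f g : Fm X) (U : Finset V) (y : E → ZMod 2)
    (hc : U.card ≤ cap) (hok : Fr.Ok v0 U y) (hq : f ∈ Φ ∧ ∃ b, S.Q f b U y)
    (hq' : g ∈ Φ ∧ ∃ b, S.Q g b U y) (hq'' : f.or g ∈ Φ ∧ ∃ b, S.Q (f.or g) b U y) :
    decide (S.Q (f.or g) true U y) = (decide (S.Q f true U y) || decide (S.Q g true U y)) := by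
  obtain ⟨hf, b, hb⟩ := hq
  obtain ⟨hf', b', hb'⟩ := hq'
  obtain ⟨hf'', b'', hb''⟩ := hq''
  rw [S.decide_eq hf hc hok hb, S.decide_eq hf' hc hok hb', S.decide_eq hf'' hc hok hb'']
  exact S.or f g hf hf' hf'' b b' b'' U y hc hok hb hb' hb''

theorem Valn.sem_extend (S : Valn Fr v0 X Φ cap) (hcap : cap ≤ Fr.m) (k : ℕ) (hD : S.Dcds k)
    (f : Fm X) (hf : f ∈ Φ) (U : Finset V) (y : E → ZMod 2) (hc : U.card + k ≤ cap)
    (hok : Fr.Ok v0 U y) :
    ∃ (W : Finset V) (y' : E → ZMod 2), W.card ≤ k ∧ (f ∈ Φ ∧ ∃ b, S.Q f b W y') ∧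
      G.Agree U y y' ∧ Fr.Ok v0 (U ∪ W) y' := by
  have hd := hD f hf y (hok.mono (Finset.empty_subset U))
  have hu : U ∪ ∅ = U := Finset.union_empty U
  obtain ⟨W', y', b, -, hW, hag, hok', hQ⟩ := hd.run U (by rw [hu]; exact hok)
    (by rw [hu]; omega)
  rw [hu] at hag
  rw [Finset.card_empty, Nat.zero_add] at hW
  exact ⟨W', y', hW, ⟨hf, b, hQ⟩, hag, hok'⟩

/-- the local semantics (in the sense of `Fr56.Sem`) given by a valuation -/
noncomputable def Valn.toSem (S : Valn Fr v0 X Φ cap) (hcap : cap ≤ Fr.m) (h0 : Fr.Free ∅ v0)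
    (k : ℕ) (hD : S.Dcds k) : Sem X V (E → ZMod 2) where
  Agree := G.Agree
  Ok := Fr.Ok v0
  Quiet f U y := f ∈ Φ ∧ ∃ b, S.Q f b U y
  val f U y := decide (S.Q f true U y)
  cap := cap
  w := k
  good := Φ
  agree_refl := Gph.Agree.refl G
  agree_trans := fun _ _ _ _ h h' => h.trans h'
  agree_mono := fun _ _ _ _ h h' => h'.mono h
  ok_mono := fun _ _ _ h h' => h'.mono h
  ok_empty := Fr.exists_ok h0
  mono := S.sem_mono
  val_neg := S.sem_neg
  val_and := S.sem_and
  val_or := S.sem_or
  extend := fun f hf U y hc hok => by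
    obtain ⟨W, y', h1, h2, h3, h4⟩ := S.sem_extend hcap k hD f hf U y hc hok
    exact ⟨W, y', h1, h2, h3, Frame.ok_of_mem (fun x => by simp only [Finset.mem_union]) h4⟩

/-- local truth for the valuation implies local truth for its semantics -/
theorem Valn.toSem_true (S : Valn Fr v0 X Φ cap) (hcap : cap ≤ Fr.m) (h0 : Fr.Free ∅ v0)
    (k : ℕ) (hD : S.Dcds k) {f : Fm X} (hf : S.True' k f) : (S.toSem hcap h0 k hD).True' f := by
  intro U y hU hok hq
  obtain ⟨-, b, hb⟩ := hq
  cases b with
  | true => exact decide_eq_true hb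
  | false => exact absurd hb (hf U y hU hok)

/-- **there is no refutation all whose formulas are decided by a valuation** -/
theorem Valn.no_refutation (S : Valn Fr v0 X Φ cap) (hcap : cap ≤ Fr.m) (h0 : Fr.Free ∅ v0)
    (k C : ℕ) (hD : S.Dcds k) (hC : C * k ≤ cap) (R : List Rule) (hR : ∀ r ∈ R, r.Sound)
    (hRC : ∀ r ∈ R, r.nodes + 1 ≤ C) (F : Fm X) (hF : S.True' k F) (b : Fm ℕ) (hb : b.Unsat)
    (hbC : b.size + 1 ≤ C) (τ : ℕ → X) (π : List (Fm X)) (hπ : IsDerivation R F π)
    (hlast : b.map τ ∈ π) (hΦ : ∀ A ∈ π, ∀ B ∈ A.subs, B ∈ Φ) : False := by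
  have hle : ∀ c, c ≤ C → c * k ≤ cap := fun c hc => (Nat.mul_le_mul_right k hc).trans hC
  exact (S.toSem hcap h0 k hD).no_refutation R hR F (S.toSem_true hcap h0 k hD hF) b hb τ π hπ
    hlast hΦ (fun r hr => hle _ (hRC r hr)) (hle _ hbC)

/-- conjunctions of locally true formulas are locally true -/
theorem Valn.and_true (S : Valn Fr v0 X Φ cap) (hcap : cap ≤ Fr.m) (h0 : Fr.Free ∅ v0)
    (k : ℕ) (hD : S.Dcds k) (hC : 4 * k ≤ cap) (f g : Fm X) (hf : f ∈ Φ) (hg : g ∈ Φ)
    (hfg : f.and g ∈ Φ) (h1 : S.True' k f) (h2 : S.True' k g) : S.True' k (f.and g) := by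
  have h := (S.toSem hcap h0 k hD).and_true hC f g hf hg hfg (S.toSem_true hcap h0 k hD h1)
    (S.toSem_true hcap h0 k hD h2)
  intro U y hU hok hQ
  have ht : decide (S.Q (f.and g) true U y) = true := h U y hU hok ⟨hfg, false, hQ⟩
  exact S.uniq _ hfg U y (by omega) hok (of_decide_eq_true ht) hQ

end

end FrC
end

section

section

/-!
In dimension at least 3, a closed chain that avoids a product set is a sum of squares that avoid it.
-/

set_option linter.unusedSectionVars false

namespace FrS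

open Finset
open scoped Classical

variable {D : ℕ}

/-! ### moving toward a fixed vertex -/

/-- the distance to `c` -/
def sqMu (c v : V D) : ℕ := ∑ k, (v k - c k).natAbs

/-- `v` moved one step toward `c` in the coordinate `k` -/
noncomputable def sqTw (c v : V D) (k : Fin (D + 3)) : V D :=
  if v k < c k then v + ev k else v - ev k

/-- the edge between `v` and `sqTw c v k` -/
noncomputable def sqEd (c v : V D) (k : Fin (D + 3)) : E D :=
  if v k < c k then (v, k) else (v - ev k, k)

/-- the endpoint of an edge that is farther from `c` -/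
noncomputable def sqTop (c : V D) (e : E D) : V D :=
  if e.1 e.2 < c e.2 then e.1 else e.1 + ev e.2

/-- the level of an edge -/
noncomputable def sqLev (c : V D) (e : E D) : ℕ := sqMu c (sqTop c e)

theorem sqMu_eq (c v : V D) (k : Fin (D + 3)) :
    sqMu c v = (v k - c k).natAbs + ∑ l ∈ univ.erase k, (v l - c l).natAbs := by
  unfold sqMu
  exact (Finset.add_sum_erase univ (fun l => (v l - c l).natAbs) (mem_univ k)).symm

theorem sqMu_congr (c : V D) {u v : V D} (k : Fin (D + 3)) (h : ∀ l, l ≠ k → u l = v l) :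
    sqMu c u + (v k - c k).natAbs = sqMu c v + (u k - c k).natAbs := by
  rw [sqMu_eq c u k, sqMu_eq c v k]
  have : ∑ l ∈ univ.erase k, (u l - c l).natAbs = ∑ l ∈ univ.erase k, (v l - c l).natAbs := by
    refine Finset.sum_congr rfl fun l hl => ?_
    rw [h l (Finset.ne_of_mem_erase hl)]
  rw [this]
  omega

theorem sqTw_ne (c v : V D) {k l : Fin (D + 3)} (h : l ≠ k) : sqTw c v k l = v l := by
  unfold sqTw
  split_ifs
  · rw [Pi.add_apply, ev_ne h, add_zero]
  · rw [Pi.sub_apply, ev_ne h, sub_zero]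

theorem sqTw_same (c v : V D) (k : Fin (D + 3)) :
    sqTw c v k k = if v k < c k then v k + 1 else v k - 1 := by
  unfold sqTw
  split_ifs
  · rw [Pi.add_apply, ev_same]
  · rw [Pi.sub_apply, ev_same]

theorem sqMu_tw (c : V D) {v : V D} {k : Fin (D + 3)} (h : v k ≠ c k) :
    sqMu c (sqTw c v k) + 1 = sqMu c v := by
  have h1 := sqMu_congr c (u := sqTw c v k) (v := v) k (fun l hl => sqTw_ne c v hl)
  rw [sqTw_same] at h1
  split_ifs at h1 <;> omega

theorem sqEd_top (c : V D) (e : E D) : sqEd c (sqTop c e) e.2 = e := by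
  unfold sqTop sqEd
  by_cases h : e.1 e.2 < c e.2
  · rw [if_pos h, if_pos h]
  · rw [if_neg h, if_neg]
    · rw [add_sub_cancel_right]
    · rw [Pi.add_apply, ev_same]
      omega

theorem sqTop_ne (c : V D) (e : E D) : sqTop c e e.2 ≠ c e.2 := by
  unfold sqTop
  by_cases h : e.1 e.2 < c e.2
  · rw [if_pos h]
    exact h.ne
  · rw [if_neg h, Pi.add_apply, ev_same]
    omega

theorem sqTop_ed (c : V D) {v : V D} {k : Fin (D + 3)} (h : v k ≠ c k) :
    sqTop c (sqEd c v k) = v := by
  unfold sqTop sqEd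
  by_cases h' : v k < c k
  · simp only [if_pos h']
  · have h2 : ¬ ((v - ev k) k < c k) := by
      rw [Pi.sub_apply, ev_same]
      omega
    simp only [if_neg h', if_neg h2]
    exact sub_add_cancel _ _

theorem sqLev_ed (c : V D) {v : V D} {k : Fin (D + 3)} (h : v k ≠ c k) :
    sqLev c (sqEd c v k) = sqMu c v := by
  unfold sqLev
  rw [sqTop_ed c h]

theorem sqEd_snd (c v : V D) (k : Fin (D + 3)) : (sqEd c v k).2 = k := by
  unfold sqEd
  split_ifs <;> rfl

theorem sqLev_up (c v : V D) (k : Fin (D + 3)) (h : ¬ v k < c k) :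
    sqLev c (v, k) = sqMu c v + 1 := by
  unfold sqLev sqTop
  simp only [if_neg h]
  have h1 := sqMu_congr c (u := v + ev k) (v := v) k
    (fun l hl => by rw [Pi.add_apply, ev_ne hl, add_zero])
  rw [Pi.add_apply, ev_same] at h1
  omega

theorem sqLev_up' (c v : V D) (k : Fin (D + 3)) (h : v k ≤ c k) :
    sqLev c (v - ev k, k) = sqMu c v + 1 := by
  unfold sqLev sqTop
  have h2 : (v - ev k) k < c k := by
    rw [Pi.sub_apply, ev_same]
    omega
  simp only [if_pos h2]
  have h1 := sqMu_congr c (u := v - ev k) (v := v) k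
    (fun l hl => by rw [Pi.sub_apply, ev_ne hl, sub_zero])
  rw [Pi.sub_apply, ev_same] at h1
  omega

theorem sqTw_box {n : ℕ} {c v : V D} (hc : c ∈ box D n) (hv : v ∈ box D n) {k : Fin (D + 3)}
    (h : v k ≠ c k) : sqTw c v k ∈ box D n := by
  rw [mem_box] at hc hv ⊢
  intro l
  by_cases hl : l = k
  · subst hl
    rw [sqTw_same]
    have h1 := hc l
    have h2 := hv l
    split_ifs <;> omega
  · rw [sqTw_ne c v hl]
    exact hv l

theorem sqEd_inc {W : Finset (V D)} (c v : V D) (k : Fin (D + 3)) (h : ¬ Inc W (sqEd c v k)) :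
    ¬ Cl W v ∧ ¬ Cl W (sqTw c v k) := by
  unfold Inc sqEd at h
  unfold sqTw
  by_cases h' : v k < c k
  · simp only [if_pos h'] at h ⊢
    exact ⟨fun h1 => h (Or.inl h1), fun h1 => h (Or.inr h1)⟩
  · simp only [if_neg h'] at h ⊢
    rw [sub_add_cancel] at h
    exact ⟨fun h1 => h (Or.inr h1), fun h1 => h (Or.inl h1)⟩

theorem sqEd_edges {n : ℕ} (c v : V D) (k : Fin (D + 3)) (h : sqEd c v k ∈ edges D n) :
    v ∈ box D n := by
  rw [mem_edges] at h
  unfold sqEd at h
  by_cases h' : v k < c k
  · simp only [if_pos h'] at h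
    exact h.1
  · simp only [if_neg h'] at h
    rw [sub_add_cancel] at h
    exact h.2

theorem sqTw_comm (c v : V D) {i j : Fin (D + 3)} (hij : i ≠ j) :
    sqTw c (sqTw c v i) j = sqTw c (sqTw c v j) i := by
  have h1 : sqTw c v i j = v j := sqTw_ne c v hij.symm
  have h2 : sqTw c v j i = v i := sqTw_ne c v hij
  rw [sqTw, h1, sqTw.eq_def c (sqTw c v j) i, h2]
  unfold sqTw
  split_ifs <;> abel

/-- the square at `v` with directions `i < j`, toward `c` -/
theorem sq_exists_lt (c v : V D) {i j : Fin (D + 3)} (hij : i < j) :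
    ∃ F : Sq D, F.2.1 < F.2.2 ∧
      sqc F = dl (sqEd c v i) + dl (sqEd c v j) + dl (sqEd c (sqTw c v i) j) +
        dl (sqEd c (sqTw c v j) i) ∧
      ∀ u ∈ verts F, u = v ∨ u = sqTw c v i ∨ u = sqTw c v j ∨ u = sqTw c (sqTw c v i) j := by
  have h1 : sqTw c v i j = v j := sqTw_ne c v hij.ne'
  have h2 : sqTw c v j i = v i := sqTw_ne c v hij.ne
  have e1 : sqEd c (sqTw c v i) j = if v j < c j then (sqTw c v i, j) else (sqTw c v i - ev j, j) := by
    rw [sqEd, h1]
  have e2 : sqEd c (sqTw c v j) i = if v i < c i then (sqTw c v j, i) else (sqTw c v j - ev i, i) := by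
    rw [sqEd, h2]
  have e3 : sqTw c (sqTw c v i) j = if v j < c j then sqTw c v i + ev j else sqTw c v i - ev j := by
    rw [sqTw, h1]
  rw [e1, e2, e3]
  by_cases hi : v i < c i <;> by_cases hj : v j < c j
  · refine ⟨(v, i, j), hij, ?_, ?_⟩
    · simp only [sqc, sqEd, sqTw, if_pos hi, if_pos hj]
    · intro u hu
      simp only [verts, mem_insert, mem_singleton] at hu
      simp only [sqTw, if_pos hi, if_pos hj]
      exact hu
  · refine ⟨(v - ev j, i, j), hij, ?_, ?_⟩
    · simp only [sqc, sqEd, sqTw, if_pos hi, if_neg hj]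
      have a1 : v - ev j + ev j = v := sub_add_cancel _ _
      have a2 : v - ev j + ev i = v + ev i - ev j := by abel
      rw [a1, a2]
      abel
    · intro u hu
      simp only [verts, mem_insert, mem_singleton] at hu
      simp only [sqTw, if_pos hi, if_neg hj]
      have a1 : v - ev j + ev j = v := sub_add_cancel _ _
      have a2 : v - ev j + ev i = v + ev i - ev j := by abel
      have a3 : v - ev j + ev i + ev j = v + ev i := by abel
      rw [a3, a1, a2] at hu
      rcases hu with h | h | h | h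
      · exact Or.inr (Or.inr (Or.inl h))
      · exact Or.inr (Or.inr (Or.inr h))
      · exact Or.inl h
      · exact Or.inr (Or.inl h)
  · refine ⟨(v - ev i, i, j), hij, ?_, ?_⟩
    · simp only [sqc, sqEd, sqTw, if_neg hi, if_pos hj]
      have a1 : v - ev i + ev i = v := sub_add_cancel _ _
      have a2 : v - ev i + ev j = v + ev j - ev i := by abel
      rw [a1, a2]
      abel
    · intro u hu
      simp only [verts, mem_insert, mem_singleton] at hu
      simp only [sqTw, if_neg hi, if_pos hj]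
      have a1 : v - ev i + ev i = v := sub_add_cancel _ _
      rw [a1] at hu
      rcases hu with h | h | h | h
      · exact Or.inr (Or.inl h)
      · exact Or.inl h
      · exact Or.inr (Or.inr (Or.inr h))
      · exact Or.inr (Or.inr (Or.inl h))
  · refine ⟨(v - ev i - ev j, i, j), hij, ?_, ?_⟩
    · simp only [sqc, sqEd, sqTw, if_neg hi, if_neg hj]
      have a1 : v - ev i - ev j + ev i = v - ev j := by abel
      have a2 : v - ev i - ev j + ev j = v - ev i := by abel
      have a3 : v - ev j - ev i = v - ev i - ev j := by abel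
      rw [a1, a2, a3]
      abel
    · intro u hu
      simp only [verts, mem_insert, mem_singleton] at hu
      simp only [sqTw, if_neg hi, if_neg hj]
      have a1 : v - ev i - ev j + ev i = v - ev j := by abel
      have a2 : v - ev i - ev j + ev j = v - ev i := by abel
      rw [a1, a2, sub_add_cancel] at hu
      rcases hu with h | h | h | h
      · exact Or.inr (Or.inr (Or.inr h))
      · exact Or.inr (Or.inr (Or.inl h))
      · exact Or.inr (Or.inl h)
      · exact Or.inl h

/-- the square at `v` with directions `i ≠ j`, toward `c` -/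
theorem sq_exists (c v : V D) {i j : Fin (D + 3)} (hij : i ≠ j) :
    ∃ F : Sq D, F.2.1 < F.2.2 ∧
      sqc F = dl (sqEd c v i) + dl (sqEd c v j) + dl (sqEd c (sqTw c v i) j) +
        dl (sqEd c (sqTw c v j) i) ∧
      ∀ u ∈ verts F, u = v ∨ u = sqTw c v i ∨ u = sqTw c v j ∨ u = sqTw c (sqTw c v i) j := by
  rcases lt_or_gt_of_ne hij with h | h
  · exact sq_exists_lt c v h
  · obtain ⟨F, hF, h1, h2⟩ := sq_exists_lt c v h
    refine ⟨F, hF, ?_, ?_⟩
    · rw [h1]
      abel
    · intro u hu
      rw [sqTw_comm c v hij]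
      rcases h2 u hu with h | h | h | h
      · exact Or.inl h
      · exact Or.inr (Or.inr (Or.inl h))
      · exact Or.inr (Or.inl h)
      · exact Or.inr (Or.inr (Or.inr h))

/-! ### the potential -/

/-- the potential of a chain -/
noncomputable def sqPhi (c : V D) (n : ℕ) (y : Ch D) : ℕ :=
  ∑ e ∈ edges D n, if y e = 0 then 0 else 3 ^ sqLev c e

theorem sqPhi_add_le (c : V D) (n : ℕ) (y : Ch D) (l : E D) :
    sqPhi c n (y + dl l) ≤ sqPhi c n y + 3 ^ sqLev c l := by
  have h1 : sqPhi c n (y + dl l) ≤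
      ∑ e ∈ edges D n, ((if y e = 0 then 0 else 3 ^ sqLev c e) +
        if e = l then 3 ^ sqLev c l else 0) := by
    unfold sqPhi
    refine Finset.sum_le_sum fun e _ => ?_
    by_cases he : e = l
    · subst he
      rw [if_pos rfl]
      split_ifs
      · exact Nat.zero_le _
      · exact Nat.zero_le _
      · exact Nat.le_add_left _ _
      · exact Nat.le_add_left _ _
    · rw [if_neg he, Pi.add_apply, dl_ne he, add_zero, add_zero]
  refine h1.trans ?_
  rw [Finset.sum_add_distrib]
  have h2 : ∑ e ∈ edges D n, (if e = l then 3 ^ sqLev c l else 0) ≤ 3 ^ sqLev c l := by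
    rw [Finset.sum_ite_eq']
    split_ifs
    · exact le_rfl
    · exact Nat.zero_le _
  unfold sqPhi
  omega

theorem sqPhi_sub (c : V D) (n : ℕ) (y : Ch D) (a : E D) (ha : a ∈ edges D n) (hy : y a ≠ 0) :
    sqPhi c n (y + dl a) + 3 ^ sqLev c a = sqPhi c n y := by
  have h2 : ∑ e ∈ edges D n, (if e = a then 3 ^ sqLev c a else 0) = 3 ^ sqLev c a := by
    rw [Finset.sum_ite_eq', if_pos ha]
  rw [← h2]
  unfold sqPhi
  rw [← Finset.sum_add_distrib]
  refine Finset.sum_congr rfl fun e _ => ?_
  by_cases he : e = a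
  · subst he
    have h3 : y e = 1 := by
      have : ∀ b : ZMod 2, b ≠ 0 → b = 1 := by decide
      exact this _ hy
    have h4 : (y + dl e) e = 0 := by
      rw [Pi.add_apply, dl_self, h3]
      decide
    rw [if_pos h4, if_pos rfl, if_neg hy, zero_add]
  · rw [if_neg he, Pi.add_apply, dl_ne he, add_zero, add_zero]

/-! ### sums of squares -/

/-- sums of squares avoiding the closure of `W` -/
def SqGood (n : ℕ) (W : Finset (V D)) (y : Ch D) : Prop :=
  ∃ S ⊆ sqs D n, (∀ F ∈ S, Av W F) ∧ y = ∑ F ∈ S, sqc F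

theorem SqGood.zero (n : ℕ) (W : Finset (V D)) : SqGood n W (0 : Ch D) :=
  ⟨∅, Finset.empty_subset _, by simp, by simp⟩

theorem SqGood.add {n : ℕ} {W : Finset (V D)} {y : Ch D} (hy : SqGood n W y) {F : Sq D}
    (hF : F ∈ sqs D n) (hA : Av W F) : SqGood n W (y + sqc F) := by
  obtain ⟨S, hS, hSA, rfl⟩ := hy
  by_cases h : F ∈ S
  · refine ⟨S.erase F, (Finset.erase_subset F S).trans hS,
      fun G hG => hSA G (Finset.mem_of_mem_erase hG), ?_⟩
    rw [← Finset.add_sum_erase S sqc h]
    have : sqc F + ∑ x ∈ S.erase F, sqc x + sqc F = ∑ x ∈ S.erase F, sqc x + (sqc F + sqc F) := by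
      abel
    rw [this, add_self_fun, add_zero]
  · refine ⟨insert F S, ?_, ?_, ?_⟩
    · intro G hG
      rcases Finset.mem_insert.1 hG with rfl | hG
      · exact hF
      · exact hS hG
    · intro G hG
      rcases Finset.mem_insert.1 hG with rfl | hG
      · exact hA
      · exact hSA G hG
    · rw [Finset.sum_insert h, add_comm]

theorem SqGood.of_add {n : ℕ} {W : Finset (V D)} {y : Ch D} {F : Sq D}
    (hy : SqGood n W (y + sqc F)) (hF : F ∈ sqs D n) (hA : Av W F) : SqGood n W y := by
  have h := hy.add hF hA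
  rw [add_assoc, add_self_fun, add_zero] at h
  exact h

/-- a third coordinate -/
theorem sq_third (i j : Fin (D + 3)) : ∃ k : Fin (D + 3), k ≠ i ∧ k ≠ j := by
  have h : ({i, j} : Finset (Fin (D + 3))).card < (univ : Finset (Fin (D + 3))).card := by
    have := Finset.card_le_two (a := i) (b := j)
    rw [Finset.card_univ, Fintype.card_fin]
    omega
  obtain ⟨k, _, hk⟩ := Finset.exists_mem_notMem_of_card_lt_card h
  rw [Finset.mem_insert, Finset.mem_singleton] at hk
  push Not at hk
  exact ⟨k, hk.1, hk.2⟩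

theorem sq_key {n : ℕ} {W : Finset (V D)} {c : V D} (hc : c ∈ box D n)
    (hcW : ∀ k, ∀ w ∈ W, w k ≠ c k) (N : ℕ) :
    ∀ y : Ch D, sqPhi c n y = N → Supp n y → bd y = 0 → (∀ e, Inc W e → y e = 0) →
      SqGood n W y := by
  induction N using Nat.strong_induction_on with
  | _ N ih =>
    intro y hN hs hb h0
    by_cases hy0 : ∀ e, y e = 0
    · have : y = 0 := funext hy0
      rw [this]
      exact SqGood.zero n W
    push Not at hy0
    -- an edge of maximal level
    have hne : ((edges D n).filter fun e => y e ≠ 0).Nonempty := by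
      obtain ⟨e, he⟩ := hy0
      refine ⟨e, mem_filter.2 ⟨?_, he⟩⟩
      by_contra h
      exact he (hs e h)
    obtain ⟨e0, he0, hmax0⟩ := Finset.exists_max_image _ (sqLev c) hne
    rw [mem_filter] at he0
    set v := sqTop c e0 with hv
    set i := e0.2 with hi
    have hvi : v i ≠ c i := sqTop_ne c e0
    have hei : sqEd c v i = e0 := sqEd_top c e0
    have hlev : sqLev c e0 = sqMu c v := rfl
    have hmax : ∀ e, sqMu c v < sqLev c e → y e = 0 := by
      intro e he
      by_contra hne'
      have hmem : e ∈ edges D n := by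
        by_contra h
        exact hne' (hs e h)
      have := hmax0 e (mem_filter.2 ⟨hmem, hne'⟩)
      omega
    have hterm : ∀ k, y (v, k) + y (v - ev k, k) = if v k = c k then 0 else y (sqEd c v k) := by
      intro k
      rcases lt_trichotomy (v k) (c k) with h | h | h
      · rw [if_neg h.ne, sqEd, if_pos h, hmax (v - ev k, k) (by rw [sqLev_up' c v k h.le]; omega),
          add_zero]
      · rw [if_pos h, hmax (v, k) (by rw [sqLev_up c v k (by omega)]; omega),
          hmax (v - ev k, k) (by rw [sqLev_up' c v k h.le]; omega), add_zero]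
      · rw [if_neg h.ne', sqEd, if_neg (by omega),
          hmax (v, k) (by rw [sqLev_up c v k (by omega)]; omega), zero_add]
    have hsum : ∑ k, (if v k = c k then 0 else y (sqEd c v k)) = 0 := by
      have := congrFun hb v
      rw [bd] at this
      rw [← Finset.sum_congr rfl fun k _ => hterm k]
      exact this
    -- a second direction
    obtain ⟨j, hji, hvj, hyj⟩ : ∃ j, j ≠ i ∧ v j ≠ c j ∧ y (sqEd c v j) ≠ 0 := by
      by_contra hcon
      push Not at hcon
      rw [Finset.sum_eq_single i] at hsum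
      · rw [if_neg hvi, hei] at hsum
        exact he0.2 hsum
      · intro j _ hj
        by_cases h : v j = c j
        · rw [if_pos h]
        · rw [if_neg h]
          exact hcon j hj h
      · intro h
        exact absurd (mem_univ i) h
    have hyi : y (sqEd c v i) ≠ 0 := by rw [hei]; exact he0.2
    have hai : sqEd c v i ∈ edges D n := by rw [hei]; exact he0.1
    have haj : sqEd c v j ∈ edges D n := by
      by_contra h
      exact hyj (hs _ h)
    have hab : sqEd c v j ≠ sqEd c v i := by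
      intro h
      have := congrArg Prod.snd h
      rw [sqEd_snd, sqEd_snd] at this
      exact hji this
    have hvbox : v ∈ box D n := sqEd_edges c v i hai
    obtain ⟨hclv, hcli⟩ := sqEd_inc (W := W) c v i (fun h => hyi (h0 _ h))
    obtain ⟨-, hclj⟩ := sqEd_inc (W := W) c v j (fun h => hyj (h0 _ h))
    have hbi := sqTw_box hc hvbox hvi
    have hbj := sqTw_box hc hvbox hvj
    -- the two top edges are removed
    have hphi1 := sqPhi_sub c n y (sqEd c v i) hai hyi
    have hyj' : (y + dl (sqEd c v i)) (sqEd c v j) ≠ 0 := by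
      rw [Pi.add_apply, dl_ne hab, add_zero]
      exact hyj
    have hphi2 := sqPhi_sub c n (y + dl (sqEd c v i)) (sqEd c v j) haj hyj'
    rw [sqLev_ed c hvi] at hphi1
    rw [sqLev_ed c hvj] at hphi2
    have hmi := sqMu_tw c hvi
    have hmj := sqMu_tw c hvj
    have hpow : 3 ^ sqMu c v = 3 * 3 ^ sqMu c (sqTw c v i) := by
      rw [← hmi, pow_succ, mul_comm]
    have hpos : 0 < 3 ^ sqMu c (sqTw c v i) := pow_pos (by norm_num) _
    have hmij : sqMu c (sqTw c v j) = sqMu c (sqTw c v i) := by omega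
    have hij : i ≠ j := hji.symm
    by_cases hcl : Cl W (sqTw c (sqTw c v i) j)
    · -- use a third direction
      obtain ⟨k, hki, hkj⟩ := sq_third i j
      have hvj' : ¬ ∃ w ∈ W, v j = w j := by
        intro hw
        apply hcli
        intro l
        by_cases hl : l = j
        · subst hl
          rw [sqTw_ne c v hji]
          exact hw
        · obtain ⟨w, hw, hwl⟩ := hcl l
          rw [sqTw_ne c _ hl] at hwl
          exact ⟨w, hw, hwl⟩
      have hvi' : ¬ ∃ w ∈ W, v i = w i := by
        intro hw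
        apply hclj
        intro l
        by_cases hl : l = i
        · subst hl
          rw [sqTw_ne c v hij]
          exact hw
        · obtain ⟨w, hw, hwl⟩ := hcl l
          rw [sqTw_comm c v hij, sqTw_ne c _ hl] at hwl
          exact ⟨w, hw, hwl⟩
      have hvk : v k ≠ c k := by
        obtain ⟨w, hw, hwk⟩ := hcl k
        rw [sqTw_ne c _ hkj, sqTw_ne c _ hki] at hwk
        rw [hwk]
        exact hcW k w hw
      have hmk := sqMu_tw c hvk
      have hmik : sqMu c (sqTw c v k) = sqMu c (sqTw c v i) := by omega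
      have hbk := sqTw_box hc hvbox hvk
      have hclk : ¬ Cl W (sqTw c v k) := by
        intro h
        have := h i
        rw [sqTw_ne c v hki.symm] at this
        exact hvi' this
      have hclik : ¬ Cl W (sqTw c (sqTw c v i) k) := by
        intro h
        have := h j
        rw [sqTw_ne c _ hkj.symm, sqTw_ne c v hji] at this
        exact hvj' this
      have hcljk : ¬ Cl W (sqTw c (sqTw c v j) k) := by
        intro h
        have := h i
        rw [sqTw_ne c _ hki.symm, sqTw_ne c v hij] at this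
        exact hvi' this
      obtain ⟨F, hF, hFc, hFv⟩ := sq_exists c v hki.symm
      obtain ⟨F', hF', hFc', hFv'⟩ := sq_exists c v hkj.symm
      have hbik : sqTw c (sqTw c v i) k ∈ box D n :=
        sqTw_box hc hbi (by rw [sqTw_ne c v hki]; exact hvk)
      have hbjk : sqTw c (sqTw c v j) k ∈ box D n :=
        sqTw_box hc hbj (by rw [sqTw_ne c v hkj]; exact hvk)
      have hFs : F ∈ sqs D n := by
        rw [mem_sqs]
        refine ⟨hF, fun u hu => ?_⟩
        rcases hFv u hu with rfl | rfl | rfl | rfl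
        · exact hvbox
        · exact hbi
        · exact hbk
        · exact hbik
      have hFs' : F' ∈ sqs D n := by
        rw [mem_sqs]
        refine ⟨hF', fun u hu => ?_⟩
        rcases hFv' u hu with rfl | rfl | rfl | rfl
        · exact hvbox
        · exact hbj
        · exact hbk
        · exact hbjk
      have hFA : Av W F := by
        intro u hu
        rcases hFv u hu with rfl | rfl | rfl | rfl
        · exact hclv
        · exact hcli
        · exact hclk
        · exact hclik
      have hFA' : Av W F' := by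
        intro u hu
        rcases hFv' u hu with rfl | rfl | rfl | rfl
        · exact hclv
        · exact hclj
        · exact hclk
        · exact hcljk
      have hyy : y + sqc F + sqc F' = y + dl (sqEd c v i) + dl (sqEd c v j) +
          dl (sqEd c (sqTw c v i) k) + dl (sqEd c (sqTw c v k) i) +
          dl (sqEd c (sqTw c v j) k) + dl (sqEd c (sqTw c v k) j) := by
        rw [hFc, hFc']
        have : ∀ a b p q r s t : Ch D, y + (a + p + q + r) + (b + p + s + t) =
            y + a + b + q + r + s + t + (p + p) := by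
          intro a b p q r s t
          abel
        rw [this, add_self_fun, add_zero]
      have hlt : sqPhi c n (y + sqc F + sqc F') < sqPhi c n y := by
        rw [hyy]
        have p1 := sqPhi_add_le c n (y + dl (sqEd c v i) + dl (sqEd c v j))
          (sqEd c (sqTw c v i) k)
        have p2 := sqPhi_add_le c n (y + dl (sqEd c v i) + dl (sqEd c v j) +
          dl (sqEd c (sqTw c v i) k)) (sqEd c (sqTw c v k) i)
        have p3 := sqPhi_add_le c n (y + dl (sqEd c v i) + dl (sqEd c v j) +
          dl (sqEd c (sqTw c v i) k) + dl (sqEd c (sqTw c v k) i)) (sqEd c (sqTw c v j) k)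
        have p4 := sqPhi_add_le c n (y + dl (sqEd c v i) + dl (sqEd c v j) +
          dl (sqEd c (sqTw c v i) k) + dl (sqEd c (sqTw c v k) i) +
          dl (sqEd c (sqTw c v j) k)) (sqEd c (sqTw c v k) j)
        rw [sqLev_ed c (by rw [sqTw_ne c v hki]; exact hvk)] at p1
        rw [sqLev_ed c (by rw [sqTw_ne c v hki.symm]; exact hvi), hmik] at p2
        rw [sqLev_ed c (by rw [sqTw_ne c v hkj]; exact hvk), hmij] at p3
        rw [sqLev_ed c (by rw [sqTw_ne c v hkj.symm]; exact hvj), hmik] at p4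
        omega
      have hgood := ih _ (hN ▸ hlt) (y + sqc F + sqc F') rfl
        ((hs.add (supp_sqc hFs)).add (supp_sqc hFs'))
        (by rw [bd_add, bd_add, bd_sqc, bd_sqc, hb, add_zero, add_zero])
        (fun e he => by
          rw [Pi.add_apply, Pi.add_apply, h0 e he, sqc_eq_zero_of_av hFA he,
            sqc_eq_zero_of_av hFA' he, add_zero, add_zero])
      exact (hgood.of_add hFs' hFA').of_add hFs hFA
    · obtain ⟨F, hF, hFc, hFv⟩ := sq_exists c v hij
      have hbij : sqTw c (sqTw c v i) j ∈ box D n :=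
        sqTw_box hc hbi (by rw [sqTw_ne c v hji]; exact hvj)
      have hFs : F ∈ sqs D n := by
        rw [mem_sqs]
        refine ⟨hF, fun u hu => ?_⟩
        rcases hFv u hu with rfl | rfl | rfl | rfl
        · exact hvbox
        · exact hbi
        · exact hbj
        · exact hbij
      have hFA : Av W F := by
        intro u hu
        rcases hFv u hu with rfl | rfl | rfl | rfl
        · exact hclv
        · exact hcli
        · exact hclj
        · exact hcl
      have hyy : y + sqc F = y + dl (sqEd c v i) + dl (sqEd c v j) +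
          dl (sqEd c (sqTw c v i) j) + dl (sqEd c (sqTw c v j) i) := by
        rw [hFc]
        abel
      have hlt : sqPhi c n (y + sqc F) < sqPhi c n y := by
        rw [hyy]
        have p1 := sqPhi_add_le c n (y + dl (sqEd c v i) + dl (sqEd c v j))
          (sqEd c (sqTw c v i) j)
        have p2 := sqPhi_add_le c n (y + dl (sqEd c v i) + dl (sqEd c v j) +
          dl (sqEd c (sqTw c v i) j)) (sqEd c (sqTw c v j) i)
        rw [sqLev_ed c (by rw [sqTw_ne c v hji]; exact hvj)] at p1
        rw [sqLev_ed c (by rw [sqTw_ne c v hij]; exact hvi), hmij] at p2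
        omega
      have hgood := ih _ (hN ▸ hlt) (y + sqc F) rfl (hs.add (supp_sqc hFs))
        (by rw [bd_add, bd_sqc, hb, add_zero])
        (fun e he => by
          rw [Pi.add_apply, h0 e he, sqc_eq_zero_of_av hFA he, add_zero])
      exact hgood.of_add hFs hFA

/-- a coordinate value in the box that is not used by `W` -/
theorem sq_exists_c {n : ℕ} {W : Finset (V D)} (hW : W.card < n) (k : Fin (D + 3)) :
    ∃ x : ℤ, (0 ≤ x ∧ x < n) ∧ ∀ w ∈ W, w k ≠ x := by
  have h : (W.image fun w => w k).card < (Finset.Ico (0 : ℤ) n).card := by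
    rw [Int.card_Ico]
    have := Finset.card_image_le (s := W) (f := fun w => w k)
    omega
  obtain ⟨x, hx, hx'⟩ := Finset.exists_mem_notMem_of_card_lt_card h
  rw [Finset.mem_Ico] at hx
  refine ⟨x, hx, fun w hw he => hx' ?_⟩
  rw [Finset.mem_image]
  exact ⟨w, hw, he⟩

/-- **(G2)** a closed chain avoiding the closure of `W` is a sum of squares avoiding it -/
theorem exists_squares {n : ℕ} {W : Finset (V D)} (hW : W.card < n) {y : Ch D} (hy : Supp n y)
    (hb : bd y = 0) (h0 : ∀ e, Inc W e → y e = 0) :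
    ∃ S ⊆ sqs D n, (∀ F ∈ S, Av W F) ∧ y = ∑ F ∈ S, sqc F := by
  choose c hc hcW using fun k => sq_exists_c (n := n) (W := W) hW k
  exact sq_key (c := c) (mem_box.2 hc) hcW _ y rfl hy hb h0

end FrS
end

section

/-!
Degree with respect to squares.
-/

set_option linter.unusedSectionVars false

namespace FrS

open Finset
open scoped Classical

variable {D : ℕ}

/-- `0/1` value of a Boolean -/
def bz (b : Bool) : ℤ := if b then 1 else 0

/-- iterated difference of `f` along the squares of `T` -/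
noncomputable def Df (T : Finset (Sq D)) (f : Ch D → ℤ) (y : Ch D) : ℤ :=
  ∑ S ∈ T.powerset, (-1) ^ S.card * f (y + ∑ F ∈ S, sqc F)

/-- `f` has degree less than `q` on `Yt n t` -/
def DegLt (n q : ℕ) (t : V D) (f : Ch D → ℤ) : Prop :=
  ∀ T ⊆ sqs D n, q ≤ T.card → ∀ y, Yt n t y → Df T f y = 0

/-- iterated difference along an indexed family of chains -/
noncomputable def DI {ι : Type} (T : Finset ι) (c : ι → Ch D) (f : Ch D → ℤ) (y : Ch D) : ℤ :=
  ∑ S ∈ T.powerset, (-1) ^ S.card * f (y + ∑ F ∈ S, c F)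

theorem Df_eq_DI (T : Finset (Sq D)) (f : Ch D → ℤ) (y : Ch D) : Df T f y = DI T sqc f y := rfl

theorem DI_empty {ι : Type} (c : ι → Ch D) (f : Ch D → ℤ) (y : Ch D) :
    DI (∅ : Finset ι) c f y = f y := by
  simp [DI]

theorem DI_insert {ι : Type} [DecidableEq ι] {T : Finset ι} {i : ι} (hi : i ∉ T) (c : ι → Ch D)
    (f : Ch D → ℤ)
    (y : Ch D) : DI (insert i T) c f y = DI T c f y - DI T c f (y + c i) := by
  unfold DI
  rw [Finset.sum_powerset_insert hi, sub_eq_add_neg, ← Finset.sum_neg_distrib]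
  congr 1
  refine Finset.sum_congr rfl fun S hS => ?_
  have hiS : i ∉ S := fun h => hi (mem_powerset.1 hS h)
  rw [Finset.card_insert_of_notMem hiS, Finset.sum_insert hiS, pow_succ, ← add_assoc]
  ring

theorem DI_sub {ι : Type} (T : Finset ι) (c : ι → Ch D) (f g : Ch D → ℤ) (y : Ch D) :
    DI T c (fun z => f z - g z) y = DI T c f y - DI T c g y := by
  unfold DI
  rw [← Finset.sum_sub_distrib]
  exact Finset.sum_congr rfl fun S _ => by ring

theorem DI_shift {ι : Type} (T : Finset ι) (c : ι → Ch D) (f : Ch D → ℤ) (y z : Ch D) :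
    DI T c (fun w => f (w + z)) y = DI T c f (y + z) := by
  unfold DI
  refine Finset.sum_congr rfl fun S _ => ?_
  rw [add_right_comm]

theorem Df_empty (f : Ch D → ℤ) (y : Ch D) : Df (∅ : Finset (Sq D)) f y = f y := DI_empty _ _ _

theorem Df_insert {T : Finset (Sq D)} {F : Sq D} (hF : F ∉ T) (f : Ch D → ℤ) (y : Ch D) :
    Df (insert F T) f y = Df T f y - Df T f (y + sqc F) := DI_insert hF _ _ _

theorem Df_add_mem {T : Finset (Sq D)} {F : Sq D} (hF : F ∈ T) (f : Ch D → ℤ) (y : Ch D) :
    Df T f (y + sqc F) = - Df T f y := by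
  have h1 : T = insert F (T.erase F) := (Finset.insert_erase hF).symm
  have h2 : F ∉ T.erase F := Finset.notMem_erase F T
  rw [h1, Df_insert h2, Df_insert h2, add_assoc y, add_self_fun, add_zero]
  ring

/-- **maximality trick** -/
theorem exists_maximal {n : ℕ} {t : V D} (ht : t ∈ box D n) (f : Ch D → ℤ) {T₀ : Finset (Sq D)}
    (hT₀ : T₀ ⊆ sqs D n) {y₀ : Ch D} (hy₀ : Yt n t y₀) (h : Df T₀ f y₀ ≠ 0) :
    ∃ T, T₀ ⊆ T ∧ T ⊆ sqs D n ∧ ∀ y, Yt n t y → Df T f y ≠ 0 := by
  have hn : 0 < n := by
    have h1 := (mem_box.1 ht) 0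
    have : (0 : ℤ) < n := lt_of_le_of_lt h1.1 h1.2
    exact_mod_cast this
  set P := (sqs D n).powerset.filter (fun T => T₀ ⊆ T ∧ ∃ y, Yt n t y ∧ Df T f y ≠ 0) with hP
  have hne : P.Nonempty := ⟨T₀, by
    rw [hP, mem_filter, mem_powerset]
    exact ⟨hT₀, subset_rfl, y₀, hy₀, h⟩⟩
  obtain ⟨T, hT, hmax⟩ := Finset.exists_max_image P (fun T => T.card) hne
  rw [hP, mem_filter, mem_powerset] at hT
  obtain ⟨hTs, hT0, y₁, hy₁, hD⟩ := hT
  refine ⟨T, hT0, hTs, ?_⟩
  -- one step
  have step : ∀ F ∈ sqs D n, ∀ y, Yt n t y → Df T f y ≠ 0 → Df T f (y + sqc F) ≠ 0 := by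
    intro F hF y hy hDy
    by_cases hFT : F ∈ T
    · rw [Df_add_mem hFT]
      exact neg_ne_zero.2 hDy
    · have h0 : Df (insert F T) f y = 0 := by
        by_contra hcon
        have hin : insert F T ∈ P := by
          rw [hP, mem_filter, mem_powerset]
          refine ⟨Finset.insert_subset hF hTs, hT0.trans (Finset.subset_insert _ _), y, hy, hcon⟩
        have := hmax _ hin
        rw [Finset.card_insert_of_notMem hFT] at this
        omega
      rw [Df_insert hFT] at h0
      have : Df T f (y + sqc F) = Df T f y := by linarith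
      rw [this]; exact hDy
  have multi : ∀ S : Finset (Sq D), S ⊆ sqs D n → Df T f (y₁ + ∑ F ∈ S, sqc F) ≠ 0 := by
    intro S
    induction S using Finset.induction_on with
    | empty => intro _; simpa using hD
    | insert F S hFS ih =>
      intro hS
      have hF : F ∈ sqs D n := hS (Finset.mem_insert_self _ _)
      have hS' : S ⊆ sqs D n := (Finset.subset_insert _ _).trans hS
      rw [Finset.sum_insert hFS, add_comm (sqc F), ← add_assoc]
      exact step F hF _ (hy₁.add_sum hS') (ih hS')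
  intro y hy
  obtain ⟨hs, hb⟩ := hy₁.sub_closed hy
  obtain ⟨S, hS, -, hyS⟩ := exists_squares (W := (∅ : Finset (V D))) (by simpa using hn) hs hb
    (fun e he => absurd he not_inc_empty)
  have hy' : y = y₁ + ∑ F ∈ S, sqc F := by
    rw [← hyS, ← add_assoc, add_self_fun, zero_add]
  rw [hy']
  exact multi S hS

/-- a nonzero function of degree less than `q` has density at least `2 ^ (-q)` -/
theorem density {n q : ℕ} {t : V D} (ht : t ∈ box D n) (f : Ch D → ℤ) (hf : DegLt n q t f)
    {y₀ : Ch D} (hy₀ : Yt n t y₀) (h : f y₀ ≠ 0) :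
    (YF n t).card ≤ 2 ^ q * ((YF n t).filter fun y => f y ≠ 0).card := by
  obtain ⟨T, -, hT, hD⟩ := exists_maximal ht f (T₀ := ∅) (Finset.empty_subset _) hy₀
    (by rw [Df_empty]; exact h)
  have hTq : T.card < q := by
    by_contra hcon
    push Not at hcon
    exact hD y₀ hy₀ (hf T hT hcon y₀ hy₀)
  set A := (YF n t).filter fun y => f y ≠ 0 with hA
  have hsub : YF n t ⊆ T.powerset.biUnion (fun S => A.image (fun z => z + ∑ F ∈ S, sqc F)) := by
    intro y hy
    rw [mem_YF] at hy
    obtain ⟨S, hS, hne⟩ := Finset.exists_ne_zero_of_sum_ne_zero (hD y hy)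
    rw [mem_biUnion]
    refine ⟨S, hS, ?_⟩
    rw [mem_image]
    refine ⟨y + ∑ F ∈ S, sqc F, ?_, ?_⟩
    · rw [hA, mem_filter, mem_YF]
      exact ⟨hy.add_sum ((mem_powerset.1 hS).trans hT), fun h0 => hne (by rw [h0, mul_zero])⟩
    · rw [add_assoc, add_self_fun, add_zero]
  calc (YF n t).card ≤ (T.powerset.biUnion
        (fun S => A.image (fun z => z + ∑ F ∈ S, sqc F))).card := Finset.card_le_card hsub
    _ ≤ T.powerset.card * A.card := Finset.card_biUnion_le_card_mul _ _ _
        (fun S _ => Finset.card_image_le)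
    _ = 2 ^ T.card * A.card := by rw [Finset.card_powerset]
    _ ≤ 2 ^ q * A.card := Nat.mul_le_mul_right _ (Nat.pow_le_pow_right (by norm_num) hTq.le)

/-- disjoint blocks: the difference along the sums of `q` disjoint blocks vanishes -/
theorem block_diff {n q r : ℕ} {t : V D} (f : Ch D → ℤ) (hf : DegLt n q t f) {y : Ch D}
    (hy : Yt n t y) (B : Fin r → Finset (Sq D)) (hB : ∀ i, B i ⊆ sqs D n)
    (hdis : ∀ i j, i ≠ j → Disjoint (B i) (B j)) (I : Finset (Fin r)) (hI : q ≤ I.card) :
    ∑ J ∈ I.powerset, (-1) ^ J.card * f (y + ∑ i ∈ J, ∑ F ∈ B i, sqc F) = 0 := by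
  set c : Fin r → Ch D := fun i => ∑ F ∈ B i, sqc F with hc
  have key : ∀ (I : Finset (Fin r)) (T : Finset (Sq D)), T ⊆ sqs D n →
      (∀ i ∈ I, Disjoint T (B i)) → q ≤ T.card + I.card → ∀ y, Yt n t y →
      Df T (DI I c f) y = 0 := by
    intro I
    induction I using Finset.induction_on with
    | empty =>
      intro T hT _ hq y hy
      have : DI (∅ : Finset (Fin r)) c f = f := by
        funext z; exact DI_empty _ _ _
      rw [this]
      exact hf T hT (by simpa using hq) y hy
    | insert i I hi ih =>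
      intro T hT hTd hq y hy
      have hg : DI (insert i I) c f = fun z => DI I c f z - DI I c f (z + c i) := by
        funext z; exact DI_insert hi _ _ _
      rw [hg]
      set g := DI I c f with hgdef
      have inner : ∀ B' : Finset (Sq D), B' ⊆ B i →
          Df T (fun z => g z - g (z + ∑ F ∈ B', sqc F)) y = 0 := by
        intro B'
        induction B' using Finset.induction_on with
        | empty =>
          intro _
          simp [Df]
        | insert F B' hF ihB =>
          intro hsub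
          have hFB : F ∈ B i := hsub (Finset.mem_insert_self _ _)
          have hB' : B' ⊆ B i := (Finset.subset_insert _ _).trans hsub
          have hFT : F ∉ T := fun h =>
            (Finset.disjoint_left.1 (hTd i (Finset.mem_insert_self _ _)) h) hFB
          have e1 : (fun z => g z - g (z + ∑ F ∈ insert F B', sqc F)) =
              fun z => (g z - g (z + ∑ F ∈ B', sqc F)) -
                (g ((z + ∑ F ∈ B', sqc F) + sqc F) - g (z + ∑ F ∈ B', sqc F)) := by
            funext z
            rw [Finset.sum_insert hF, add_comm (sqc F), ← add_assoc]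
            ring
          rw [e1, Df_eq_DI, DI_sub, ← Df_eq_DI, ihB hB', zero_sub, neg_eq_zero, DI_sub]
          have e2 : DI T sqc (fun z => g (z + ∑ F ∈ B', sqc F + sqc F)) y =
              DI T sqc g (y + ∑ F ∈ B', sqc F + sqc F) := by
            have := DI_shift T sqc g y (∑ F ∈ B', sqc F + sqc F)
            rw [← add_assoc] at this
            rw [← this]
            congr 1
            funext z
            rw [← add_assoc]
          rw [e2, DI_shift]
          have e3 := ih (insert F T) (Finset.insert_subset (hB i hFB) hT)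
            (fun j hj => by
              rw [Finset.disjoint_insert_left]
              refine ⟨fun h => ?_, hTd j (Finset.mem_insert_of_mem hj)⟩
              have hij : i ≠ j := fun e => hi (e ▸ hj)
              exact (Finset.disjoint_left.1 (hdis i j hij) hFB) h)
            (by
              rw [Finset.card_insert_of_notMem hFT]
              rw [Finset.card_insert_of_notMem hi] at hq
              omega)
            (y + ∑ F ∈ B', sqc F) (hy.add_sum (hB'.trans (hB i)))
          rw [Df_insert hFT, Df_eq_DI, Df_eq_DI] at e3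
          linarith
      exact inner (B i) subset_rfl
  have := key I ∅ (Finset.empty_subset _) (fun i _ => Finset.disjoint_empty_left _)
    (by simpa using hI) y hy
  rw [Df_empty] at this
  exact this

end FrS
end

section

/-!
Relocation of the violated vertex.
-/

set_option linter.unusedSectionVars false

namespace FrS

open Finset
open scoped Classical

variable {D : ℕ}

/-- some edge of the list touches the hyperplane `h` -/
def Tl (T : ℕ) (L : List (E D)) (h : ℤ) : Prop := ∃ z ∈ L, tch T z h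

/-- no edge of the list has an endpoint in the hyperplane `h` -/
def Far (L : List (E D)) (h : ℤ) : Prop := ∀ e ∈ L, e.1 0 ≠ h ∧ (e.1 + ev e.2) 0 ≠ h

/-- no point of `W` is in the hyperplane `h` -/
def Off (W : Finset (V D)) (h : ℤ) : Prop := ∀ w ∈ W, w 0 ≠ h

/-- `y` and `y'` agree on the edges that meet the closure of `W` -/
def Agr (W : Finset (V D)) (y y' : Ch D) : Prop := ∀ e, Inc W e → y e = y' e

/-- a coordinate avoiding a finite set and finitely many triples -/
theorem reloc_exists_free (n : ℕ) (A B : Finset ℤ) (h : A.card + 3 * B.card < n) :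
    ∃ c : ℤ, 0 ≤ c ∧ c < n ∧ c ∉ A ∧ ∀ z ∈ B, ¬ (z - 1 ≤ c ∧ c ≤ z + 1) := by
  have hbad : (A ∪ B.biUnion fun z => Finset.Icc (z - 1) (z + 1)).card <
      (Finset.Ico (0 : ℤ) n).card := by
    have h1 : (B.biUnion fun z => Finset.Icc (z - 1) (z + 1)).card ≤ B.card * 3 := by
      apply Finset.card_biUnion_le_card_mul
      intro z _
      rw [Int.card_Icc]
      omega
    have h2 := Finset.card_union_le A (B.biUnion fun z => Finset.Icc (z - 1) (z + 1))
    rw [Int.card_Ico]
    omega
  obtain ⟨c, hc, hc'⟩ := Finset.exists_mem_notMem_of_card_lt_card hbad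
  rw [Finset.mem_Ico] at hc
  rw [Finset.mem_union, not_or] at hc'
  refine ⟨c, hc.1, hc.2, hc'.1, fun z hz h' => hc'.2 ?_⟩
  rw [Finset.mem_biUnion]
  exact ⟨z, hz, Finset.mem_Icc.2 h'⟩

/-- **relocation**: a chain from `t` to `t'` that avoids the closure of `W` and the fine edges `R` -/
theorem reloc (ρ : Rst D) (W : Finset (V D)) (R : Finset (E D))
    (hc : W.card + 3 * R.card < ρ.n) {t t' : V D} (ht : t ∈ box D ρ.n) (ht' : t' ∈ box D ρ.n)
    (hW : Off W (t 0)) (hW' : Off W (t' 0)) (hR : ∀ z ∈ R, ¬ tch ρ.T z (t 0))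
    (hR' : ∀ z ∈ R, ¬ tch ρ.T z (t' 0)) :
    ∃ p : Ch D, Supp ρ.n p ∧ bd p = dl t + dl t' ∧ (∀ e, Inc W e → p e = 0) ∧
      ∀ z ∈ R, ρ.P p z = 0 := by
  obtain ⟨c, hc0, hcn, hcW, hcR⟩ := reloc_exists_free ρ.n (W.image fun w => w 1)
    (R.image fun z => z.1 1 / (ρ.T : ℤ)) (by
      have h1 := Finset.card_image_le (s := W) (f := fun w : V D => w 1)
      have h2 := Finset.card_image_le (s := R) (f := fun z : E D => z.1 1 / (ρ.T : ℤ))
      omega)
  have h01 : (0 : Fin (D + 3)) ≠ 1 := by
    intro h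
    have := congrArg Fin.val h
    simp at this
  set u : V D := Function.update t 1 c with hu
  set u' : V D := Function.update t' 1 c with hu'
  have hu0 : u 0 = t 0 := by rw [hu, Function.update_of_ne h01]
  have hu0' : u' 0 = t' 0 := by rw [hu', Function.update_of_ne h01]
  have hu1 : u 1 = c := by rw [hu, Function.update_self]
  have hu1' : u' 1 = c := by rw [hu', Function.update_self]
  have hub : u ∈ box D ρ.n := by
    rw [mem_box] at ht ⊢
    intro k
    by_cases hk : k = 1
    · subst hk; rw [hu1]; exact ⟨hc0, hcn⟩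
    · rw [hu, Function.update_of_ne hk]; exact ht k
  have hub' : u' ∈ box D ρ.n := by
    rw [mem_box] at ht' ⊢
    intro k
    by_cases hk : k = 1
    · subst hk; rw [hu1']; exact ⟨hc0, hcn⟩
    · rw [hu', Function.update_of_ne hk]; exact ht' k
  -- the three pieces
  have e1 : ∀ e, cp t u e ≠ 0 → e.1 0 = t 0 ∧ (e.1 + ev e.2) 0 = t 0 := by
    intro e he
    have h := cp_between he 0
    rw [hu0, min_self, max_self] at h
    omega
  have e2 : ∀ e, cp u u' e ≠ 0 → e.1 1 = c ∧ (e.1 + ev e.2) 1 = c := by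
    intro e he
    have h := cp_between he 1
    rw [hu1, hu1', min_self, max_self] at h
    omega
  have e3 : ∀ e, cp u' t' e ≠ 0 → e.1 0 = t' 0 ∧ (e.1 + ev e.2) 0 = t' 0 := by
    intro e he
    have h := cp_between he 0
    rw [hu0', min_self, max_self] at h
    omega
  refine ⟨cp t u + cp u u' + cp u' t', ((supp_cp ht hub).add (supp_cp hub hub')).add
    (supp_cp hub' ht'), ?_, ?_, ?_⟩
  · rw [bd_add, bd_add, bd_cp, bd_cp, bd_cp]
    have : (dl t : V D → ZMod 2) + dl u + (dl u + dl u') + (dl u' + dl t') =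
        dl t + dl t' + (dl u + dl u) + (dl u' + dl u') := by abel
    rw [this, add_self_fun, add_self_fun, add_zero, add_zero]
  · intro e he
    have k1 : cp t u e = 0 := by
      by_contra hne
      obtain ⟨a1, a2⟩ := e1 e hne
      rcases he with he | he
      · obtain ⟨w, hw, hw'⟩ := he 0
        exact hW w hw (by rw [← hw', a1])
      · obtain ⟨w, hw, hw'⟩ := he 0
        exact hW w hw (by rw [← hw', a2])
    have k2 : cp u u' e = 0 := by
      by_contra hne
      obtain ⟨a1, a2⟩ := e2 e hne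
      rcases he with he | he
      · obtain ⟨w, hw, hw'⟩ := he 1
        exact hcW (Finset.mem_image.2 ⟨w, hw, by rw [← hw', a1]⟩)
      · obtain ⟨w, hw, hw'⟩ := he 1
        exact hcW (Finset.mem_image.2 ⟨w, hw, by rw [← hw', a2]⟩)
    have k3 : cp u' t' e = 0 := by
      by_contra hne
      obtain ⟨a1, a2⟩ := e3 e hne
      rcases he with he | he
      · obtain ⟨w, hw, hw'⟩ := he 0
        exact hW' w hw (by rw [← hw', a1])
      · obtain ⟨w, hw, hw'⟩ := he 0
        exact hW' w hw (by rw [← hw', a2])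
    simp only [Pi.add_apply, k1, k2, k3, add_zero]
  · intro z hz
    have k1 : ρ.P (cp t u) z = 0 := by
      apply ρ.P_eq_zero
      intro e _ he
      by_contra hne
      have := (ρ.tch_of_Pe hne).1
      rw [(e1 e he).1] at this
      exact hR z hz this
    have k2 : ρ.P (cp u u') z = 0 := by
      apply ρ.P_eq_zero
      intro e _ he
      by_contra hne
      have := (ρ.tch1_of_Pe hne).1
      rw [(e2 e he).1] at this
      exact hcR _ (Finset.mem_image.2 ⟨z, hz, rfl⟩) this
    have k3 : ρ.P (cp u' t') z = 0 := by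
      apply ρ.P_eq_zero
      intro e _ he
      by_contra hne
      have := (ρ.tch_of_Pe hne).1
      rw [(e3 e he).1] at this
      exact hR' z hz this
    rw [ρ.P_add, ρ.P_add]
    simp only [Pi.add_apply, k1, k2, k3, add_zero]

/-- relocation of a point -/
theorem reloc_point (ρ : Rst D) (W : Finset (V D)) (R : List (E D))
    (hc : W.card + 3 * R.length < ρ.n) {t t' : V D} (ht : t ∈ box D ρ.n) (ht' : t' ∈ box D ρ.n)
    (hW : Off W (t 0)) (hW' : Off W (t' 0)) (hR : ¬ Tl ρ.T R (t 0)) (hR' : ¬ Tl ρ.T R (t' 0))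
    {y : Ch D} (hy : Yt ρ.n t y) :
    ∃ y', Yt ρ.n t' y' ∧ Agr W y' y ∧ ∀ z ∈ R, ρ.x y' z = ρ.x y z := by
  obtain ⟨p, hp1, hp2, hp3, hp4⟩ := reloc ρ W R.toFinset
    (by have := List.toFinset_card_le R; omega) ht ht' hW hW'
    (fun z hz h => hR ⟨z, List.mem_toFinset.1 hz, h⟩)
    (fun z hz h => hR' ⟨z, List.mem_toFinset.1 hz, h⟩)
  refine ⟨y + p, ⟨hy.1.add hp1, ?_⟩, ?_, ?_⟩
  · rw [bd_add, hy.2, hp2]
    have : (dl 0 : V D → ZMod 2) + dl t + (dl t + dl t') = dl 0 + dl t' + (dl t + dl t) := by abel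
    rw [this, add_self_fun, add_zero]
  · intro e he
    rw [Pi.add_apply, hp3 e he, add_zero]
  · intro z hz
    rw [ρ.x_add, Pi.add_apply, hp4 z (List.mem_toFinset.2 hz), add_zero]

/-- relocation keeping the run of a tree -/
theorem reloc_tree {α : Type} (ρ : Rst D) (W : Finset (V D)) (A : DT (E D) α) {M : ℕ}
    (hA : A.depth ≤ M) (hc : W.card + 3 * M + 3 < ρ.n) {t t' : V D} (ht : t ∈ box D ρ.n)
    (ht' : t' ∈ box D ρ.n) (hW : Off W (t 0)) (hW' : Off W (t' 0)) {y : Ch D} (hy : Yt ρ.n t y)
    (hR : ¬ Tl ρ.T (A.reads (ρ.x y)) (t 0)) (hR' : ¬ Tl ρ.T (A.reads (ρ.x y)) (t' 0)) :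
    ∃ y', Yt ρ.n t' y' ∧ Agr W y' y ∧ A.reads (ρ.x y') = A.reads (ρ.x y) ∧
      A.val (ρ.x y') = A.val (ρ.x y) := by
  obtain ⟨y', h1, h2, h3⟩ := reloc_point ρ W (A.reads (ρ.x y))
    (by have := A.length_reads (ρ.x y); omega) ht ht' hW hW' hR hR' hy
  exact ⟨y', h1, h2, A.congr h3⟩

/-- if `x'` agrees with `x` on everything read before the first element with `P`, then an element
with `P` is read -/
theorem reloc_prefix {ε α : Type} (P : ε → Prop) (A : DT ε α) (x x' : ε → ZMod 2)
    (h : ∃ e ∈ A.reads x, P e)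
    (hx : ∀ e ∈ (A.reads x).takeWhile (fun e => decide (¬ P e)), x' e = x e) :
    ∃ e ∈ A.reads x', P e := by
  induction A with
  | leaf a => simp [DT.reads] at h
  | node e l r ihl ihr =>
    by_cases hP : P e
    · exact ⟨e, by simp [DT.reads], hP⟩
    · have htw : (DT.reads (DT.node e l r) x).takeWhile (fun e => decide (¬ P e)) =
          e :: (if x e = 0 then l.reads x else r.reads x).takeWhile (fun e => decide (¬ P e)) := by
        rw [DT.reads, List.takeWhile_cons]
        simp [hP]
      rw [htw] at hx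
      have hxe : x' e = x e := hx e (by simp)
      have h' : ∃ z ∈ (if x e = 0 then l.reads x else r.reads x), P z := by
        obtain ⟨z, hz, hPz⟩ := h
        rw [DT.reads, List.mem_cons] at hz
        rcases hz with rfl | hz
        · exact absurd hPz hP
        · exact ⟨z, hz, hPz⟩
      have hx' : ∀ z ∈ (if x e = 0 then l.reads x else r.reads x).takeWhile
          (fun e => decide (¬ P e)), x' z = x z := fun z hz => hx z (List.mem_cons_of_mem _ hz)
      have hgoal : ∃ z ∈ (if x e = 0 then l.reads x' else r.reads x'), P z := by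
        by_cases h0 : x e = 0
        · rw [if_pos h0] at h' hx' ⊢
          exact ihl h' hx'
        · rw [if_neg h0] at h' hx' ⊢
          exact ihr h' hx'
      obtain ⟨z, hz, hPz⟩ := hgoal
      refine ⟨z, ?_, hPz⟩
      rw [DT.reads, hxe]
      exact List.mem_cons_of_mem _ hz

/-- **touch lemma**: relocation into a touched hyperplane keeps it touched -/
theorem touch_tree {α : Type} (ρ : Rst D) (W : Finset (V D)) (A : DT (E D) α) {M : ℕ}
    (hA : A.depth ≤ M) (hc : W.card + 3 * M + 3 < ρ.n) {t t' : V D} (ht : t ∈ box D ρ.n)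
    (ht' : t' ∈ box D ρ.n) (hW : Off W (t 0)) (hW' : Off W (t' 0)) {y : Ch D} (hy : Yt ρ.n t y)
    (hR : ¬ Tl ρ.T (A.reads (ρ.x y)) (t 0)) (hR' : Tl ρ.T (A.reads (ρ.x y)) (t' 0)) :
    ∃ y', Yt ρ.n t' y' ∧ Agr W y' y ∧ Tl ρ.T (A.reads (ρ.x y')) (t' 0) := by
  set L0 := (A.reads (ρ.x y)).takeWhile (fun e => decide (¬ tch ρ.T e (t' 0))) with hL0
  have hsub : ∀ e ∈ L0, e ∈ A.reads (ρ.x y) := fun e he =>
    (List.takeWhile_prefix _).subset he
  have hlen : L0.length ≤ M := by
    have h1 := A.length_reads (ρ.x y)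
    have h2 : L0.length ≤ (A.reads (ρ.x y)).length := (List.takeWhile_prefix _).length_le
    omega
  obtain ⟨y', h1, h2, h3⟩ := reloc_point ρ W L0 (by omega) ht ht' hW hW'
    (fun ⟨z, hz, hz'⟩ => hR ⟨z, hsub z hz, hz'⟩)
    (fun ⟨z, hz, hz'⟩ => by
      have := List.mem_takeWhile_imp hz
      simp only [decide_eq_true_eq] at this
      exact this hz') hy
  exact ⟨y', h1, h2, reloc_prefix (fun z => tch ρ.T z (t' 0)) A (ρ.x y) (ρ.x y') hR' h3⟩

/-- the clean lemma with an accumulated list -/
theorem reloc_clean_aux {α : Type} (ρ : Rst D) (W : Finset (V D)) (A : DT (E D) α) :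
    ∀ (R : List (E D)) {t : V D}, t ∈ box D ρ.n → Off W (t 0) → ∀ {y : Ch D}, Yt ρ.n t y →
      ¬ Tl ρ.T R (t 0) → W.card + 3 * (R.length + A.depth) + 3 < ρ.n →
    ∃ t' ∈ box D ρ.n, ∃ y', Yt ρ.n t' y' ∧ Agr W y' y ∧ Off W (t' 0) ∧ ¬ Tl ρ.T R (t' 0) ∧
      (∀ z ∈ R, ρ.x y' z = ρ.x y z) ∧ ¬ Tl ρ.T (A.reads (ρ.x y')) (t' 0) := by
  induction A with
  | leaf a =>
    intro R t ht hW y hy hR _
    refine ⟨t, ht, y, hy, fun _ _ => rfl, hW, hR, fun _ _ => rfl, ?_⟩
    rintro ⟨z, hz, -⟩
    simp [DT.reads] at hz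
  | node e l r ihl ihr =>
    intro R t ht hW y hy hR hc
    rw [DT.depth] at hc
    obtain ⟨h, hh0, hhn, hhW, hhR⟩ := reloc_exists_free ρ.n (W.image fun w => w 0)
      ((e :: R).toFinset.image fun z => z.1 0 / (ρ.T : ℤ)) (by
        have h1 := Finset.card_image_le (s := W) (f := fun w : V D => w 0)
        have h2 := Finset.card_image_le (s := (e :: R).toFinset)
          (f := fun z : E D => z.1 0 / (ρ.T : ℤ))
        have h3 := List.toFinset_card_le (e :: R)
        rw [List.length_cons] at h3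
        omega)
    have hp0 : (pt D h) 0 = h := by simp [pt]
    have hpb : pt D h ∈ box D ρ.n := by
      rw [mem_box]
      intro k
      by_cases hk : k = 0
      · subst hk; rw [hp0]; exact ⟨hh0, hhn⟩
      · have : (pt D h) k = 0 := by simp [pt, hk]
        rw [this]; constructor
        · exact le_refl _
        · omega
    have hoff : Off W ((pt D h) 0) := by
      rw [hp0]
      intro w hw hw'
      exact hhW (Finset.mem_image.2 ⟨w, hw, hw'⟩)
    have hnt : ¬ Tl ρ.T (e :: R) ((pt D h) 0) := by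
      rw [hp0]
      rintro ⟨z, hz, hz'⟩
      exact hhR _ (Finset.mem_image.2 ⟨z, List.mem_toFinset.2 hz, rfl⟩) hz'
    have hntR : ¬ Tl ρ.T R ((pt D h) 0) := fun ⟨z, hz, hz'⟩ =>
      hnt ⟨z, List.mem_cons_of_mem _ hz, hz'⟩
    obtain ⟨y1, hy1, hag1, hx1⟩ := reloc_point ρ W R (by omega) ht hpb hW hoff hR hntR hy
    have finish : ∀ (B : DT (E D) α), B.reads = (fun x => B.reads x) →
        (∀ x : Ch D, x e = ρ.x y1 e → DT.reads (DT.node e l r) x = e :: B.reads x) →
        (∃ t' ∈ box D ρ.n, ∃ y', Yt ρ.n t' y' ∧ Agr W y' y1 ∧ Off W (t' 0) ∧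
          ¬ Tl ρ.T (e :: R) (t' 0) ∧
          (∀ z ∈ e :: R, ρ.x y' z = ρ.x y1 z) ∧ ¬ Tl ρ.T (B.reads (ρ.x y')) (t' 0)) →
        ∃ t' ∈ box D ρ.n, ∃ y', Yt ρ.n t' y' ∧ Agr W y' y ∧ Off W (t' 0) ∧ ¬ Tl ρ.T R (t' 0) ∧
          (∀ z ∈ R, ρ.x y' z = ρ.x y z) ∧
          ¬ Tl ρ.T (DT.reads (DT.node e l r) (ρ.x y')) (t' 0) := by
      intro B _ hB ⟨t', ht', y', a1, a2, a3, a4, a5, a6⟩
      refine ⟨t', ht', y', a1, fun z hz => (a2 z hz).trans (hag1 z hz), a3,
        fun ⟨z, hz, hz'⟩ => a4 ⟨z, List.mem_cons_of_mem _ hz, hz'⟩,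
        fun z hz => (a5 z (List.mem_cons_of_mem _ hz)).trans (hx1 z hz), ?_⟩
      rw [hB (ρ.x y') (a5 e (by simp))]
      rintro ⟨z, hz, hz'⟩
      rw [List.mem_cons] at hz
      rcases hz with rfl | hz
      · exact a4 ⟨z, by simp, hz'⟩
      · exact a6 ⟨z, hz, hz'⟩
    by_cases h0 : ρ.x y1 e = 0
    · refine finish l rfl (fun x hx => ?_) (ihl (e :: R) hpb hoff hy1 hnt ?_)
      · rw [DT.reads, if_pos (hx.trans h0)]
      · rw [List.length_cons]
        have := le_max_left l.depth r.depth
        omega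
    · refine finish r rfl (fun x hx => ?_) (ihr (e :: R) hpb hoff hy1 hnt ?_)
      · rw [DT.reads, if_neg (by rw [hx]; exact h0)]
      · rw [List.length_cons]
        have := le_max_right l.depth r.depth
        omega

/-- **clean lemma**: the violated vertex can be moved away from everything that is read -/
theorem clean_tree {α : Type} (ρ : Rst D) (W : Finset (V D)) (A : DT (E D) α) {M : ℕ}
    (hA : A.depth ≤ M) (hc : W.card + 3 * M + 3 < ρ.n) {t : V D} (ht : t ∈ box D ρ.n)
    (hW : Off W (t 0)) {y : Ch D} (hy : Yt ρ.n t y) :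
    ∃ t' ∈ box D ρ.n, ∃ y', Yt ρ.n t' y' ∧ Agr W y' y ∧ Off W (t' 0) ∧
      ¬ Tl ρ.T (A.reads (ρ.x y')) (t' 0) := by
  obtain ⟨t', ht', y', a1, a2, a3, -, -, a6⟩ := reloc_clean_aux ρ W A [] ht hW hy
    (by rintro ⟨z, hz, -⟩; simp at hz) (by rw [List.length_nil]; omega)
  exact ⟨t', ht', y', a1, a2, a3, a6⟩

end FrS
end
end
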