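import Pool.Agent.Lib.MP_51bb46_lc.S.TF
import Pool.Agent.Lib.MP_51bb46_lc.B.Prob
import Pool.Agent.Lib.MP_51bb46_lc.S.Rst
import Pool.Agent.Lib.MP_51bb46_lc.B.Sound
import Pool.Agent.Lib.MP_51bb46_lc.S.Reloc

section

/-!
The numerical conditions of a level step; simulation.
-/

set_option linter.unusedSectionVars false

namespace FrS

open Finset Fr56
open scoped Classical

variable {D : ℕ}

/-- the numerical conditions of one level step -/
structure Num (D n T m k q s1 stot w K H : ℕ) (lam : ℝ) : Prop where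
  hT : 0 < T
  hs1 : 1 ≤ s1
  hq : 1 ≤ q
  hm : 1 ≤ m
  hn2 : 2 ≤ n
  hlam : 22 ≤ lam
  hb : (2 * lam) ^ (2 * (D + 3) * (D + 2)) *
    (4 * (D + 3) * (D + 2) * (400 * (Nat.sqrt (s1 * m) + 1) * k)) ≤ (T : ℝ) ^ (D + 2)
  hunion : (H : ℝ) * (2 * (n + 1) ^ s1) * n ^ (D + 3) *
    (18 * (2 * lam) ^ (2 * (D + 3) * (D + 2)) * (11 / lam) ^ q) < 1
  hw : stot * w ≤ n
  href : n ^ (D + 3) * 2 ^ q * (3 * (m * k)) ^ s1 < w ^ s1
  hK : (s1 + 1) * (4 * (5 * q ^ 2) ^ 3) ≤ K
  hstot : K + s1 < stot
  hn : K + 9 * (m * k) + 6 * k + 6 < n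
  hk : (s1 + 1) * (5 * q ^ 2) * (2 * (D + 3) * K ^ (D + 3)) ≤ k

/-- the tree `A` simulates `φ` at clean points -/
def Sim (ρ : Rst D) (φ : TF D) (A : DT (E D) Bool) : Prop :=
  ∀ t ∈ box D ρ.n, ∀ y, Yt ρ.n t y → Far (A.reads y) (t 0) →
    ¬ Tl ρ.T (φ.rd (ρ.x y)) (t 0) → A.val y = φ.ev (ρ.x y)

end FrS
end

section

section

/-!
The sample space of the random restriction.
-/

set_option linter.unusedSectionVars false

namespace FrS

open Finset Fr56
open scoped Classical

variable {D : ℕ}

/-- positions of the centres -/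
abbrev Asg (D n T : ℕ) : Type := ↥(box D n) → Fin (D + 3) → Fin T

/-- positions as a total function -/
noncomputable def tot {n T : ℕ} (a : Asg D n T) : V D → V D := fun v k =>
  if h : v ∈ box D n then ((a ⟨v, h⟩ k : ℕ) : ℤ) else 0

theorem tot_range {n T : ℕ} (hT : 0 < T) (a : Asg D n T) (v : V D) (k : Fin (D + 3)) :
    0 ≤ tot a v k ∧ tot a v k < T := by
  unfold tot
  split_ifs with h
  · refine ⟨by positivity, ?_⟩
    exact_mod_cast (a ⟨v, h⟩ k).2
  · exact ⟨le_refl _, by exact_mod_cast hT⟩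

/-- the sample space: positions of the centres and a closed fine chain -/
abbrev Om (D n T N : ℕ) : Type := Asg D n T × ↥(cyc D N)

/-- the restriction of a sample point -/
noncomputable def mkR {n T : ℕ} (hT : 0 < T) (a : Asg D n T) (β : Ch D) : Rst D where
  n := n
  T := T
  hT := hT
  a := tot a
  ha := tot_range hT a
  β := β

instance {N : ℕ} : Nonempty ↥(cyc D N) := ⟨⟨0, by rw [mem_cyc]; exact ⟨Supp.zero, bd_zero⟩⟩⟩

theorem mkR_good {n T N : ℕ} (hT : 0 < T) (hN : n * T ≤ N) (ω : Om D n T N) :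
    (mkR hT ω.1 ω.2.1).Good N := by
  have := (mem_cyc.1 ω.2.2)
  exact ⟨this.1, this.2, hN⟩

/-- the number of squares that are hit, those with a corner `t` excluded -/
noncomputable def nhit {n T : ℕ} (hT : 0 < T) (t : V D) (κ : Finset (E D)) (a : Asg D n T) : ℕ :=
  ((sqs D n).filter fun F => t ∉ verts F ∧ ∃ z ∈ κ, (mkR hT a 0).P (sqc F) z ≠ 0).card

end FrS
end

section

/-!
Probabilities of hitting.
-/

set_option linter.unusedSectionVars false

namespace FrS

open Finset Fr56
open scoped Classical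

variable {D : ℕ}

theorem tot_congr {n T : ℕ} {a a' : Asg D n T} {v : V D}
    (h : ∀ hv : v ∈ box D n, a ⟨v, hv⟩ = a' ⟨v, hv⟩) : tot a v = tot a' v := by
  funext k
  unfold tot
  by_cases hv : v ∈ box D n
  · rw [dif_pos hv, dif_pos hv, h hv]
  · rw [dif_neg hv, dif_neg hv]

/-- the four edges of a square -/
noncomputable def eds (F : Sq D) : Finset (E D) :=
  {(F.1, F.2.1), (F.1, F.2.2), (F.1 + ev F.2.1, F.2.2), (F.1 + ev F.2.2, F.2.1)}

theorem eds_sub {n : ℕ} {F : Sq D} (hF : F ∈ sqs D n) {e : E D} (he : e ∈ eds F) :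
    e ∈ edges D n ∧ e.1 ∈ verts F ∧ e.1 + ev e.2 ∈ verts F := by
  obtain ⟨v, i, j⟩ := F
  rw [mem_sqs] at hF
  have hv := hF.2
  have hc : v + ev j + ev i = v + ev i + ev j := by abel
  have key : e.1 ∈ verts (v, i, j) ∧ e.1 + ev e.2 ∈ verts (v, i, j) := by
    simp only [eds, Finset.mem_insert, Finset.mem_singleton] at he
    rcases he with rfl | rfl | rfl | rfl
    · simp [verts]
    · simp [verts]
    · simp [verts]
    · refine ⟨by simp [verts], ?_⟩
      simp only [hc]
      simp [verts]
  exact ⟨mem_edges.2 ⟨hv key.1, hv key.2⟩, key⟩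

theorem P_sqc {n T : ℕ} (hT : 0 < T) {a : Asg D n T} {β : Ch D} {F : Sq D}
    (hF : F ∈ sqs D n) : (mkR hT a β).P (sqc F) =
      (mkR hT a β).Pe (F.1, F.2.1) + (mkR hT a β).Pe (F.1, F.2.2) +
        (mkR hT a β).Pe (F.1 + ev F.2.1, F.2.2) + (mkR hT a β).Pe (F.1 + ev F.2.2, F.2.1) := by
  have h1 : (F.1, F.2.1) ∈ edges D (mkR hT a β).n := (eds_sub hF (by simp [eds])).1
  have h2 : (F.1, F.2.2) ∈ edges D (mkR hT a β).n := (eds_sub hF (by simp [eds])).1
  have h3 : (F.1 + ev F.2.1, F.2.2) ∈ edges D (mkR hT a β).n := (eds_sub hF (by simp [eds])).1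
  have h4 : (F.1 + ev F.2.2, F.2.1) ∈ edges D (mkR hT a β).n := (eds_sub hF (by simp [eds])).1
  unfold sqc
  rw [Rst.P_add, Rst.P_add, Rst.P_add, Rst.P_dl _ h1, Rst.P_dl _ h2, Rst.P_dl _ h3,
    Rst.P_dl _ h4]

theorem Pe_congr {n T : ℕ} (hT : 0 < T) {a a' : Asg D n T} {β β' : Ch D} {e : E D}
    (h1 : tot a e.1 = tot a' e.1) (h2 : tot a (e.1 + ev e.2) = tot a' (e.1 + ev e.2)) :
    (mkR hT a β).Pe e = (mkR hT a' β').Pe e := by
  unfold Rst.Pe
  have e1 : (mkR hT a β).cen e.1 = (mkR hT a' β').cen e.1 := by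
    funext k
    unfold Rst.cen
    change (T : ℤ) * e.1 k + tot a e.1 k = (T : ℤ) * e.1 k + tot a' e.1 k
    rw [h1]
  have e2 : (mkR hT a β).cen (e.1 + ev e.2) = (mkR hT a' β').cen (e.1 + ev e.2) := by
    funext k
    unfold Rst.cen
    change (T : ℤ) * (e.1 + ev e.2) k + tot a (e.1 + ev e.2) k =
      (T : ℤ) * (e.1 + ev e.2) k + tot a' (e.1 + ev e.2) k
    rw [h2]
  rw [e1, e2]

/-- the pushed chain of a square depends only on the positions at its corners -/
theorem P_sqc_congr {n T : ℕ} (hT : 0 < T) {a a' : Asg D n T} {β β' : Ch D} {F : Sq D}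
    (hF : F ∈ sqs D n) (h : ∀ v (hv : v ∈ box D n), v ∈ verts F → a ⟨v, hv⟩ = a' ⟨v, hv⟩) :
    (mkR hT a β).P (sqc F) = (mkR hT a' β').P (sqc F) := by
  rw [P_sqc hT hF, P_sqc hT hF]
  have key : ∀ e ∈ eds F, (mkR hT a β).Pe e = (mkR hT a' β').Pe e := by
    intro e he
    obtain ⟨_, h1, h2⟩ := eds_sub hF he
    exact Pe_congr hT (tot_congr fun hv => h _ hv h1) (tot_congr fun hv => h _ hv h2)
  rw [key (F.1, F.2.1) (by simp [eds]), key (F.1, F.2.2) (by simp [eds]),
    key (F.1 + ev F.2.1, F.2.2) (by simp [eds]), key (F.1 + ev F.2.2, F.2.1) (by simp [eds])]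

/-- the probability that a fine edge is on the path of a coarse edge -/
theorem pr_Pe {n T : ℕ} (hT : 0 < T) (e : E D) (he : e ∈ edges D n) (z : E D) :
    pr (fun a : Asg D n T => (mkR hT a 0).Pe e z ≠ 0) ≤ 1 / (T : ℝ) ^ (D + 2) := by
  obtain ⟨hu, hu'⟩ := mem_edges.1 he
  set j := z.2 with hj
  -- the relevant vertices
  let w : Fin (D + 3) → ↥(box D n) := fun k => if k < j then ⟨_, hu'⟩ else ⟨_, hu⟩
  -- the prescribed values
  let c : Fin (D + 3) → ℤ := fun k => z.1 k - T * (w k).1 k
  have hev : ∀ a : Asg D n T, (mkR hT a 0).Pe e z ≠ 0 → ∀ k, k ≠ j →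
      (((a (w k) k : Fin T) : ℕ) : ℤ) = c k := by
    intro a ha k hk
    unfold Rst.Pe cp at ha
    split_ifs at ha with h
    · obtain ⟨h1, h2, _⟩ := h
      rcases lt_or_gt_of_ne hk with hlt | hgt
      · have h3 := h1 k hlt
        have h4 : (mkR hT a 0).cen (e.1 + ev e.2) k = T * (e.1 + ev e.2) k +
            ((a ⟨_, hu'⟩ k : ℕ) : ℤ) := by
          change (T : ℤ) * (e.1 + ev e.2) k + tot a (e.1 + ev e.2) k = _
          unfold tot
          rw [dif_pos hu']
        rw [h4] at h3
        have h5 : w k = ⟨_, hu'⟩ := if_pos hlt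
        simp only [c]
        rw [h5, h3]
        ring
      · have h3 := h2 k hgt
        have h4 : (mkR hT a 0).cen e.1 k = T * e.1 k + ((a ⟨_, hu⟩ k : ℕ) : ℤ) := by
          change (T : ℤ) * e.1 k + tot a e.1 k = _
          unfold tot
          rw [dif_pos hu]
        rw [h4] at h3
        have h5 : w k = ⟨_, hu⟩ := if_neg (not_lt.2 hgt.le)
        simp only [c]
        rw [h5, h3]
        ring
    · exact absurd rfl ha
  let B : Type := {k : Fin (D + 3) // k ≠ j} → Fin T
  let upd : Asg D n T × B → Asg D n T := fun p v k =>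
    if h : k ≠ j ∧ v = w k then p.2 ⟨k, h.1⟩ else p.1 v k
  set S : Finset (Asg D n T) := univ.filter fun a => (mkR hT a 0).Pe e z ≠ 0 with hS
  have hinj : Set.InjOn upd ((S ×ˢ (univ : Finset B) : Finset (Asg D n T × B)) :
      Set (Asg D n T × B)) := by
    rintro ⟨a1, b1⟩ h1 ⟨a2, b2⟩ h2 heq
    rw [Finset.mem_coe, Finset.mem_product] at h1 h2
    have h1' := hev a1 (Finset.mem_filter.1 h1.1).2
    have h2' := hev a2 (Finset.mem_filter.1 h2.1).2
    have hb : b1 = b2 := by
      funext k
      have h3 : upd (a1, b1) (w k.1) k.1 = upd (a2, b2) (w k.1) k.1 :=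
        congrFun (congrFun heq (w k.1)) k.1
      have e1 : upd (a1, b1) (w k.1) k.1 = b1 k := dif_pos ⟨k.2, rfl⟩
      have e2 : upd (a2, b2) (w k.1) k.1 = b2 k := dif_pos ⟨k.2, rfl⟩
      rw [e1, e2] at h3
      exact h3
    have ha : a1 = a2 := by
      funext v k
      by_cases h : k ≠ j ∧ v = w k
      · rw [h.2]
        apply Fin.ext
        have h3 := h1' k h.1
        have h4 := h2' k h.1
        rw [← h4] at h3
        exact_mod_cast h3
      · have h3 := congrFun (congrFun heq v) k
        simp only [upd] at h3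
        rw [dif_neg h, dif_neg h] at h3
        exact h3
    rw [ha, hb]
  have hcard := Finset.card_le_card_of_injOn upd (s := S ×ˢ (univ : Finset B)) (t := univ)
    (fun _ _ => Finset.mem_univ _) hinj
  rw [Finset.card_product, Finset.card_univ, Finset.card_univ] at hcard
  have hB : Fintype.card B = T ^ (D + 2) := by
    change Fintype.card ({k : Fin (D + 3) // k ≠ j} → Fin T) = _
    rw [Fintype.card_fun, Fintype.card_fin]
    congr 1
    have h6 := Fintype.card_subtype_compl (fun k : Fin (D + 3) => k = j)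
    rw [Fintype.card_subtype_eq, Fintype.card_fin] at h6
    calc Fintype.card {k : Fin (D + 3) // k ≠ j} = Fintype.card {k : Fin (D + 3) // ¬ k = j} := by
          congr!
      _ = _ := by rw [h6]; omega
  rw [hB] at hcard
  have : Nonempty (Fin T) := ⟨⟨0, hT⟩⟩
  have hpos : (0 : ℝ) < Fintype.card (Asg D n T) := by exact_mod_cast Fintype.card_pos
  have hTpos : (0 : ℝ) < (T : ℝ) ^ (D + 2) := by positivity
  rw [pr_eq (fun a : Asg D n T => (mkR hT a 0).Pe e z ≠ 0), ← hS,
    div_le_div_iff₀ hpos hTpos, one_mul]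
  exact_mod_cast hcard

/-- the squares containing an edge -/
theorem card_sqs_edge (n : ℕ) (e : E D) :
    ((sqs D n).filter fun F => e ∈ eds F).card ≤ 2 * (D + 2) := by
  obtain ⟨u, i⟩ := e
  have h1 : (sqs D n).filter (fun F => (u, i) ∈ eds F) ⊆
      (((univ : Finset (Fin (D + 3))).erase i) ×ˢ (univ : Finset Bool)).image
        (fun p => ((if p.2 = true then u - ev p.1 else u, min i p.1, max i p.1) : Sq D)) := by
    rintro ⟨v, i', j'⟩ hF
    rw [Finset.mem_filter, mem_sqs] at hF
    obtain ⟨⟨hlt, _⟩, he⟩ := hF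
    dsimp only at hlt
    simp only [eds, Finset.mem_insert, Finset.mem_singleton, Prod.mk.injEq] at he
    rw [Finset.mem_image]
    rcases he with ⟨h1, h2⟩ | ⟨h1, h2⟩ | ⟨h1, h2⟩ | ⟨h1, h2⟩
    · subst h1 h2
      refine ⟨(j', false), ?_, ?_⟩
      · rw [Finset.mem_product, Finset.mem_erase]
        exact ⟨⟨ne_of_gt hlt, Finset.mem_univ _⟩, Finset.mem_univ _⟩
      · simp [min_eq_left hlt.le, max_eq_right hlt.le]
    · subst h1 h2
      refine ⟨(i', false), ?_, ?_⟩
      · rw [Finset.mem_product, Finset.mem_erase]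
        exact ⟨⟨ne_of_lt hlt, Finset.mem_univ _⟩, Finset.mem_univ _⟩
      · simp [min_eq_right hlt.le, max_eq_left hlt.le]
    · subst h1 h2
      refine ⟨(i', true), ?_, ?_⟩
      · rw [Finset.mem_product, Finset.mem_erase]
        exact ⟨⟨ne_of_lt hlt, Finset.mem_univ _⟩, Finset.mem_univ _⟩
      · simp [min_eq_right hlt.le, max_eq_left hlt.le]
    · subst h1 h2
      refine ⟨(j', true), ?_, ?_⟩
      · rw [Finset.mem_product, Finset.mem_erase]
        exact ⟨⟨ne_of_gt hlt, Finset.mem_univ _⟩, Finset.mem_univ _⟩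
      · simp [min_eq_left hlt.le, max_eq_right hlt.le]
  refine (Finset.card_le_card h1).trans (Finset.card_image_le.trans ?_)
  rw [Finset.card_product, Finset.card_erase_of_mem (Finset.mem_univ _), Finset.card_univ,
    Finset.card_univ, Fintype.card_fin, Fintype.card_bool]
  omega

/-- the coarse edges whose path can contain a fine edge -/
theorem card_edges_near (n T : ℕ) (z : E D) :
    ((edges D n).filter fun e => (∀ k, k ≠ e.2 → z.1 k / (T : ℤ) = e.1 k) ∧
      (z.1 e.2 / (T : ℤ) = e.1 e.2 ∨ z.1 e.2 / (T : ℤ) = e.1 e.2 + 1)).card ≤ 2 * (D + 3) := by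
  have h1 : ((edges D n).filter fun e => (∀ k, k ≠ e.2 → z.1 k / (T : ℤ) = e.1 k) ∧
      (z.1 e.2 / (T : ℤ) = e.1 e.2 ∨ z.1 e.2 / (T : ℤ) = e.1 e.2 + 1)) ⊆
      ((univ : Finset (Fin (D + 3))) ×ˢ (univ : Finset Bool)).image
        (fun p => ((fun k => z.1 k / (T : ℤ) - (if k = p.1 ∧ p.2 = true then 1 else 0), p.1) :
          E D)) := by
    rintro ⟨u, i⟩ he
    rw [Finset.mem_filter] at he
    obtain ⟨_, h1, h2⟩ := he
    dsimp only at h1 h2
    rw [Finset.mem_image]
    rcases h2 with h2 | h2
    · refine ⟨(i, false), by simp, ?_⟩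
      rw [Prod.mk.injEq]
      refine ⟨?_, rfl⟩
      funext k
      by_cases hk : k = i
      · subst hk
        simp [h2]
      · simp [h1 k hk]
    · refine ⟨(i, true), by simp, ?_⟩
      rw [Prod.mk.injEq]
      refine ⟨?_, rfl⟩
      funext k
      by_cases hk : k = i
      · subst hk
        simp [h2]
      · simp [h1 k hk, hk]
  refine (Finset.card_le_card h1).trans (Finset.card_image_le.trans ?_)
  rw [Finset.card_product, Finset.card_univ, Finset.card_univ, Fintype.card_fin,
    Fintype.card_bool]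
  omega

/-- the sum over all squares of the probability that a set of fine edges is hit -/
theorem sum_pr_hit {n T : ℕ} (hT : 0 < T) (κ : Finset (E D)) :
    ∑ F ∈ sqs D n, pr (fun a : Asg D n T => ∃ z ∈ κ, (mkR hT a 0).P (sqc F) z ≠ 0) ≤
      4 * (D + 3) * (D + 2) * κ.card / (T : ℝ) ^ (D + 2) := by
  have hTpos : (0 : ℝ) < (T : ℝ) ^ (D + 2) := by positivity
  have step1 : ∀ F ∈ sqs D n, pr (fun a : Asg D n T => ∃ z ∈ κ, (mkR hT a 0).P (sqc F) z ≠ 0) ≤
      ∑ z ∈ κ, ∑ e ∈ edges D n, if e ∈ eds F then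
        pr (fun a : Asg D n T => (mkR hT a 0).Pe e z ≠ 0) else 0 := by
    intro F hF
    refine (pr_exists_le κ fun z a => (mkR hT a 0).P (sqc F) z ≠ 0).trans ?_
    apply Finset.sum_le_sum
    intro z _
    have h1 : pr (fun a : Asg D n T => (mkR hT a 0).P (sqc F) z ≠ 0) ≤
        pr (fun a : Asg D n T => ∃ e ∈ eds F, (mkR hT a 0).Pe e z ≠ 0) := by
      apply pr_mono
      intro a ha
      by_contra hcon
      push Not at hcon
      apply ha
      rw [P_sqc hT hF]
      simp only [Pi.add_apply]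
      rw [hcon (F.1, F.2.1) (by simp [eds]), hcon (F.1, F.2.2) (by simp [eds]),
        hcon (F.1 + ev F.2.1, F.2.2) (by simp [eds]),
        hcon (F.1 + ev F.2.2, F.2.1) (by simp [eds])]
      simp
    refine h1.trans ((pr_exists_le (eds F) fun e a => (mkR hT a 0).Pe e z ≠ 0).trans ?_)
    rw [← Finset.sum_filter]
    have h2 : (edges D n).filter (fun e => e ∈ eds F) = eds F := by
      ext e
      rw [Finset.mem_filter]
      exact ⟨fun h => h.2, fun h => ⟨(eds_sub hF h).1, h⟩⟩
    rw [h2]
  have step2 : ∀ z : E D, ∑ e ∈ edges D n,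
      pr (fun a : Asg D n T => (mkR hT a 0).Pe e z ≠ 0) ≤
        2 * (D + 3) * (1 / (T : ℝ) ^ (D + 2)) := by
    intro z
    have h1 : ∀ e ∈ edges D n, pr (fun a : Asg D n T => (mkR hT a 0).Pe e z ≠ 0) ≤
        if (∀ k, k ≠ e.2 → z.1 k / (T : ℤ) = e.1 k) ∧
          (z.1 e.2 / (T : ℤ) = e.1 e.2 ∨ z.1 e.2 / (T : ℤ) = e.1 e.2 + 1) then
            1 / (T : ℝ) ^ (D + 2) else 0 := by
      intro e he
      split_ifs with h
      · exact pr_Pe hT e he z
      · have h2 : pr (fun a : Asg D n T => (mkR hT a 0).Pe e z ≠ 0) ≤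
            pr (fun _ : Asg D n T => False) := by
          apply pr_mono
          intro a ha
          apply h
          exact Rst.Pe_block (mkR hT a 0) (u := e.1) (i := e.2) ha
        rw [pr_false] at h2
        exact h2
    refine (Finset.sum_le_sum h1).trans ?_
    rw [← Finset.sum_filter, Finset.sum_const, nsmul_eq_mul]
    apply mul_le_mul_of_nonneg_right _ (by positivity)
    have h3 := card_edges_near n T z
    calc (_ : ℝ) ≤ ((2 * (D + 3) : ℕ) : ℝ) := by exact_mod_cast h3
      _ = _ := by push_cast; ring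
  calc ∑ F ∈ sqs D n, pr (fun a : Asg D n T => ∃ z ∈ κ, (mkR hT a 0).P (sqc F) z ≠ 0)
      ≤ ∑ F ∈ sqs D n, ∑ z ∈ κ, ∑ e ∈ edges D n, (if e ∈ eds F then
        pr (fun a : Asg D n T => (mkR hT a 0).Pe e z ≠ 0) else 0) := Finset.sum_le_sum step1
    _ = ∑ z ∈ κ, ∑ e ∈ edges D n, ∑ F ∈ sqs D n, (if e ∈ eds F then
        pr (fun a : Asg D n T => (mkR hT a 0).Pe e z ≠ 0) else 0) := by
        rw [Finset.sum_comm]
        exact Finset.sum_congr rfl fun z _ => Finset.sum_comm
    _ ≤ ∑ z ∈ κ, ∑ e ∈ edges D n, 2 * (D + 2) *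
        pr (fun a : Asg D n T => (mkR hT a 0).Pe e z ≠ 0) := by
        apply Finset.sum_le_sum
        intro z _
        apply Finset.sum_le_sum
        intro e _
        rw [← Finset.sum_filter, Finset.sum_const, nsmul_eq_mul]
        apply mul_le_mul_of_nonneg_right _ (pr_nonneg _)
        have h3 := card_sqs_edge n e
        calc (_ : ℝ) ≤ ((2 * (D + 2) : ℕ) : ℝ) := by exact_mod_cast h3
          _ = _ := by push_cast; ring
    _ ≤ ∑ z ∈ κ, 2 * (D + 2) * (2 * (D + 3) * (1 / (T : ℝ) ^ (D + 2))) := by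
        apply Finset.sum_le_sum
        intro z _
        rw [← Finset.mul_sum]
        exact mul_le_mul_of_nonneg_left (step2 z) (by positivity)
    _ = _ := by
        rw [Finset.sum_const, nsmul_eq_mul]
        ring

end FrS
end

section

/-!
Exponential moment of the number of squares that are hit.
-/

set_option linter.unusedSectionVars false

namespace FrS

open Finset Fr56
open scoped Classical

variable {D : ℕ}

section average

/-- average over a finite type -/
noncomputable def av {Ω : Type} [Fintype Ω] (f : Ω → ℝ) : ℝ := (∑ ω, f ω) / Fintype.card Ω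

section basic

variable {Ω : Type} [Fintype Ω]

theorem av_mono {f g : Ω → ℝ} (h : ∀ ω, f ω ≤ g ω) : av f ≤ av g := by
  unfold av
  exact div_le_div_of_nonneg_right (Finset.sum_le_sum fun ω _ => h ω) (Nat.cast_nonneg _)

theorem av_nonneg {f : Ω → ℝ} (h : ∀ ω, 0 ≤ f ω) : 0 ≤ av f :=
  div_nonneg (Finset.sum_nonneg fun ω _ => h ω) (Nat.cast_nonneg _)

theorem av_mul_const (f : Ω → ℝ) (c : ℝ) : av (fun ω => f ω * c) = av f * c := by
  unfold av
  rw [← Finset.sum_mul]
  ring

theorem av_const_mul (f : Ω → ℝ) (c : ℝ) : av (fun ω => c * f ω) = c * av f := by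
  unfold av
  rw [← Finset.mul_sum]
  ring

theorem av_add (f g : Ω → ℝ) : av (fun ω => f ω + g ω) = av f + av g := by
  unfold av
  rw [Finset.sum_add_distrib]
  ring

theorem av_sum {ι : Type} (s : Finset ι) (f : ι → Ω → ℝ) :
    av (fun ω => ∑ i ∈ s, f i ω) = ∑ i ∈ s, av (f i) := by
  unfold av
  rw [Finset.sum_comm, Finset.sum_div]

theorem av_const [Nonempty Ω] (c : ℝ) : av (fun _ : Ω => c) = c := by
  unfold av
  rw [Finset.sum_const, Finset.card_univ, nsmul_eq_mul]
  field_simp

end basic

variable {U A : Type} [DecidableEq U] [Fintype U] [Fintype A] [Nonempty A]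

/-- the function `f` depends only on the coordinates in `S` -/
def FDep (S : Finset U) (f : (U → A) → ℝ) : Prop :=
  ∀ a b : U → A, (∀ v ∈ S, a v = b v) → f a = f b

/-- independence -/
theorem av_indep {S T : Finset U} (hST : Disjoint S T) {f g : (U → A) → ℝ} (hf : FDep S f)
    (hg : FDep T g) : av (fun a => f a * g a) = av f * av g := by
  have hdis : ∀ v, v ∈ S → v ∉ T := fun v h1 h2 => Finset.disjoint_left.1 hST h1 h2
  let e : ((U → A) × (U → A)) ≃ ((U → A) × (U → A)) :=
    { toFun := fun p => (fun v => if v ∈ T then p.2 v else p.1 v,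
        fun v => if v ∈ T then p.1 v else p.2 v)
      invFun := fun p => (fun v => if v ∈ T then p.2 v else p.1 v,
        fun v => if v ∈ T then p.1 v else p.2 v)
      left_inv := by
        intro p
        apply Prod.ext
        · funext v
          dsimp only
          split_ifs <;> rfl
        · funext v
          dsimp only
          split_ifs <;> rfl
      right_inv := by
        intro p
        apply Prod.ext
        · funext v
          dsimp only
          split_ifs <;> rfl
        · funext v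
          dsimp only
          split_ifs <;> rfl }
  have h1 : ∑ p : (U → A) × (U → A), f p.1 * g p.2 =
      ∑ p : (U → A) × (U → A), f p.1 * g p.1 := by
    rw [← Equiv.sum_comp e (fun p => f p.1 * g p.2)]
    apply Finset.sum_congr rfl
    intro p _
    have e1 : f (e p).1 = f p.1 := by
      apply hf
      intro v hv
      simp only [e, Equiv.coe_fn_mk]
      rw [if_neg (hdis v hv)]
    have e2 : g (e p).2 = g p.1 := by
      apply hg
      intro v hv
      simp only [e, Equiv.coe_fn_mk]
      rw [if_pos hv]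
    rw [e1, e2]
  have h2 : ∑ p : (U → A) × (U → A), f p.1 * g p.2 = (∑ a, f a) * ∑ a, g a := by
    rw [Fintype.sum_prod_type, Finset.sum_mul_sum]
  have h3 : ∑ p : (U → A) × (U → A), f p.1 * g p.1 =
      (∑ a, f a * g a) * Fintype.card (U → A) := by
    rw [Fintype.sum_prod_type]
    simp only
    rw [Finset.sum_mul]
    apply Finset.sum_congr rfl
    intro a _
    rw [Finset.sum_const, Finset.card_univ, nsmul_eq_mul]
    ring
  have hpos : (Fintype.card (U → A) : ℝ) ≠ 0 := by exact_mod_cast Fintype.card_ne_zero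
  unfold av
  rw [div_mul_div_comm, div_eq_div_iff hpos (mul_ne_zero hpos hpos), ← h2, h1, h3]
  ring

/-- independence of many local functions -/
theorem av_prod_indep {Q : Type} (vx : Q → Finset U) (h : Q → (U → A) → ℝ)
    (hloc : ∀ F, FDep (vx F) (h F)) (C : Finset Q)
    (hC : ∀ F ∈ C, ∀ G ∈ C, F ≠ G → Disjoint (vx F) (vx G)) (S : Finset U)
    (hS : ∀ F ∈ C, Disjoint (vx F) S) (f : (U → A) → ℝ) (hf : FDep S f) :
    av (fun a => f a * ∏ F ∈ C, h F a) = av f * ∏ F ∈ C, av (h F) := by
  induction C using Finset.induction_on generalizing f S with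
  | empty => simp
  | insert F C hF ih =>
    have hdep : FDep (S ∪ vx F) (fun a => f a * h F a) := by
      intro a b hab
      dsimp only
      rw [hf a b fun v hv => hab v (Finset.mem_union_left _ hv),
        hloc F a b fun v hv => hab v (Finset.mem_union_right _ hv)]
    have h1 := ih (fun G hG G' hG' hne => hC G (Finset.mem_insert_of_mem hG) G'
      (Finset.mem_insert_of_mem hG') hne) (S ∪ vx F) (by
        intro G hG
        rw [Finset.disjoint_union_right]
        refine ⟨hS G (Finset.mem_insert_of_mem hG), hC G (Finset.mem_insert_of_mem hG) F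
          (Finset.mem_insert_self _ _) ?_⟩
        rintro rfl
        exact hF hG) (fun a => f a * h F a) hdep
    rw [Finset.prod_insert hF]
    have e1 : (fun a => f a * ∏ G ∈ insert F C, h G a) =
        fun a => f a * h F a * ∏ G ∈ C, h G a := by
      funext a
      rw [Finset.prod_insert hF]
      ring
    rw [e1, h1, av_indep (S := S) (T := vx F) (hS F (Finset.mem_insert_self _ _)).symm hf
      (hloc F)]
    ring

end average

/-! ### squares at a vertex, colours -/

/-- a code of a square relative to a parity -/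
noncomputable def code (b c : Bool) (i j : Fin (D + 3)) : (Fin (D + 3) × Fin (D + 3)) × Bool :=
  (if b = true then (i, j) else (j, i), c)

/-- the set of codes -/
noncomputable def codes (D : ℕ) : Finset ((Fin (D + 3) × Fin (D + 3)) × Bool) :=
  (univ : Finset (Fin (D + 3))).offDiag ×ˢ univ

theorem card_codes : (codes D).card = 2 * (D + 3) * (D + 2) := by
  unfold codes
  rw [Finset.card_product, Finset.offDiag_card, Finset.card_univ, Finset.card_univ,
    Fintype.card_fin, Fintype.card_bool]
  have : (D + 3) * (D + 3) - (D + 3) = (D + 3) * (D + 2) := by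
    have h : (D + 3) * (D + 3) = (D + 3) * (D + 2) + (D + 3) := by ring
    omega
  rw [this]
  ring

theorem code_mem {b c : Bool} {i j : Fin (D + 3)} (h : i < j) : code b c i j ∈ codes D := by
  unfold code codes
  rw [Finset.mem_product, Finset.mem_offDiag]
  refine ⟨?_, Finset.mem_univ _⟩
  split_ifs
  · exact ⟨Finset.mem_univ _, Finset.mem_univ _, ne_of_lt h⟩
  · exact ⟨Finset.mem_univ _, Finset.mem_univ _, ne_of_gt h⟩

theorem code_inj {b c b' c' : Bool} {i j i' j' : Fin (D + 3)} (h : i < j) (h' : i' < j')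
    (he : code b c i j = code b' c' i' j') : i = i' ∧ j = j' ∧ b = b' ∧ c = c' := by
  unfold code at he
  rw [Prod.mk.injEq] at he
  obtain ⟨h1, h2⟩ := he
  cases b <;> cases b' <;> simp only [Bool.false_eq_true, if_false, if_true, Prod.mk.injEq] at h1
  · exact ⟨h1.2, h1.1, rfl, h2⟩
  · exact absurd h' (not_lt.2 (by rw [← h1.1, ← h1.2]; exact h.le))
  · exact absurd h' (not_lt.2 (by rw [← h1.1, ← h1.2]; exact h.le))
  · exact ⟨h1.1, h1.2, rfl, h2⟩

theorem mem_verts_iff {F : Sq D} (hF : F.2.1 < F.2.2) {t : V D} : t ∈ verts F ↔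
    (t F.2.1 = F.1 F.2.1 ∨ t F.2.1 = F.1 F.2.1 + 1) ∧
    (t F.2.2 = F.1 F.2.2 ∨ t F.2.2 = F.1 F.2.2 + 1) ∧
    ∀ k, k ≠ F.2.1 → k ≠ F.2.2 → t k = F.1 k := by
  obtain ⟨v, i, j⟩ := F
  dsimp only at hF ⊢
  have hij : i ≠ j := ne_of_lt hF
  constructor
  · intro h
    simp only [verts, Finset.mem_insert, Finset.mem_singleton] at h
    rcases h with rfl | rfl | rfl | rfl
    · exact ⟨Or.inl rfl, Or.inl rfl, fun _ _ _ => rfl⟩
    · refine ⟨Or.inr ?_, Or.inl ?_, fun k h1 h2 => ?_⟩
      · simp
      · simp [ev_ne hij.symm]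
      · simp [ev_ne h1]
    · refine ⟨Or.inl ?_, Or.inr ?_, fun k h1 h2 => ?_⟩
      · simp [ev_ne hij]
      · simp
      · simp [ev_ne h2]
    · refine ⟨Or.inr ?_, Or.inr ?_, fun k h1 h2 => ?_⟩
      · simp [ev_ne hij]
      · simp [ev_ne hij.symm]
      · simp [ev_ne h1, ev_ne h2]
  · rintro ⟨h1, h2, h3⟩
    simp only [verts, Finset.mem_insert, Finset.mem_singleton]
    rcases h1 with h1 | h1 <;> rcases h2 with h2 | h2
    · left
      funext k
      by_cases hki : k = i
      · rw [hki, h1]
      · by_cases hkj : k = j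
        · rw [hkj, h2]
        · exact h3 k hki hkj
    · right; right; left
      funext k
      by_cases hki : k = i
      · rw [hki, h1]; simp [ev_ne hij]
      · by_cases hkj : k = j
        · rw [hkj, h2]; simp
        · rw [h3 k hki hkj]; simp [ev_ne hkj]
    · right; left
      funext k
      by_cases hki : k = i
      · rw [hki, h1]; simp
      · by_cases hkj : k = j
        · rw [hkj, h2]; simp [ev_ne hij.symm]
        · rw [h3 k hki hkj]; simp [ev_ne hki]
    · right; right; right
      funext k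
      by_cases hki : k = i
      · rw [hki, h1]; simp [ev_ne hij]
      · by_cases hkj : k = j
        · rw [hkj, h2]; simp [ev_ne hij.symm]
        · rw [h3 k hki hkj]; simp [ev_ne hki, ev_ne hkj]

/-- at most `2 (D + 3) (D + 2)` squares have a corner `t` -/
theorem card_sqs_at (n : ℕ) (t : V D) :
    ((sqs D n).filter fun F => t ∈ verts F).card ≤ 2 * (D + 3) * (D + 2) := by
  rw [← card_codes]
  apply Finset.card_le_card_of_injOn
    (fun F : Sq D => code (decide (t F.2.1 = F.1 F.2.1)) (decide (t F.2.2 = F.1 F.2.2)) F.2.1 F.2.2)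
  · intro F hF
    rw [Finset.mem_coe, Finset.mem_filter, mem_sqs] at hF
    exact Finset.mem_coe.2 (code_mem hF.1.1)
  · rintro ⟨v, i, j⟩ hF ⟨v', i', j'⟩ hF' heq
    rw [Finset.mem_coe, Finset.mem_filter, mem_sqs] at hF hF'
    obtain ⟨⟨hlt, _⟩, ht⟩ := hF
    obtain ⟨⟨hlt', _⟩, ht'⟩ := hF'
    rw [mem_verts_iff hlt] at ht
    rw [mem_verts_iff hlt'] at ht'
    dsimp only at hlt hlt' ht ht' heq
    obtain ⟨hi, hj, hb, hc⟩ := code_inj hlt hlt' heq
    subst hi hj
    have hb' : t i = v i ↔ t i = v' i := by simpa using hb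
    have hc' : t j = v j ↔ t j = v' j := by simpa using hc
    have hv : v = v' := by
      funext k
      by_cases hki : k = i
      · subst hki
        rcases ht.1 with h | h
        · have := hb'.1 h
          omega
        · rcases ht'.1 with h' | h'
          · have := hb'.2 h'
            omega
          · omega
      · by_cases hkj : k = j
        · subst hkj
          rcases ht.2.1 with h | h
          · have := hc'.1 h
            omega
          · rcases ht'.2.1 with h' | h'
            · have := hc'.2 h'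
              omega
            · omega
        · rw [← ht.2.2 k hki hkj, ht'.2.2 k hki hkj]
    rw [hv]

/-- the colour of a square -/
noncomputable def colr (F : Sq D) : (Fin (D + 3) × Fin (D + 3)) × Bool :=
  code (decide (F.1 F.2.1 % 2 = 0)) (decide (F.1 F.2.2 % 2 = 0)) F.2.1 F.2.2

/-- squares of the same colour are disjoint -/
theorem colr_disj {F G : Sq D} (hF : F.2.1 < F.2.2) (hG : G.2.1 < G.2.2) (hc : colr F = colr G)
    {t : V D} (ht : t ∈ verts F) (ht' : t ∈ verts G) : F = G := by
  obtain ⟨v, i, j⟩ := F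
  obtain ⟨v', i', j'⟩ := G
  rw [mem_verts_iff hF] at ht
  rw [mem_verts_iff hG] at ht'
  unfold colr at hc
  dsimp only at hF hG ht ht' hc
  obtain ⟨hi, hj, hb, hcc⟩ := code_inj hF hG hc
  subst hi hj
  have hb' : v i % 2 = 0 ↔ v' i % 2 = 0 := by simpa using hb
  have hc' : v j % 2 = 0 ↔ v' j % 2 = 0 := by simpa using hcc
  have hv : v = v' := by
    funext k
    by_cases hki : k = i
    · subst hki
      have h1 := ht.1
      have h2 := ht'.1
      omega
    · by_cases hkj : k = j
      · subst hkj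
        have h1 := ht.2.1
        have h2 := ht'.2.1
        omega
      · rw [← ht.2.2 k hki hkj, ht'.2.2 k hki hkj]
  rw [hv]

/-- `nhit` does not depend on the position at `t` -/
theorem nhit_update {n T : ℕ} (hT : 0 < T) (t : ↥(box D n)) (κ : Finset (E D)) (a : Asg D n T)
    (b : Fin (D + 3) → Fin T) :
    nhit hT t.1 κ (Function.update a t b) = nhit hT t.1 κ a := by
  unfold nhit
  congr 1
  apply Finset.filter_congr
  intro F hF
  apply and_congr_right
  intro ht
  have h : (mkR hT (Function.update a t b) 0).P (sqc F) = (mkR hT a 0).P (sqc F) := by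
    apply P_sqc_congr hT hF
    intro v hv hvF
    rw [Function.update_of_ne]
    rintro rfl
    exact ht hvF
  rw [h]

/-- exponential moment of the number of squares that are hit -/
theorem mgf_nhit {n T : ℕ} (hT : 0 < T) (t : V D) (κ : Finset (E D)) {lam : ℝ} (hl : 1 ≤ lam) :
    (∑ a : Asg D n T, lam ^ nhit hT t κ a) / Fintype.card (Asg D n T) ≤
      Real.exp (lam ^ (2 * (D + 3) * (D + 2)) *
        (4 * (D + 3) * (D + 2) * κ.card / (T : ℝ) ^ (D + 2))) := by
  have hl0 : (0 : ℝ) < lam := by linarith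
  have : Nonempty (Fin T) := ⟨⟨0, hT⟩⟩
  set N : ℕ := 2 * (D + 3) * (D + 2) with hN
  have hNpos : 0 < N := by positivity
  set L : ℝ := lam ^ N with hL
  have hL1 : 1 ≤ L := one_le_pow₀ hl
  set M : ℝ := 4 * (D + 3) * (D + 2) * κ.card / (T : ℝ) ^ (D + 2) with hM
  let hit : Sq D → Asg D n T → Prop := fun F a => ∃ z ∈ κ, (mkR hT a 0).P (sqc F) z ≠ 0
  let Nc : (Fin (D + 3) × Fin (D + 3)) × Bool → Asg D n T → ℕ := fun c a =>
    (((sqs D n).filter fun F => colr F = c ∧ t ∉ verts F).filter fun F => hit F a).card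
  have hsum : ∀ a, nhit hT t κ a = ∑ c ∈ codes D, Nc c a := by
    intro a
    unfold nhit
    rw [Finset.card_eq_sum_card_fiberwise (f := colr) (t := codes D)]
    · apply Finset.sum_congr rfl
      intro c _
      simp only [Nc]
      congr 1
      ext F
      simp only [Finset.mem_filter]
      tauto
    · intro F hF
      rw [Finset.mem_coe, Finset.mem_filter, mem_sqs] at hF
      exact Finset.mem_coe.2 (code_mem hF.1.1)
  -- AM-GM
  have step2 : ∀ a : Asg D n T, lam ^ (nhit hT t κ a) ≤
      ∑ c ∈ codes D, (N : ℝ)⁻¹ * L ^ (Nc c a) := by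
    intro a
    have hn' : (N : ℝ) ≠ 0 := by exact_mod_cast hNpos.ne'
    have h1 := Real.geom_mean_le_arith_mean_weighted (codes D)
      (fun _ => (N : ℝ)⁻¹) (fun c => (lam ^ (Nc c a)) ^ N) (fun _ _ => by positivity)
      (by rw [Finset.sum_const, card_codes, ← hN, nsmul_eq_mul, mul_inv_cancel₀ hn'])
      (fun _ _ => by positivity)
    have h2 : ∏ c ∈ codes D, ((lam ^ (Nc c a)) ^ N) ^ ((N : ℝ)⁻¹) = lam ^ (nhit hT t κ a) := by
      rw [hsum a, ← Finset.prod_pow_eq_pow_sum]
      apply Finset.prod_congr rfl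
      intro c _
      exact Real.pow_rpow_inv_natCast (by positivity) hNpos.ne'
    rw [h2] at h1
    refine h1.trans (le_of_eq ?_)
    apply Finset.sum_congr rfl
    intro c _
    rw [hL, ← pow_mul, ← pow_mul, mul_comm N]
  -- independence
  let hfun : Sq D → Asg D n T → ℝ := fun F a => if hit F a then L else 1
  let vx : Sq D → Finset ↥(box D n) := fun F => univ.filter fun v => v.1 ∈ verts F
  have step3 : ∀ c, av (fun a : Asg D n T => L ^ (Nc c a)) ≤ Real.exp (L * M) := by
    intro c
    set C : Finset (Sq D) := (sqs D n).filter fun F => colr F = c ∧ t ∉ verts F with hC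
    have e1 : ∀ a : Asg D n T, L ^ (Nc c a) = ∏ F ∈ C, hfun F a := by
      intro a
      simp only [hfun]
      rw [Finset.prod_ite, Finset.prod_const, Finset.prod_const, one_pow, mul_one]
    have e2 : av (fun a : Asg D n T => 1 * ∏ F ∈ C.filter (fun F => F ∈ sqs D n),
        (if F ∈ sqs D n then hfun F a else 1)) =
        av (fun _ : Asg D n T => (1 : ℝ)) * ∏ F ∈ C.filter (fun F => F ∈ sqs D n),
          av (fun a : Asg D n T => if F ∈ sqs D n then hfun F a else 1) := by
      apply av_prod_indep vx (fun F (a : Asg D n T) => if F ∈ sqs D n then hfun F a else 1) _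
        (C.filter (fun F => F ∈ sqs D n)) _ ∅ _ (fun _ : Asg D n T => (1 : ℝ))
      · intro a b _
        rfl
      · intro F a b hab
        dsimp only
        by_cases hFs : F ∈ sqs D n
        · rw [if_pos hFs, if_pos hFs]
          have h3 : (mkR hT a 0).P (sqc F) = (mkR hT b 0).P (sqc F) := by
            apply P_sqc_congr hT hFs
            intro v hv hvF
            exact hab ⟨v, hv⟩ (Finset.mem_filter.2 ⟨Finset.mem_univ _, hvF⟩)
          simp only [hfun, hit]
          rw [h3]
        · rw [if_neg hFs, if_neg hFs]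
      · intro F hF G hG hne
        rw [Finset.mem_filter, hC, Finset.mem_filter] at hF hG
        rw [Finset.disjoint_left]
        intro v hv hv'
        exact hne (colr_disj (mem_sqs.1 hF.2).1 (mem_sqs.1 hG.2).1 (hF.1.2.1.trans hG.1.2.1.symm)
          (Finset.mem_filter.1 hv).2 (Finset.mem_filter.1 hv').2)
      · intro F _
        exact Finset.disjoint_empty_right _
    have hCC : C.filter (fun F => F ∈ sqs D n) = C := by
      apply Finset.filter_true_of_mem
      intro F hF
      exact (Finset.mem_filter.1 hF).1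
    rw [hCC, av_const, one_mul] at e2
    have e4 : (fun a : Asg D n T => L ^ (Nc c a)) =
        fun a : Asg D n T => 1 * ∏ F ∈ C, (if F ∈ sqs D n then hfun F a else 1) := by
      funext a
      rw [e1 a, one_mul]
      apply Finset.prod_congr rfl
      intro F hF
      rw [if_pos (Finset.mem_filter.1 hF).1]
    rw [e4, e2]
    calc ∏ F ∈ C, av (fun a : Asg D n T => if F ∈ sqs D n then hfun F a else 1)
        ≤ ∏ F ∈ C, Real.exp (L * pr (hit F)) := by
          apply Finset.prod_le_prod
          · intro F _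
            apply av_nonneg
            intro a
            simp only [hfun]
            split_ifs <;> linarith
          · intro F hF
            have e5 : (fun a : Asg D n T => if F ∈ sqs D n then hfun F a else 1) = hfun F := by
              funext a
              rw [if_pos (Finset.mem_filter.1 hF).1]
            rw [e5]
            have e6 : av (fun a => if hit F a then (1 : ℝ) else 0) = pr (hit F) := by
              unfold av pr
              rw [Finset.sum_ite, Finset.sum_const_zero, add_zero, Finset.sum_const, nsmul_eq_mul,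
                mul_one]
              congr!
            have : av (hfun F) = 1 + (L - 1) * av (fun a => if hit F a then (1 : ℝ) else 0) := by
              rw [← av_const_mul]
              have := av_add (fun _ : Asg D n T => (1 : ℝ))
                (fun a => (L - 1) * if hit F a then (1 : ℝ) else 0)
              rw [av_const] at this
              rw [← this]
              congr 1
              funext a
              simp only [hfun]
              split_ifs <;> ring
            rw [this, e6]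
            have hp : 0 ≤ pr (hit F) := pr_nonneg _
            have h5 := Real.add_one_le_exp (L * pr (hit F))
            nlinarith
      _ = Real.exp (∑ F ∈ C, L * pr (hit F)) := by
          rw [Real.exp_sum]
      _ ≤ Real.exp (L * M) := by
          apply Real.exp_le_exp.2
          rw [← Finset.mul_sum]
          apply mul_le_mul_of_nonneg_left _ (by linarith)
          have h6 : ∑ F ∈ sqs D n, pr (hit F) ≤ M := sum_pr_hit hT κ
          have h7 : ∑ F ∈ C, pr (hit F) ≤ ∑ F ∈ sqs D n, pr (hit F) :=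
            Finset.sum_le_sum_of_subset_of_nonneg (Finset.filter_subset _ _)
              (fun F _ _ => pr_nonneg _)
          exact h7.trans h6
  change av (fun a : Asg D n T => lam ^ nhit hT t κ a) ≤ _
  calc av (fun a : Asg D n T => lam ^ nhit hT t κ a)
      ≤ av (fun a : Asg D n T => ∑ c ∈ codes D, (N : ℝ)⁻¹ * L ^ (Nc c a)) := av_mono step2
    _ = ∑ c ∈ codes D, (N : ℝ)⁻¹ * av (fun a : Asg D n T => L ^ (Nc c a)) := by
        rw [av_sum]
        exact Finset.sum_congr rfl fun c _ => av_const_mul _ _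
    _ ≤ ∑ _c ∈ codes D, (N : ℝ)⁻¹ * Real.exp (L * M) :=
        Finset.sum_le_sum fun c _ => mul_le_mul_of_nonneg_left (step3 c) (by positivity)
    _ = Real.exp (L * M) := by
        rw [Finset.sum_const, card_codes, ← hN, nsmul_eq_mul, ← mul_assoc,
          mul_inv_cancel₀ (by exact_mod_cast hNpos.ne'), one_mul]

/-- the sets of `q` squares that are hit -/
theorem card_hit_sets {n T : ℕ} (hT : 0 < T) (t : V D) (κ : Finset (E D)) (a : Asg D n T) (q : ℕ)
    {lam : ℝ} (hl : 1 ≤ lam) :
    ((((sqs D n).powersetCard q).filter fun S => ∀ F ∈ S, ∃ z ∈ κ,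
      (mkR hT a 0).P (sqc F) z ≠ 0).card : ℝ) ≤
      (2 * lam) ^ (2 * (D + 3) * (D + 2)) * (2 * lam) ^ nhit hT t κ a / lam ^ q := by
  have hl0 : (0 : ℝ) < lam := by linarith
  have h2l : (1 : ℝ) ≤ 2 * lam := by linarith
  set M' := (sqs D n).filter fun F => ∃ z ∈ κ, (mkR hT a 0).P (sqc F) z ≠ 0 with hM'
  have e1 : ((sqs D n).powersetCard q).filter
      (fun S => ∀ F ∈ S, ∃ z ∈ κ, (mkR hT a 0).P (sqc F) z ≠ 0) = M'.powersetCard q := by
    ext S
    simp only [Finset.mem_filter, Finset.mem_powersetCard, hM']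
    constructor
    · rintro ⟨⟨h1, h2⟩, h3⟩
      exact ⟨fun F hF => Finset.mem_filter.2 ⟨h1 hF, h3 F hF⟩, h2⟩
    · rintro ⟨h1, h2⟩
      exact ⟨⟨fun F hF => (Finset.mem_filter.1 (h1 hF)).1, h2⟩,
        fun F hF => (Finset.mem_filter.1 (h1 hF)).2⟩
  rw [e1, Finset.card_powersetCard]
  have e2 : M'.card ≤ nhit hT t κ a + 2 * (D + 3) * (D + 2) := by
    have h1 : M' ⊆ ((sqs D n).filter fun F => t ∉ verts F ∧ ∃ z ∈ κ,
        (mkR hT a 0).P (sqc F) z ≠ 0) ∪ ((sqs D n).filter fun F => t ∈ verts F) := by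
      intro F hF
      rw [hM', Finset.mem_filter] at hF
      rw [Finset.mem_union, Finset.mem_filter, Finset.mem_filter]
      by_cases h : t ∈ verts F
      · exact Or.inr ⟨hF.1, h⟩
      · exact Or.inl ⟨hF.1, h, hF.2⟩
    calc M'.card ≤ _ := Finset.card_le_card h1
      _ ≤ _ := Finset.card_union_le _ _
      _ ≤ _ := Nat.add_le_add le_rfl (card_sqs_at n t)
  have e3 : ((M'.card.choose q : ℕ) : ℝ) * lam ^ q ≤ (1 + lam) ^ M'.card := by
    rcases Nat.lt_or_ge M'.card q with hlt | hge
    · rw [Nat.choose_eq_zero_of_lt hlt, Nat.cast_zero, zero_mul]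
      positivity
    · rw [add_comm 1 lam, add_pow]
      have : (lam ^ q * 1 ^ (M'.card - q) * (M'.card.choose q : ℕ) : ℝ) ≤
          ∑ m ∈ range (M'.card + 1), lam ^ m * 1 ^ (M'.card - m) * (M'.card.choose m : ℕ) :=
        Finset.single_le_sum (f := fun m => lam ^ m * 1 ^ (M'.card - m) *
          ((M'.card.choose m : ℕ) : ℝ)) (fun m _ => by positivity)
          (Finset.mem_range.2 (by omega))
      calc ((M'.card.choose q : ℕ) : ℝ) * lam ^ q =
          (lam ^ q * 1 ^ (M'.card - q) * (M'.card.choose q : ℕ) : ℝ) := by rw [one_pow]; ring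
        _ ≤ _ := this
  have e4 : (1 + lam) ^ M'.card ≤ (2 * lam) ^ (nhit hT t κ a + 2 * (D + 3) * (D + 2)) := by
    calc (1 + lam) ^ M'.card ≤ (2 * lam) ^ M'.card :=
          pow_le_pow_left₀ (by linarith) (by linarith) _
      _ ≤ _ := pow_le_pow_right₀ h2l e2
  rw [le_div_iff₀ (by positivity)]
  refine (e3.trans e4).trans (le_of_eq ?_)
  rw [pow_add]
  ring

end FrS
end
end
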