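import Pool.Agent.Lib.MP_51bb46_lc.S.ObjC
import Pool.Agent.Lib.MP_51bb46_lc.B.Defs

/-!
The Tseitin formula of the grid, and the base level.
-/

set_option linter.unusedSectionVars false

namespace FrS

open Finset Fr56
open scoped Classical

variable {D : ℕ}

/-- truth value of a bit -/
def tbit (c : ZMod 2) : Bool := decide (c ≠ 0)

/-- the edges of the box at a vertex -/
noncomputable def star (N : ℕ) (v : V D) : Finset (E D) :=
  (edges D N).filter fun e => e.1 = v ∨ e.1 + ev e.2 = v

/-- the clause that excludes the pattern `T` on the edges at `v` -/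
noncomputable def clause (u0 : E D) (N : ℕ) (v : V D) (T : Finset (E D)) : Fm (E D) :=
  Fm.disj (.var u0) ((star N v).toList.map fun u => if u ∈ T then Fm.neg (.var u) else Fm.var u)

/-- all clauses: patterns of wrong parity; the charge is `1` at the origin and `0` elsewhere -/
noncomputable def clauses (D N : ℕ) : Finset (V D × Finset (E D)) :=
  (box D N ×ˢ (edges D N).powerset).filter fun p =>
    p.2 ⊆ star N p.1 ∧ (p.2.card : ZMod 2) ≠ dl (0 : V D) p.1

/-- the Tseitin formula of the grid of side `N`, over the edges -/
noncomputable def Ts (D N : ℕ) : Fm (E D) :=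
  Fm.conj (.var (0, 0)) ((clauses D N).toList.map fun p => clause (0, 0) N p.1 p.2)

/-- evaluation of an object by a decision tree -/
def evT : Ob (E D) → DT (E D) Bool
  | .var (.inl e) => .node e (.leaf false) (.leaf true)
  | .var (.inr b) => .leaf b
  | .neg f => (evT f).map fun a => !a
  | .and f g => (evT f).bind fun a => (evT g).map fun b => a && b
  | .or f g => (evT f).bind fun a => (evT g).map fun b => a || b

/-- the clause objects -/
def ClsOf (D N : ℕ) : Set (Ob (E D)) :=
  {O | ∃ p ∈ clauses D N, O = (clause (0, 0) N p.1 p.2).map Sum.inl}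

end FrS
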