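import Pool.Agent.Lib.MP_51bb46_lc.B.Defs
import Pool.Agent.Lib.MP_51bb46_lc.S.Reloc

/-!
Formulas over decision trees.
-/

set_option linter.unusedSectionVars false

namespace FrS

open Finset Fr56
open scoped Classical

variable {D : ℕ}

/-- the labels of the leaves of a formula, in order -/
def lv {X : Type} : Fm X → List X
  | .var v => [v]
  | .neg f => lv f
  | .and f g => lv f ++ lv g
  | .or f g => lv f ++ lv g

theorem length_lv {X : Type} (f : Fm X) : (lv f).length = f.leaves := by
  induction f with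
  | var v => rfl
  | neg f ih => simpa [lv, Fm.leaves] using ih
  | and f g ihf ihg => simp [lv, Fm.leaves, ihf, ihg]
  | or f g ihf ihg => simp [lv, Fm.leaves, ihf, ihg]

theorem lv_map {X Y : Type} (σ : X → Y) (f : Fm X) : lv (f.map σ) = (lv f).map σ := by
  induction f with
  | var v => rfl
  | neg f ih => simpa [lv, Fm.map] using ih
  | and f g ihf ihg => simp [lv, Fm.map, ihf, ihg]
  | or f g ihf ihg => simp [lv, Fm.map, ihf, ihg]

theorem eval_congr_lv {X : Type} {f : Fm X} {i j : X → Bool} (h : ∀ v ∈ lv f, i v = j v) :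
    f.eval i = f.eval j := by
  induction f with
  | var v => exact h v (by simp [lv])
  | neg f ih => simp only [Fm.eval]; rw [ih h]
  | and f g ihf ihg =>
    simp only [Fm.eval]
    rw [ihf fun v hv => h v (by simp [lv, hv]), ihg fun v hv => h v (by simp [lv, hv])]
  | or f g ihf ihg =>
    simp only [Fm.eval]
    rw [ihf fun v hv => h v (by simp [lv, hv]), ihg fun v hv => h v (by simp [lv, hv])]

/-- the value of a conjunction of a nonempty list -/
theorem eval_conj_ne {X : Type} (i : X → Bool) (d : Fm X) :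
    ∀ l : List (Fm X), l ≠ [] → ((Fm.conj d l).eval i = true ↔ ∀ f ∈ l, f.eval i = true)
  | [], h => absurd rfl h
  | [f], _ => by simp [Fm.conj]
  | f :: g :: l, _ => by
      have ih := eval_conj_ne i d (g :: l) (by simp)
      rw [Fm.conj, Fm.eval, Bool.and_eq_true, ih]
      simp only [List.mem_cons, forall_eq_or_imp]

/-- the number of leaves of a conjunction of a nonempty list -/
theorem leaves_conj_le {X : Type} (d : Fm X) (m : ℕ) :
    ∀ l : List (Fm X), l ≠ [] → (∀ f ∈ l, f.leaves ≤ m) → (Fm.conj d l).leaves ≤ l.length * m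
  | [], h, _ => absurd rfl h
  | [f], _, hm => by simpa [Fm.conj] using hm f (by simp)
  | f :: g :: l, _, hm => by
      have ih := leaves_conj_le d m (g :: l) (by simp) fun f' hf' => hm f' (by simp [hf'])
      have h1 := hm f (by simp)
      rw [Fm.conj, Fm.leaves]
      calc f.leaves + (Fm.conj d (g :: l)).leaves ≤ m + (g :: l).length * m := by gcongr
        _ = (f :: g :: l).length * m := by simp only [List.length_cons]; ring

/-- the leaf labels of a conjunction of a nonempty list -/
theorem mem_lv_conj {X : Type} (d : Fm X) (v : X) :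
    ∀ l : List (Fm X), l ≠ [] → v ∈ lv (Fm.conj d l) → ∃ f ∈ l, v ∈ lv f
  | [], h, _ => absurd rfl h
  | [f], _, hv => ⟨f, by simp, by simpa [Fm.conj] using hv⟩
  | f :: g :: l, _, hv => by
      rw [Fm.conj, lv, List.mem_append] at hv
      rcases hv with hv | hv
      · exact ⟨f, by simp, hv⟩
      · obtain ⟨f', hf', hv'⟩ := mem_lv_conj d v (g :: l) (by simp) hv
        exact ⟨f', by simp [hf'], hv'⟩

/-- formulas whose leaves are decision trees -/
abbrev TF (D : ℕ) : Type := Fm (DT (E D) Bool)

/-- value -/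
def TF.ev (φ : TF D) (x : Ch D) : Bool := φ.eval fun A => A.val x

/-- everything that is read by the leaf trees -/
def TF.rd (φ : TF D) (x : Ch D) : List (E D) := (lv φ).flatMap fun A => A.reads x

/-- `m` leaves of depth at most `k` -/
def TF.Ok (m k : ℕ) (φ : TF D) : Prop := φ.leaves ≤ m ∧ ∀ A ∈ lv φ, A.depth ≤ k

/-- is an edge with property `P` read by a leaf tree? -/
noncomputable def hitF (P : E D → Prop) : TF D → TF D
  | .var A => .var (A.hit P)
  | .neg f => hitF P f
  | .and f g => .or (hitF P f) (hitF P g)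
  | .or f g => .or (hitF P f) (hitF P g)

/-- are all hyperplanes of `J` touched? (`J` nonempty) -/
noncomputable def tauF (T : ℕ) (J : Finset ℤ) (φ : TF D) : TF D :=
  Fm.conj φ (J.toList.map fun h => hitF (fun z => tch T z h) φ)

theorem ev_hitF (P : E D → Prop) (φ : TF D) (x : Ch D) :
    (hitF P φ).ev x = true ↔ ∃ z ∈ φ.rd x, P z := by
  unfold TF.ev TF.rd
  induction φ with
  | var A => simpa [hitF, Fm.eval, lv] using DT.val_hit P A x
  | neg f ih => simpa [hitF, lv] using ih
  | and f g ihf ihg =>
    rw [hitF, Fm.eval, Bool.or_eq_true, ihf, ihg, lv, List.flatMap_append]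
    simp only [List.mem_append, or_and_right, exists_or]
  | or f g ihf ihg =>
    rw [hitF, Fm.eval, Bool.or_eq_true, ihf, ihg, lv, List.flatMap_append]
    simp only [List.mem_append, or_and_right, exists_or]

theorem leaves_hitF (P : E D → Prop) (φ : TF D) : (hitF P φ).leaves = φ.leaves := by
  induction φ with
  | var A => rfl
  | neg f ih => simpa [hitF, Fm.leaves] using ih
  | and f g ihf ihg => simp [hitF, Fm.leaves, ihf, ihg]
  | or f g ihf ihg => simp [hitF, Fm.leaves, ihf, ihg]

theorem lv_hitF (P : E D → Prop) (φ : TF D) : lv (hitF P φ) = (lv φ).map (DT.hit P) := by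
  induction φ with
  | var A => rfl
  | neg f ih => simpa [hitF, lv] using ih
  | and f g ihf ihg => simp [hitF, lv, ihf, ihg]
  | or f g ihf ihg => simp [hitF, lv, ihf, ihg]

theorem ok_hitF {m k : ℕ} (P : E D → Prop) {φ : TF D} (h : φ.Ok m k) : (hitF P φ).Ok m k := by
  refine ⟨(leaves_hitF P φ).le.trans h.1, fun A hA => ?_⟩
  rw [lv_hitF, List.mem_map] at hA
  obtain ⟨B, hB, rfl⟩ := hA
  exact (DT.depth_hit P B).trans (h.2 B hB)

theorem ev_tauF {T : ℕ} {J : Finset ℤ} (hJ : J.Nonempty) (φ : TF D) (x : Ch D) :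
    (tauF T J φ).ev x = true ↔ ∀ h ∈ J, Tl T (φ.rd x) h := by
  have hne : (J.toList.map fun h => hitF (fun z => tch T z h) φ) ≠ [] := by
    obtain ⟨a, ha⟩ := hJ
    intro h0
    rw [List.map_eq_nil_iff] at h0
    have := Finset.mem_toList.mpr ha
    rw [h0] at this
    exact absurd this (by simp)
  unfold TF.ev tauF
  rw [eval_conj_ne _ _ _ hne]
  simp only [List.mem_map, Finset.mem_toList, forall_exists_index, and_imp,
    forall_apply_eq_imp_iff₂]
  refine forall₂_congr fun h _ => ?_
  exact ev_hitF (fun z => tch T z h) φ x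

theorem ok_tauF {m k T : ℕ} {J : Finset ℤ} (hJ : J.Nonempty) {φ : TF D} (h : φ.Ok m k) :
    (tauF T J φ).Ok (J.card * m) k := by
  have hne : (J.toList.map fun h => hitF (fun z => tch T z h) φ) ≠ [] := by
    obtain ⟨a, ha⟩ := hJ
    intro h0
    rw [List.map_eq_nil_iff] at h0
    have := Finset.mem_toList.mpr ha
    rw [h0] at this
    exact absurd this (by simp)
  unfold tauF
  refine ⟨?_, fun A hA => ?_⟩
  · have := leaves_conj_le φ m _ hne (by
      intro f hf
      rw [List.mem_map] at hf
      obtain ⟨h', _, rfl⟩ := hf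
      exact (ok_hitF _ h).1)
    simpa using this
  · obtain ⟨f, hf, hA'⟩ := mem_lv_conj φ A _ hne hA
    rw [List.mem_map] at hf
    obtain ⟨h', _, rfl⟩ := hf
    exact (ok_hitF _ h).2 A hA'

/-- the joint tree of all leaves -/
def TF.joint (φ : TF D) : DT (E D) (List Bool) := DT.seq (lv φ)

theorem depth_joint {m k : ℕ} {φ : TF D} (h : φ.Ok m k) : φ.joint.depth ≤ m * k := by
  refine (DT.depth_seq (lv φ) h.2).trans ?_
  rw [length_lv]
  exact Nat.mul_le_mul_right k h.1

theorem reads_joint (φ : TF D) (x : Ch D) : φ.joint.reads x = φ.rd x := by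
  exact DT.reads_seq (lv φ) x

/-- the value is determined by the labels of the joint tree -/
theorem ev_congr_joint {φ : TF D} {x x' : Ch D} (h : φ.joint.val x' = φ.joint.val x) :
    φ.ev x' = φ.ev x := by
  unfold TF.joint at h
  rw [DT.val_seq, DT.val_seq] at h
  refine eval_congr_lv fun A hA => ?_
  exact List.map_inj_left.mp h A hA

theorem length_rd_le {m k : ℕ} {φ : TF D} (h : φ.Ok m k) (x : Ch D) :
    (φ.rd x).length ≤ m * k := by
  rw [← reads_joint]
  exact (DT.length_reads _ x).trans (depth_joint h)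

end FrS
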