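import Pool.Agent.Lib.MP_51bb46_lc.B.Pieces
import Pool.Agent.Lib.MP_51bb46_lc.S.TF

/-!
Objects: formulas with constants; decomposition into one-hole pieces.
-/

set_option linter.unusedSectionVars false

namespace FrS

open Finset Fr56

variable {X : Type}

/-- objects: formulas over variables and Boolean constants -/
abbrev Ob (X : Type) : Type := Fm (X ⊕ Bool)

/-- the top fragment of an object at threshold `l`; constants and cut nodes become the hole -/
def htop (l : ℕ) : Ob X → Fm (Option X)
  | .var (.inl x) => .var (some x)
  | .var (.inr _) => .var none
  | .neg f => .neg (htop l f)
  | .and f g => if cut l (htop l f) (htop l g) then .var none else .and (htop l f) (htop l g)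
  | .or f g => if cut l (htop l f) (htop l g) then .var none else .or (htop l f) (htop l g)

/-- polarity of the hole -/
def pol : Fm (Option X) → Bool
  | .var _ => true
  | .neg f => !pol f
  | .and f g => if hasHole f then pol f else pol g
  | .or f g => if hasHole f then pol f else pol g

/-- at most one hole -/
def One : Fm (Option X) → Prop
  | .var _ => True
  | .neg f => One f
  | .and f g => One f ∧ One g ∧ ¬ (hasHole f = true ∧ hasHole g = true)
  | .or f g => One f ∧ One g ∧ ¬ (hasHole f = true ∧ hasHole g = true)

/-- the formula that computes the value of `t` from the value `h` of its hole; the leaves are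
objects -/
def mkv (t : Fm (Option X)) (h : Fm (Ob X)) : Fm (Ob X) :=
  if hasHole t then
    (if pol t then .or (.var (lab false t)) (.and (.var (lab true t)) h)
      else .or (.var (lab true t)) (.and (.var (lab false t)) (.neg h)))
  else .var (lab false t)

/-- the value of the hole of the top fragment -/
def hv (l : ℕ) : Ob X → Fm (Ob X)
  | .var (.inl _) => .var (.var (.inr false))
  | .var (.inr b) => .var (.var (.inr b))
  | .neg f => hv l f
  | .and f g => if cut l (htop l f) (htop l g) then
      .and (mkv (htop l f) (hv l f)) (mkv (htop l g) (hv l g))
      else if hasHole (htop l f) then hv l f else hv l g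
  | .or f g => if cut l (htop l f) (htop l g) then
      .or (mkv (htop l f) (hv l f)) (mkv (htop l g) (hv l g))
      else if hasHole (htop l f) then hv l f else hv l g

/-- the value of an object, as a formula over smaller objects -/
def fv (l : ℕ) (O : Ob X) : Fm (Ob X) := mkv (htop l O) (hv l O)

/-- number of constants -/
def nc : Ob X → ℕ
  | .var (.inl _) => 0
  | .var (.inr _) => 1
  | .neg f => nc f
  | .and f g => nc f + nc g
  | .or f g => nc f + nc g

/-- `p ≤ q` or `q ≤ p`, according to the sign -/
def Mn (s : Bool) (p q : Bool) : Prop := if s then (p = true → q = true) else (q = true → p = true)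

/-! ### the finite class of objects of a set of formulas -/

/-- the contexts of `B` with exactly one hole -/
def hol : Fm X → List (Fm (Option X))
  | .var _ => [.var none]
  | .neg f => .var none :: (hol f).map .neg
  | .and f g => .var none :: ((hol f).map (fun C => .and C (g.map some)) ++
      (hol g).map (fun C => .and (f.map some) C))
  | .or f g => .var none :: ((hol f).map (fun C => .or C (g.map some)) ++
      (hol g).map (fun C => .or (f.map some) C))

/-- all contexts with at most one hole -/
def ctxs (B : Fm X) : List (Fm (Option X)) := B.map some :: hol B

/-- the objects of `B` -/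
def obs (B : Fm X) : List (Ob X) := (ctxs B).flatMap fun C => [lab false C, lab true C]

end FrS
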