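import Mathlib
import Pool.Agent.Lib.MP_51bb46_lc.S.Obj
import Pool.Agent.Lib.MP_51bb46_lc.S.SampB

section

/-!
Level interpretations of the objects, transfer from a fine to a coarse level.
-/

set_option linter.unusedSectionVars false

namespace FrS

open Finset Fr56
open scoped Classical

variable {D : ℕ}

/-- a class of objects closed under the operations of the decomposition -/
structure ObsCl (Obs : Set (Ob (E D))) : Prop where
  sub : ∀ O ∈ Obs, ∀ P ∈ O.subs, P ∈ Obs
  top : ∀ O ∈ Obs, ∀ l b, lab b (htop l O) ∈ Obs
  nc : ∀ O ∈ Obs, nc O ≤ 1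
  const : ∀ b, Fm.var (Sum.inr b) ∈ Obs

/-- `I` interprets the objects of `Obs` with at most `S` variable leaves by decision trees of depth
at most `k` on the grid of side `n`, compatibly with the connectives at all points whose violated
vertex is far from what is read; the objects of `Cls` are true -/
structure IsLvl (Obs Cls : Set (Ob (E D))) (n k S : ℕ) (I : Ob (E D) → DT (E D) Bool) : Prop where
  const : ∀ b, I (.var (.inr b)) = .leaf b
  depth : ∀ O ∈ Obs, vl2 O ≤ S → (I O).depth ≤ k
  neg : ∀ P, Fm.neg P ∈ Obs → vl2 P ≤ S → ∀ t ∈ box D n, ∀ y, Yt n t y →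
    Far ((I P).reads y) (t 0) → Far ((I (.neg P)).reads y) (t 0) →
    (I (.neg P)).val y = !(I P).val y
  and : ∀ P Q, Fm.and P Q ∈ Obs → vl2 P + vl2 Q ≤ S → ∀ t ∈ box D n, ∀ y, Yt n t y →
    Far ((I P).reads y) (t 0) → Far ((I Q).reads y) (t 0) → Far ((I (.and P Q)).reads y) (t 0) →
    (I (.and P Q)).val y = ((I P).val y && (I Q).val y)
  or : ∀ P Q, Fm.or P Q ∈ Obs → vl2 P + vl2 Q ≤ S → ∀ t ∈ box D n, ∀ y, Yt n t y →
    Far ((I P).reads y) (t 0) → Far ((I Q).reads y) (t 0) → Far ((I (.or P Q)).reads y) (t 0) →
    (I (.or P Q)).val y = ((I P).val y || (I Q).val y)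
  mono : ∀ C : Fm (Option (E D)), One C → hasHole C = true → (∀ b, lab b C ∈ Obs) → vl C ≤ S →
    ∀ t ∈ box D n, ∀ y, Yt n t y → (∀ b, Far ((I (lab b C)).reads y) (t 0)) →
    Mn (pol C) ((I (lab false C)).val y) ((I (lab true C)).val y)
  cls : ∀ O ∈ Cls, ∀ t ∈ box D n, ∀ y, Yt n t y → Far ((I O).reads y) (t 0) →
    (I O).val y = true

/-- the formula over trees of an object -/
def phi (l : ℕ) (I : Ob (E D) → DT (E D) Bool) (O : Ob (E D)) : TF D := (fv l O).map I

theorem ev_phi (l : ℕ) (I : Ob (E D) → DT (E D) Bool) (O : Ob (E D)) (x : Ch D) :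
    (phi l I O).ev x = (fv l O).eval fun P => (I P).val x := by
  rw [phi, TF.ev, Fm.eval_map]
  rfl

end FrS
end

section

section

/-!
The spectral step.
-/

set_option linter.unusedSectionVars false

namespace FrS

open Finset Polynomial Matrix
open scoped Classical InnerProductSpace

section op

variable {H : Type} [NormedAddCommGroup H] [InnerProductSpace ℝ H] [FiniteDimensional ℝ H]

/-- polynomials close to `1/s` applied to a symmetric operator with spectrum in `[δ, 1]` -/
theorem op_lemma (A : H →ₗ[ℝ] H) (hA : A.IsSymmetric) (δ : ℝ) (hδ : 0 < δ)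
    (h1 : ∀ v : H, δ * ‖v‖ ^ 2 ≤ ⟪A v, v⟫_ℝ) (h2 : ∀ v : H, ⟪A v, v⟫_ℝ ≤ ‖v‖ ^ 2)
    (p : ℝ[X]) (hp : ∀ s : ℝ, δ ≤ s → s ≤ 1 → 9 / 10 ≤ s * p.eval s ∧ s * p.eval s ≤ 11 / 10)
    (u : H) :
    ∃ w : H, A w = u ∧ 9 / 10 * ⟪u, w⟫_ℝ ≤ ⟪u, aeval A p u⟫_ℝ ∧
      ⟪u, aeval A p u⟫_ℝ ≤ 11 / 10 * ⟪u, w⟫_ℝ := by
  let e := hA.eigenvectorBasis (n := Module.finrank ℝ H) rfl
  let lam := hA.eigenvalues (n := Module.finrank ℝ H) rfl
  have he : ∀ i, A (e i) = lam i • e i := fun i => by
    have := hA.apply_eigenvectorBasis (n := Module.finrank ℝ H) rfl i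
    simpa only [RCLike.ofReal_real_eq_id, id] using this
  have hnorm : ∀ i, ‖e i‖ = 1 := fun i => e.orthonormal.1 i
  have hlam : ∀ i, δ ≤ lam i ∧ lam i ≤ 1 := by
    intro i
    have h3 : ⟪A (e i), e i⟫_ℝ = lam i := by
      rw [he, real_inner_smul_left, real_inner_self_eq_norm_sq, hnorm]
      ring
    have h4 := h1 (e i)
    have h5 := h2 (e i)
    rw [h3, hnorm] at h4 h5
    constructor <;> linarith
  have hlam0 : ∀ i, lam i ≠ 0 := fun i => by
    have := (hlam i).1
    linarith
  have hu : ∑ i, ⟪e i, u⟫_ℝ • e i = u := e.sum_repr' u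
  have hap : ∀ i, aeval A p (e i) = (p.eval (lam i)) • e i := by
    intro i
    have hev : Module.End.HasEigenvector A (lam i) (e i) := by
      refine ⟨Module.End.mem_eigenspace_iff.2 (he i), ?_⟩
      intro h0
      have := hnorm i
      rw [h0, norm_zero] at this
      exact zero_ne_one this
    exact Module.End.aeval_apply_of_hasEigenvector hev
  refine ⟨∑ i, (⟪e i, u⟫_ℝ / lam i) • e i, ?_, ?_⟩
  · rw [map_sum]
    conv_rhs => rw [← hu]
    apply Finset.sum_congr rfl
    intro i _
    rw [map_smul, he, smul_smul, div_mul_cancel₀ _ (hlam0 i)]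
  · have h3 : ⟪u, ∑ i, (⟪e i, u⟫_ℝ / lam i) • e i⟫_ℝ = ∑ i, ⟪e i, u⟫_ℝ ^ 2 / lam i := by
      rw [inner_sum]
      apply Finset.sum_congr rfl
      intro i _
      rw [real_inner_smul_right, real_inner_comm]
      ring
    have h4 : aeval A p u = ∑ i, (⟪e i, u⟫_ℝ * p.eval (lam i)) • e i := by
      conv_lhs => rw [← hu]
      rw [map_sum]
      apply Finset.sum_congr rfl
      intro i _
      rw [map_smul, hap, smul_smul]
    have h5 : ⟪u, aeval A p u⟫_ℝ = ∑ i, ⟪e i, u⟫_ℝ ^ 2 / lam i * (lam i * p.eval (lam i)) := by
      rw [h4, inner_sum]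
      apply Finset.sum_congr rfl
      intro i _
      rw [real_inner_smul_right, real_inner_comm]
      have := hlam0 i
      field_simp
    rw [h3, h5, Finset.mul_sum, Finset.mul_sum]
    constructor
    · apply Finset.sum_le_sum
      intro i _
      have h6 := (hp (lam i) (hlam i).1 (hlam i).2).1
      have h7 : 0 ≤ ⟪e i, u⟫_ℝ ^ 2 / lam i := by
        have := (hlam i).1
        exact div_nonneg (sq_nonneg _) (by linarith)
      nlinarith
    · apply Finset.sum_le_sum
      intro i _
      have h6 := (hp (lam i) (hlam i).1 (hlam i).2).2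
      have h7 : 0 ≤ ⟪e i, u⟫_ℝ ^ 2 / lam i := by
        have := (hlam i).1
        exact div_nonneg (sq_nonneg _) (by linarith)
      nlinarith

end op

section euclid

variable {O : Type} [Fintype O]

/-- the diagonal operator -/
noncomputable def dg (w : O → ℝ) : EuclideanSpace ℝ O →ₗ[ℝ] EuclideanSpace ℝ O where
  toFun v := WithLp.toLp 2 (fun o => w o * v o)
  map_add' v v' := by
    ext o
    simp [mul_add]
  map_smul' a v := by
    ext o
    simp
    ring

@[simp] theorem dg_apply (w : O → ℝ) (v : EuclideanSpace ℝ O) (o : O) :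
    dg w v o = w o * v o := rfl

theorem inner_eq (v v' : EuclideanSpace ℝ O) : ⟪v, v'⟫_ℝ = ∑ o, v o * v' o := by
  simp [PiLp.inner_apply, mul_comm]

theorem norm_sq_eq (v : EuclideanSpace ℝ O) : ‖v‖ ^ 2 = ∑ o, v o ^ 2 := by
  rw [← real_inner_self_eq_norm_sq, inner_eq]
  exact Finset.sum_congr rfl fun o _ => by ring

/-- the compression of the diagonal operator -/
noncomputable def opA (K : Submodule ℝ (EuclideanSpace ℝ O)) (w : O → ℝ) :
    EuclideanSpace ℝ O →ₗ[ℝ] EuclideanSpace ℝ O :=
  K.starProjection.toLinearMap ∘ₗ dg w ∘ₗ K.starProjection.toLinearMap +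
    (LinearMap.id - K.starProjection.toLinearMap)

theorem opA_apply (K : Submodule ℝ (EuclideanSpace ℝ O)) (w : O → ℝ) (v : EuclideanSpace ℝ O) :
    opA K w v = K.starProjection (dg w (K.starProjection v)) + (v - K.starProjection v) := rfl

theorem dg_symm (w : O → ℝ) (v v' : EuclideanSpace ℝ O) : ⟪dg w v, v'⟫_ℝ = ⟪v, dg w v'⟫_ℝ := by
  rw [inner_eq, inner_eq]
  apply Finset.sum_congr rfl
  intro o _
  rw [dg_apply, dg_apply]
  ring

theorem opA_symm (K : Submodule ℝ (EuclideanSpace ℝ O)) (w : O → ℝ) : (opA K w).IsSymmetric := by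
  intro v v'
  rw [opA_apply, opA_apply, inner_add_left, inner_add_right, inner_sub_left, inner_sub_right,
    Submodule.inner_starProjection_left_eq_right, dg_symm,
    Submodule.inner_starProjection_left_eq_right, Submodule.inner_starProjection_left_eq_right]

theorem opA_inner (K : Submodule ℝ (EuclideanSpace ℝ O)) (w : O → ℝ) (v : EuclideanSpace ℝ O) :
    ⟪opA K w v, v⟫_ℝ = ∑ o, w o * (K.starProjection v o) ^ 2 +
      ‖v - K.starProjection v‖ ^ 2 := by
  rw [opA_apply, inner_add_left, Submodule.inner_starProjection_left_eq_right, inner_eq]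
  congr 1
  · apply Finset.sum_congr rfl
    intro o _
    rw [dg_apply]
    ring
  · rw [← real_inner_self_eq_norm_sq, inner_sub_right (v - K.starProjection v) v]
    rw [Submodule.starProjection_inner_eq_zero v _ (Submodule.starProjection_apply_mem K v)]
    ring

theorem norm_split (K : Submodule ℝ (EuclideanSpace ℝ O)) (v : EuclideanSpace ℝ O) :
    ‖v‖ ^ 2 = ∑ o, (K.starProjection v o) ^ 2 + ‖v - K.starProjection v‖ ^ 2 := by
  have h := opA_inner K (fun _ => 1) v
  have h2 : ⟪opA K (fun _ => 1) v, v⟫_ℝ = ‖v‖ ^ 2 := by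
    have h3 : opA K (fun _ => 1) v = v := by
      rw [opA_apply]
      have h4 : dg (fun _ => (1 : ℝ)) (K.starProjection v) = K.starProjection v := by
        ext o
        simp
      rw [h4, Submodule.starProjection_eq_self_iff.2 (Submodule.starProjection_apply_mem K v)]
      abel
    rw [h3, real_inner_self_eq_norm_sq]
  rw [h2] at h
  rw [h]
  simp

/-- bounds of the quadratic form -/
theorem opA_bounds (K : Submodule ℝ (EuclideanSpace ℝ O)) (w : O → ℝ) (δ : ℝ) (hδ : δ ≤ 1)
    (h1 : ∀ o, δ ≤ w o) (h2 : ∀ o, w o ≤ 1) (v : EuclideanSpace ℝ O) :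
    δ * ‖v‖ ^ 2 ≤ ⟪opA K w v, v⟫_ℝ ∧ ⟪opA K w v, v⟫_ℝ ≤ ‖v‖ ^ 2 := by
  rw [opA_inner, norm_split K v]
  have hn : 0 ≤ ‖v - K.starProjection v‖ ^ 2 := sq_nonneg _
  constructor
  · have h3 : δ * ∑ o, (K.starProjection v o) ^ 2 ≤ ∑ o, w o * (K.starProjection v o) ^ 2 := by
      rw [Finset.mul_sum]
      exact Finset.sum_le_sum fun o _ => mul_le_mul_of_nonneg_right (h1 o) (sq_nonneg _)
    nlinarith
  · have h3 : ∑ o, w o * (K.starProjection v o) ^ 2 ≤ ∑ o, (K.starProjection v o) ^ 2 := by
      apply Finset.sum_le_sum
      intro o _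
      have := mul_le_mul_of_nonneg_right (h2 o) (sq_nonneg (K.starProjection v o))
      linarith
    linarith

/-- solution of `A w = Π e` -/
theorem opA_solution (K : Submodule ℝ (EuclideanSpace ℝ O)) (w : O → ℝ)
    (e x : EuclideanSpace ℝ O) (h : opA K w x = K.starProjection e) :
    x ∈ K ∧ ∀ i ∈ K, ∑ o, w o * (i o * x o) = ⟪e, i⟫_ℝ := by
  have h1 : K.starProjection (opA K w x) = K.starProjection (dg w (K.starProjection x)) := by
    rw [opA_apply, map_add, map_sub,
      Submodule.starProjection_eq_self_iff.2 (Submodule.starProjection_apply_mem K _),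
      Submodule.starProjection_eq_self_iff.2 (Submodule.starProjection_apply_mem K x)]
    abel
  have h2 : K.starProjection (opA K w x) = K.starProjection e := by
    rw [h, Submodule.starProjection_eq_self_iff.2 (Submodule.starProjection_apply_mem K e)]
  have h3 : x - K.starProjection x = 0 := by
    have h4 := opA_apply K w x
    rw [h, ← h2, h1] at h4
    have h5 : K.starProjection (dg w (K.starProjection x)) +
        (x - K.starProjection x) - K.starProjection (dg w (K.starProjection x)) = 0 := by
      rw [← h4]; abel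
    rw [add_sub_cancel_left] at h5
    exact h5
  have hx : K.starProjection x = x := (sub_eq_zero.1 h3).symm
  refine ⟨Submodule.starProjection_eq_self_iff.1 hx, ?_⟩
  intro i hi
  have hi' : K.starProjection i = i := Submodule.starProjection_eq_self_iff.2 hi
  have h6 : K.starProjection (dg w x) = K.starProjection e := by
    rw [← h2, h1, hx]
  calc ∑ o, w o * (i o * x o) = ⟪dg w x, i⟫_ℝ := by
        rw [inner_eq]
        apply Finset.sum_congr rfl
        intro o _
        rw [dg_apply]
        ring
    _ = ⟪dg w x, K.starProjection i⟫_ℝ := by rw [hi']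
    _ = ⟪K.starProjection (dg w x), i⟫_ℝ :=
        (Submodule.inner_starProjection_left_eq_right K _ _).symm
    _ = ⟪K.starProjection e, i⟫_ℝ := by rw [h6]
    _ = ⟪e, K.starProjection i⟫_ℝ := Submodule.inner_starProjection_left_eq_right K _ _
    _ = ⟪e, i⟫_ℝ := by rw [hi']

variable [DecidableEq O]

/-- the matrix of an operator -/
noncomputable def mx : (EuclideanSpace ℝ O →ₗ[ℝ] EuclideanSpace ℝ O) →ₗ[ℝ] Matrix O O ℝ where
  toFun T := Matrix.of fun i j => T (EuclideanSpace.single j 1) i
  map_add' T T' := by
    ext i j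
    simp
  map_smul' a T := by
    ext i j
    simp

theorem mx_mulVec (T : EuclideanSpace ℝ O →ₗ[ℝ] EuclideanSpace ℝ O) (v : EuclideanSpace ℝ O)
    (o : O) : (mx T).mulVec v.ofLp o = T v o := by
  have h2 : v = ∑ o', v o' • EuclideanSpace.single o' (1 : ℝ) := by
    ext o''
    simp [Pi.single_apply]
  conv_rhs => rw [h2]
  rw [map_sum]
  simp only [map_smul]
  simp [Matrix.mulVec, dotProduct, mx, mul_comm]

theorem mx_mul (T T' : EuclideanSpace ℝ O →ₗ[ℝ] EuclideanSpace ℝ O) :
    mx (T * T') = mx T * mx T' := by
  ext i j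
  have h1 : (mx T * mx T') i j = (mx T).mulVec (T' (EuclideanSpace.single j 1)).ofLp i := by
    simp [Matrix.mul_apply, Matrix.mulVec, dotProduct, mx]
  rw [h1, mx_mulVec]
  rfl

theorem mx_one : mx (1 : EuclideanSpace ℝ O →ₗ[ℝ] EuclideanSpace ℝ O) = 1 := by
  ext i j
  simp [mx, Matrix.one_apply]

theorem mx_pow (T : EuclideanSpace ℝ O →ₗ[ℝ] EuclideanSpace ℝ O) (n : ℕ) :
    mx (T ^ n) = mx T ^ n := by
  induction n with
  | zero => rw [pow_zero, pow_zero, mx_one]
  | succ n ih => rw [pow_succ, pow_succ, mx_mul, ih]

theorem mx_aeval (T : EuclideanSpace ℝ O →ₗ[ℝ] EuclideanSpace ℝ O) (p : ℝ[X]) :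
    mx (aeval T p) = aeval (mx T) p := by
  rw [Polynomial.aeval_eq_sum_range, Polynomial.aeval_eq_sum_range, map_sum]
  apply Finset.sum_congr rfl
  intro n _
  rw [map_smul, mx_pow]

theorem mx_form (T : EuclideanSpace ℝ O →ₗ[ℝ] EuclideanSpace ℝ O) (p : ℝ[X])
    (v : EuclideanSpace ℝ O) :
    v.ofLp ⬝ᵥ (aeval (mx T) p).mulVec v.ofLp = ⟪v, aeval T p v⟫_ℝ := by
  rw [← mx_aeval, inner_eq]
  unfold dotProduct
  apply Finset.sum_congr rfl
  intro o _
  rw [mx_mulVec]

end euclid

/-- **spectral step**: a quadratic form in `p (A s)`, with `A s` affine in the indicator of the set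
`s` of true leaves, separates the two cases of the span lemma -/
theorem spectral {P : Type} [Fintype P] [DecidableEq P] (K : Submodule ℝ (P → ℝ)) (c : P → ℝ)
    (L : ℕ) (hL : 1 ≤ L) (p : ℝ[X])
    (hp : ∀ t : ℝ, 1 / (16 * L) ≤ t → t ≤ 1 → |1 - t * p.eval t| ≤ 1 / 10) :
    ∃ (ι : Type) (_ : Fintype ι) (_ : DecidableEq ι) (B₀ : Matrix ι ι ℝ) (B : P → Matrix ι ι ℝ)
      (u : ι → ℝ), ∀ s : P → Bool,
      ((∃ i ∈ K, c ⬝ᵥ i = 1 ∧ (∀ q, s q = false → i q = 0) ∧ i ⬝ᵥ i ≤ L) →
        13 / 20 ≤ u ⬝ᵥ (aeval (B₀ + ∑ q, if s q = true then B q else 0) p).mulVec u ∧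
        u ⬝ᵥ (aeval (B₀ + ∑ q, if s q = true then B q else 0) p).mulVec u ≤ 1) ∧
      ((∃ ψ : P → ℝ, (∀ q, s q = true → ψ q = 0) ∧ (∀ κ ∈ K, ψ ⬝ᵥ κ = c ⬝ᵥ κ) ∧ ψ ⬝ᵥ ψ ≤ 1) →
        0 ≤ u ⬝ᵥ (aeval (B₀ + ∑ q, if s q = true then B q else 0) p).mulVec u ∧
        u ⬝ᵥ (aeval (B₀ + ∑ q, if s q = true then B q else 0) p).mulVec u ≤ 1 / 5) := by
  have hL1' : (1 : ℝ) ≤ (L : ℝ) := by exact_mod_cast hL
  have hL0 : (0 : ℝ) < (L : ℝ) := by linarith
  have hp2 : ∀ t : ℝ, 1 / (16 * (L : ℝ)) ≤ t → t ≤ 1 →
      9 / 10 ≤ t * p.eval t ∧ t * p.eval t ≤ 11 / 10 := by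
    intro t h1 h2
    have h3 := abs_le.1 (hp t h1 h2)
    constructor <;> linarith [h3.1, h3.2]
  -- the extended space
  let K' : Submodule ℝ (EuclideanSpace ℝ (Option P)) :=
    { carrier := {v | (fun j => v (some j)) ∈ K ∧ v none = ∑ j, c j * v (some j)}
      add_mem' := by
        rintro v v' ⟨h1, h2⟩ ⟨h3, h4⟩
        refine ⟨K.add_mem h1 h3, ?_⟩
        simp only [PiLp.add_apply, mul_add, Finset.sum_add_distrib]
        rw [h2, h4]
      zero_mem' := by
        refine ⟨K.zero_mem, ?_⟩
        simp
      smul_mem' := by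
        rintro a v ⟨h1, h2⟩
        refine ⟨K.smul_mem a h1, ?_⟩
        simp only [PiLp.smul_apply, smul_eq_mul]
        rw [h2, Finset.mul_sum]
        exact Finset.sum_congr rfl fun j _ => by ring }
  let w : (P → Bool) → Option P → ℝ := fun b o => match o with
    | none => 1 / 4
    | some i => if b i = true then 1 / (16 * (L : ℝ)) else 1
  have hδ1 : 1 / (16 * (L : ℝ)) ≤ 1 / 4 := by
    rw [div_le_div_iff₀ (by positivity) (by norm_num)]
    linarith
  have hw1 : ∀ b o, 1 / (16 * (L : ℝ)) ≤ w b o := by
    rintro b (_ | i)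
    · exact hδ1
    · simp only [w]
      split_ifs
      · exact le_rfl
      · linarith
  have hw2 : ∀ b o, w b o ≤ 1 := by
    rintro b (_ | i)
    · simp only [w]; norm_num
    · simp only [w]
      split_ifs
      · linarith
      · exact le_rfl
  let e0 : EuclideanSpace ℝ (Option P) := EuclideanSpace.single none 1
  let u : EuclideanSpace ℝ (Option P) := K'.starProjection e0
  have he0 : ∀ v : EuclideanSpace ℝ (Option P), ⟪e0, v⟫_ℝ = v none := by
    intro v
    simp [e0, EuclideanSpace.inner_single_left]
  let B₀ : Matrix (Option P) (Option P) ℝ := mx (opA K' (w fun _ => false))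
  let B : P → Matrix (Option P) (Option P) ℝ := fun q =>
    mx (K'.starProjection.toLinearMap ∘ₗ
      dg (fun o => if o = some q then 1 / (16 * (L : ℝ)) - 1 else 0) ∘ₗ
        K'.starProjection.toLinearMap)
  have hB : ∀ s : P → Bool, B₀ + ∑ q, (if s q = true then B q else 0) = mx (opA K' (w s)) := by
    intro s
    have h1 : opA K' (w s) = opA K' (w fun _ => false) + ∑ q, if s q = true then
        (K'.starProjection.toLinearMap ∘ₗ
          dg (fun o => if o = some q then 1 / (16 * (L : ℝ)) - 1 else 0) ∘ₗ
            K'.starProjection.toLinearMap) else 0 := by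
      have h2 : dg (w s) = dg (w fun _ => false) + ∑ q, if s q = true then
          dg (fun o => if o = some q then 1 / (16 * (L : ℝ)) - 1 else 0) else 0 := by
        apply LinearMap.ext
        intro v
        ext o
        rw [LinearMap.add_apply, PiLp.add_apply, LinearMap.sum_apply]
        have h3 : (∑ q, (if s q = true then
            dg (fun o => if o = some q then 1 / (16 * (L : ℝ)) - 1 else 0) else 0) v) o =
            ∑ q, (if s q = true then (if o = some q then 1 / (16 * (L : ℝ)) - 1 else 0) * v o
              else 0) := by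
          rw [WithLp.ofLp_sum, Finset.sum_apply]
          apply Finset.sum_congr rfl
          intro q _
          split_ifs with h4 h5
          · rw [dg_apply, if_pos h5]
          · rw [dg_apply, if_neg h5]
          · rfl
        rw [h3, dg_apply, dg_apply]
        rcases o with _ | i
        · simp only [w]
          rw [Finset.sum_eq_zero]
          · ring
          · intro q _
            split_ifs with h4 h5
            · exact absurd h5 (by simp)
            · ring
            · rfl
        · rw [Finset.sum_eq_single i]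
          · simp only [w]
            by_cases h4 : s i = true
            · rw [if_pos h4, if_pos h4]
              simp
              ring
            · rw [if_neg h4, if_neg h4]
              simp
          · intro q _ hq
            split_ifs with h4 h5
            · exact absurd (Option.some.inj h5).symm hq
            · ring
            · rfl
          · intro h
            exact absurd (Finset.mem_univ i) h
      unfold opA
      rw [h2, LinearMap.add_comp, LinearMap.comp_add]
      have h5 : K'.starProjection.toLinearMap ∘ₗ ((∑ q, if s q = true then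
          dg (fun o => if o = some q then 1 / (16 * (L : ℝ)) - 1 else 0) else 0) ∘ₗ
            K'.starProjection.toLinearMap) = ∑ q, if s q = true then
          (K'.starProjection.toLinearMap ∘ₗ
            dg (fun o => if o = some q then 1 / (16 * (L : ℝ)) - 1 else 0) ∘ₗ
              K'.starProjection.toLinearMap) else 0 := by
        apply LinearMap.ext
        intro v
        rw [LinearMap.comp_apply, LinearMap.comp_apply, LinearMap.sum_apply, map_sum,
          LinearMap.sum_apply]
        apply Finset.sum_congr rfl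
        intro q _
        split_ifs
        · rfl
        · simp
      rw [h5]
      abel
    rw [h1, map_add, map_sum]
    congr 1
    apply Finset.sum_congr rfl
    intro q _
    split_ifs
    · rfl
    · rw [map_zero]
  refine ⟨Option P, inferInstance, inferInstance, B₀, B, Real.sqrt (5 / 22) • u.ofLp, ?_⟩
  intro b
  rw [hB b]
  have hval : (Real.sqrt (5 / 22) • u.ofLp) ⬝ᵥ (aeval (mx (opA K' (w b))) p).mulVec
      (Real.sqrt (5 / 22) • u.ofLp) = 5 / 22 * ⟪u, aeval (opA K' (w b)) p u⟫_ℝ := by
    rw [Matrix.mulVec_smul, smul_dotProduct, dotProduct_smul, mx_form, smul_eq_mul, smul_eq_mul,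
      ← mul_assoc, Real.mul_self_sqrt (by norm_num)]
  rw [hval]
  obtain ⟨x, hx1, hx2, hx3⟩ := op_lemma (opA K' (w b)) (opA_symm K' (w b)) (1 / (16 * (L : ℝ)))
    (by positivity) (fun v => (opA_bounds K' (w b) (1 / (16 * (L : ℝ))) (by linarith)
      (hw1 b) (hw2 b) v).1) (fun v => (opA_bounds K' (w b) (1 / (16 * (L : ℝ))) (by linarith)
      (hw1 b) (hw2 b) v).2) p hp2 u
  obtain ⟨hxK, hxs⟩ := opA_solution K' (w b) e0 x hx1
  set W : ℝ := x none with hW
  have hux : ⟪u, x⟫_ℝ = W := by
    have h1 : ⟪u, x⟫_ℝ = ⟪e0, K'.starProjection x⟫_ℝ :=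
      Submodule.inner_starProjection_left_eq_right K' _ _
    rw [h1, Submodule.starProjection_eq_self_iff.2 hxK, he0]
  rw [hux] at hx2 hx3
  -- the energy identity
  have hen : ∑ o, w b o * (x o * x o) = W := by
    rw [hxs x hxK, he0]
  have hen' : 1 / 4 * (W * W) + ∑ i, w b (some i) * (x (some i) * x (some i)) = W := by
    rw [Fintype.sum_option] at hen
    exact hen
  have hnn : ∀ i, 0 ≤ w b (some i) * (x (some i) * x (some i)) := fun i =>
    mul_nonneg ((by positivity : (0 : ℝ) ≤ 1 / (16 * (L : ℝ))).trans (hw1 b (some i)))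
      (mul_self_nonneg _)
  have hnn' : 0 ≤ ∑ i, w b (some i) * (x (some i) * x (some i)) :=
    Finset.sum_nonneg fun i _ => hnn i
  have hW0 : 0 ≤ W := by nlinarith [mul_self_nonneg W]
  constructor
  · rintro ⟨i, hi, hi1, hi0, hi2⟩
    let i' : EuclideanSpace ℝ (Option P) := WithLp.toLp 2 (fun o => match o with
      | none => 1
      | some j => i j)
    have hi'K : i' ∈ K' := by
      refine ⟨hi, ?_⟩
      change (1 : ℝ) = ∑ j, c j * i j
      exact hi1.symm
    have h1 : ∑ o, w b o * (i' o * x o) = 1 := by
      rw [hxs i' hi'K, he0]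
    have h2 : ∑ o, w b o * (i' o * i' o) ≤ 5 / 16 := by
      rw [Fintype.sum_option]
      have h3 : ∑ j, w b (some j) * (i' (some j) * i' (some j)) ≤
          ∑ j, 1 / (16 * (L : ℝ)) * (i j * i j) := by
        apply Finset.sum_le_sum
        intro j _
        change w b (some j) * (i j * i j) ≤ _
        by_cases hbj : b j = true
        · simp only [w]
          rw [if_pos hbj]
        · rw [hi0 j (by simpa using hbj)]
          simp
      have h4 : ∑ j, 1 / (16 * (L : ℝ)) * (i j * i j) ≤ 1 / 16 := by
        rw [← Finset.mul_sum]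
        calc 1 / (16 * (L : ℝ)) * ∑ j, i j * i j ≤ 1 / (16 * (L : ℝ)) * L :=
              mul_le_mul_of_nonneg_left hi2 (by positivity)
          _ = 1 / 16 := by field_simp
      change 1 / 4 * (1 * 1) + _ ≤ _
      linarith
    have h5 : 0 ≤ ∑ o, w b o * ((16 / 5 * i' o - x o) * (16 / 5 * i' o - x o)) :=
      Finset.sum_nonneg fun o _ =>
        mul_nonneg ((by positivity : (0 : ℝ) ≤ 1 / (16 * (L : ℝ))).trans (hw1 b o))
          (mul_self_nonneg _)
    have h6 : ∑ o, w b o * ((16 / 5 * i' o - x o) * (16 / 5 * i' o - x o)) =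
        256 / 25 * ∑ o, w b o * (i' o * i' o) - 32 / 5 * ∑ o, w b o * (i' o * x o) +
          ∑ o, w b o * (x o * x o) := by
      rw [Finset.mul_sum, Finset.mul_sum, ← Finset.sum_sub_distrib, ← Finset.sum_add_distrib]
      exact Finset.sum_congr rfl fun o _ => by ring
    rw [h6, h1, hen] at h5
    have h7 : 16 / 5 ≤ W := by linarith
    have h8 : W ≤ 4 := by nlinarith
    constructor <;> linarith
  · rintro ⟨ψ, hψ0, hψ1, hψ2⟩
    have h1 : W = ∑ j, ψ j * x (some j) := by
      have h2 := hψ1 _ hxK.1
      exact hxK.2.trans h2.symm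
    have h2 : W ^ 2 ≤ ∑ j, w b (some j) * (x (some j) * x (some j)) := by
      have h3 : W = ∑ j, ψ j * (if b j = true then 0 else x (some j)) := by
        rw [h1]
        apply Finset.sum_congr rfl
        intro j _
        split_ifs with hbj
        · rw [hψ0 j hbj]; ring
        · rfl
      have h4 := Finset.sum_mul_sq_le_sq_mul_sq univ ψ
        (fun j => if b j = true then 0 else x (some j))
      rw [← h3] at h4
      have h5 : ∑ j, (if b j = true then 0 else x (some j)) ^ 2 ≤
          ∑ j, w b (some j) * (x (some j) * x (some j)) := by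
        apply Finset.sum_le_sum
        intro j _
        by_cases hbj : b j = true
        · rw [if_pos hbj]
          have := hnn j
          linarith
        · rw [if_neg hbj]
          simp only [w]
          rw [if_neg hbj]
          apply le_of_eq
          ring
      have h6 : 0 ≤ ∑ j, (if b j = true then 0 else x (some j)) ^ 2 :=
        Finset.sum_nonneg fun j _ => sq_nonneg _
      have h7 : ∑ j, ψ j ^ 2 ≤ 1 := by
        refine le_trans (le_of_eq ?_) hψ2
        unfold dotProduct
        exact Finset.sum_congr rfl fun j _ => by ring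
      calc W ^ 2 ≤ (∑ j, ψ j ^ 2) * ∑ j, (if b j = true then 0 else x (some j)) ^ 2 := h4
        _ ≤ 1 * ∑ j, (if b j = true then 0 else x (some j)) ^ 2 :=
            mul_le_mul_of_nonneg_right h7 h6
        _ ≤ _ := by rw [one_mul]; exact h5
    have h7 : W ≤ 4 / 5 := by
      by_contra hcon
      push Not at hcon
      nlinarith
    constructor
    · have : 0 ≤ 9 / 10 * W := by positivity
      linarith
    · linarith

end FrS
end

section

/-!
The decomposition is compatible with the connectives.
-/

set_option linter.unusedSectionVars false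

namespace FrS

open Finset Fr56

variable {X : Type}

private theorem lab_eq_of_noHole (b b' : Bool) (t : Fm (Option X)) (h : hasHole t = false) :
    lab b t = lab b' t := by
  induction t with
  | var v =>
    cases v with
    | none => exact absurd h (by simp [hasHole])
    | some x => rfl
  | neg f ih =>
    show Fm.neg (lab b f) = Fm.neg (lab b' f)
    rw [ih h]
  | and f g ihf ihg =>
    simp only [hasHole, Bool.or_eq_false_iff] at h
    show Fm.and (lab b f) (lab b g) = Fm.and (lab b' f) (lab b' g)
    rw [ihf h.1, ihg h.2]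
  | or f g ihf ihg =>
    simp only [hasHole, Bool.or_eq_false_iff] at h
    show Fm.or (lab b f) (lab b g) = Fm.or (lab b' f) (lab b' g)
    rw [ihf h.1, ihg h.2]

private theorem mkv_eval (i : Ob X → Bool) (t : Fm (Option X)) (h : Fm (Ob X)) :
    (mkv t h).eval i = if hasHole t then
      (if pol t then (i (lab false t) || (i (lab true t) && h.eval i))
        else (i (lab true t) || (i (lab false t) && !(h.eval i)))) else i (lab false t) := by
  unfold mkv
  split_ifs <;> rfl

private theorem bool_neg_aux (p T0 T1 v : Bool) (h : Mn p T0 T1) :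
    (if (!p) = true then (!T0 || (!T1 && v)) else (!T1 || (!T0 && !v))) =
      !(if p = true then (T0 || (T1 && v)) else (T1 || (T0 && !v))) := by
  revert h
  cases p <;> cases T0 <;> cases T1 <;> cases v <;> simp [Mn]

theorem fv_neg (l : ℕ) (i : Ob X → Bool) (f : Ob X)
    (hneg : ∀ b, i (.neg (lab b (htop l f))) = !(i (lab b (htop l f))))
    (hmono : hasHole (htop l f) = true →
      Mn (pol (htop l f)) (i (lab false (htop l f))) (i (lab true (htop l f)))) :
    (fv l (.neg f)).eval i = !((fv l f).eval i) := by
  have e1 : fv l (.neg f) = mkv (.neg (htop l f)) (hv l f) := rfl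
  have e2 : ∀ b, lab b (.neg (htop l f)) = .neg (lab b (htop l f)) := fun _ => rfl
  have e3 : hasHole (.neg (htop l f)) = hasHole (htop l f) := rfl
  have e4 : pol (.neg (htop l f)) = !pol (htop l f) := rfl
  unfold fv at e1 ⊢
  rw [e1, mkv_eval, mkv_eval, e2, e2, e3, e4, hneg, hneg]
  by_cases hh : hasHole (htop l f) = true
  · rw [if_pos hh, if_pos hh]
    exact bool_neg_aux _ _ _ _ (hmono hh)
  · rw [if_neg hh, if_neg hh]

private theorem htop_and_cut {l : ℕ} {f g : Ob X} (h : cut l (htop l f) (htop l g) = true) :
    htop l (.and f g) = .var none := by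
  show (if cut l (htop l f) (htop l g) then Fm.var none else Fm.and (htop l f) (htop l g)) = _
  rw [if_pos h]

private theorem htop_and_not {l : ℕ} {f g : Ob X} (h : ¬ cut l (htop l f) (htop l g) = true) :
    htop l (.and f g) = .and (htop l f) (htop l g) := by
  show (if cut l (htop l f) (htop l g) then Fm.var none else Fm.and (htop l f) (htop l g)) = _
  rw [if_neg h]

private theorem htop_or_cut {l : ℕ} {f g : Ob X} (h : cut l (htop l f) (htop l g) = true) :
    htop l (.or f g) = .var none := by
  show (if cut l (htop l f) (htop l g) then Fm.var none else Fm.or (htop l f) (htop l g)) = _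
  rw [if_pos h]

private theorem htop_or_not {l : ℕ} {f g : Ob X} (h : ¬ cut l (htop l f) (htop l g) = true) :
    htop l (.or f g) = .or (htop l f) (htop l g) := by
  show (if cut l (htop l f) (htop l g) then Fm.var none else Fm.or (htop l f) (htop l g)) = _
  rw [if_neg h]

private theorem hv_and_cut {l : ℕ} {f g : Ob X} (h : cut l (htop l f) (htop l g) = true) :
    hv l (.and f g) = .and (fv l f) (fv l g) := by
  show (if cut l (htop l f) (htop l g) then Fm.and (mkv (htop l f) (hv l f))
    (mkv (htop l g) (hv l g)) else if hasHole (htop l f) then hv l f else hv l g) = _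
  rw [if_pos h]
  rfl

private theorem hv_and_not {l : ℕ} {f g : Ob X} (h : ¬ cut l (htop l f) (htop l g) = true) :
    hv l (.and f g) = if hasHole (htop l f) then hv l f else hv l g := by
  show (if cut l (htop l f) (htop l g) then Fm.and (mkv (htop l f) (hv l f))
    (mkv (htop l g) (hv l g)) else if hasHole (htop l f) then hv l f else hv l g) = _
  rw [if_neg h]

private theorem hv_or_cut {l : ℕ} {f g : Ob X} (h : cut l (htop l f) (htop l g) = true) :
    hv l (.or f g) = .or (fv l f) (fv l g) := by
  show (if cut l (htop l f) (htop l g) then Fm.or (mkv (htop l f) (hv l f))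
    (mkv (htop l g) (hv l g)) else if hasHole (htop l f) then hv l f else hv l g) = _
  rw [if_pos h]
  rfl

private theorem hv_or_not {l : ℕ} {f g : Ob X} (h : ¬ cut l (htop l f) (htop l g) = true) :
    hv l (.or f g) = if hasHole (htop l f) then hv l f else hv l g := by
  show (if cut l (htop l f) (htop l g) then Fm.or (mkv (htop l f) (hv l f))
    (mkv (htop l g) (hv l g)) else if hasHole (htop l f) then hv l f else hv l g) = _
  rw [if_neg h]

private theorem not_both {l : ℕ} {s t : Fm (Option X)} (h : ¬ cut l s t = true) :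
    ¬ (hasHole s = true ∧ hasHole t = true) := by
  rintro ⟨h1, h2⟩
  apply h
  unfold cut
  rw [h1, h2]
  rfl

private theorem mkv_cut (i : Ob X → Bool) (hc : ∀ b, i (.var (.inr b)) = b) (h : Fm (Ob X)) :
    (mkv (.var none) h).eval i = h.eval i := by
  have e : ∀ b, lab b (.var none : Fm (Option X)) = .var (.inr b) := fun _ => rfl
  rw [mkv_eval, e, e, hc, hc]
  simp [hasHole, pol]

theorem fv_and (l : ℕ) (i : Ob X → Bool) (hc : ∀ b, i (.var (.inr b)) = b) (f g : Ob X)
    (hand : htop l (.and f g) = .and (htop l f) (htop l g) → ∀ b,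
      i (lab b (.and (htop l f) (htop l g))) = (i (lab b (htop l f)) && i (lab b (htop l g)))) :
    (fv l (.and f g)).eval i = ((fv l f).eval i && (fv l g).eval i) := by
  by_cases hcut : cut l (htop l f) (htop l g) = true
  · have e1 : fv l (.and f g) = mkv (htop l (.and f g)) (hv l (.and f g)) := rfl
    rw [e1, htop_and_cut hcut, hv_and_cut hcut, mkv_cut i hc]
    rfl
  · have e1 : fv l (.and f g) = mkv (htop l (.and f g)) (hv l (.and f g)) := rfl
    have e2 : fv l f = mkv (htop l f) (hv l f) := rfl
    have e3 : fv l g = mkv (htop l g) (hv l g) := rfl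
    have hT := hand (htop_and_not hcut)
    have hnb := not_both hcut
    rw [e1, e2, e3, htop_and_not hcut, hv_and_not hcut, mkv_eval, mkv_eval, mkv_eval, hT, hT]
    have e4 : hasHole (.and (htop l f) (htop l g)) = (hasHole (htop l f) || hasHole (htop l g)) :=
      rfl
    have e5 : pol (.and (htop l f) (htop l g)) =
      if hasHole (htop l f) then pol (htop l f) else pol (htop l g) := rfl
    rw [e4, e5]
    by_cases h1 : hasHole (htop l f) = true
    · have h2 : hasHole (htop l g) = false := by
        by_contra h2
        exact hnb ⟨h1, by simpa using h2⟩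
      rw [h1, h2, lab_eq_of_noHole true false (htop l g) h2]
      simp only [Bool.or_false, if_true]
      generalize i (lab false (htop l f)) = T0
      generalize i (lab true (htop l f)) = T1
      generalize i (lab false (htop l g)) = c
      generalize (hv l f).eval i = v
      generalize pol (htop l f) = p
      cases p <;> cases T0 <;> cases T1 <;> cases c <;> cases v <;> simp
    · have h1' : hasHole (htop l f) = false := by simpa using h1
      rw [h1', lab_eq_of_noHole true false (htop l f) h1']
      simp only [Bool.false_or]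
      by_cases h2 : hasHole (htop l g) = true
      · rw [h2]
        simp only [if_true, Bool.false_eq_true, if_false]
        generalize i (lab false (htop l f)) = c
        generalize i (lab true (htop l g)) = T1
        generalize i (lab false (htop l g)) = T0
        generalize (hv l g).eval i = v
        generalize pol (htop l g) = p
        cases p <;> cases T0 <;> cases T1 <;> cases c <;> cases v <;> simp
      · have h2' : hasHole (htop l g) = false := by simpa using h2
        rw [h2']
        simp

theorem fv_or (l : ℕ) (i : Ob X → Bool) (hc : ∀ b, i (.var (.inr b)) = b) (f g : Ob X)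
    (hor : htop l (.or f g) = .or (htop l f) (htop l g) → ∀ b,
      i (lab b (.or (htop l f) (htop l g))) = (i (lab b (htop l f)) || i (lab b (htop l g)))) :
    (fv l (.or f g)).eval i = ((fv l f).eval i || (fv l g).eval i) := by
  by_cases hcut : cut l (htop l f) (htop l g) = true
  · have e1 : fv l (.or f g) = mkv (htop l (.or f g)) (hv l (.or f g)) := rfl
    rw [e1, htop_or_cut hcut, hv_or_cut hcut, mkv_cut i hc]
    rfl
  · have e1 : fv l (.or f g) = mkv (htop l (.or f g)) (hv l (.or f g)) := rfl
    have e2 : fv l f = mkv (htop l f) (hv l f) := rfl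
    have e3 : fv l g = mkv (htop l g) (hv l g) := rfl
    have hT := hor (htop_or_not hcut)
    have hnb := not_both hcut
    rw [e1, e2, e3, htop_or_not hcut, hv_or_not hcut, mkv_eval, mkv_eval, mkv_eval, hT, hT]
    have e4 : hasHole (.or (htop l f) (htop l g)) = (hasHole (htop l f) || hasHole (htop l g)) :=
      rfl
    have e5 : pol (.or (htop l f) (htop l g)) =
      if hasHole (htop l f) then pol (htop l f) else pol (htop l g) := rfl
    rw [e4, e5]
    by_cases h1 : hasHole (htop l f) = true
    · have h2 : hasHole (htop l g) = false := by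
        by_contra h2
        exact hnb ⟨h1, by simpa using h2⟩
      rw [h1, h2, lab_eq_of_noHole true false (htop l g) h2]
      simp only [Bool.or_false, if_true]
      generalize i (lab false (htop l f)) = T0
      generalize i (lab true (htop l f)) = T1
      generalize i (lab false (htop l g)) = c
      generalize (hv l f).eval i = v
      generalize pol (htop l f) = p
      cases p <;> cases T0 <;> cases T1 <;> cases c <;> cases v <;> simp
    · have h1' : hasHole (htop l f) = false := by simpa using h1
      rw [h1', lab_eq_of_noHole true false (htop l f) h1']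
      simp only [Bool.false_or]
      by_cases h2 : hasHole (htop l g) = true
      · rw [h2]
        simp only [if_true, Bool.false_eq_true, if_false]
        generalize i (lab false (htop l f)) = c
        generalize i (lab true (htop l g)) = T1
        generalize i (lab false (htop l g)) = T0
        generalize (hv l g).eval i = v
        generalize pol (htop l g) = p
        cases p <;> cases T0 <;> cases T1 <;> cases c <;> cases v <;> simp
      · have h2' : hasHole (htop l g) = false := by simpa using h2
        rw [h2']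
        simp

/-! ### monotonicity -/

private theorem htop_lab (l : ℕ) (b b' : Bool) (C : Fm (Option X)) :
    htop l (lab b C) = htop l (lab b' C) := by
  induction C with
  | var v =>
    cases v with
    | none => rfl
    | some x => rfl
  | neg f ih =>
    show Fm.neg (htop l (lab b f)) = Fm.neg (htop l (lab b' f))
    rw [ih]
  | and f g ihf ihg =>
    show (if cut l (htop l (lab b f)) (htop l (lab b g)) then Fm.var none
      else Fm.and (htop l (lab b f)) (htop l (lab b g))) =
      (if cut l (htop l (lab b' f)) (htop l (lab b' g)) then Fm.var none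
      else Fm.and (htop l (lab b' f)) (htop l (lab b' g)))
    rw [ihf, ihg]
  | or f g ihf ihg =>
    show (if cut l (htop l (lab b f)) (htop l (lab b g)) then Fm.var none
      else Fm.or (htop l (lab b f)) (htop l (lab b g))) =
      (if cut l (htop l (lab b' f)) (htop l (lab b' g)) then Fm.var none
      else Fm.or (htop l (lab b' f)) (htop l (lab b' g)))
    rw [ihf, ihg]

private theorem hasHole_htop (l : ℕ) (b : Bool) (C : Fm (Option X)) (h : hasHole C = true) :
    hasHole (htop l (lab b C)) = true := by
  induction C with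
  | var v =>
    cases v with
    | none => rfl
    | some x => exact absurd h (by simp [hasHole])
  | neg f ih => exact ih h
  | and f g ihf ihg =>
    by_cases hcut : cut l (htop l (lab b f)) (htop l (lab b g)) = true
    · have e : htop l (lab b (.and f g)) = .var none := htop_and_cut hcut
      rw [e]
      rfl
    · have e : htop l (lab b (.and f g)) = .and (htop l (lab b f)) (htop l (lab b g)) :=
        htop_and_not hcut
      rw [e]
      simp only [hasHole, Bool.or_eq_true] at h ⊢
      rcases h with h | h
      · exact Or.inl (ihf h)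
      · exact Or.inr (ihg h)
  | or f g ihf ihg =>
    by_cases hcut : cut l (htop l (lab b f)) (htop l (lab b g)) = true
    · have e : htop l (lab b (.or f g)) = .var none := htop_or_cut hcut
      rw [e]
      rfl
    · have e : htop l (lab b (.or f g)) = .or (htop l (lab b f)) (htop l (lab b g)) :=
        htop_or_not hcut
      rw [e]
      simp only [hasHole, Bool.or_eq_true] at h ⊢
      rcases h with h | h
      · exact Or.inl (ihf h)
      · exact Or.inr (ihg h)

private theorem mono_of_hv (l : ℕ) (i : Ob X → Bool) (C : Fm (Option X)) (hh : hasHole C = true)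
    (h : Mn (pol C == pol (htop l (lab false C))) ((hv l (lab false C)).eval i)
      ((hv l (lab true C)).eval i)) :
    Mn (pol C) ((fv l (lab false C)).eval i) ((fv l (lab true C)).eval i) := by
  have e1 : fv l (lab false C) = mkv (htop l (lab false C)) (hv l (lab false C)) := rfl
  have e2 : fv l (lab true C) = mkv (htop l (lab true C)) (hv l (lab true C)) := rfl
  rw [e1, e2, mkv_eval, mkv_eval, htop_lab l true false C, hasHole_htop l false C hh]
  simp only [if_true]
  revert h
  generalize pol C = q
  generalize pol (htop l (lab false C)) = p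
  generalize i (lab false (htop l (lab false C))) = T0
  generalize i (lab true (htop l (lab false C))) = T1
  generalize (hv l (lab false C)).eval i = v0
  generalize (hv l (lab true C)).eval i = v1
  cases q <;> cases p <;> cases T0 <;> cases T1 <;> cases v0 <;> cases v1 <;> simp [Mn]

private theorem Mn_and_right (s p q c : Bool) (h : Mn s p q) : Mn s (p && c) (q && c) := by
  revert h
  cases s <;> cases p <;> cases q <;> cases c <;> simp [Mn]

private theorem Mn_and_left (s p q c : Bool) (h : Mn s p q) : Mn s (c && p) (c && q) := by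
  revert h
  cases s <;> cases p <;> cases q <;> cases c <;> simp [Mn]

private theorem Mn_or_right (s p q c : Bool) (h : Mn s p q) : Mn s (p || c) (q || c) := by
  revert h
  cases s <;> cases p <;> cases q <;> cases c <;> simp [Mn]

private theorem Mn_or_left (s p q c : Bool) (h : Mn s p q) : Mn s (c || p) (c || q) := by
  revert h
  cases s <;> cases p <;> cases q <;> cases c <;> simp [Mn]

private theorem hv_mono (l : ℕ) (i : Ob X → Bool) (hc : ∀ b, i (.var (.inr b)) = b)
    (C : Fm (Option X)) (hC : One C) (hh : hasHole C = true) :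
    Mn (pol C == pol (htop l (lab false C))) ((hv l (lab false C)).eval i)
      ((hv l (lab true C)).eval i) := by
  induction C with
  | var v =>
    cases v with
    | none =>
      have e1 : (hv l (lab false (.var none : Fm (Option X)))).eval i = i (.var (.inr false)) := rfl
      have e2 : (hv l (lab true (.var none : Fm (Option X)))).eval i = i (.var (.inr true)) := rfl
      have e3 : htop l (lab false (.var none : Fm (Option X))) = .var none := rfl
      rw [e1, e2, e3, hc, hc]
      simp [Mn, pol]
    | some x => exact absurd hh (by simp [hasHole])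
  | neg f ih =>
    have h := ih hC hh
    have e1 : hv l (lab false (.neg f)) = hv l (lab false f) := rfl
    have e2 : hv l (lab true (.neg f)) = hv l (lab true f) := rfl
    have e3 : htop l (lab false (.neg f)) = .neg (htop l (lab false f)) := rfl
    have e4 : (pol (.neg f) == pol (.neg (htop l (lab false f)))) =
        (pol f == pol (htop l (lab false f))) := by
      simp only [pol]
      cases pol f <;> cases pol (htop l (lab false f)) <;> rfl
    rw [e1, e2, e3, e4]
    exact h
  | and f g ihf ihg =>
    obtain ⟨hCf, hCg, hCn⟩ := hC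
    have eL : ∀ b, lab b (.and f g) = .and (lab b f) (lab b g) := fun _ => rfl
    rw [eL, eL]
    have hcut' : cut l (htop l (lab true f)) (htop l (lab true g)) =
        cut l (htop l (lab false f)) (htop l (lab false g)) := by
      rw [htop_lab l true false f, htop_lab l true false g]
    by_cases h1 : hasHole f = true
    · have h2 : hasHole g = false := by
        by_contra h2
        exact hCn ⟨h1, by simpa using h2⟩
      have hp : pol (.and f g) = pol f := by simp [pol, h1]
      have hg := lab_eq_of_noHole true false g h2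
      have hm := mono_of_hv l i f h1 (ihf hCf h1)
      by_cases hcut : cut l (htop l (lab false f)) (htop l (lab false g)) = true
      · rw [htop_and_cut hcut, hv_and_cut hcut, hv_and_cut (hcut'.trans hcut), hp, hg]
        have e : (pol f == pol (.var none : Fm (Option X))) = pol f := by
          simp only [pol]
          cases pol f <;> rfl
        rw [e]
        exact Mn_and_right _ _ _ _ hm
      · have hcutn : ¬ cut l (htop l (lab true f)) (htop l (lab true g)) = true := by
          rw [hcut']
          exact hcut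
        have t1 := hasHole_htop l false f h1
        have t1' := hasHole_htop l true f h1
        rw [htop_and_not hcut, hv_and_not hcut, hv_and_not hcutn, hp, t1, t1']
        have e : pol (.and (htop l (lab false f)) (htop l (lab false g))) =
            pol (htop l (lab false f)) := by simp [pol, t1]
        rw [e]
        exact ihf hCf h1
    · have h1' : hasHole f = false := by simpa using h1
      have h2 : hasHole g = true := by
        simp only [hasHole, Bool.or_eq_true] at hh
        exact hh.resolve_left h1
      have hp : pol (.and f g) = pol g := by simp [pol, h1']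
      have hf := lab_eq_of_noHole true false f h1'
      have hm := mono_of_hv l i g h2 (ihg hCg h2)
      by_cases hcut : cut l (htop l (lab false f)) (htop l (lab false g)) = true
      · rw [htop_and_cut hcut, hv_and_cut hcut, hv_and_cut (hcut'.trans hcut), hp, hf]
        have e : (pol g == pol (.var none : Fm (Option X))) = pol g := by
          simp only [pol]
          cases pol g <;> rfl
        rw [e]
        exact Mn_and_left _ _ _ _ hm
      · have hcutn : ¬ cut l (htop l (lab true f)) (htop l (lab true g)) = true := by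
          rw [hcut']
          exact hcut
        have t2 := hasHole_htop l false g h2
        have t1 : hasHole (htop l (lab false f)) = false := by
          by_contra t1
          exact not_both hcut ⟨by simpa using t1, t2⟩
        rw [htop_and_not hcut, hv_and_not hcut, hv_and_not hcutn, hp, hf, t1]
        have e : pol (.and (htop l (lab false f)) (htop l (lab false g))) =
            pol (htop l (lab false g)) := by simp [pol, t1]
        rw [e]
        exact ihg hCg h2
  | or f g ihf ihg =>
    obtain ⟨hCf, hCg, hCn⟩ := hC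
    have eL : ∀ b, lab b (.or f g) = .or (lab b f) (lab b g) := fun _ => rfl
    rw [eL, eL]
    have hcut' : cut l (htop l (lab true f)) (htop l (lab true g)) =
        cut l (htop l (lab false f)) (htop l (lab false g)) := by
      rw [htop_lab l true false f, htop_lab l true false g]
    by_cases h1 : hasHole f = true
    · have h2 : hasHole g = false := by
        by_contra h2
        exact hCn ⟨h1, by simpa using h2⟩
      have hp : pol (.or f g) = pol f := by simp [pol, h1]
      have hg := lab_eq_of_noHole true false g h2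
      have hm := mono_of_hv l i f h1 (ihf hCf h1)
      by_cases hcut : cut l (htop l (lab false f)) (htop l (lab false g)) = true
      · rw [htop_or_cut hcut, hv_or_cut hcut, hv_or_cut (hcut'.trans hcut), hp, hg]
        have e : (pol f == pol (.var none : Fm (Option X))) = pol f := by
          simp only [pol]
          cases pol f <;> rfl
        rw [e]
        exact Mn_or_right _ _ _ _ hm
      · have hcutn : ¬ cut l (htop l (lab true f)) (htop l (lab true g)) = true := by
          rw [hcut']
          exact hcut
        have t1 := hasHole_htop l false f h1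
        have t1' := hasHole_htop l true f h1
        rw [htop_or_not hcut, hv_or_not hcut, hv_or_not hcutn, hp, t1, t1']
        have e : pol (.or (htop l (lab false f)) (htop l (lab false g))) =
            pol (htop l (lab false f)) := by simp [pol, t1]
        rw [e]
        exact ihf hCf h1
    · have h1' : hasHole f = false := by simpa using h1
      have h2 : hasHole g = true := by
        simp only [hasHole, Bool.or_eq_true] at hh
        exact hh.resolve_left h1
      have hp : pol (.or f g) = pol g := by simp [pol, h1']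
      have hf := lab_eq_of_noHole true false f h1'
      have hm := mono_of_hv l i g h2 (ihg hCg h2)
      by_cases hcut : cut l (htop l (lab false f)) (htop l (lab false g)) = true
      · rw [htop_or_cut hcut, hv_or_cut hcut, hv_or_cut (hcut'.trans hcut), hp, hf]
        have e : (pol g == pol (.var none : Fm (Option X))) = pol g := by
          simp only [pol]
          cases pol g <;> rfl
        rw [e]
        exact Mn_or_left _ _ _ _ hm
      · have hcutn : ¬ cut l (htop l (lab true f)) (htop l (lab true g)) = true := by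
          rw [hcut']
          exact hcut
        have t2 := hasHole_htop l false g h2
        have t1 : hasHole (htop l (lab false f)) = false := by
          by_contra t1
          exact not_both hcut ⟨by simpa using t1, t2⟩
        rw [htop_or_not hcut, hv_or_not hcut, hv_or_not hcutn, hp, hf, t1]
        have e : pol (.or (htop l (lab false f)) (htop l (lab false g))) =
            pol (htop l (lab false g)) := by simp [pol, t1]
        rw [e]
        exact ihg hCg h2

/-- monotonicity in the constant -/
theorem fv_mono (l : ℕ) (i : Ob X → Bool) (hc : ∀ b, i (.var (.inr b)) = b) (C : Fm (Option X))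
    (hC : One C) (hh : hasHole C = true) :
    Mn (pol C) ((fv l (lab false C)).eval i) ((fv l (lab true C)).eval i) :=
  mono_of_hv l i C hh (hv_mono l i hc C hC hh)

/-- constants -/
theorem fv_const (l : ℕ) (b : Bool) (i : Ob X → Bool) (hc : ∀ b, i (.var (.inr b)) = b) :
    (fv l (.var (.inr b) : Ob X)).eval i = b := by
  have e : fv l (.var (.inr b) : Ob X) = mkv (.var none) (.var (.var (.inr b))) := rfl
  rw [e, mkv_cut i hc]
  exact hc b

end FrS
end

section

/-!
The finite class of objects of a formula.
-/

set_option linter.unusedSectionVars false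

namespace FrS

open Finset Fr56

variable {X : Type}

/-! ### auxiliary lemmas -/

private theorem length_hol_c (B : Fm X) : (hol B).length = B.size := by
  induction B with
  | var x => rfl
  | neg f ih => simp [hol, Fm.size, ih]
  | and f g ihf ihg => simp [hol, Fm.size, ihf, ihg]
  | or f g ihf ihg => simp [hol, Fm.size, ihf, ihg]

private theorem hasHole_map_some_c (B : Fm X) : hasHole (B.map some) = false := by
  induction B with
  | var x => rfl
  | neg f ih => simpa [Fm.map, hasHole] using ih
  | and f g ihf ihg => simp [Fm.map, hasHole, ihf, ihg]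
  | or f g ihf ihg => simp [Fm.map, hasHole, ihf, ihg]

private theorem one_of_noHole_c {C : Fm (Option X)} (h : hasHole C = false) : One C := by
  induction C with
  | var x => trivial
  | neg f ih => exact ih h
  | and f g ihf ihg =>
    simp only [hasHole, Bool.or_eq_false_iff] at h
    exact ⟨ihf h.1, ihg h.2, fun hh => by rw [h.1] at hh; exact absurd hh.1 (by decide)⟩
  | or f g ihf ihg =>
    simp only [hasHole, Bool.or_eq_false_iff] at h
    exact ⟨ihf h.1, ihg h.2, fun hh => by rw [h.1] at hh; exact absurd hh.1 (by decide)⟩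

private theorem hasHole_hol_c {B : Fm X} {C : Fm (Option X)} (h : C ∈ hol B) :
    hasHole C = true := by
  induction B generalizing C with
  | var x =>
    simp only [hol, List.mem_singleton] at h
    rw [h]; rfl
  | neg f ih =>
    simp only [hol, List.mem_cons, List.mem_map] at h
    rcases h with rfl | ⟨C', hC', rfl⟩
    · rfl
    · exact ih (C := C') hC'
  | and f g ihf ihg =>
    simp only [hol, List.mem_cons, List.mem_append, List.mem_map] at h
    rcases h with rfl | ⟨C', hC', rfl⟩ | ⟨C', hC', rfl⟩
    · rfl
    · simp [hasHole, ihf hC']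
    · simp [hasHole, ihg hC']
  | or f g ihf ihg =>
    simp only [hol, List.mem_cons, List.mem_append, List.mem_map] at h
    rcases h with rfl | ⟨C', hC', rfl⟩ | ⟨C', hC', rfl⟩
    · rfl
    · simp [hasHole, ihf hC']
    · simp [hasHole, ihg hC']

private theorem one_hol_c {B : Fm X} {C : Fm (Option X)} (h : C ∈ hol B) : One C := by
  induction B generalizing C with
  | var x =>
    simp only [hol, List.mem_singleton] at h
    rw [h]; trivial
  | neg f ih =>
    simp only [hol, List.mem_cons, List.mem_map] at h
    rcases h with rfl | ⟨C', hC', rfl⟩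
    · trivial
    · exact ih (C := C') hC'
  | and f g ihf ihg =>
    simp only [hol, List.mem_cons, List.mem_append, List.mem_map] at h
    rcases h with rfl | ⟨C', hC', rfl⟩ | ⟨C', hC', rfl⟩
    · trivial
    · exact ⟨ihf hC', one_of_noHole_c (hasHole_map_some_c g), fun hh => by
        rw [hasHole_map_some_c g] at hh; exact absurd hh.2 (by decide)⟩
    · exact ⟨one_of_noHole_c (hasHole_map_some_c f), ihg hC', fun hh => by
        rw [hasHole_map_some_c f] at hh; exact absurd hh.1 (by decide)⟩
  | or f g ihf ihg =>
    simp only [hol, List.mem_cons, List.mem_append, List.mem_map] at h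
    rcases h with rfl | ⟨C', hC', rfl⟩ | ⟨C', hC', rfl⟩
    · trivial
    · exact ⟨ihf hC', one_of_noHole_c (hasHole_map_some_c g), fun hh => by
        rw [hasHole_map_some_c g] at hh; exact absurd hh.2 (by decide)⟩
    · exact ⟨one_of_noHole_c (hasHole_map_some_c f), ihg hC', fun hh => by
        rw [hasHole_map_some_c f] at hh; exact absurd hh.1 (by decide)⟩

/-- membership in the list of contexts -/
private theorem mem_ctxs_c {B : Fm X} {C : Fm (Option X)} :
    C ∈ ctxs B ↔ C = B.map some ∨ C ∈ hol B := by
  simp [ctxs]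

private theorem eq_of_noHole_c {B : Fm X} {C : Fm (Option X)} (h : C ∈ ctxs B)
    (hh : hasHole C = false) : C = B.map some := by
  rcases mem_ctxs_c.1 h with h | h
  · exact h
  · rw [hasHole_hol_c h] at hh
    exact absurd hh (by decide)

private theorem mem_hol_of_hole_c {B : Fm X} {C : Fm (Option X)} (h : C ∈ ctxs B)
    (hh : hasHole C = true) : C ∈ hol B := by
  rcases mem_ctxs_c.1 h with h | h
  · rw [h, hasHole_map_some_c] at hh
    exact absurd hh (by decide)
  · exact h

private theorem none_mem_ctxs_c (B : Fm X) : (Fm.var none : Fm (Option X)) ∈ ctxs B := by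
  rw [mem_ctxs_c]
  right
  cases B <;> simp [hol]

private theorem neg_mem_ctxs_c {f : Fm X} {C : Fm (Option X)} (h : C ∈ ctxs f) :
    Fm.neg C ∈ ctxs (Fm.neg f) := by
  rw [mem_ctxs_c] at h ⊢
  rcases h with rfl | h
  · left; rfl
  · right
    simp only [hol, List.mem_cons, List.mem_map]
    exact Or.inr ⟨C, h, rfl⟩

private theorem and_mem_ctxs_c {f g : Fm X} {C C' : Fm (Option X)} (h : C ∈ ctxs f)
    (h' : C' ∈ ctxs g) (hn : ¬ (hasHole C = true ∧ hasHole C' = true)) :
    Fm.and C C' ∈ ctxs (Fm.and f g) := by
  rw [mem_ctxs_c]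
  by_cases h1 : hasHole C = true
  · have h2 : hasHole C' = false := by
      cases h3 : hasHole C'
      · rfl
      · exact absurd ⟨h1, h3⟩ hn
    right
    simp only [hol, List.mem_cons, List.mem_append, List.mem_map]
    refine Or.inr (Or.inl ⟨C, mem_hol_of_hole_c h h1, ?_⟩)
    rw [eq_of_noHole_c h' h2]
  · have h1' : hasHole C = false := by
      cases h3 : hasHole C
      · rfl
      · exact absurd h3 h1
    by_cases h2 : hasHole C' = true
    · right
      simp only [hol, List.mem_cons, List.mem_append, List.mem_map]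
      refine Or.inr (Or.inr ⟨C', mem_hol_of_hole_c h' h2, ?_⟩)
      rw [eq_of_noHole_c h h1']
    · have h2' : hasHole C' = false := by
        cases h3 : hasHole C'
        · rfl
        · exact absurd h3 h2
      left
      rw [eq_of_noHole_c h h1', eq_of_noHole_c h' h2']
      rfl

private theorem or_mem_ctxs_c {f g : Fm X} {C C' : Fm (Option X)} (h : C ∈ ctxs f)
    (h' : C' ∈ ctxs g) (hn : ¬ (hasHole C = true ∧ hasHole C' = true)) :
    Fm.or C C' ∈ ctxs (Fm.or f g) := by
  rw [mem_ctxs_c]
  by_cases h1 : hasHole C = true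
  · have h2 : hasHole C' = false := by
      cases h3 : hasHole C'
      · rfl
      · exact absurd ⟨h1, h3⟩ hn
    right
    simp only [hol, List.mem_cons, List.mem_append, List.mem_map]
    refine Or.inr (Or.inl ⟨C, mem_hol_of_hole_c h h1, ?_⟩)
    rw [eq_of_noHole_c h' h2]
  · have h1' : hasHole C = false := by
      cases h3 : hasHole C
      · rfl
      · exact absurd h3 h1
    by_cases h2 : hasHole C' = true
    · right
      simp only [hol, List.mem_cons, List.mem_append, List.mem_map]
      refine Or.inr (Or.inr ⟨C', mem_hol_of_hole_c h' h2, ?_⟩)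
      rw [eq_of_noHole_c h h1']
    · have h2' : hasHole C' = false := by
        cases h3 : hasHole C'
        · rfl
        · exact absurd h3 h2
      left
      rw [eq_of_noHole_c h h1', eq_of_noHole_c h' h2']
      rfl

/-- the shape of the contexts of a negation -/
private theorem cases_neg_c {f : Fm X} {C : Fm (Option X)} (h : C ∈ ctxs (Fm.neg f)) :
    C = .var none ∨ ∃ C1 ∈ ctxs f, C = .neg C1 := by
  rw [mem_ctxs_c] at h
  rcases h with rfl | h
  · exact Or.inr ⟨_, mem_ctxs_c.2 (Or.inl rfl), rfl⟩
  · simp only [hol, List.mem_cons, List.mem_map] at h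
    rcases h with rfl | ⟨C', hC', rfl⟩
    · exact Or.inl rfl
    · exact Or.inr ⟨C', mem_ctxs_c.2 (Or.inr hC'), rfl⟩

private theorem cases_and_c {f g : Fm X} {C : Fm (Option X)} (h : C ∈ ctxs (Fm.and f g)) :
    C = .var none ∨ ∃ C1 ∈ ctxs f, ∃ C2 ∈ ctxs g, C = .and C1 C2 := by
  rw [mem_ctxs_c] at h
  rcases h with rfl | h
  · exact Or.inr ⟨_, mem_ctxs_c.2 (Or.inl rfl), _, mem_ctxs_c.2 (Or.inl rfl), rfl⟩
  · simp only [hol, List.mem_cons, List.mem_append, List.mem_map] at h
    rcases h with rfl | ⟨C', hC', rfl⟩ | ⟨C', hC', rfl⟩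
    · exact Or.inl rfl
    · exact Or.inr ⟨C', mem_ctxs_c.2 (Or.inr hC'), _, mem_ctxs_c.2 (Or.inl rfl), rfl⟩
    · exact Or.inr ⟨_, mem_ctxs_c.2 (Or.inl rfl), C', mem_ctxs_c.2 (Or.inr hC'), rfl⟩

private theorem cases_or_c {f g : Fm X} {C : Fm (Option X)} (h : C ∈ ctxs (Fm.or f g)) :
    C = .var none ∨ ∃ C1 ∈ ctxs f, ∃ C2 ∈ ctxs g, C = .or C1 C2 := by
  rw [mem_ctxs_c] at h
  rcases h with rfl | h
  · exact Or.inr ⟨_, mem_ctxs_c.2 (Or.inl rfl), _, mem_ctxs_c.2 (Or.inl rfl), rfl⟩
  · simp only [hol, List.mem_cons, List.mem_append, List.mem_map] at h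
    rcases h with rfl | ⟨C', hC', rfl⟩ | ⟨C', hC', rfl⟩
    · exact Or.inl rfl
    · exact Or.inr ⟨C', mem_ctxs_c.2 (Or.inr hC'), _, mem_ctxs_c.2 (Or.inl rfl), rfl⟩
    · exact Or.inr ⟨_, mem_ctxs_c.2 (Or.inl rfl), C', mem_ctxs_c.2 (Or.inr hC'), rfl⟩

private theorem cases_var_c {x : X} {C : Fm (Option X)} (h : C ∈ ctxs (Fm.var x)) :
    C = .var none ∨ C = .var (some x) := by
  rw [mem_ctxs_c] at h
  rcases h with rfl | h
  · exact Or.inr rfl
  · simp only [hol, List.mem_singleton] at h
    exact Or.inl h

/-- forget the labels of the holes -/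
private def unlab_c (O : Ob X) : Fm (Option X) := O.map (Sum.elim some fun _ => none)

private theorem unlab_lab_c (b : Bool) (C : Fm (Option X)) : unlab_c (lab b C) = C := by
  induction C with
  | var x => cases x <;> rfl
  | neg f ih =>
    show Fm.neg (unlab_c (lab b f)) = _
    rw [ih]
  | and f g ihf ihg =>
    show Fm.and (unlab_c (lab b f)) (unlab_c (lab b g)) = _
    rw [ihf, ihg]
  | or f g ihf ihg =>
    show Fm.or (unlab_c (lab b f)) (unlab_c (lab b g)) = _
    rw [ihf, ihg]

private theorem mem_obs_c {B : Fm X} {O : Ob X} : O ∈ obs B ↔ ∃ C ∈ ctxs B, ∃ b, O = lab b C := by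
  unfold obs
  rw [List.mem_flatMap]
  constructor
  · rintro ⟨C, hC, hO⟩
    simp only [List.mem_cons, List.not_mem_nil, or_false] at hO
    rcases hO with h | h
    · exact ⟨C, hC, false, h⟩
    · exact ⟨C, hC, true, h⟩
  · rintro ⟨C, hC, b, h⟩
    refine ⟨C, hC, ?_⟩
    cases b
    · simp [h]
    · simp [h]

private theorem nc_lab_c (b : Bool) (C : Fm (Option X)) (h : One C) :
    nc (lab b C) = if hasHole C = true then 1 else 0 := by
  induction C with
  | var x => cases x <;> rfl
  | neg f ih => exact ih h
  | and f g ihf ihg =>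
    obtain ⟨h1, h2, h3⟩ := h
    show nc (lab b f) + nc (lab b g) = _
    rw [ihf h1, ihg h2]
    cases hf : hasHole f <;> cases hg : hasHole g <;> simp_all [hasHole]
  | or f g ihf ihg =>
    obtain ⟨h1, h2, h3⟩ := h
    show nc (lab b f) + nc (lab b g) = _
    rw [ihf h1, ihg h2]
    cases hf : hasHole f <;> cases hg : hasHole g <;> simp_all [hasHole]

private theorem vl2_lab_le_c (b : Bool) {B : Fm X} {C : Fm (Option X)} (h : C ∈ ctxs B) :
    vl2 (lab b C) ≤ B.leaves := by
  induction B generalizing C with
  | var x =>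
    rcases cases_var_c h with rfl | rfl
    · exact Nat.zero_le _
    · exact le_rfl
  | neg f ih =>
    rcases cases_neg_c h with rfl | ⟨C1, h1, rfl⟩
    · exact Nat.zero_le _
    · exact ih (C := C1) h1
  | and f g ihf ihg =>
    rcases cases_and_c h with rfl | ⟨C1, h1, C2, h2, rfl⟩
    · exact Nat.zero_le _
    · exact Nat.add_le_add (ihf h1) (ihg h2)
  | or f g ihf ihg =>
    rcases cases_or_c h with rfl | ⟨C1, h1, C2, h2, rfl⟩
    · exact Nat.zero_le _
    · exact Nat.add_le_add (ihf h1) (ihg h2)

private theorem not_both_of_not_cut_c {l : ℕ} {s t : Fm (Option X)} (h : ¬ cut l s t = true) :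
    ¬ (hasHole s = true ∧ hasHole t = true) := by
  rintro ⟨h1, h2⟩
  apply h
  simp [cut, h1, h2]

private theorem htop_mem_c {B : Fm X} {C : Fm (Option X)} (h : C ∈ ctxs B) (l : ℕ) (b : Bool) :
    htop l (lab b C) ∈ ctxs B := by
  induction B generalizing C with
  | var x =>
    rcases cases_var_c h with rfl | rfl
    · exact h
    · exact h
  | neg f ih =>
    rcases cases_neg_c h with rfl | ⟨C1, h1, rfl⟩
    · exact none_mem_ctxs_c _
    · exact neg_mem_ctxs_c (ih h1)
  | and f g ihf ihg =>
    rcases cases_and_c h with rfl | ⟨C1, h1, C2, h2, rfl⟩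
    · exact none_mem_ctxs_c _
    · show (if cut l (htop l (lab b C1)) (htop l (lab b C2)) = true then Fm.var none
        else Fm.and (htop l (lab b C1)) (htop l (lab b C2))) ∈ _
      split_ifs with hc
      · exact none_mem_ctxs_c _
      · exact and_mem_ctxs_c (ihf h1) (ihg h2) (not_both_of_not_cut_c hc)
  | or f g ihf ihg =>
    rcases cases_or_c h with rfl | ⟨C1, h1, C2, h2, rfl⟩
    · exact none_mem_ctxs_c _
    · show (if cut l (htop l (lab b C1)) (htop l (lab b C2)) = true then Fm.var none
        else Fm.or (htop l (lab b C1)) (htop l (lab b C2))) ∈ _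
      split_ifs with hc
      · exact none_mem_ctxs_c _
      · exact or_mem_ctxs_c (ihf h1) (ihg h2) (not_both_of_not_cut_c hc)

private theorem self_mem_subs_c (B : Fm X) : B ∈ B.subs := by
  cases B <;> simp [Fm.subs]

private theorem subs_c {B : Fm X} {C : Fm (Option X)} (h : C ∈ ctxs B) (b : Bool) {P : Ob X}
    (hP : P ∈ (lab b C).subs) : ∃ B' ∈ B.subs, P ∈ obs B' := by
  induction B generalizing C with
  | var x =>
    refine ⟨Fm.var x, self_mem_subs_c _, mem_obs_c.2 ⟨C, h, b, ?_⟩⟩
    rcases cases_var_c h with rfl | rfl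
    · simpa [lab, Fm.map, Fm.subs] using hP
    · simpa [lab, Fm.map, Fm.subs] using hP
  | neg f ih =>
    rcases cases_neg_c h with rfl | ⟨C1, h1, rfl⟩
    · refine ⟨_, self_mem_subs_c _, mem_obs_c.2 ⟨_, h, b, ?_⟩⟩
      simpa [lab, Fm.map, Fm.subs] using hP
    · have hP' : P ∈ lab b (Fm.neg C1) :: (lab b C1).subs := hP
      rcases List.mem_cons.1 hP' with h2 | h2
      · exact ⟨_, self_mem_subs_c _, mem_obs_c.2 ⟨_, h, b, h2⟩⟩
      · obtain ⟨B', hB', hPB⟩ := ih h1 h2
        exact ⟨B', by simp [Fm.subs, hB'], hPB⟩
  | and f g ihf ihg =>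
    rcases cases_and_c h with rfl | ⟨C1, h1, C2, h2, rfl⟩
    · refine ⟨_, self_mem_subs_c _, mem_obs_c.2 ⟨_, h, b, ?_⟩⟩
      simpa [lab, Fm.map, Fm.subs] using hP
    · have hP' : P ∈ lab b (Fm.and C1 C2) :: ((lab b C1).subs ++ (lab b C2).subs) := hP
      rcases List.mem_cons.1 hP' with h3 | h3
      · exact ⟨_, self_mem_subs_c _, mem_obs_c.2 ⟨_, h, b, h3⟩⟩
      · rcases List.mem_append.1 h3 with h4 | h4
        · obtain ⟨B', hB', hPB⟩ := ihf h1 h4
          exact ⟨B', by simp [Fm.subs, hB'], hPB⟩
        · obtain ⟨B', hB', hPB⟩ := ihg h2 h4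
          exact ⟨B', by simp [Fm.subs, hB'], hPB⟩
  | or f g ihf ihg =>
    rcases cases_or_c h with rfl | ⟨C1, h1, C2, h2, rfl⟩
    · refine ⟨_, self_mem_subs_c _, mem_obs_c.2 ⟨_, h, b, ?_⟩⟩
      simpa [lab, Fm.map, Fm.subs] using hP
    · have hP' : P ∈ lab b (Fm.or C1 C2) :: ((lab b C1).subs ++ (lab b C2).subs) := hP
      rcases List.mem_cons.1 hP' with h3 | h3
      · exact ⟨_, self_mem_subs_c _, mem_obs_c.2 ⟨_, h, b, h3⟩⟩
      · rcases List.mem_append.1 h3 with h4 | h4
        · obtain ⟨B', hB', hPB⟩ := ihf h1 h4
          exact ⟨B', by simp [Fm.subs, hB'], hPB⟩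
        · obtain ⟨B', hB', hPB⟩ := ihg h2 h4
          exact ⟨B', by simp [Fm.subs, hB'], hPB⟩

/-! ### the statements -/

theorem length_obs (B : Fm X) : (obs B).length = 2 * (B.size + 1) := by
  unfold obs
  rw [List.length_flatMap]
  simp [ctxs, length_hol_c]
  ring

theorem one_of_ctxs {B : Fm X} {C : Fm (Option X)} (h : C ∈ ctxs B) : One C := by
  rcases mem_ctxs_c.1 h with rfl | h
  · exact one_of_noHole_c (hasHole_map_some_c B)
  · exact one_hol_c h

theorem nc_obs {B : Fm X} {O : Ob X} (h : O ∈ obs B) : nc O ≤ 1 := by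
  obtain ⟨C, hC, b, rfl⟩ := mem_obs_c.1 h
  rw [nc_lab_c b C (one_of_ctxs hC)]
  split_ifs <;> omega

theorem vl2_obs {B : Fm X} {O : Ob X} (h : O ∈ obs B) : vl2 O ≤ B.leaves := by
  obtain ⟨C, hC, b, rfl⟩ := mem_obs_c.1 h
  exact vl2_lab_le_c b hC

theorem self_mem_obs (B : Fm X) : B.map Sum.inl ∈ obs B := by
  refine mem_obs_c.2 ⟨B.map some, mem_ctxs_c.2 (Or.inl rfl), false, ?_⟩
  induction B with
  | var x => rfl
  | neg f ih =>
    show Fm.neg (f.map Sum.inl) = Fm.neg (lab false (f.map some))
    rw [← ih]
  | and f g ihf ihg =>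
    show Fm.and (f.map Sum.inl) (g.map Sum.inl) =
      Fm.and (lab false (f.map some)) (lab false (g.map some))
    rw [← ihf, ← ihg]
  | or f g ihf ihg =>
    show Fm.or (f.map Sum.inl) (g.map Sum.inl) =
      Fm.or (lab false (f.map some)) (lab false (g.map some))
    rw [← ihf, ← ihg]

/-- the labelled tops of an object of `B` are objects of `B` -/
theorem lab_htop_mem {B : Fm X} {O : Ob X} (h : O ∈ obs B) (l : ℕ) (b : Bool) :
    lab b (htop l O) ∈ obs B := by
  obtain ⟨C, hC, b', rfl⟩ := mem_obs_c.1 h
  exact mem_obs_c.2 ⟨_, htop_mem_c hC l b', b, rfl⟩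

/-- an object that is a labelled context is labelled from a context -/
theorem obs_iff {B : Fm X} {O : Ob X} : O ∈ obs B ↔ ∃ C ∈ ctxs B, ∃ b, O = lab b C :=
  mem_obs_c

/-- the subformulas of an object of `B` are objects of subformulas of `B` -/
theorem subs_obs {B : Fm X} {O P : Ob X} (h : O ∈ obs B) (hP : P ∈ O.subs) :
    ∃ B' ∈ B.subs, P ∈ obs B' := by
  obtain ⟨C, hC, b, rfl⟩ := mem_obs_c.1 h
  exact subs_c hC b hP

/-- if both labellings of a one-hole context are objects of a class closed as below, then ... -/
theorem lab_other {B : Fm X} {C : Fm (Option X)} (hC : One C) (hh : hasHole C = true) {b : Bool}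
    (h : lab b C ∈ obs B) (b' : Bool) : lab b' C ∈ obs B := by
  obtain ⟨C', hC', b2, h2⟩ := mem_obs_c.1 h
  have h3 : C = C' := by
    rw [← unlab_lab_c b C, h2, unlab_lab_c]
  rw [h3]
  exact mem_obs_c.2 ⟨C', hC', b', rfl⟩

end FrS
end
end
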