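import Mathlib
import Pool.Agent.Lib.MP_51bb46_lc.B.Sound
import Pool.Agent.Lib.MP_51bb46_lc.S.Grid
import Pool.Agent.Lib.MP_51bb46_lc.S.TF
import Pool.Agent.Lib.MP_51bb46_lc.S.Obj
import Pool.Agent.Lib.MP_51bb46_lc.S.ObjC
import Pool.Agent.Lib.MP_51bb46_lc.B.Defs

section

/-!
Approximate inverse.
-/

set_option linter.unusedSectionVars false

namespace FrS

open Finset Polynomial

/-- growth of the Chebyshev polynomials to the right of `1` -/
theorem cheb_growth (δ : ℝ) (hδ : 0 ≤ δ) (n : ℕ) :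
    1 + (n : ℝ) ^ 2 * δ ≤ (Chebyshev.T ℝ n).eval (1 + δ) ∧
      (Chebyshev.T ℝ n).eval (1 + δ) + (2 * n + 1) * δ ≤
        (Chebyshev.T ℝ (n + 1 : ℕ)).eval (1 + δ) := by
  induction n with
  | zero => simp
  | succ n ih =>
    have h1 : 1 ≤ (Chebyshev.T ℝ (n + 1 : ℕ)).eval (1 + δ) :=
      Chebyshev.one_le_eval_T_real _ (by linarith)
    have h2 : (Chebyshev.T ℝ (n + 1 + 1 : ℕ)).eval (1 + δ) =
        2 * (1 + δ) * (Chebyshev.T ℝ (n + 1 : ℕ)).eval (1 + δ) -
          (Chebyshev.T ℝ n).eval (1 + δ) := by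
      have h3 := Chebyshev.T_add_two ℝ (n : ℤ)
      have e1 : ((n + 1 + 1 : ℕ) : ℤ) = (n : ℤ) + 2 := by push_cast; ring
      have e2 : ((n + 1 : ℕ) : ℤ) = (n : ℤ) + 1 := by push_cast; ring
      rw [e1, h3, e2]
      simp
    obtain ⟨ih1, ih2⟩ := ih
    rw [h2]
    generalize (Chebyshev.T ℝ (n + 1 : ℕ)).eval (1 + δ) = b at *
    generalize (Chebyshev.T ℝ n).eval (1 + δ) = a at *
    have hn : (0 : ℝ) ≤ n := Nat.cast_nonneg _
    constructor
    · push_cast
      nlinarith
    · push_cast
      nlinarith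

/-- a polynomial `p` of degree `< 12 m` with `s p(s) ∈ [9/10, 11/10]` on `[1/(16 L), 1]` -/
theorem cheb_inv (L m : ℕ) (hL : 1 ≤ L) (hm : L ≤ m ^ 2) :
    ∃ p : ℝ[X], p.natDegree ≤ 12 * m ∧ ∀ s : ℝ, 1 / (16 * L) ≤ s → s ≤ 1 →
      9 / 10 ≤ s * p.eval s ∧ s * p.eval s ≤ 11 / 10 := by
  set δ : ℝ := 1 / (16 * L) with hδ
  have hL0 : (0 : ℝ) < L := by exact_mod_cast hL
  have hδ0 : 0 < δ := by positivity
  set T : ℝ[X] := Chebyshev.T ℝ (12 * m : ℕ) with hT
  set τ : ℝ := T.eval (1 + δ) with hτ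
  have hτ10 : 10 ≤ τ := by
    have h1 := (cheb_growth δ hδ0.le (12 * m)).1
    have h2 : (9 : ℝ) ≤ ((12 * m : ℕ) : ℝ) ^ 2 * δ := by
      rw [hδ]
      have h3 : (L : ℝ) ≤ (m : ℝ) ^ 2 := by exact_mod_cast hm
      rw [mul_one_div, le_div_iff₀ (by positivity)]
      push_cast
      nlinarith
    rw [hτ, hT]
    linarith
  have hτ0 : τ ≠ 0 := by linarith
  -- `R(s) = T(1 + δ - s)/τ`
  let q : ℝ[X] := C (1 + δ) - X
  let R : ℝ[X] := C τ⁻¹ * T.comp q
  have hR : ∀ s, R.eval s = τ⁻¹ * T.eval (1 + δ - s) := fun s => by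
    simp [R, q, eval_comp]
  have hR0 : (1 - R).eval 0 = 0 := by
    rw [eval_sub, eval_one, hR, sub_zero, ← hτ, inv_mul_cancel₀ hτ0, sub_self]
  have hdvd : X ∣ (1 - R) := by
    rw [X_dvd_iff, coeff_zero_eq_eval_zero]
    exact hR0
  obtain ⟨p, hp⟩ := hdvd
  have hqdeg : q.natDegree ≤ 1 := by
    apply (natDegree_sub_le _ _).trans
    simp
  have hRdeg : R.natDegree ≤ 12 * m := by
    apply (natDegree_C_mul_le _ _).trans
    apply natDegree_comp_le.trans
    rw [hT, Chebyshev.natDegree_T]
    calc ((12 * m : ℕ) : ℤ).natAbs * q.natDegree ≤ ((12 * m : ℕ) : ℤ).natAbs * 1 :=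
          Nat.mul_le_mul_left _ hqdeg
      _ = 12 * m := by simp; omega
  refine ⟨p, ?_, ?_⟩
  · by_cases hp0 : p = 0
    · rw [hp0]; simp
    · have h1 : (X * p).natDegree = p.natDegree + 1 := by
        rw [mul_comm, natDegree_mul_X hp0]
      have h2 : (1 - R).natDegree ≤ 12 * m := by
        apply (natDegree_sub_le _ _).trans
        simp only [natDegree_one, zero_le, sup_of_le_right]
        exact hRdeg
      rw [hp, h1] at h2
      omega
  · intro s hs1 hs2
    have h1 : s * p.eval s = 1 - R.eval s := by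
      have h5 : (1 - R).eval s = (X * p).eval s := by rw [hp]
      have h6 : (X * p).eval s = s * p.eval s := by simp
      rw [eval_sub, eval_one, h6] at h5
      exact h5.symm
    have h2 : |T.eval (1 + δ - s)| ≤ 1 := by
      apply Chebyshev.abs_eval_T_real_le_one
      rw [abs_le]
      constructor
      · linarith
      · linarith
    have h3 : |R.eval s| ≤ 1 / 10 := by
      rw [hR, abs_mul, abs_of_pos (by positivity : 0 < τ⁻¹)]
      calc τ⁻¹ * |T.eval (1 + δ - s)| ≤ τ⁻¹ * 1 :=
            mul_le_mul_of_nonneg_left h2 (by positivity)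
        _ = τ⁻¹ := mul_one _
        _ ≤ 1 / 10 := by
            rw [inv_le_comm₀ (by linarith) (by norm_num)]
            linarith
    rw [abs_le] at h3
    rw [h1]
    constructor <;> linarith [h3.1, h3.2]

/-- approximate inverse on `[1/(16L), 1]` -/
theorem exists_inv_poly (L : ℕ) (hL : 1 ≤ L) :
    ∃ p : ℝ[X], p.natDegree ≤ 12 * (Nat.sqrt L + 1) ∧
      ∀ t : ℝ, 1 / (16 * L) ≤ t → t ≤ 1 → |1 - t * p.eval t| ≤ 1 / 10 := by
  obtain ⟨p, hp1, hp2⟩ := cheb_inv L (Nat.sqrt L + 1) hL (by
    have := Nat.lt_succ_sqrt L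
    rw [sq]
    exact this.le)
  refine ⟨p, hp1, fun t h1 h2 => ?_⟩
  have h3 := hp2 t h1 h2
  rw [abs_le]
  constructor <;> linarith [h3.1, h3.2]

end FrS
end

section

/-!
Amplification.
-/

set_option linter.unusedSectionVars false

namespace FrS

open Finset Polynomial

/-- the amplification polynomial: probability that a binomial variable exceeds half -/
noncomputable def amp (r : ℕ) (Q : ℝ) : ℝ :=
  ∑ j ∈ (range (16 * r + 1)).filter (fun j => 8 * r < j),
    ((16 * r).choose j : ℝ) * (Q ^ j * (1 - Q) ^ (16 * r - j))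

theorem amp_aux (r : ℕ) (x y : ℝ) (hx : 0 ≤ x) (hxy : x ≤ y) (s : Finset ℕ)
    (hs : ∀ j ∈ s, 8 * r ≤ j ∧ j ≤ 16 * r) :
    ∑ j ∈ s, ((16 * r).choose j : ℝ) * (x ^ j * y ^ (16 * r - j)) ≤ (4 * (x * y)) ^ (8 * r) := by
  have hy : 0 ≤ y := hx.trans hxy
  have h1 : ∀ j ∈ s, ((16 * r).choose j : ℝ) * (x ^ j * y ^ (16 * r - j)) ≤
      ((16 * r).choose j : ℝ) * (x * y) ^ (8 * r) := by
    intro j hj
    obtain ⟨h1, h2⟩ := hs j hj
    apply mul_le_mul_of_nonneg_left _ (Nat.cast_nonneg _)
    obtain ⟨k, rfl⟩ := Nat.exists_eq_add_of_le h1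
    have e1 : 8 * r = (16 * r - (8 * r + k)) + k := by omega
    have e2 : x ^ (8 * r + k) * y ^ (16 * r - (8 * r + k)) =
        x ^ (8 * r) * (x ^ k * y ^ (16 * r - (8 * r + k))) := by
      rw [pow_add]; ring
    rw [e2, mul_pow]
    apply mul_le_mul_of_nonneg_left _ (by positivity)
    calc x ^ k * y ^ (16 * r - (8 * r + k)) ≤ y ^ k * y ^ (16 * r - (8 * r + k)) :=
          mul_le_mul_of_nonneg_right (pow_le_pow_left₀ hx hxy _) (by positivity)
      _ = y ^ (8 * r) := by
          rw [← pow_add]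
          congr 1
          omega
  calc ∑ j ∈ s, ((16 * r).choose j : ℝ) * (x ^ j * y ^ (16 * r - j))
      ≤ ∑ j ∈ s, ((16 * r).choose j : ℝ) * (x * y) ^ (8 * r) := Finset.sum_le_sum h1
    _ = (∑ j ∈ s, ((16 * r).choose j : ℝ)) * (x * y) ^ (8 * r) := by rw [Finset.sum_mul]
    _ ≤ (∑ j ∈ range (16 * r + 1), ((16 * r).choose j : ℝ)) * (x * y) ^ (8 * r) := by
        apply mul_le_mul_of_nonneg_right _ (by positivity)
        apply Finset.sum_le_sum_of_subset_of_nonneg
        · intro j hj
          have := (hs j hj).2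
          exact Finset.mem_range.2 (by omega)
        · intro j _ _
          positivity
    _ = 2 ^ (16 * r) * (x * y) ^ (8 * r) := by
        congr 1
        exact_mod_cast Nat.sum_range_choose (16 * r)
    _ = (4 * (x * y)) ^ (8 * r) := by
        rw [mul_pow 4 (x * y)]
        congr 1
        have : (4 : ℝ) = 2 ^ 2 := by norm_num
        rw [this, ← pow_mul]
        congr 1
        ring

theorem amp_low (r : ℕ) (Q : ℝ) (h0 : 0 ≤ Q) (h1 : Q ≤ 1 / 5) : |amp r Q| ≤ (1 / 2) ^ r := by
  have hnn : 0 ≤ amp r Q := by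
    unfold amp
    apply Finset.sum_nonneg
    intro j _
    have : 0 ≤ 1 - Q := by linarith
    positivity
  rw [abs_of_nonneg hnn]
  have h2 := amp_aux r Q (1 - Q) h0 (by linarith)
    ((range (16 * r + 1)).filter (fun j => 8 * r < j)) (by
      intro j hj
      rw [Finset.mem_filter, Finset.mem_range] at hj
      omega)
  refine h2.trans ?_
  rw [pow_mul]
  apply pow_le_pow_left₀ (by have : 0 ≤ 1 - Q := by linarith
                             positivity)
  have h3 : 4 * (Q * (1 - Q)) ≤ 16 / 25 := by nlinarith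
  have h4 : 0 ≤ 4 * (Q * (1 - Q)) := by
    have : 0 ≤ 1 - Q := by linarith
    positivity
  calc (4 * (Q * (1 - Q))) ^ 8 ≤ (16 / 25) ^ 8 := pow_le_pow_left₀ h4 h3 8
    _ ≤ 1 / 2 := by norm_num

theorem amp_high (r : ℕ) (Q : ℝ) (h0 : 13 / 20 ≤ Q) (h1 : Q ≤ 1) :
    |amp r Q - 1| ≤ (1 / 2) ^ r := by
  have hQ0 : 0 ≤ Q := by linarith
  have hQ1 : 0 ≤ 1 - Q := by linarith
  have hsum : ∑ j ∈ range (16 * r + 1), ((16 * r).choose j : ℝ) *
      (Q ^ j * (1 - Q) ^ (16 * r - j)) = 1 := by
    have := add_pow Q (1 - Q) (16 * r)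
    rw [add_sub_cancel, one_pow] at this
    refine Eq.trans ?_ this.symm
    exact Finset.sum_congr rfl fun j _ => by ring
  have hsplit := Finset.sum_filter_add_sum_filter_not (range (16 * r + 1)) (fun j => 8 * r < j)
    (fun j => ((16 * r).choose j : ℝ) * (Q ^ j * (1 - Q) ^ (16 * r - j)))
  rw [hsum] at hsplit
  set B : ℝ := ∑ j ∈ (range (16 * r + 1)).filter (fun j => ¬ 8 * r < j),
    ((16 * r).choose j : ℝ) * (Q ^ j * (1 - Q) ^ (16 * r - j)) with hB
  have hamp : amp r Q - 1 = - B := by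
    unfold amp
    linarith
  have hBn : 0 ≤ B := Finset.sum_nonneg fun j _ => by positivity
  rw [hamp, abs_neg, abs_of_nonneg hBn]
  -- reflect
  have hrefl : B = ∑ j ∈ ((range (16 * r + 1)).filter (fun j => ¬ 8 * r < j)).image
      (fun j => 16 * r - j), ((16 * r).choose j : ℝ) * ((1 - Q) ^ j * Q ^ (16 * r - j)) := by
    rw [Finset.sum_image]
    · rw [hB]
      apply Finset.sum_congr rfl
      intro j hj
      rw [Finset.mem_filter, Finset.mem_range] at hj
      have e : 16 * r - (16 * r - j) = j := by omega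
      rw [e, Nat.choose_symm (by omega : j ≤ 16 * r)]
      ring
    · intro i hi j hj hij
      rw [Finset.mem_coe, Finset.mem_filter, Finset.mem_range] at hi hj
      dsimp only at hij
      omega
  rw [hrefl]
  have h2 := amp_aux r (1 - Q) Q hQ1 (by linarith)
    (((range (16 * r + 1)).filter (fun j => ¬ 8 * r < j)).image (fun j => 16 * r - j)) (by
      intro j hj
      rw [Finset.mem_image] at hj
      obtain ⟨i, hi, rfl⟩ := hj
      rw [Finset.mem_filter, Finset.mem_range] at hi
      omega)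
  refine h2.trans ?_
  rw [pow_mul]
  apply pow_le_pow_left₀ (by positivity)
  have h3 : 4 * ((1 - Q) * Q) ≤ 91 / 100 := by nlinarith
  have h4 : 0 ≤ 4 * ((1 - Q) * Q) := by positivity
  calc (4 * ((1 - Q) * Q)) ^ 8 ≤ (91 / 100) ^ 8 := pow_le_pow_left₀ h4 h3 8
    _ ≤ 1 / 2 := by norm_num


/-- amplification -/
theorem exists_amp_poly (r : ℕ) :
    ∃ p : ℝ[X], p.natDegree ≤ 16 * r ∧
      (∀ t : ℝ, 0 ≤ t → t ≤ 1 / 5 → |p.eval t| ≤ (1 / 2) ^ r) ∧
      (∀ t : ℝ, 13 / 20 ≤ t → t ≤ 1 → |p.eval t - 1| ≤ (1 / 2) ^ r) := by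
  refine ⟨∑ j ∈ (range (16 * r + 1)).filter (fun j => 8 * r < j),
    C ((16 * r).choose j : ℝ) * (X ^ j * (1 - X) ^ (16 * r - j)), ?_, ?_, ?_⟩
  · apply natDegree_sum_le_of_forall_le
    intro j hj
    rw [Finset.mem_filter, Finset.mem_range] at hj
    apply (natDegree_C_mul_le _ _).trans
    apply natDegree_mul_le.trans
    have h1 : (X ^ j : ℝ[X]).natDegree ≤ j := natDegree_X_pow_le j
    have h2 : ((1 - X) ^ (16 * r - j) : ℝ[X]).natDegree ≤ 16 * r - j := by
      apply natDegree_pow_le.trans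
      have h3 : (1 - X : ℝ[X]).natDegree ≤ 1 := by
        apply (natDegree_sub_le _ _).trans
        simp
      calc (16 * r - j) * (1 - X : ℝ[X]).natDegree ≤ (16 * r - j) * 1 :=
            Nat.mul_le_mul_left _ h3
        _ = _ := mul_one _
    omega
  · intro t h0 h1
    have h2 := amp_low r t h0 h1
    have e : (∑ j ∈ (range (16 * r + 1)).filter (fun j => 8 * r < j),
        C ((16 * r).choose j : ℝ) * (X ^ j * (1 - X) ^ (16 * r - j))).eval t = amp r t := by
      simp only [eval_finsetSum, eval_mul, eval_C, eval_pow, eval_X, eval_sub, eval_one, amp]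
    rw [e]
    exact h2
  · intro t h0 h1
    have h2 := amp_high r t h0 h1
    have e : (∑ j ∈ (range (16 * r + 1)).filter (fun j => 8 * r < j),
        C ((16 * r).choose j : ℝ) * (X ^ j * (1 - X) ^ (16 * r - j))).eval t = amp r t := by
      simp only [eval_finsetSum, eval_mul, eval_C, eval_pow, eval_X, eval_sub, eval_one, amp]
    rw [e]
    exact h2

end FrS
end

section

/-!
Fourier expansion on a coset.
-/

set_option linter.unusedSectionVars false

namespace FrS

open Finset
open scoped Classical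

variable {D : ℕ}

section gen

variable {ε : Type}

theorem chi_eq (K : Finset ε) (x : ε → ZMod 2) : chi K x = 1 ∨ chi K x = -1 := by
  have h : (chi K x - 1) * (chi K x + 1) = 0 := by
    have := chi_sq K x
    ring_nf
    rw [sq, this]; ring
  rcases mul_eq_zero.1 h with h | h
  · left; linarith
  · right; linarith

theorem chi_zero (K : Finset ε) : chi K 0 = 1 := by
  unfold chi
  exact Finset.prod_eq_one fun z _ => by simp [sg]

theorem chi_abs (K : Finset ε) (x : ε → ZMod 2) : |chi K x| = 1 := by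
  rcases chi_eq K x with h | h <;> rw [h] <;> norm_num

/-- explicit form of low degree polynomials -/
theorem exists_coeff {d : ℕ} {P : (ε → ZMod 2) → ℝ} (hP : P ∈ Pol ε d) :
    ∃ (F : Finset (Finset ε)) (p : Finset ε → ℝ), (∀ κ ∈ F, κ.card ≤ d) ∧
      ∀ x, P x = ∑ κ ∈ F, p κ * chi κ x := by
  induction hP using Submodule.span_induction with
  | mem f hf =>
    obtain ⟨κ, hκ, rfl⟩ := hf
    refine ⟨{κ}, fun _ => 1, ?_, ?_⟩
    · intro L hL
      rw [Finset.mem_singleton] at hL
      rw [hL]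
      exact hκ
    · intro x
      simp
  | zero => exact ⟨∅, fun _ => 0, fun _ h => absurd h (by simp), fun x => by simp⟩
  | add f g _ _ hf hg =>
    obtain ⟨F, p, hp, hp'⟩ := hf
    obtain ⟨G, q, hq, hq'⟩ := hg
    refine ⟨F ∪ G, fun κ => (if κ ∈ F then p κ else 0) + (if κ ∈ G then q κ else 0), ?_, ?_⟩
    · intro κ hκ
      rcases Finset.mem_union.1 hκ with h | h
      · exact hp κ h
      · exact hq κ h
    · intro x
      rw [Pi.add_apply, hp', hq']
      have h1 : ∑ κ ∈ F, p κ * chi κ x = ∑ κ ∈ F ∪ G, (if κ ∈ F then p κ else 0) * chi κ x := by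
        apply Finset.sum_subset_zero_on_sdiff Finset.subset_union_left
        · intro κ hκ
          rw [if_neg (Finset.mem_sdiff.1 hκ).2, zero_mul]
        · intro κ hκ
          rw [if_pos hκ]
      have h2 : ∑ κ ∈ G, q κ * chi κ x = ∑ κ ∈ F ∪ G, (if κ ∈ G then q κ else 0) * chi κ x := by
        apply Finset.sum_subset_zero_on_sdiff Finset.subset_union_right
        · intro κ hκ
          rw [if_neg (Finset.mem_sdiff.1 hκ).2, zero_mul]
        · intro κ hκ
          rw [if_pos hκ]
      rw [h1, h2, ← Finset.sum_add_distrib]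
      exact Finset.sum_congr rfl fun κ _ => by ring
  | smul a f _ hf =>
    obtain ⟨F, p, hp, hp'⟩ := hf
    refine ⟨F, fun κ => a * p κ, hp, fun x => ?_⟩
    rw [Pi.smul_apply, hp', smul_eq_mul, Finset.mul_sum]
    exact Finset.sum_congr rfl fun κ _ => by ring

/-- orthogonality -/
theorem orth {X : Finset (ε → ZMod 2)} {w : ε → ZMod 2} (hw : ∀ x ∈ X, x + w ∈ X)
    {K L : Finset ε} (hne : chi K w ≠ chi L w) : ∑ x ∈ X, chi K x * chi L x = 0 := by
  have hm : chi K w * chi L w = -1 := by
    rcases chi_eq K w with h1 | h1 <;> rcases chi_eq L w with h2 | h2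
    · exact absurd (h1.trans h2.symm) hne
    · rw [h1, h2]; norm_num
    · rw [h1, h2]; norm_num
    · exact absurd (h1.trans h2.symm) hne
  have hww : ∀ x : ε → ZMod 2, x + w + w = x := by
    intro x
    have : w + w = 0 := by
      funext e
      exact CharTwo.add_self_eq_zero (w e)
    rw [add_assoc, this, add_zero]
  have h1 : ∑ x ∈ X, chi K x * chi L x = ∑ x ∈ X, chi K (x + w) * chi L (x + w) := by
    apply Finset.sum_bij' (fun x _ => x + w) (fun x _ => x + w)
    · intro x hx; exact hw x hx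
    · intro x hx; exact hw x hx
    · intro x _; exact hww x
    · intro x _; exact hww x
    · intro x _
      rw [hww]
  have h2 : ∀ x : ε → ZMod 2, chi K (x + w) * chi L (x + w) = - (chi K x * chi L x) := by
    intro x
    rw [chi_add K x w, chi_add L x w]
    calc chi K x * chi K w * (chi L x * chi L w)
        = chi K x * chi L x * (chi K w * chi L w) := by ring
      _ = _ := by rw [hm]; ring
  rw [Finset.sum_congr rfl fun x _ => h2 x, Finset.sum_neg_distrib] at h1
  linarith

/-- Parseval -/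
theorem parseval {X : Finset (ε → ZMod 2)} {S : Finset (Finset ε)}
    (horth : ∀ κ ∈ S, ∀ κ' ∈ S, κ ≠ κ' → ∑ x ∈ X, chi κ x * chi κ' x = 0) (b : Finset ε → ℝ) :
    ∑ x ∈ X, (∑ κ ∈ S, b κ * chi κ x) ^ 2 = X.card * ∑ κ ∈ S, b κ ^ 2 := by
  have h1 : ∀ x : ε → ZMod 2, (∑ κ ∈ S, b κ * chi κ x) ^ 2 =
      ∑ K ∈ S, ∑ L ∈ S, b K * b L * (chi K x * chi L x) := by
    intro x
    rw [sq, Finset.sum_mul_sum]
    exact Finset.sum_congr rfl fun K _ => Finset.sum_congr rfl fun L _ => by ring
  rw [Finset.sum_congr rfl fun x _ => h1 x, Finset.sum_comm, Finset.mul_sum]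
  apply Finset.sum_congr rfl
  intro K hK
  rw [Finset.sum_comm, Finset.sum_eq_single K]
  · rw [← Finset.mul_sum, Finset.sum_congr rfl fun x _ => chi_sq K x]
    simp
    ring
  · intro L hL hLK
    rw [← Finset.mul_sum, horth K hK L hL (Ne.symm hLK), mul_zero]
  · intro h
    exact absurd hK h

/-- alternating sums of a character -/
theorem alt_chi {ι : Type} (T : Finset ι) (v : ι → ε → ZMod 2) (K : Finset ε)
    (x : ε → ZMod 2) :
    ∑ S ∈ T.powerset, (-1 : ℝ) ^ S.card * chi K (x + ∑ i ∈ S, v i) =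
      chi K x * ∏ i ∈ T, (1 - chi K (v i)) := by
  have hsum : ∀ S : Finset ι, chi K (∑ i ∈ S, v i) = ∏ i ∈ S, chi K (v i) := by
    intro S
    induction S using Finset.induction_on with
    | empty => simp [chi_zero]
    | insert a s ha ih => rw [Finset.sum_insert ha, Finset.prod_insert ha, chi_add, ih]
  have h2 : ∏ i ∈ T, (1 - chi K (v i)) = ∑ S ∈ T.powerset, ∏ i ∈ S, (- chi K (v i)) := by
    have := Finset.prod_add (fun i => - chi K (v i)) (fun _ => (1 : ℝ)) T
    simp only [Finset.prod_const_one, mul_one] at this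
    rw [← this]
    exact Finset.prod_congr rfl fun i _ => by ring
  rw [h2, Finset.mul_sum]
  apply Finset.sum_congr rfl
  intro S _
  rw [chi_add, hsum, Finset.prod_neg]
  ring

end gen

/-- **orthogonal expansion on a coset**: `X` is closed under translation by the elements of `Z`, on
which it is transitive; every polynomial is on `X` a combination of pairwise orthogonal
characters -/
theorem coset_expansion {X Z : Finset (Ch D)} (hX : ∀ x ∈ X, ∀ z ∈ Z, x + z ∈ X)
    (htr : ∀ x ∈ X, ∀ x' ∈ X, x + x' ∈ Z) {d : ℕ} {P : Ch D → ℝ} (hP : P ∈ Pol (E D) d) :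
    ∃ (S : Finset (Finset (E D))) (c : Finset (E D) → ℝ), (∀ κ ∈ S, κ.card ≤ d) ∧
      (∀ κ ∈ S, ∀ κ' ∈ S, κ ≠ κ' → ∑ x ∈ X, chi κ x * chi κ' x = 0) ∧
      ∀ x ∈ X, P x = ∑ κ ∈ S, c κ * chi κ x := by
  rcases X.eq_empty_or_nonempty with rfl | ⟨x0, hx0⟩
  · exact ⟨∅, fun _ => 0, fun _ h => absurd h (by simp), fun _ h => absurd h (by simp),
      fun x hx => absurd hx (by simp)⟩
  obtain ⟨F, p, hp, hp'⟩ := exists_coeff hP
  -- restriction of a character to `Z`
  let rho : Finset (E D) → (↥Z → ℝ) := fun K z => chi K z.1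
  let J : Finset (↥Z → ℝ) := F.image rho
  have hrep : ∀ ψ : ↥Z → ℝ, ∃ K : Finset (E D), ψ ∈ J → K ∈ F ∧ rho K = ψ := by
    intro ψ
    by_cases h : ψ ∈ J
    · obtain ⟨K, hK, hK'⟩ := Finset.mem_image.1 h
      exact ⟨K, fun _ => ⟨hK, hK'⟩⟩
    · exact ⟨∅, fun h' => absurd h' h⟩
  choose rep hrep using hrep
  let c : Finset (E D) → ℝ := fun L => ∑ K ∈ F with rho K = rho L, p K * chi K x0 * chi L x0
  refine ⟨J.image rep, c, ?_, ?_, ?_⟩
  · intro K hK
    obtain ⟨ψ, hψ, rfl⟩ := Finset.mem_image.1 hK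
    exact hp _ (hrep ψ hψ).1
  · intro K hK L hL hKL
    obtain ⟨ψ, hψ, rfl⟩ := Finset.mem_image.1 hK
    obtain ⟨φ, hφ, rfl⟩ := Finset.mem_image.1 hL
    have hex : ∃ z ∈ Z, chi (rep ψ) z ≠ chi (rep φ) z := by
      by_contra hcon
      push Not at hcon
      apply hKL
      have h1 : rho (rep ψ) = rho (rep φ) := funext fun z => hcon z.1 z.2
      rw [(hrep ψ hψ).2, (hrep φ hφ).2] at h1
      rw [h1]
    obtain ⟨z, hz, hne⟩ := hex
    exact orth (fun x hx => hX x hx z hz) hne
  · intro x hx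
    have hinj : Set.InjOn rep (J : Set (↥Z → ℝ)) := by
      intro ψ hψ φ hφ h
      rw [← (hrep ψ hψ).2, ← (hrep φ hφ).2, h]
    rw [Finset.sum_image hinj, hp',
      ← Finset.sum_fiberwise_of_maps_to (g := rho) (t := J)
      (fun K hK => Finset.mem_image_of_mem _ hK)]
    apply Finset.sum_congr rfl
    intro ψ hψ
    simp only [c]
    rw [Finset.sum_mul, (hrep ψ hψ).2]
    apply Finset.sum_congr rfl
    intro K hK
    have h2 : rho K = rho (rep ψ) := by rw [(Finset.mem_filter.1 hK).2, (hrep ψ hψ).2]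
    have hz := htr x0 hx0 x hx
    have h3 : chi K (x0 + x) = chi (rep ψ) (x0 + x) := congrFun h2 ⟨x0 + x, hz⟩
    have hxx : x = x0 + (x0 + x) := by
      rw [← add_assoc, add_self_fun, zero_add]
    have h4 := chi_sq (rep ψ) x0
    have h5 : chi K x = chi K x0 * chi (rep ψ) (x0 + x) := by
      conv_lhs => rw [hxx]
      rw [chi_add, h3]
    have h6 : chi (rep ψ) x = chi (rep ψ) x0 * chi (rep ψ) (x0 + x) := by
      conv_lhs => rw [hxx]
      rw [chi_add]
    rw [h5, h6]
    calc p K * (chi K x0 * chi (rep ψ) (x0 + x))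
        = p K * chi K x0 * chi (rep ψ) (x0 + x) * 1 := by ring
      _ = p K * chi K x0 * chi (rep ψ) (x0 + x) * (chi (rep ψ) x0 * chi (rep ψ) x0) := by rw [h4]
      _ = _ := by ring

/-- Parseval for iterated differences on a coset -/
theorem diff_parseval {X : Finset (Ch D)} {S : Finset (Finset (E D))} {c : Finset (E D) → ℝ}
    {P : Ch D → ℝ}
    (horth : ∀ κ ∈ S, ∀ κ' ∈ S, κ ≠ κ' → ∑ x ∈ X, chi κ x * chi κ' x = 0)
    (hP : ∀ x ∈ X, P x = ∑ κ ∈ S, c κ * chi κ x) {I : Type} (T : Finset I) (g : I → Ch D)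
    (hg : ∀ x ∈ X, ∀ F ∈ T, x + g F ∈ X) :
    ∑ x ∈ X, (∑ R ∈ T.powerset, (-1) ^ R.card * P (x + ∑ F ∈ R, g F)) ^ 2 ≤
      X.card * (4 ^ T.card *
        ∑ κ ∈ S, c κ ^ 2 * (if ∀ F ∈ T, ∃ z ∈ κ, g F z ≠ 0 then 1 else 0)) := by
  have hmem : ∀ R : Finset I, R ⊆ T → ∀ x ∈ X, x + ∑ F ∈ R, g F ∈ X := by
    intro R
    induction R using Finset.induction_on with
    | empty =>
      intro _ x hx
      simpa using hx
    | insert a s ha ih =>
      intro hR x hx
      rw [Finset.sum_insert ha, add_comm (g a), ← add_assoc]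
      exact hg _ (ih (fun i hi => hR (Finset.mem_insert_of_mem hi)) x hx) a
        (hR (Finset.mem_insert_self a s))
  have h1 : ∀ x ∈ X, ∑ R ∈ T.powerset, (-1 : ℝ) ^ R.card * P (x + ∑ F ∈ R, g F) =
      ∑ κ ∈ S, (c κ * ∏ i ∈ T, (1 - chi κ (g i))) * chi κ x := by
    intro x hx
    have e1 : ∀ R ∈ T.powerset, (-1 : ℝ) ^ R.card * P (x + ∑ F ∈ R, g F) =
        ∑ κ ∈ S, c κ * ((-1 : ℝ) ^ R.card * chi κ (x + ∑ F ∈ R, g F)) := by
      intro R hR
      rw [hP _ (hmem R (Finset.mem_powerset.1 hR) x hx), Finset.mul_sum]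
      exact Finset.sum_congr rfl fun K _ => by ring
    rw [Finset.sum_congr rfl e1, Finset.sum_comm]
    apply Finset.sum_congr rfl
    intro κ _
    rw [← Finset.mul_sum, alt_chi]
    ring
  rw [Finset.sum_congr rfl fun x hx => by rw [h1 x hx], parseval horth]
  apply mul_le_mul_of_nonneg_left _ (Nat.cast_nonneg _)
  rw [Finset.mul_sum]
  apply Finset.sum_le_sum
  intro K _
  rw [mul_pow]
  by_cases hcase : ∀ F ∈ T, ∃ z ∈ K, g F z ≠ 0
  · rw [if_pos hcase, mul_one, mul_comm]
    apply mul_le_mul_of_nonneg_right _ (sq_nonneg _)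
    rw [← Finset.prod_pow]
    calc ∏ i ∈ T, (1 - chi K (g i)) ^ 2 ≤ ∏ _i ∈ T, (4 : ℝ) := by
          apply Finset.prod_le_prod
          · intro i _; positivity
          · intro i _
            rcases chi_eq K (g i) with h | h <;> rw [h] <;> norm_num
      _ = 4 ^ T.card := by rw [Finset.prod_const]
  · rw [if_neg hcase, mul_zero, mul_zero]
    push Not at hcase
    obtain ⟨i, hi, h⟩ := hcase
    have h2 : chi K (g i) = 1 := by
      by_contra hcon
      obtain ⟨e, he, he'⟩ := exists_of_chi_ne_one hcon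
      exact he' (h e he)
    have h0 : ∏ i ∈ T, (1 - chi K (g i)) = 0 :=
      Finset.prod_eq_zero hi (by rw [h2, sub_self])
    rw [h0]
    simp

end FrS
end

section

/-!
The span lemma for de Morgan formulas.
-/

set_option linter.unusedSectionVars false

namespace FrS

open Finset Fr56

/-- the Boolean function `G` of the bits `b : I → Bool` has a span structure -/
def SpanP (I : Type) [Fintype I] (G : (I → Bool) → Bool) : Prop :=
  ∃ (K : Submodule ℝ (I → ℝ)) (c : I → ℝ), ∀ b : I → Bool,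
    (G b = true → ∃ i ∈ K, (∀ j, b j = false → i j = 0) ∧ ∑ j, c j * i j = 1 ∧
      ∑ j, i j ^ 2 ≤ Fintype.card I) ∧
    (G b = false → ∃ ψ : I → ℝ, (∀ j, b j = true → ψ j = 0) ∧
      (∀ i ∈ K, ∑ j, ψ j * i j = ∑ j, c j * i j) ∧ ∑ j, ψ j ^ 2 ≤ 1)

theorem spanP_leaf : SpanP Unit (fun b => b ()) := by
  refine ⟨⊤, fun _ => 1, fun b => ⟨fun h => ⟨fun _ => 1, Submodule.mem_top, ?_, ?_, ?_⟩,
    fun h => ⟨fun _ => 1, ?_, fun i _ => rfl, ?_⟩⟩⟩
  · rintro ⟨⟩ h'
    dsimp only at h
    rw [h] at h'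
    exact absurd h' (by decide)
  · simp
  · simp
  · rintro ⟨⟩ h'
    dsimp only at h
    rw [h] at h'
    exact absurd h' (by decide)
  · simp

section comb

variable {I J : Type} [Fintype I] [Fintype J]

theorem spanP_and {G : (I → Bool) → Bool} {H : (J → Bool) → Bool} (hG : SpanP I G)
    (hH : SpanP J H) :
    SpanP (I ⊕ J) (fun b => G (fun i => b (Sum.inl i)) && H (fun j => b (Sum.inr j))) := by
  obtain ⟨K, c, hK⟩ := hG
  obtain ⟨K', c', hK'⟩ := hH
  let M : Submodule ℝ (I ⊕ J → ℝ) :=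
    { carrier := {f | (fun i => f (Sum.inl i)) ∈ K ∧ (fun j => f (Sum.inr j)) ∈ K' ∧
        ∑ i, c i * f (Sum.inl i) = ∑ j, c' j * f (Sum.inr j)}
      add_mem' := by
        rintro f g ⟨h1, h2, h3⟩ ⟨h4, h5, h6⟩
        refine ⟨K.add_mem h1 h4, K'.add_mem h2 h5, ?_⟩
        simp only [Pi.add_apply, mul_add, Finset.sum_add_distrib]
        rw [h3, h6]
      zero_mem' := by
        refine ⟨K.zero_mem, K'.zero_mem, ?_⟩
        simp
      smul_mem' := by
        rintro a f ⟨h1, h2, h3⟩
        refine ⟨K.smul_mem a h1, K'.smul_mem a h2, ?_⟩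
        simp only [Pi.smul_apply, smul_eq_mul]
        have e1 : ∀ i, c i * (a * f (Sum.inl i)) = a * (c i * f (Sum.inl i)) := fun i => by ring
        have e2 : ∀ j, c' j * (a * f (Sum.inr j)) = a * (c' j * f (Sum.inr j)) :=
          fun j => by ring
        simp only [e1, e2, ← Finset.mul_sum]
        rw [h3] }
  refine ⟨M, Sum.elim c (fun _ => 0), fun b => ⟨fun h => ?_, fun h => ?_⟩⟩
  · rw [Bool.and_eq_true] at h
    obtain ⟨i, hi, hi0, hi1, hi2⟩ := (hK _).1 h.1
    obtain ⟨i', hi', hi0', hi1', hi2'⟩ := (hK' _).1 h.2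
    refine ⟨Sum.elim i i', ⟨hi, hi', ?_⟩, ?_, ?_, ?_⟩
    · simp only [Sum.elim_inl, Sum.elim_inr]
      rw [hi1, hi1']
    · rintro (j | j) hj
      · exact hi0 j hj
      · exact hi0' j hj
    · rw [Fintype.sum_sum_type]
      simp only [Sum.elim_inl, Sum.elim_inr, zero_mul, Finset.sum_const_zero, add_zero]
      exact hi1
    · rw [Fintype.sum_sum_type, Fintype.card_sum]
      simp only [Sum.elim_inl, Sum.elim_inr]
      push_cast
      exact add_le_add hi2 hi2'
  · rcases Bool.and_eq_false_iff.1 h with h | h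
    · obtain ⟨ψ, h0, h1, h2⟩ := (hK _).2 h
      refine ⟨Sum.elim ψ (fun _ => 0), ?_, ?_, ?_⟩
      · rintro (j | j) hj
        · exact h0 j hj
        · rfl
      · rintro f ⟨hf1, hf2, hf3⟩
        rw [Fintype.sum_sum_type, Fintype.sum_sum_type]
        simp only [Sum.elim_inl, Sum.elim_inr, zero_mul, Finset.sum_const_zero, add_zero]
        exact h1 _ hf1
      · rw [Fintype.sum_sum_type]
        simp only [Sum.elim_inl, Sum.elim_inr, ne_eq, OfNat.ofNat_ne_zero, not_false_eq_true,
          zero_pow, Finset.sum_const_zero, add_zero]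
        exact h2
    · obtain ⟨ψ, h0, h1, h2⟩ := (hK' _).2 h
      refine ⟨Sum.elim (fun _ => 0) ψ, ?_, ?_, ?_⟩
      · rintro (j | j) hj
        · rfl
        · exact h0 j hj
      · rintro f ⟨hf1, hf2, hf3⟩
        rw [Fintype.sum_sum_type, Fintype.sum_sum_type]
        simp only [Sum.elim_inl, Sum.elim_inr, zero_mul, Finset.sum_const_zero, add_zero,
          zero_add]
        rw [hf3]
        exact h1 _ hf2
      · rw [Fintype.sum_sum_type]
        simp only [Sum.elim_inl, Sum.elim_inr, ne_eq, OfNat.ofNat_ne_zero, not_false_eq_true,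
          zero_pow, Finset.sum_const_zero, zero_add]
        exact h2

theorem spanP_or [Nonempty I] [Nonempty J] {G : (I → Bool) → Bool} {H : (J → Bool) → Bool}
    (hG : SpanP I G) (hH : SpanP J H) :
    SpanP (I ⊕ J) (fun b => G (fun i => b (Sum.inl i)) || H (fun j => b (Sum.inr j))) := by
  obtain ⟨K, c, hK⟩ := hG
  obtain ⟨K', c', hK'⟩ := hH
  let M : Submodule ℝ (I ⊕ J → ℝ) :=
    { carrier := {f | (fun i => f (Sum.inl i)) ∈ K ∧ (fun j => f (Sum.inr j)) ∈ K'}
      add_mem' := by
        rintro f g ⟨h1, h2⟩ ⟨h4, h5⟩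
        exact ⟨K.add_mem h1 h4, K'.add_mem h2 h5⟩
      zero_mem' := ⟨K.zero_mem, K'.zero_mem⟩
      smul_mem' := by
        rintro a f ⟨h1, h2⟩
        exact ⟨K.smul_mem a h1, K'.smul_mem a h2⟩ }
  have hI : (0 : ℝ) < Fintype.card I := by exact_mod_cast Fintype.card_pos
  have hJ : (0 : ℝ) < Fintype.card J := by exact_mod_cast Fintype.card_pos
  set L1 : ℝ := (Fintype.card I : ℝ) with hL1
  set L2 : ℝ := (Fintype.card J : ℝ) with hL2
  set α : ℝ := Real.sqrt (L1 / (L1 + L2)) with hα
  set β : ℝ := Real.sqrt (L2 / (L1 + L2)) with hβ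
  have hα2 : α ^ 2 = L1 / (L1 + L2) := Real.sq_sqrt (by positivity)
  have hβ2 : β ^ 2 = L2 / (L1 + L2) := Real.sq_sqrt (by positivity)
  have hα0 : 0 < α := Real.sqrt_pos.2 (by positivity)
  have hβ0 : 0 < β := Real.sqrt_pos.2 (by positivity)
  refine ⟨M, Sum.elim (fun i => α * c i) (fun j => β * c' j), fun b => ⟨fun h => ?_, fun h => ?_⟩⟩
  · rw [Bool.or_eq_true] at h
    rcases h with h | h
    · obtain ⟨i, hi, hi0, hi1, hi2⟩ := (hK _).1 h
      refine ⟨Sum.elim (fun j => α⁻¹ * i j) (fun _ => 0),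
        ⟨K.smul_mem α⁻¹ hi, K'.zero_mem⟩, ?_, ?_, ?_⟩
      · rintro (j | j) hj
        · simp only [Sum.elim_inl]
          rw [hi0 j hj, mul_zero]
        · rfl
      · rw [Fintype.sum_sum_type]
        simp only [Sum.elim_inl, Sum.elim_inr, mul_zero, Finset.sum_const_zero, add_zero]
        rw [← hi1]
        apply Finset.sum_congr rfl
        intro j _
        field_simp
      · rw [Fintype.sum_sum_type, Fintype.card_sum]
        simp only [Sum.elim_inl, Sum.elim_inr, ne_eq, OfNat.ofNat_ne_zero, not_false_eq_true,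
          zero_pow, Finset.sum_const_zero, add_zero]
        push_cast
        have e : ∀ j, (α⁻¹ * i j) ^ 2 = (α ^ 2)⁻¹ * i j ^ 2 := fun j => by
          rw [mul_pow, inv_pow]
        simp only [e, ← Finset.mul_sum]
        rw [hα2, inv_div, div_mul_eq_mul_div, div_le_iff₀ hI]
        exact mul_le_mul_of_nonneg_left hi2 (by positivity)
    · obtain ⟨i, hi, hi0, hi1, hi2⟩ := (hK' _).1 h
      refine ⟨Sum.elim (fun _ => 0) (fun j => β⁻¹ * i j),
        ⟨K.zero_mem, K'.smul_mem β⁻¹ hi⟩, ?_, ?_, ?_⟩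
      · rintro (j | j) hj
        · rfl
        · simp only [Sum.elim_inr]
          rw [hi0 j hj, mul_zero]
      · rw [Fintype.sum_sum_type]
        simp only [Sum.elim_inl, Sum.elim_inr, mul_zero, Finset.sum_const_zero, zero_add]
        rw [← hi1]
        apply Finset.sum_congr rfl
        intro j _
        field_simp
      · rw [Fintype.sum_sum_type, Fintype.card_sum]
        simp only [Sum.elim_inl, Sum.elim_inr, ne_eq, OfNat.ofNat_ne_zero, not_false_eq_true,
          zero_pow, Finset.sum_const_zero, zero_add]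
        push_cast
        have e : ∀ j, (β⁻¹ * i j) ^ 2 = (β ^ 2)⁻¹ * i j ^ 2 := fun j => by
          rw [mul_pow, inv_pow]
        simp only [e, ← Finset.mul_sum]
        rw [hβ2, inv_div, div_mul_eq_mul_div, div_le_iff₀ hJ]
        exact mul_le_mul_of_nonneg_left hi2 (by positivity)
  · rw [Bool.or_eq_false_iff] at h
    obtain ⟨ψ, h0, h1, h2⟩ := (hK _).2 h.1
    obtain ⟨ψ', h0', h1', h2'⟩ := (hK' _).2 h.2
    refine ⟨Sum.elim (fun i => α * ψ i) (fun j => β * ψ' j), ?_, ?_, ?_⟩
    · rintro (j | j) hj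
      · simp only [Sum.elim_inl]
        rw [h0 j hj, mul_zero]
      · simp only [Sum.elim_inr]
        rw [h0' j hj, mul_zero]
    · rintro f ⟨hf1, hf2⟩
      rw [Fintype.sum_sum_type, Fintype.sum_sum_type]
      simp only [Sum.elim_inl, Sum.elim_inr, mul_assoc, ← Finset.mul_sum]
      rw [h1 _ hf1, h1' _ hf2]
    · rw [Fintype.sum_sum_type]
      simp only [Sum.elim_inl, Sum.elim_inr, mul_pow, ← Finset.mul_sum]
      rw [hα2, hβ2]
      calc L1 / (L1 + L2) * ∑ i, ψ i ^ 2 + L2 / (L1 + L2) * ∑ j, ψ' j ^ 2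
          ≤ L1 / (L1 + L2) * 1 + L2 / (L1 + L2) * 1 := by
            apply add_le_add
            · exact mul_le_mul_of_nonneg_left h2 (by positivity)
            · exact mul_le_mul_of_nonneg_left h2' (by positivity)
        _ = 1 := by
            rw [mul_one, mul_one, ← add_div, div_self (by positivity)]

end comb

/-- the value of a de Morgan formula (possibly negated) is a Boolean function with
a span structure on its leaf literals. -/
theorem span_aux {ι : Type} (f : Fm ι) (s : Bool) :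
    ∃ (I : Type) (_ : Fintype I) (_ : DecidableEq I) (_ : Nonempty I) (lab : I → ι)
      (sgn : I → Bool) (G : (I → Bool) → Bool), Fintype.card I = f.leaves ∧
      (∀ p, lab p ∈ lv f) ∧ SpanP I G ∧
      ∀ v : ι → Bool, (f.eval v ^^ s) = G (fun i => v (lab i) ^^ sgn i) := by
  induction f generalizing s with
  | var i =>
    exact ⟨Unit, inferInstance, inferInstance, inferInstance, fun _ => i, fun _ => s,
      fun b => b (), by simp [Fm.leaves], fun _ => by simp [lv], spanP_leaf,
      fun v => by simp [Fm.eval]⟩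
  | neg f ih =>
    obtain ⟨I, hI, hd, hI', lab, sgn, G, h1, hl, h2, h3⟩ := ih (!s)
    refine ⟨I, hI, hd, hI', lab, sgn, G, h1, hl, h2, fun v => ?_⟩
    rw [← h3]
    simp only [Fm.eval]
    cases f.eval v <;> cases s <;> rfl
  | and f g ihf ihg =>
    cases s with
    | false =>
      obtain ⟨I, hI, hd, hI', lab, sgn, G, h1, hl, h2, h3⟩ := ihf false
      obtain ⟨J, hJ, hd', hJ', lab', sgn', G', h1', hl', h2', h3'⟩ := ihg false
      refine ⟨I ⊕ J, inferInstance, inferInstance, inferInstance, Sum.elim lab lab',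
        Sum.elim sgn sgn', _, ?_, ?_, spanP_and h2 h2', fun v => ?_⟩
      · rw [Fintype.card_sum, h1, h1']
        rfl
      · rintro (p | p)
        · exact List.mem_append_left _ (hl p)
        · exact List.mem_append_right _ (hl' p)
      · have e1 := h3 v
        have e2 := h3' v
        simp only [Bool.xor_false] at e1 e2
        simp only [Fm.eval, Bool.xor_false, Sum.elim_inl, Sum.elim_inr]
        rw [e1, e2]
    | true =>
      obtain ⟨I, hI, hd, hI', lab, sgn, G, h1, hl, h2, h3⟩ := ihf true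
      obtain ⟨J, hJ, hd', hJ', lab', sgn', G', h1', hl', h2', h3'⟩ := ihg true
      refine ⟨I ⊕ J, inferInstance, inferInstance, inferInstance, Sum.elim lab lab',
        Sum.elim sgn sgn', _, ?_, ?_, spanP_or h2 h2', fun v => ?_⟩
      · rw [Fintype.card_sum, h1, h1']
        rfl
      · rintro (p | p)
        · exact List.mem_append_left _ (hl p)
        · exact List.mem_append_right _ (hl' p)
      · have e1 := h3 v
        have e2 := h3' v
        simp only [Bool.xor_true] at e1 e2
        simp only [Fm.eval, Bool.xor_true, Sum.elim_inl, Sum.elim_inr]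
        rw [← e1, ← e2, Bool.not_and]
  | or f g ihf ihg =>
    cases s with
    | false =>
      obtain ⟨I, hI, hd, hI', lab, sgn, G, h1, hl, h2, h3⟩ := ihf false
      obtain ⟨J, hJ, hd', hJ', lab', sgn', G', h1', hl', h2', h3'⟩ := ihg false
      refine ⟨I ⊕ J, inferInstance, inferInstance, inferInstance, Sum.elim lab lab',
        Sum.elim sgn sgn', _, ?_, ?_, spanP_or h2 h2', fun v => ?_⟩
      · rw [Fintype.card_sum, h1, h1']
        rfl
      · rintro (p | p)
        · exact List.mem_append_left _ (hl p)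
        · exact List.mem_append_right _ (hl' p)
      · have e1 := h3 v
        have e2 := h3' v
        simp only [Bool.xor_false] at e1 e2
        simp only [Fm.eval, Bool.xor_false, Sum.elim_inl, Sum.elim_inr]
        rw [e1, e2]
    | true =>
      obtain ⟨I, hI, hd, hI', lab, sgn, G, h1, hl, h2, h3⟩ := ihf true
      obtain ⟨J, hJ, hd', hJ', lab', sgn', G', h1', hl', h2', h3'⟩ := ihg true
      refine ⟨I ⊕ J, inferInstance, inferInstance, inferInstance, Sum.elim lab lab',
        Sum.elim sgn sgn', _, ?_, ?_, spanP_and h2 h2', fun v => ?_⟩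
      · rw [Fintype.card_sum, h1, h1']
        rfl
      · rintro (p | p)
        · exact List.mem_append_left _ (hl p)
        · exact List.mem_append_right _ (hl' p)
      · have e1 := h3 v
        have e2 := h3' v
        simp only [Bool.xor_true] at e1 e2
        simp only [Fm.eval, Bool.xor_true, Sum.elim_inl, Sum.elim_inr]
        rw [← e1, ← e2, Bool.not_or]

/-- **span lemma**: `P` = leaves, `lb p` = label of the leaf, the leaf is true if
`u (lb p) = sgn p` -/
theorem span_lemma {ι : Type} (φ : Fm ι) (o : Bool) :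
    ∃ (P : Type) (_ : Fintype P) (_ : DecidableEq P) (lb : P → ι) (sgn : P → Bool)
      (K : Submodule ℝ (P → ℝ)) (c : P → ℝ),
      Fintype.card P = φ.leaves ∧ (∀ p, lb p ∈ lv φ) ∧ ∀ u : ι → Bool,
        (φ.eval u = o → ∃ i ∈ K, c ⬝ᵥ i = 1 ∧ (∀ p, u (lb p) ≠ sgn p → i p = 0) ∧
          i ⬝ᵥ i ≤ Fintype.card P) ∧
        (φ.eval u ≠ o → ∃ ψ : P → ℝ, (∀ p, u (lb p) = sgn p → ψ p = 0) ∧
          (∀ κ ∈ K, ψ ⬝ᵥ κ = c ⬝ᵥ κ) ∧ ψ ⬝ᵥ ψ ≤ 1) := by
  obtain ⟨I, hI, hd, _, lab, sgn, G, h1, hl, h2, h3⟩ := span_aux φ (!o)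
  obtain ⟨K, c, hK⟩ := h2
  refine ⟨I, hI, hd, lab, fun p => !(sgn p), K, c, h1, hl, fun u => ⟨fun h => ?_, fun h => ?_⟩⟩
  · have h4 : G (fun i => u (lab i) ^^ sgn i) = true := by
      rw [← h3 u, h]
      cases o <;> rfl
    obtain ⟨i, hi, hi0, hi1, hi2⟩ := (hK _).1 h4
    refine ⟨i, hi, hi1, fun p hp => hi0 p ?_, ?_⟩
    · have hp' : u (lab p) ≠ !(sgn p) := hp
      revert hp'
      cases u (lab p) <;> cases sgn p <;> decide
    · have e : i ⬝ᵥ i = ∑ j, i j ^ 2 := by
        unfold dotProduct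
        exact Finset.sum_congr rfl fun j _ => by ring
      rw [e]
      exact hi2
  · have h4 : G (fun i => u (lab i) ^^ sgn i) = false := by
      rw [← h3 u]
      revert h
      cases φ.eval u <;> cases o <;> simp
    obtain ⟨ψ, h5, h6, h7⟩ := (hK _).2 h4
    refine ⟨ψ, fun p hp => h5 p ?_, h6, ?_⟩
    · have hp' : u (lab p) = !(sgn p) := hp
      revert hp'
      cases u (lab p) <;> cases sgn p <;> decide
    · have e : ψ ⬝ᵥ ψ = ∑ j, ψ j ^ 2 := by
        unfold dotProduct
        exact Finset.sum_congr rfl fun j _ => by ring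
      rw [e]
      exact h7

end FrS
end

section

/-!
Counting the pieces.
-/

set_option linter.unusedSectionVars false

namespace FrS

open Finset Fr56

variable {X : Type}

private theorem cut_false_iff {l : ℕ} {s t : Fm (Option X)} :
    ¬ cut l s t = true ↔ ¬ (hasHole s = true ∧ hasHole t = true) ∧ vl s + vl t < l := by
  simp only [cut, Bool.or_eq_true, Bool.and_eq_true, decide_eq_true_eq, not_or, not_le]

theorem one_htop (l : ℕ) (O : Ob X) : One (htop l O) := by
  induction O with
  | var x => cases x <;> exact trivial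
  | neg f ih => exact ih
  | and f g ihf ihg =>
    by_cases hc : cut l (htop l f) (htop l g) = true
    · simp only [htop, if_pos hc]
      exact trivial
    · simp only [htop, if_neg hc]
      exact ⟨ihf, ihg, (cut_false_iff.1 hc).1⟩
  | or f g ihf ihg =>
    by_cases hc : cut l (htop l f) (htop l g) = true
    · simp only [htop, if_pos hc]
      exact trivial
    · simp only [htop, if_neg hc]
      exact ⟨ihf, ihg, (cut_false_iff.1 hc).1⟩

theorem vl_htop_le (l : ℕ) (hl : 2 ≤ l) (O : Ob X) : vl (htop l O) < l := by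
  induction O with
  | var x =>
    cases x with
    | inl x => simp only [htop, vl]; omega
    | inr b => simp only [htop, vl]; omega
  | neg f ih => simpa only [htop, vl] using ih
  | and f g ihf ihg =>
    by_cases hc : cut l (htop l f) (htop l g) = true
    · simp only [htop, if_pos hc, vl]; omega
    · simp only [htop, if_neg hc, vl]
      exact (cut_false_iff.1 hc).2
  | or f g ihf ihg =>
    by_cases hc : cut l (htop l f) (htop l g) = true
    · simp only [htop, if_pos hc, vl]; omega
    · simp only [htop, if_neg hc, vl]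
      exact (cut_false_iff.1 hc).2

theorem vl2_lab (b : Bool) (t : Fm (Option X)) : vl2 (lab b t) = vl t := by
  unfold lab
  induction t with
  | var x => cases x <;> rfl
  | neg f ih => simpa [Fm.map, vl2, vl] using ih
  | and f g ihf ihg => simp only [Fm.map, vl2, vl, ihf, ihg]
  | or f g ihf ihg => simp only [Fm.map, vl2, vl, ihf, ihg]

private theorem leaves_mkv (t : Fm (Option X)) (h : Fm (Ob X)) :
    (mkv t h).leaves = if hasHole t then 2 + h.leaves else 1 := by
  unfold mkv
  by_cases h1 : hasHole t = true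
  · rw [if_pos h1, if_pos h1]
    by_cases h2 : pol t = true
    · rw [if_pos h2]
      simp only [Fm.leaves]
      omega
    · rw [if_neg h2]
      simp only [Fm.leaves]
      omega
  · rw [if_neg h1, if_neg h1]
    rfl

private theorem inv_cut (l N1 N2 v1 v2 V1 V2 c1 c2 : ℕ) (s t : Bool)
    (h1 : (if s then l * N1 + 4 * l else 0) + 6 * v1 ≤ 6 * V1 + 5 * (l * c1))
    (h2 : (if t then l * N2 + 4 * l else 0) + 6 * v2 ≤ 6 * V2 + 5 * (l * c2))
    (hc : ((s && t) || decide (l ≤ v1 + v2)) = true) :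
    l * ((if s then 2 + N1 else 1) + (if t then 2 + N2 else 1)) + 4 * l ≤
      6 * (V1 + V2) + 5 * (l * (c1 + c2)) := by
  cases s <;> cases t <;> simp only [Bool.and_true, Bool.and_false, Bool.true_or, Bool.false_or,
    decide_eq_true_eq, if_true, if_false, Bool.false_eq_true, Nat.mul_add, Nat.mul_one] at hc h1 h2 ⊢ <;> omega

private theorem inv_not (l N1 N2 v1 v2 V1 V2 c1 c2 : ℕ) (s t : Bool)
    (h1 : (if s then l * N1 + 4 * l else 0) + 6 * v1 ≤ 6 * V1 + 5 * (l * c1))
    (h2 : (if t then l * N2 + 4 * l else 0) + 6 * v2 ≤ 6 * V2 + 5 * (l * c2))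
    (hc : ¬ (s = true ∧ t = true)) :
    (if (s || t) then l * (if s then N1 else N2) + 4 * l else 0) + 6 * (v1 + v2) ≤
      6 * (V1 + V2) + 5 * (l * (c1 + c2)) := by
  cases s <;> cases t <;> simp only [Bool.or_true, Bool.or_false,
    if_true, if_false, Bool.false_eq_true, Nat.mul_add] at hc h1 h2 ⊢ <;> omega

private theorem leaves_inv (l : ℕ) (O : Ob X) :
    (if hasHole (htop l O) then l * (hv l O).leaves + 4 * l else 0) + 6 * vl (htop l O) ≤
      6 * vl2 O + 5 * (l * nc O) := by
  induction O with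
  | var x =>
    cases x with
    | inl x => simp [htop, hasHole, vl, vl2]
    | inr b =>
      simp only [htop, hasHole, vl, vl2, hv, nc, Fm.leaves, if_true]
      omega
  | neg f ih => simpa only [htop, hasHole, vl, vl2, hv, nc] using ih
  | and f g ihf ihg =>
    by_cases hc : cut l (htop l f) (htop l g) = true
    · have h := inv_cut l _ _ _ _ _ _ _ _ _ _ ihf ihg hc
      simp only [htop, hv, if_pos hc, hasHole, vl, vl2, nc, Fm.leaves, if_true, leaves_mkv]
      exact h
    · have h := inv_not l _ _ _ _ _ _ _ _ _ _ ihf ihg (cut_false_iff.1 hc).1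
      simp only [htop, hv, if_neg hc, hasHole, vl, vl2, nc]
      refine le_trans (le_of_eq ?_) h
      split_ifs <;> rfl
  | or f g ihf ihg =>
    by_cases hc : cut l (htop l f) (htop l g) = true
    · have h := inv_cut l _ _ _ _ _ _ _ _ _ _ ihf ihg hc
      simp only [htop, hv, if_pos hc, hasHole, vl, vl2, nc, Fm.leaves, if_true, leaves_mkv]
      exact h
    · have h := inv_not l _ _ _ _ _ _ _ _ _ _ ihf ihg (cut_false_iff.1 hc).1
      simp only [htop, hv, if_neg hc, hasHole, vl, vl2, nc]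
      refine le_trans (le_of_eq ?_) h
      split_ifs <;> rfl

/-- number of leaves of the decomposition -/
theorem leaves_fv (l : ℕ) (hl : 2 ≤ l) (O : Ob X) :
    l * (fv l O).leaves ≤ 8 * vl2 O + l * (6 * nc O + 2) := by
  have h := leaves_inv l O
  have e : l * (6 * nc O + 2) = 6 * (l * nc O) + 2 * l := by ring
  rw [fv, leaves_mkv, e]
  by_cases hh : hasHole (htop l O) = true
  · rw [if_pos hh] at h ⊢
    rw [Nat.mul_add]
    omega
  · rw [if_neg hh]
    omega

private theorem mem_lv_mkv {t : Fm (Option X)} {h : Fm (Ob X)} {Q : Ob X}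
    (hQ : Q ∈ lv (mkv t h)) : (∃ b, Q = lab b t) ∨ Q ∈ lv h := by
  unfold mkv at hQ
  by_cases h1 : hasHole t = true
  · rw [if_pos h1] at hQ
    by_cases h2 : pol t = true
    · rw [if_pos h2] at hQ
      simp only [lv, List.mem_append, List.mem_singleton] at hQ
      rcases hQ with hQ | hQ | hQ
      · exact Or.inl ⟨_, hQ⟩
      · exact Or.inl ⟨_, hQ⟩
      · exact Or.inr hQ
    · rw [if_neg h2] at hQ
      simp only [lv, List.mem_append, List.mem_singleton] at hQ
      rcases hQ with hQ | hQ | hQ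
      · exact Or.inl ⟨_, hQ⟩
      · exact Or.inl ⟨_, hQ⟩
      · exact Or.inr hQ
  · rw [if_neg h1] at hQ
    simp only [lv, List.mem_singleton] at hQ
    exact Or.inl ⟨_, hQ⟩

private theorem lv_hv (l : ℕ) (O : Ob X) : ∀ Q ∈ lv (hv l O),
    (∃ b, Q = .var (.inr b)) ∨ ∃ P ∈ O.subs, ∃ b, Q = lab b (htop l P) := by
  induction O with
  | var x =>
    intro Q hQ
    cases x with
    | inl x =>
      simp only [hv, lv, List.mem_singleton] at hQ
      exact Or.inl ⟨_, hQ⟩
    | inr b =>
      simp only [hv, lv, List.mem_singleton] at hQ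
      exact Or.inl ⟨_, hQ⟩
  | neg f ih =>
    intro Q hQ
    rcases ih Q hQ with h | ⟨P, hP, b, h⟩
    · exact Or.inl h
    · exact Or.inr ⟨P, List.mem_cons_of_mem _ hP, b, h⟩
  | and f g ihf ihg =>
    intro Q hQ
    have hf : ∀ P ∈ f.subs, P ∈ (Fm.and f g).subs := fun P hP =>
      List.mem_cons_of_mem _ (List.mem_append_left _ hP)
    have hg : ∀ P ∈ g.subs, P ∈ (Fm.and f g).subs := fun P hP =>
      List.mem_cons_of_mem _ (List.mem_append_right _ hP)
    have key : (Q ∈ lv (hv l f) ∨ Q ∈ lv (hv l g) ∨ (∃ b, Q = lab b (htop l f)) ∨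
        ∃ b, Q = lab b (htop l g)) := by
      by_cases hc : cut l (htop l f) (htop l g) = true
      · simp only [hv, if_pos hc, lv, List.mem_append] at hQ
        rcases hQ with hQ | hQ
        · rcases mem_lv_mkv hQ with h | h
          · exact Or.inr (Or.inr (Or.inl h))
          · exact Or.inl h
        · rcases mem_lv_mkv hQ with h | h
          · exact Or.inr (Or.inr (Or.inr h))
          · exact Or.inr (Or.inl h)
      · simp only [hv, if_neg hc] at hQ
        by_cases hh : hasHole (htop l f) = true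
        · rw [if_pos hh] at hQ
          exact Or.inl hQ
        · rw [if_neg hh] at hQ
          exact Or.inr (Or.inl hQ)
    rcases key with h | h | ⟨b, h⟩ | ⟨b, h⟩
    · rcases ihf Q h with h | ⟨P, hP, b, h⟩
      · exact Or.inl h
      · exact Or.inr ⟨P, hf P hP, b, h⟩
    · rcases ihg Q h with h | ⟨P, hP, b, h⟩
      · exact Or.inl h
      · exact Or.inr ⟨P, hg P hP, b, h⟩
    · exact Or.inr ⟨f, hf f f.self_mem_subs, b, h⟩
    · exact Or.inr ⟨g, hg g g.self_mem_subs, b, h⟩
  | or f g ihf ihg =>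
    intro Q hQ
    have hf : ∀ P ∈ f.subs, P ∈ (Fm.or f g).subs := fun P hP =>
      List.mem_cons_of_mem _ (List.mem_append_left _ hP)
    have hg : ∀ P ∈ g.subs, P ∈ (Fm.or f g).subs := fun P hP =>
      List.mem_cons_of_mem _ (List.mem_append_right _ hP)
    have key : (Q ∈ lv (hv l f) ∨ Q ∈ lv (hv l g) ∨ (∃ b, Q = lab b (htop l f)) ∨
        ∃ b, Q = lab b (htop l g)) := by
      by_cases hc : cut l (htop l f) (htop l g) = true
      · simp only [hv, if_pos hc, lv, List.mem_append] at hQ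
        rcases hQ with hQ | hQ
        · rcases mem_lv_mkv hQ with h | h
          · exact Or.inr (Or.inr (Or.inl h))
          · exact Or.inl h
        · rcases mem_lv_mkv hQ with h | h
          · exact Or.inr (Or.inr (Or.inr h))
          · exact Or.inr (Or.inl h)
      · simp only [hv, if_neg hc] at hQ
        by_cases hh : hasHole (htop l f) = true
        · rw [if_pos hh] at hQ
          exact Or.inl hQ
        · rw [if_neg hh] at hQ
          exact Or.inr (Or.inl hQ)
    rcases key with h | h | ⟨b, h⟩ | ⟨b, h⟩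
    · rcases ihf Q h with h | ⟨P, hP, b, h⟩
      · exact Or.inl h
      · exact Or.inr ⟨P, hf P hP, b, h⟩
    · rcases ihg Q h with h | ⟨P, hP, b, h⟩
      · exact Or.inl h
      · exact Or.inr ⟨P, hg P hP, b, h⟩
    · exact Or.inr ⟨f, hf f f.self_mem_subs, b, h⟩
    · exact Or.inr ⟨g, hg g g.self_mem_subs, b, h⟩

/-- the leaves of `fv l O` are of the form `lab b (htop l P)` with `P` a subformula of `O`, or
constants -/
theorem lv_fv (l : ℕ) (O : Ob X) : ∀ Q ∈ lv (fv l O),
    (∃ b, Q = .var (.inr b)) ∨ ∃ P ∈ O.subs, ∃ b, Q = lab b (htop l P) := by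
  intro Q hQ
  rcases mem_lv_mkv hQ with ⟨b, h⟩ | h
  · exact Or.inr ⟨O, O.self_mem_subs, b, h⟩
  · exact lv_hv l O Q h

private theorem lab_of_not_hole {t : Fm (Option X)} (h : hasHole t = false) (b b' : Bool) :
    lab b t = lab b' t := by
  unfold lab
  induction t with
  | var x =>
    cases x with
    | none => simp [hasHole] at h
    | some x => rfl
  | neg f ih =>
    simp only [Fm.map]
    rw [ih h]
  | and f g ihf ihg =>
    simp only [hasHole, Bool.or_eq_false_iff] at h
    simp only [Fm.map]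
    rw [ihf h.1, ihg h.2]
  | or f g ihf ihg =>
    simp only [hasHole, Bool.or_eq_false_iff] at h
    simp only [Fm.map]
    rw [ihf h.1, ihg h.2]

/-- both labelled tops are leaves -/
theorem lab_mem_lv (l : ℕ) (O : Ob X) (b : Bool) : lab b (htop l O) ∈ lv (fv l O) := by
  unfold fv mkv
  by_cases h1 : hasHole (htop l O) = true
  · rw [if_pos h1]
    by_cases h2 : pol (htop l O) = true
    · rw [if_pos h2]
      cases b <;> simp [lv]
    · rw [if_neg h2]
      cases b <;> simp [lv]
  · rw [if_neg h1]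
    simp only [lv, List.mem_singleton]
    exact lab_of_not_hole (by simpa using h1) b false

private theorem vl_map_some' (f : Fm X) : vl (f.map some) = f.leaves := by
  induction f with
  | var x => rfl
  | neg f ih => simpa [Fm.map, vl, Fm.leaves] using ih
  | and f g ihf ihg => simp only [Fm.map, vl, Fm.leaves, ihf, ihg]
  | or f g ihf ihg => simp only [Fm.map, vl, Fm.leaves, ihf, ihg]

private theorem hasHole_map_some' (f : Fm X) : hasHole (f.map some) = false := by
  induction f with
  | var x => rfl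
  | neg f ih => simpa [Fm.map, hasHole] using ih
  | and f g ihf ihg => simp only [Fm.map, hasHole, ihf, ihg, Bool.or_false]
  | or f g ihf ihg => simp only [Fm.map, hasHole, ihf, ihg, Bool.or_false]

private theorem htop_small (l : ℕ) (f : Fm X) (hf : f.leaves < l) :
    htop l (f.map Sum.inl) = f.map some := by
  induction f with
  | var x => rfl
  | neg f ih =>
    simp only [Fm.map, htop]
    rw [ih hf]
  | and f g ihf ihg =>
    simp only [Fm.leaves] at hf
    have h1 := ihf (by omega)
    have h3 := ihg (by omega)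
    have hc : ¬ cut l (htop l (f.map Sum.inl)) (htop l (g.map Sum.inl)) = true := by
      rw [h1, h3]
      simp only [cut, hasHole_map_some', vl_map_some', Bool.and_false, Bool.false_or,
        decide_eq_true_eq]
      omega
    simp only [Fm.map, htop, if_neg hc]
    rw [h1, h3]
  | or f g ihf ihg =>
    simp only [Fm.leaves] at hf
    have h1 := ihf (by omega)
    have h3 := ihg (by omega)
    have hc : ¬ cut l (htop l (f.map Sum.inl)) (htop l (g.map Sum.inl)) = true := by
      rw [h1, h3]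
      simp only [cut, hasHole_map_some', vl_map_some', Bool.and_false, Bool.false_or,
        decide_eq_true_eq]
      omega
    simp only [Fm.map, htop, if_neg hc]
    rw [h1, h3]

private theorem lab_map_some (b : Bool) (f : Fm X) : lab b (f.map some) = f.map Sum.inl := by
  unfold lab
  induction f with
  | var x => rfl
  | neg f ih => simp only [Fm.map, ih]
  | and f g ihf ihg => simp only [Fm.map, ihf, ihg]
  | or f g ihf ihg => simp only [Fm.map, ihf, ihg]

/-- a formula with few variables and no constants is not cut -/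
theorem fv_small (l : ℕ) (f : Fm X) (hf : f.leaves < l) (O : Ob X) (hO : O = f.map Sum.inl) :
    fv l O = .var O := by
  subst hO
  unfold fv mkv
  rw [htop_small l f hf, hasHole_map_some', if_neg Bool.false_ne_true, lab_map_some]

end FrS
end

section

/-!
Transfer from a fine to a coarse level.
-/

set_option linter.unusedSectionVars false

namespace FrS

open Finset Fr56
open scoped Classical

variable {D : ℕ}

/-- **transfer**: up to three coarse trees and the formulas they simulate -/
theorem transfer (ρ : Rst D) {N m k : ℕ} (hgood : ρ.Good N) (L : List (TF D × DT (E D) Bool))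
    (hL : L.length ≤ 3) (hok : ∀ p ∈ L, p.1.Ok m k ∧ p.2.depth ≤ k ∧ Sim ρ p.1 p.2)
    (hn : 9 * (m * k) + 6 * k + 6 < ρ.n) {t : V D} (ht : t ∈ box D ρ.n) {y : Ch D}
    (hy : Yt ρ.n t y) (hfar : ∀ p ∈ L, Far (p.2.reads y) (t 0)) :
    ∃ t' ∈ box D N, ∃ x', Yt N t' x' ∧ ∀ p ∈ L, p.2.val y = p.1.ev x' ∧
      ∀ A ∈ lv p.1, Far (A.reads x') (t' 0) := by
  set J : DT (E D) (List (List Bool)) := DT.seq (L.map fun p => p.1.joint) with hJ
  have hJd : J.depth ≤ 3 * (m * k) := by
    refine (DT.depth_seq (k := m * k) _ ?_).trans ?_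
    · intro A hA
      obtain ⟨p, hp, rfl⟩ := List.mem_map.1 hA
      exact depth_joint (hok p hp).1
    · rw [List.length_map]
      exact Nat.mul_le_mul_right _ hL
  have hJr : ∀ p ∈ L, ∀ x, ∀ z ∈ p.1.rd x, z ∈ J.reads x := by
    intro p hp x z hz
    rw [hJ, DT.reads_seq, List.mem_flatMap]
    exact ⟨p.1.joint, List.mem_map_of_mem hp, by rw [reads_joint]; exact hz⟩
  set R : List (E D) := L.flatMap fun p => p.2.reads y with hR
  have hRlen : R.length ≤ 3 * k := by
    rw [hR, List.length_flatMap]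
    have h1 : ∀ M : List (TF D × DT (E D) Bool), (∀ p ∈ M, p.2.depth ≤ k) →
        (M.map fun p => (p.2.reads y).length).sum ≤ M.length * k := by
      intro M
      induction M with
      | nil => intro _; simp
      | cons p M ih =>
        intro h
        have h2 := ih fun q hq => h q (by simp [hq])
        have h3 := (p.2.length_reads y).trans (h p (by simp))
        simp only [List.map_cons, List.sum_cons, List.length_cons, add_mul, one_mul]
        omega
    exact (h1 L fun p hp => (hok p hp).2.1).trans (Nat.mul_le_mul_right _ hL)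
  set U : Finset (V D) := (R.flatMap fun e => [e.1, e.1 + ev e.2]).toFinset with hU
  have hUcard : U.card ≤ 6 * k := by
    rw [hU]
    refine (List.toFinset_card_le _).trans ?_
    rw [List.length_flatMap]
    have : (R.map fun e : E D => ([e.1, e.1 + ev e.2] : List (V D)).length) =
        R.map fun _ => 2 := by
      apply List.map_congr_left
      intro e _
      rfl
    rw [this]
    simp only [List.map_const', List.sum_replicate, smul_eq_mul]
    omega
  have hUmem : ∀ p ∈ L, ∀ e ∈ p.2.reads y, e.1 ∈ U ∧ e.1 + ev e.2 ∈ U := by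
    intro p hp e he
    have h1 : e ∈ R := by
      rw [hR, List.mem_flatMap]
      exact ⟨p, hp, he⟩
    constructor
    · rw [hU, List.mem_toFinset, List.mem_flatMap]
      exact ⟨e, h1, by simp⟩
    · rw [hU, List.mem_toFinset, List.mem_flatMap]
      exact ⟨e, h1, by simp⟩
  have hOff : Off U (t 0) := by
    intro w hw
    rw [hU, List.mem_toFinset, List.mem_flatMap] at hw
    obtain ⟨e, he, hw⟩ := hw
    rw [hR, List.mem_flatMap] at he
    obtain ⟨p, hp, he⟩ := he
    obtain ⟨h1, h2⟩ := hfar p hp e he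
    simp only [List.mem_cons, List.not_mem_nil, or_false] at hw
    rcases hw with rfl | rfl
    · exact h1
    · exact h2
  obtain ⟨t1, ht1, y1, hy1, hag, hoff1, hcl⟩ := clean_tree ρ U J (M := 3 * (m * k)) hJd
    (by omega) ht hOff hy
  refine ⟨ρ.cen t1, ρ.cen_mem hgood.2.2 ht1, ρ.x y1, ρ.Yt_x hgood ht1 hy1, fun p hp => ?_⟩
  obtain ⟨hc1, hc2⟩ := p.2.congr (x := y) (x' := y1) fun e he =>
    hag e (Or.inl (cl_of_mem (hUmem p hp e he).1))
  have hnt : ¬ Tl ρ.T (p.1.rd (ρ.x y1)) (t1 0) := by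
    rintro ⟨z, hz, hz'⟩
    exact hcl ⟨z, hJr p hp _ z hz, hz'⟩
  constructor
  · rw [← hc2]
    refine (hok p hp).2.2 t1 ht1 y1 hy1 ?_ hnt
    rw [hc1]
    intro e he
    exact ⟨hoff1 _ (hUmem p hp e he).1, hoff1 _ (hUmem p hp e he).2⟩
  · intro A hA z hz
    have hzr : z ∈ p.1.rd (ρ.x y1) := by
      rw [TF.rd, List.mem_flatMap]
      exact ⟨A, hA, hz⟩
    constructor
    · intro h
      exact hnt ⟨z, hzr, ρ.tch_cen (Or.inl h)⟩
    · intro h
      exact hnt ⟨z, hzr, ρ.tch_cen (Or.inr h)⟩

end FrS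
end

section

/-!
Renaming of variables.
-/

set_option linter.unusedSectionVars false

namespace FrS

open Fr56

theorem fm_map_map {U V W : Type} (g : V → W) (f : U → V) (F : Fm U) :
    (F.map f).map g = F.map (g ∘ f) := by
  induction F with
  | var v => rfl
  | neg f ih => simp [Fm.map, ih]
  | and f g ihf ihg => simp [Fm.map, ihf, ihg]
  | or f g ihf ihg => simp [Fm.map, ihf, ihg]

theorem fm_map_id {V : Type} (g : V → V) (hg : ∀ v, g v = v) (F : Fm V) : F.map g = F := by
  induction F with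
  | var v => simp [Fm.map, hg]
  | neg f ih => simp [Fm.map, ih]
  | and f g ihf ihg => simp [Fm.map, ihf, ihg]
  | or f g ihf ihg => simp [Fm.map, ihf, ihg]

theorem fm_map_subst {U V W : Type} (g : V → W) (σ : U → Fm V) (F : Fm U) :
    (F.subst σ).map g = F.subst (fun v => (σ v).map g) := by
  induction F with
  | var v => rfl
  | neg f ih => simp [Fm.map, Fm.subst, ih]
  | and f g ihf ihg => simp [Fm.map, Fm.subst, ihf, ihg]
  | or f g ihf ihg => simp [Fm.map, Fm.subst, ihf, ihg]

theorem isClause_map {V W : Type} (g : V → W) {k : ℕ} {F : Fm V} (h : F.IsClause k) :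
    (F.map g).IsClause k := by
  induction h with
  | pos v => exact .pos _
  | neg v => exact .neg _
  | or hf hg ihf ihg => exact .or ihf ihg

theorem isCNF_map {V W : Type} (g : V → W) {k : ℕ} {F : Fm V} (h : F.IsCNF k) :
    (F.map g).IsCNF k := by
  induction h with
  | clause hm hf => exact .clause hm (isClause_map g hf)
  | and hf hg ihf ihg => exact .and ihf ihg

/-- derivations are preserved under renaming of variables -/
theorem isDerivation_map {V W : Type} (g : V → W) {R : List Rule} {F : Fm V} {π : List (Fm V)}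
    (h : IsDerivation R F π) : IsDerivation R (F.map g) (π.map (Fm.map g)) := by
  intro i hi
  have hi' : i < π.length := by simpa using hi
  rw [List.getElem_map]
  rcases h i hi' with h1 | ⟨r, hr, σ, h1, h2⟩
  · left; rw [h1]
  · right
    refine ⟨r, hr, fun v => (σ v).map g, by rw [h1, fm_map_subst], fun A hA => ?_⟩
    obtain ⟨j, hj, h3⟩ := h2 A hA
    refine ⟨j, hj, ?_⟩
    rw [List.getElem_map, h3, fm_map_subst]

end FrS
end
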