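import Mathlib
import Pool.Agent.Lib.MP_51bb46_lc.S.Reloc
import Pool.Agent.Lib.MP_51bb46_lc.S.TF

section

section

/-!
The polynomial lemma for block sensitivity.
-/

set_option linter.unusedSectionVars false

namespace FrS

open Finset Polynomial

private lemma bsp_low (m : ℕ) : ∀ t : ℕ,
    (∏ i ∈ range m, ((i : ℝ) + 1) ^ 2 / (((m : ℝ) + 1 + t) ^ 2 - ((i : ℝ) + 1) ^ 2)) *
      (((m + t).factorial : ℝ) * (2 * m + 1 + t).factorial) =
      (m.factorial : ℝ) ^ 2 * t.factorial * (m + 1 + t).factorial := by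
  induction m with
  | zero =>
    intro t
    simp
  | succ m ih =>
    intro t
    have h := ih (t + 1)
    rw [prod_range_succ]
    have e1 : ∀ i : ℕ, ((i : ℝ) + 1) ^ 2 / ((((m + 1 : ℕ) : ℝ) + 1 + t) ^ 2 - ((i : ℝ) + 1) ^ 2) =
        ((i : ℝ) + 1) ^ 2 / (((m : ℝ) + 1 + (t + 1 : ℕ)) ^ 2 - ((i : ℝ) + 1) ^ 2) := by
      intro i
      push_cast
      ring_nf
    simp_rw [e1]
    have e2 : m + 1 + t = m + (t + 1) := by ring
    have e3 : (2 * (m + 1) + 1 + t).factorial = (2 * m + 3 + t) * (2 * m + 1 + (t + 1)).factorial := by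
      rw [show 2 * (m + 1) + 1 + t = (2 * m + 1 + (t + 1)) + 1 by ring, Nat.factorial_succ]
      ring_nf
    have e4 : m + 1 + 1 + t = m + 1 + (t + 1) := by ring
    rw [e2, e3, e4, Nat.factorial_succ m]
    rw [Nat.factorial_succ t] at h
    have e5 : (((m : ℝ) + 1 + (t + 1 : ℕ)) ^ 2 - ((m : ℝ) + 1) ^ 2) =
        (t + 1) * (2 * m + 3 + t) := by
      push_cast; ring
    rw [e5]
    have p1 : ((t : ℝ) + 1) ≠ 0 := by positivity
    have p2 : (2 * (m : ℝ) + 3 + t) ≠ 0 := by positivity
    push_cast at h ⊢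
    set P := ∏ x ∈ range m, ((x : ℝ) + 1) ^ 2 / (((m : ℝ) + 1 + (t + 1)) ^ 2 - ((x : ℝ) + 1) ^ 2)
      with hP
    have e6 : P * (((m : ℝ) + 1) ^ 2 / ((t + 1) * (2 * m + 3 + t))) *
        (((m + (t + 1)).factorial : ℝ) * ((2 * m + 3 + t) * (2 * m + 1 + (t + 1)).factorial)) =
        (P * (((m + (t + 1)).factorial : ℝ) * (2 * m + 1 + (t + 1)).factorial)) *
          (((m : ℝ) + 1) ^ 2 / (t + 1)) := by
      field_simp
    rw [e6, h]
    field_simp

private lemma bsp_high (j n : ℕ) :
    (∏ i ∈ range n, ((j : ℝ) + 1 + i) ^ 2 / (((j : ℝ) + 1 + i) ^ 2 - (j : ℝ) ^ 2)) *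
      ((n.factorial : ℝ) * (2 * j + n).factorial * (j.factorial : ℝ) ^ 2) =
      ((j + n).factorial : ℝ) ^ 2 * (2 * j).factorial := by
  induction n with
  | zero => simp; ring
  | succ n ih =>
    rw [prod_range_succ]
    have e1 : (((j : ℝ) + 1 + n) ^ 2 - (j : ℝ) ^ 2) = (n + 1) * (2 * j + n + 1) := by ring
    rw [e1, Nat.factorial_succ n, ← add_assoc, Nat.factorial_succ (2 * j + n), ← add_assoc,
      Nat.factorial_succ (j + n)]
    have p1 : ((n : ℝ) + 1) ≠ 0 := by positivity
    have p2 : (2 * (j : ℝ) + n + 1) ≠ 0 := by positivity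
    push_cast
    set P := ∏ i ∈ range n, ((j : ℝ) + 1 + i) ^ 2 / (((j : ℝ) + 1 + i) ^ 2 - (j : ℝ) ^ 2) with hP
    have e6 : P * (((j : ℝ) + 1 + n) ^ 2 / ((n + 1) * (2 * j + n + 1))) *
        ((((n : ℝ) + 1) * n.factorial) * ((2 * j + n + 1) * (2 * j + n).factorial) *
          (j.factorial : ℝ) ^ 2) =
        (P * ((n.factorial : ℝ) * (2 * j + n).factorial * (j.factorial : ℝ) ^ 2)) *
          ((j : ℝ) + 1 + n) ^ 2 := by
      field_simp
    rw [e6, ih]
    ring

private lemma bsp_fac (n j : ℕ) : (j + n).factorial ^ 2 ≤ n.factorial * (2 * j + n).factorial := by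
  induction j with
  | zero => simp [sq]
  | succ j ih =>
    have e1 : (j + 1 + n).factorial = (j + n + 1) * (j + n).factorial := by
      rw [show j + 1 + n = (j + n) + 1 by ring, Nat.factorial_succ]
    have e2 : (2 * (j + 1) + n).factorial =
        (2 * j + n + 2) * ((2 * j + n + 1) * (2 * j + n).factorial) := by
      rw [show 2 * (j + 1) + n = (2 * j + n + 1) + 1 by ring, Nat.factorial_succ,
        Nat.factorial_succ]
    rw [e1, e2, mul_pow]
    have h1 : (j + n + 1) ^ 2 ≤ (2 * j + n + 2) * (2 * j + n + 1) := by nlinarith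
    calc (j + n + 1) ^ 2 * (j + n).factorial ^ 2
        ≤ ((2 * j + n + 2) * (2 * j + n + 1)) * (n.factorial * (2 * j + n).factorial) :=
          Nat.mul_le_mul h1 ih
      _ = _ := by ring

/-- the product of `i ^ 2 / |j ^ 2 - i ^ 2|` over `1 ≤ i ≤ j + n`, `i ≠ j` is at most `2` -/
private lemma bsp_prod (m n : ℕ) :
    (∏ i ∈ range m, ((i : ℝ) + 1) ^ 2 / (((m : ℝ) + 1) ^ 2 - ((i : ℝ) + 1) ^ 2)) *
    (∏ i ∈ range n, ((m : ℝ) + 1 + 1 + i) ^ 2 / (((m : ℝ) + 1 + 1 + i) ^ 2 - ((m : ℝ) + 1) ^ 2))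
      ≤ 2 := by
  have h1 := bsp_low m 0
  have h2 := bsp_high (m + 1) n
  have h3 := bsp_fac n (m + 1)
  simp only [Nat.cast_zero, add_zero, Nat.factorial_zero, Nat.cast_one, mul_one] at h1
  have h3' : ((m + 1 + n).factorial : ℝ) ^ 2 ≤ n.factorial * (2 * (m + 1) + n).factorial := by
    exact_mod_cast h3
  push_cast at h2
  set P := ∏ i ∈ range m, ((i : ℝ) + 1) ^ 2 / (((m : ℝ) + 1) ^ 2 - ((i : ℝ) + 1) ^ 2)
  set Q := ∏ i ∈ range n, ((m : ℝ) + 1 + 1 + i) ^ 2 /
    (((m : ℝ) + 1 + 1 + i) ^ 2 - ((m : ℝ) + 1) ^ 2)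
  have e1 : (2 * (m + 1)).factorial = (2 * m + 2) * (2 * m + 1).factorial := by
    rw [show 2 * (m + 1) = (2 * m + 1) + 1 by ring, Nat.factorial_succ]
  have e2 : (m + 1).factorial = (m + 1) * m.factorial := Nat.factorial_succ m
  rw [e1, e2] at h2
  rw [e2] at h1
  push_cast at h1 h2
  have a0 : (0 : ℝ) < m.factorial := by exact_mod_cast Nat.factorial_pos m
  have a1 : (0 : ℝ) < (2 * m + 1).factorial := by exact_mod_cast Nat.factorial_pos _
  have a2 : (0 : ℝ) < n.factorial := by exact_mod_cast Nat.factorial_pos _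
  have a3 : (0 : ℝ) < (2 * (m + 1) + n).factorial := by exact_mod_cast Nat.factorial_pos _
  have a4 : (0 : ℝ) < (m : ℝ) + 1 := by positivity
  have hP : P = m.factorial * (((m : ℝ) + 1) * m.factorial) / (2 * m + 1).factorial := by
    rw [eq_div_iff a1.ne']
    have : (P * (2 * m + 1).factorial) * m.factorial =
      (m.factorial * (((m : ℝ) + 1) * m.factorial)) * m.factorial := by
      linear_combination h1
    exact mul_right_cancel₀ a0.ne' this
  have hQ : Q = (((m + 1 + n).factorial : ℝ) ^ 2 * ((2 * m + 2) * (2 * m + 1).factorial)) /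
      (n.factorial * (2 * (m + 1) + n).factorial * ((m + 1) * m.factorial) ^ 2) := by
    rw [eq_div_iff (by positivity)]
    linear_combination h2
  have hPQ : P * Q = 2 * ((((m + 1 + n).factorial : ℝ) ^ 2) /
      (n.factorial * (2 * (m + 1) + n).factorial)) := by
    rw [hP, hQ]
    field_simp
  rw [hPQ]
  have : ((((m + 1 + n).factorial : ℝ) ^ 2) /
      (n.factorial * (2 * (m + 1) + n).factorial)) ≤ 1 := by
    rw [div_le_one (by positivity)]
    exact h3'
  linarith

private lemma bsp_sum (n : ℕ) :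
    ∑ j ∈ range n, 2 / (5 * ((j : ℝ) + 1) ^ 2) ≤ 4 / 5 - (if n = 0 then 4 / 5 else 2 / (5 * (n : ℝ))) := by
  induction n with
  | zero => simp
  | succ n ih =>
    rw [sum_range_succ]
    rcases Nat.eq_zero_or_pos n with rfl | hn
    · norm_num
    · rw [if_neg (by omega)] at ih
      rw [if_neg (by omega)]
      have hn' : (1 : ℝ) ≤ n := by exact_mod_cast hn
      have : 2 / (5 * ((n : ℝ) + 1) ^ 2) ≤ 2 / (5 * (n : ℝ)) - 2 / (5 * ((n + 1 : ℕ) : ℝ)) := by
        push_cast
        rw [div_sub_div _ _ (by positivity) (by positivity), div_le_div_iff₀ (by positivity)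
          (by positivity)]
        nlinarith
      linarith

/-- the polynomial lemma: divided differences at the nodes `0, 1, 5 i ^ 2` -/
theorem poly_bs {q r : ℕ} (p : ℝ[X]) (hq : p.degree < q) (h0 : p.eval 0 = 0)
    (h1 : p.eval 1 = 1) (h01 : ∀ j : ℕ, j ≤ r → 0 ≤ p.eval (j : ℝ) ∧ p.eval (j : ℝ) ≤ 1) :
    r ≤ 5 * q ^ 2 := by
  by_contra hr
  push Not at hr
  -- interpolation at the nodes `5 i ^ 2`, `i < q`
  set v : ℕ → ℝ := fun i => 5 * (i : ℝ) ^ 2 with hv
  have hinj : Set.InjOn v (range q) := by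
    intro a _ b _ hab
    simp only [hv] at hab
    have h2 : (a : ℝ) ^ 2 = (b : ℝ) ^ 2 := by linarith
    have h3 : (a : ℝ) = b := by
      rwa [sq_eq_sq₀ (by positivity) (by positivity)] at h2
    exact_mod_cast h3
  have hint := Lagrange.eq_interpolate (s := range q) (v := v) (f := p) hinj
    (by rw [card_range]; exact hq)
  have h2 : (1 : ℝ) = ∑ i ∈ range q, p.eval (v i) * (Lagrange.basis (range q) v i).eval 1 := by
    rw [← h1]
    conv_lhs => rw [hint]
    rw [Lagrange.interpolate_apply, eval_finsetSum]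
    apply sum_congr rfl
    intro i _
    rw [eval_mul, eval_C, h1]
  rcases q with _ | q
  · simp at h2
  rw [sum_range_succ'] at h2
  have h3 : p.eval (v 0) = 0 := by simp [hv, h0]
  rw [h3, zero_mul, add_zero] at h2
  -- bound of the coefficients
  have key : ∀ j ∈ range q, |(Lagrange.basis (range (q + 1)) v (j + 1)).eval 1| ≤
      2 / (5 * ((j : ℝ) + 1) ^ 2) := by
    intro j hj
    rw [mem_range] at hj
    rw [Lagrange.basis, eval_prod, abs_prod]
    obtain ⟨n, rfl⟩ : ∃ n, q = j + 1 + n := ⟨q - (j + 1), by omega⟩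
    have hset : (range (j + 1 + n + 1)).erase (j + 1) = range (j + 1) ∪ Ico (j + 2) (j + 2 + n) := by
      ext i
      simp only [mem_erase, mem_range, mem_union, mem_Ico]
      omega
    have hdisj : Disjoint (range (j + 1)) (Ico (j + 2) (j + 2 + n)) := by
      rw [Finset.disjoint_left]
      intro i hi
      simp only [mem_range] at hi
      simp only [mem_Ico]
      omega
    rw [hset, prod_union hdisj, prod_range_succ', prod_Ico_eq_prod_range]
    rw [show j + 2 + n - (j + 2) = n by omega]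
    have hj1 : (0 : ℝ) < (j : ℝ) + 1 := by positivity
    have ev : ∀ i : ℕ, |(Lagrange.basisDivisor (v (j + 1)) (v i)).eval 1| =
        |1 - 5 * (i : ℝ) ^ 2| / (5 * |((j : ℝ) + 1) ^ 2 - (i : ℝ) ^ 2|) := by
      intro i
      simp only [Lagrange.basisDivisor, eval_mul, eval_C, eval_sub, eval_X, hv, abs_mul, abs_inv]
      push_cast
      rw [← mul_sub, abs_mul, abs_of_pos (show (0 : ℝ) < 5 by norm_num)]
      rw [div_eq_mul_inv, mul_comm]
    simp_rw [ev]
    have z0 : |1 - 5 * ((0 : ℕ) : ℝ) ^ 2| / (5 * |((j : ℝ) + 1) ^ 2 - ((0 : ℕ) : ℝ) ^ 2|) =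
        1 / (5 * ((j : ℝ) + 1) ^ 2) := by
      simp
    rw [z0]
    have b1 : ∏ i ∈ range j, |1 - 5 * ((i + 1 : ℕ) : ℝ) ^ 2| /
        (5 * |((j : ℝ) + 1) ^ 2 - ((i + 1 : ℕ) : ℝ) ^ 2|) ≤
        ∏ i ∈ range j, ((i : ℝ) + 1) ^ 2 / (((j : ℝ) + 1) ^ 2 - ((i : ℝ) + 1) ^ 2) := by
      apply prod_le_prod
      · intro i _; positivity
      · intro i hi
        rw [mem_range] at hi
        have hi' : (i : ℝ) + 1 ≤ j := by exact_mod_cast hi
        have hi0 : (0 : ℝ) ≤ i := by positivity
        have hpos : 0 < ((j : ℝ) + 1) ^ 2 - ((i : ℝ) + 1) ^ 2 := by nlinarith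
        push_cast
        rw [abs_of_pos hpos, abs_of_nonpos (by nlinarith)]
        rw [div_le_div_iff₀ (by positivity) hpos]
        nlinarith
    have b2 : ∏ i ∈ range n, |1 - 5 * ((j + 2 + i : ℕ) : ℝ) ^ 2| /
        (5 * |((j : ℝ) + 1) ^ 2 - ((j + 2 + i : ℕ) : ℝ) ^ 2|) ≤
        ∏ i ∈ range n, ((j : ℝ) + 1 + 1 + i) ^ 2 /
          (((j : ℝ) + 1 + 1 + i) ^ 2 - ((j : ℝ) + 1) ^ 2) := by
      apply prod_le_prod
      · intro i _; positivity
      · intro i _
        have hi0 : (0 : ℝ) ≤ i := by positivity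
        have hj0 : (0 : ℝ) ≤ j := by positivity
        have hpos : 0 < ((j : ℝ) + 1 + 1 + i) ^ 2 - ((j : ℝ) + 1) ^ 2 := by nlinarith
        push_cast
        have ea : |((j : ℝ) + 1) ^ 2 - (j + 2 + i : ℝ) ^ 2| =
            ((j : ℝ) + 1 + 1 + i) ^ 2 - ((j : ℝ) + 1) ^ 2 := by
          rw [abs_of_nonpos (by nlinarith)]
          ring
        rw [ea, abs_of_nonpos (by nlinarith)]
        rw [div_le_div_iff₀ (by positivity) hpos]
        nlinarith
    have hprod := bsp_prod j n
    have n1 : 0 ≤ ∏ i ∈ range j, |1 - 5 * ((i + 1 : ℕ) : ℝ) ^ 2| /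
        (5 * |((j : ℝ) + 1) ^ 2 - ((i + 1 : ℕ) : ℝ) ^ 2|) :=
      prod_nonneg (fun i _ => by positivity)
    have n2 : 0 ≤ ∏ i ∈ range n, |1 - 5 * ((j + 2 + i : ℕ) : ℝ) ^ 2| /
        (5 * |((j : ℝ) + 1) ^ 2 - ((j + 2 + i : ℕ) : ℝ) ^ 2|) :=
      prod_nonneg (fun i _ => by positivity)
    have b3 := mul_le_mul b1 b2 n2 (n1.trans b1)
    have c0 : 0 ≤ 1 / (5 * ((j : ℝ) + 1) ^ 2) := by positivity
    calc _ = (∏ i ∈ range j, |1 - 5 * ((i + 1 : ℕ) : ℝ) ^ 2| /
        (5 * |((j : ℝ) + 1) ^ 2 - ((i + 1 : ℕ) : ℝ) ^ 2|)) *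
        (∏ i ∈ range n, |1 - 5 * ((j + 2 + i : ℕ) : ℝ) ^ 2| /
        (5 * |((j : ℝ) + 1) ^ 2 - ((j + 2 + i : ℕ) : ℝ) ^ 2|)) * (1 / (5 * ((j : ℝ) + 1) ^ 2)) := by
          ring
      _ ≤ 2 * (1 / (5 * ((j : ℝ) + 1) ^ 2)) :=
          mul_le_mul_of_nonneg_right (b3.trans hprod) c0
      _ = _ := by ring
  have hle : (1 : ℝ) ≤ ∑ j ∈ range q, 2 / (5 * ((j : ℝ) + 1) ^ 2) := by
    refine le_trans (le_of_eq h2) (sum_le_sum ?_)
    intro j hj
    have hjr : 5 * (j + 1) ^ 2 ≤ r := by
      rw [mem_range] at hj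
      nlinarith
    have h5 := h01 (5 * (j + 1) ^ 2) hjr
    have h6 : v (j + 1) = ((5 * (j + 1) ^ 2 : ℕ) : ℝ) := by simp [hv]
    rw [h6]
    have h7 := key j hj
    rw [← h6] at h5 ⊢
    have h8 := le_abs_self ((Lagrange.basis (range (q + 1)) v (j + 1)).eval 1)
    have h9 := abs_nonneg ((Lagrange.basis (range (q + 1)) v (j + 1)).eval 1)
    nlinarith [h5.1, h5.2]
  have hs := bsp_sum q
  split_ifs at hs with h
  · linarith
  · have : 0 < 2 / (5 * (q : ℝ)) := by
      have : 0 < q := Nat.pos_of_ne_zero h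
      positivity
    linarith

end FrS
end

section

/-!
Boolean functions of degree less than `q` on the cube have block sensitivity at most `5 q ^ 2`.
-/

set_option linter.unusedSectionVars false

namespace FrS

open Finset Polynomial

section Symm

open scoped Classical

/-! ### symmetrization -/

variable {ι : Type}

theorem bs_alt_powerset (S : Finset ι) :
    ∑ V ∈ S.powerset, (-1 : ℝ) ^ V.card = if S = ∅ then 1 else 0 := by
  have h := Finset.sum_powerset_neg_one_pow_card (x := S)
  have h2 : ((∑ V ∈ S.powerset, (-1 : ℤ) ^ V.card : ℤ) : ℝ) =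
      ((if S = ∅ then 1 else 0 : ℤ) : ℝ) := by rw [h]
  push_cast at h2
  exact h2

/-- Möbius inversion on the subsets of a finite set -/
theorem bs_moebius (g : Finset ι → ℝ) (S : Finset ι) :
    g S = ∑ T ∈ S.powerset, (-1 : ℝ) ^ T.card * ∑ U ∈ T.powerset, (-1 : ℝ) ^ U.card * g U := by
  have h1 : ∑ T ∈ S.powerset, (-1 : ℝ) ^ T.card * ∑ U ∈ T.powerset, (-1 : ℝ) ^ U.card * g U =
      ∑ U ∈ S.powerset, (-1 : ℝ) ^ U.card * g U *
        ∑ T ∈ S.powerset.filter (fun T => U ⊆ T), (-1 : ℝ) ^ T.card := by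
    simp only [Finset.mul_sum, Finset.sum_filter]
    rw [Finset.sum_comm' (t' := S.powerset) (s' := fun U => S.powerset.filter (fun T => U ⊆ T))]
    · apply Finset.sum_congr rfl
      intro U _
      rw [Finset.sum_filter]
      apply Finset.sum_congr rfl
      intro T _
      split_ifs <;> ring
    · intro T U
      simp only [Finset.mem_powerset, Finset.mem_filter]
      constructor
      · rintro ⟨h1, h2⟩
        exact ⟨⟨h1, h2⟩, h2.trans h1⟩
      · rintro ⟨⟨h1, h2⟩, _⟩
        exact ⟨h1, h2⟩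
  have h2 : ∀ U ∈ S.powerset, ∑ T ∈ S.powerset.filter (fun T => U ⊆ T), (-1 : ℝ) ^ T.card =
      (-1 : ℝ) ^ U.card * if S \ U = ∅ then 1 else 0 := by
    intro U hU
    rw [Finset.mem_powerset] at hU
    rw [← bs_alt_powerset, Finset.mul_sum]
    have h3 : S.powerset.filter (fun T => U ⊆ T) = (S \ U).powerset.image (fun V => U ∪ V) := by
      ext T
      simp only [Finset.mem_filter, Finset.mem_powerset, Finset.mem_image]
      constructor
      · rintro ⟨h4, h5⟩
        exact ⟨T \ U, Finset.sdiff_subset_sdiff h4 (Finset.Subset.refl U),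
          Finset.union_sdiff_of_subset h5⟩
      · rintro ⟨V, hV, rfl⟩
        exact ⟨Finset.union_subset hU (hV.trans Finset.sdiff_subset), Finset.subset_union_left⟩
    rw [h3, Finset.sum_image]
    · apply Finset.sum_congr rfl
      intro V hV
      rw [Finset.mem_powerset] at hV
      rw [Finset.card_union_of_disjoint, pow_add]
      rw [Finset.disjoint_left]
      intro x hx hx'
      exact (Finset.mem_sdiff.1 (hV hx')).2 hx
    · intro V hV W hW h
      rw [Finset.mem_coe, Finset.mem_powerset] at hV hW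
      dsimp only at h
      have hVd : (U ∪ V) \ U = V := by
        rw [Finset.union_sdiff_left]
        exact Finset.sdiff_eq_self_of_disjoint (Finset.disjoint_left.2 fun x hx hx' =>
          (Finset.mem_sdiff.1 (hV hx)).2 hx')
      have hWd : (U ∪ W) \ U = W := by
        rw [Finset.union_sdiff_left]
        exact Finset.sdiff_eq_self_of_disjoint (Finset.disjoint_left.2 fun x hx hx' =>
          (Finset.mem_sdiff.1 (hW hx)).2 hx')
      rw [← hVd, h, hWd]
  rw [h1, Finset.sum_congr rfl fun U hU => by rw [h2 U hU],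
    Finset.sum_eq_single_of_mem S (Finset.mem_powerset_self S)]
  · rw [Finset.sdiff_self]
    simp only [if_true, mul_one]
    have : (-1 : ℝ) ^ S.card * (-1 : ℝ) ^ S.card = 1 := by
      rw [← mul_pow]
      norm_num
    calc g S = ((-1 : ℝ) ^ S.card * (-1 : ℝ) ^ S.card) * g S := by rw [this, one_mul]
      _ = _ := by ring
  · intro U hU hne
    rw [Finset.mem_powerset] at hU
    rw [if_neg, mul_zero, mul_zero]
    intro h
    rw [Finset.sdiff_eq_empty_iff_subset] at h
    exact hne (Finset.Subset.antisymm hU h)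

variable [Fintype ι]

/-- number of `j`-subsets containing a given set -/
theorem bs_card_super (T : Finset ι) (j : ℕ) (hj : T.card ≤ j) :
    (((univ : Finset ι).powersetCard j).filter (fun S => T ⊆ S)).card =
      (Fintype.card ι - T.card).choose (j - T.card) := by
  have h3 : ((univ : Finset ι).powersetCard j).filter (fun S => T ⊆ S) =
      ((univ \ T).powersetCard (j - T.card)).image (fun V => T ∪ V) := by
    ext S
    simp only [Finset.mem_filter, Finset.mem_powersetCard, Finset.mem_image]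
    constructor
    · rintro ⟨⟨_, h4⟩, h5⟩
      refine ⟨S \ T, ⟨Finset.sdiff_subset_sdiff (Finset.subset_univ S) (Finset.Subset.refl T), ?_⟩,
        Finset.union_sdiff_of_subset h5⟩
      rw [Finset.card_sdiff_of_subset h5, h4]
    · rintro ⟨V, ⟨hV, hVc⟩, rfl⟩
      refine ⟨⟨Finset.subset_univ _, ?_⟩, Finset.subset_union_left⟩
      rw [Finset.card_union_of_disjoint, hVc]
      · omega
      · rw [Finset.disjoint_left]
        intro x hx hx'
        exact (Finset.mem_sdiff.1 (hV hx')).2 hx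
  rw [h3, Finset.card_image_of_injOn, Finset.card_powersetCard,
    Finset.card_sdiff_of_subset (Finset.subset_univ T), Finset.card_univ]
  intro V hV W hW h
  rw [Finset.mem_coe, Finset.mem_powersetCard] at hV hW
  dsimp only at h
  have hVd : (T ∪ V) \ T = V := by
    rw [Finset.union_sdiff_left]
    exact Finset.sdiff_eq_self_of_disjoint (Finset.disjoint_left.2 fun x hx hx' =>
      (Finset.mem_sdiff.1 (hV.1 hx)).2 hx')
  have hWd : (T ∪ W) \ T = W := by
    rw [Finset.union_sdiff_left]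
    exact Finset.sdiff_eq_self_of_disjoint (Finset.disjoint_left.2 fun x hx hx' =>
      (Finset.mem_sdiff.1 (hW.1 hx)).2 hx')
  rw [← hVd, h, hWd]

/-- symmetrization: a function of degree `< q` on subsets gives a polynomial of degree `< q` -/
theorem bs_symmetrize (g : Finset ι → ℝ) (q : ℕ)
    (hdeg : ∀ T : Finset ι, q ≤ T.card → ∑ S ∈ T.powerset, (-1 : ℝ) ^ S.card * g S = 0) :
    ∃ P : Polynomial ℝ, P.degree < q ∧ ∀ j ≤ Fintype.card ι,
      ((Fintype.card ι).choose j : ℝ) * P.eval (j : ℝ) =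
        ∑ S ∈ (univ : Finset ι).powersetCard j, g S := by
  set r := Fintype.card ι with hr
  let a : Finset ι → ℝ := fun T => (-1 : ℝ) ^ T.card * ∑ U ∈ T.powerset, (-1 : ℝ) ^ U.card * g U
  let P : Polynomial ℝ := ∑ T : Finset ι with T.card < q,
    Polynomial.C (a T / (r.descFactorial T.card : ℝ)) * descPochhammer ℝ T.card
  refine ⟨P, ?_, ?_⟩
  · apply lt_of_le_of_lt (Polynomial.degree_sum_le _ _)
    rw [Finset.sup_lt_iff (by exact_mod_cast WithBot.bot_lt_coe q)]
    intro T hT
    rw [Finset.mem_filter] at hT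
    apply lt_of_le_of_lt Polynomial.degree_le_natDegree
    have h1 := Polynomial.natDegree_C_mul_le (a T / (r.descFactorial T.card : ℝ))
      (descPochhammer ℝ T.card)
    rw [descPochhammer_natDegree] at h1
    exact_mod_cast lt_of_le_of_lt h1 hT.2
  · intro j hj
    have h1 : ∑ S ∈ (univ : Finset ι).powersetCard j, g S =
        ∑ T : Finset ι with T.card < q, a T *
          ((((univ : Finset ι).powersetCard j).filter (fun S => T ⊆ S)).card : ℝ) := by
      have h2 : ∀ S ∈ (univ : Finset ι).powersetCard j, g S =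
          ∑ T : Finset ι with T.card < q, if T ⊆ S then a T else 0 := by
        intro S _
        rw [bs_moebius g S, ← Finset.sum_filter]
        symm
        apply Finset.sum_subset_zero_on_sdiff
        · intro T hT
          rw [Finset.mem_filter] at hT
          exact Finset.mem_powerset.2 hT.2
        · intro T hT
          rw [Finset.mem_sdiff, Finset.mem_powerset, Finset.mem_filter, Finset.mem_filter] at hT
          have hTq : q ≤ T.card := by
            by_contra hcon
            exact hT.2 ⟨⟨Finset.mem_univ _, not_le.1 hcon⟩, hT.1⟩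
          rw [hdeg T hTq, mul_zero]
        · intro T _
          rfl
      rw [Finset.sum_congr rfl h2, Finset.sum_comm]
      apply Finset.sum_congr rfl
      intro T _
      rw [← Finset.sum_filter, Finset.sum_const, nsmul_eq_mul, mul_comm]
    rw [h1, Polynomial.eval_finsetSum, Finset.mul_sum]
    apply Finset.sum_congr rfl
    intro T _
    rw [Polynomial.eval_mul, Polynomial.eval_C, descPochhammer_eval_eq_descFactorial]
    have hTr : T.card ≤ r := Finset.card_le_univ T
    have hpos : (0 : ℝ) < (r.descFactorial T.card : ℝ) := by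
      exact_mod_cast Nat.descFactorial_pos.2 hTr
    by_cases hTj : T.card ≤ j
    · rw [bs_card_super T j hTj]
      have h3 : r.choose j * j.descFactorial T.card =
          (r - T.card).choose (j - T.card) * r.descFactorial T.card := by
        have h4 : r.choose j * j.choose T.card =
            r.choose T.card * (r - T.card).choose (j - T.card) := Nat.choose_mul hTj
        rw [Nat.descFactorial_eq_factorial_mul_choose, Nat.descFactorial_eq_factorial_mul_choose]
        calc r.choose j * (T.card.factorial * j.choose T.card)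
            = T.card.factorial * (r.choose j * j.choose T.card) := by ring
          _ = T.card.factorial * (r.choose T.card * (r - T.card).choose (j - T.card)) := by
              rw [h4]
          _ = _ := by ring
      have h3' : (r.choose j : ℝ) * (j.descFactorial T.card : ℝ) =
          ((r - T.card).choose (j - T.card) : ℝ) * (r.descFactorial T.card : ℝ) := by
        exact_mod_cast h3
      calc (r.choose j : ℝ) * (a T / (r.descFactorial T.card : ℝ) * (j.descFactorial T.card : ℝ))
          = a T / (r.descFactorial T.card : ℝ) *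
              ((r.choose j : ℝ) * (j.descFactorial T.card : ℝ)) := by ring
        _ = _ := by
            rw [h3']
            field_simp
            rfl
    · have h5 : j.descFactorial T.card = 0 := Nat.descFactorial_eq_zero_iff_lt.2 (not_le.1 hTj)
      have h6 : ((univ : Finset ι).powersetCard j).filter (fun S => T ⊆ S) = ∅ := by
        rw [Finset.filter_eq_empty_iff]
        intro S hS hTS
        have := Finset.card_le_card hTS
        rw [(Finset.mem_powersetCard.1 hS).2] at this
        exact hTj this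
      rw [h5, h6]
      simp


end Symm

/-- a function on the cube of degree less than `q` with values `0, 1`, with `g ∅ = 0` and
`g {i} = 1` for all `i` -/
theorem cube_bs {q r : ℕ} (g : Finset (Fin r) → ℤ) (h01 : ∀ I, g I = 0 ∨ g I = 1)
    (hd : ∀ I : Finset (Fin r), q ≤ I.card → ∑ J ∈ I.powerset, (-1) ^ J.card * g J = 0)
    (h0 : g ∅ = 0) (h1 : ∀ i, g {i} = 1) : r ≤ 5 * q ^ 2 := by
  classical
  rcases Nat.eq_zero_or_pos r with hr0 | hr1
  · omega
  have hdeg : ∀ T : Finset (Fin r), q ≤ T.card →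
      ∑ S ∈ T.powerset, (-1 : ℝ) ^ S.card * (g S : ℝ) = 0 := by
    intro T hT
    have := hd T hT
    exact_mod_cast this
  obtain ⟨P, hP1, hP2⟩ := bs_symmetrize (fun S => (g S : ℝ)) q hdeg
  rw [Fintype.card_fin] at hP2
  apply poly_bs P hP1
  · have h2 := hP2 0 (Nat.zero_le _)
    rw [Nat.choose_zero_right, Finset.powersetCard_zero, Finset.sum_singleton, h0] at h2
    simpa using h2
  · have h2 := hP2 1 hr1
    rw [Nat.choose_one_right, Finset.powersetCard_one, Finset.sum_map] at h2
    have h3 : ∑ x : Fin r, ((g (({ toFun := singleton, inj' := Finset.singleton_injective } :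
        Fin r ↪ Finset (Fin r)) x) : ℤ) : ℝ) = r := by
      have h4 : ∀ x : Fin r, ((g (({ toFun := singleton, inj' := Finset.singleton_injective } :
        Fin r ↪ Finset (Fin r)) x) : ℤ) : ℝ) = 1 := by
        intro x
        have : g (({ toFun := singleton, inj' := Finset.singleton_injective } :
          Fin r ↪ Finset (Fin r)) x) = 1 := h1 x
        rw [this]
        norm_num
      rw [Finset.sum_congr rfl fun x _ => h4 x]
      simp
    have hr0 : (r : ℝ) ≠ 0 := by
      have : r ≠ 0 := by omega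
      exact_mod_cast this
    have h4 : (r : ℝ) * P.eval ((1 : ℕ) : ℝ) = r := by
      rw [h2]
      exact h3
    have h5 : P.eval ((1 : ℕ) : ℝ) = 1 := mul_left_cancel₀ hr0 (by rw [h4, mul_one])
    simpa using h5
  · intro j hle
    have h2 := hP2 j hle
    have hch : (0 : ℝ) < (r.choose j : ℝ) := by
      exact_mod_cast Nat.choose_pos hle
    have hg01 : ∀ S, (g S : ℝ) = 0 ∨ (g S : ℝ) = 1 := by
      intro S
      rcases h01 S with h | h
      · left; rw [h]; norm_num
      · right; rw [h]; norm_num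
    have h3 : 0 ≤ ∑ S ∈ (univ : Finset (Fin r)).powersetCard j, (g S : ℝ) :=
      Finset.sum_nonneg fun S _ => by rcases hg01 S with h | h <;> rw [h] <;> norm_num
    have h4 : ∑ S ∈ (univ : Finset (Fin r)).powersetCard j, (g S : ℝ) ≤ (r.choose j : ℝ) := by
      calc ∑ S ∈ (univ : Finset (Fin r)).powersetCard j, (g S : ℝ)
          ≤ ∑ _S ∈ (univ : Finset (Fin r)).powersetCard j, (1 : ℝ) :=
            Finset.sum_le_sum fun S _ => by rcases hg01 S with h | h <;> rw [h] <;> norm_num
        _ = _ := by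
            rw [Finset.sum_const, Finset.card_powersetCard, Finset.card_univ, nsmul_eq_mul,
              mul_one, Fintype.card_fin]
    rw [← h2] at h3 h4
    constructor
    · exact nonneg_of_mul_nonneg_right h3 hch
    · by_contra hc
      push Not at hc
      nlinarith

end FrS
end
end

section

section

/-!
Block sensitivity of Boolean functions of degree less than `q` on `Yt n t`.
-/

set_option linter.unusedSectionVars false

namespace FrS

open Finset
open scoped Classical

variable {D : ℕ}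

private theorem bz_ne {b c : Bool} (h : b ≠ c) : bz b = 1 - bz c := by
  cases b <;> cases c <;> simp [bz] at h ⊢

theorem bs_le {n q r : ℕ} {t : V D} (f : Ch D → Bool) (hf : DegLt n q t fun y => bz (f y))
    {y : Ch D} (hy : Yt n t y) (B : Fin r → Finset (Sq D)) (hB : ∀ i, B i ⊆ sqs D n)
    (hdis : ∀ i j, i ≠ j → Disjoint (B i) (B j))
    (hs : ∀ i, f (y + ∑ F ∈ B i, sqc F) ≠ f y) : r ≤ 5 * q ^ 2 := by
  have hblock := block_diff (fun y => bz (f y)) hf hy B hB hdis
  have h0 : bz (f (y + ∑ i ∈ (∅ : Finset (Fin r)), ∑ F ∈ B i, sqc F)) = bz (f y) := by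
    rw [Finset.sum_empty, add_zero]
  have h1 : ∀ i : Fin r, bz (f (y + ∑ i ∈ ({i} : Finset (Fin r)), ∑ F ∈ B i, sqc F)) =
      1 - bz (f y) := by
    intro i
    rw [Finset.sum_singleton]
    exact bz_ne (hs i)
  cases hfy : f y with
  | false =>
    refine cube_bs (fun J => bz (f (y + ∑ i ∈ J, ∑ F ∈ B i, sqc F))) ?_ hblock ?_ ?_
    · intro I
      simp only [bz]
      split_ifs <;> simp
    · simp only [h0, hfy]
      rfl
    · intro i
      simp only [h1, hfy]
      rfl
  | true =>
    have hq : 1 ≤ q := by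
      by_contra hq
      have hq0 : q = 0 := by omega
      subst hq0
      have := hf ∅ (Finset.empty_subset _) (Nat.zero_le _) y hy
      simp [Df, hfy, bz] at this
    refine cube_bs (fun J => 1 - bz (f (y + ∑ i ∈ J, ∑ F ∈ B i, sqc F))) ?_ ?_ ?_ ?_
    · intro I
      simp only [bz]
      split_ifs <;> simp
    · intro I hI
      have hne : I.Nonempty := Finset.card_pos.1 (by omega)
      simp only [mul_sub, mul_one, Finset.sum_sub_distrib]
      rw [hblock I hI, sub_zero]
      exact Finset.sum_powerset_neg_one_pow_card_of_nonempty hne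
    · simp only [h0, hfy]
      rfl
    · intro i
      simp only [h1, hfy]
      rfl

/-- minimal sensitive sets of squares -/
def MinSens (n : ℕ) (f : Ch D → Bool) (z : Ch D) (S : Finset (Sq D)) : Prop :=
  S ⊆ sqs D n ∧ f (z + ∑ F ∈ S, sqc F) ≠ f z ∧ ∀ S' ⊂ S, f (z + ∑ F ∈ S', sqc F) = f z

theorem MinSens.card_le {n q : ℕ} {t : V D} {f : Ch D → Bool}
    (hf : DegLt n q t fun y => bz (f y)) {z : Ch D} (hz : Yt n t z) {S : Finset (Sq D)}
    (h : MinSens n f z S) : S.card ≤ 5 * q ^ 2 := by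
  obtain ⟨hS, hne, hmin⟩ := h
  refine bs_le f hf (hz.add_sum hS) (fun i : Fin S.card => {(S.equivFin.symm i).1}) ?_ ?_ ?_
  · intro i
    rw [Finset.singleton_subset_iff]
    exact hS (S.equivFin.symm i).2
  · intro i j hij
    rw [Finset.disjoint_singleton]
    intro h
    exact hij (S.equivFin.symm.injective (Subtype.ext h))
  · intro i
    set F := (S.equivFin.symm i).1 with hF
    have hFS : F ∈ S := (S.equivFin.symm i).2
    rw [Finset.sum_singleton]
    have h1 : z + ∑ F ∈ S, sqc F + sqc F = z + ∑ F ∈ S.erase F, sqc F := by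
      rw [← Finset.add_sum_erase S sqc hFS]
      have : z + (sqc F + ∑ F ∈ S.erase F, sqc F) + sqc F =
          z + (∑ F ∈ S.erase F, sqc F) + (sqc F + sqc F) := by abel
      rw [this, add_self_fun, add_zero]
    rw [h1, hmin _ (Finset.erase_ssubset hFS)]
    exact hne.symm

/-- a sensitive set contains a minimal one -/
theorem exists_minSens {n : ℕ} {f : Ch D → Bool} {z : Ch D} {S : Finset (Sq D)}
    (hS : S ⊆ sqs D n) (h : f (z + ∑ F ∈ S, sqc F) ≠ f z) :
    ∃ S' ⊆ S, MinSens n f z S' := by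
  have hne : (S.powerset.filter fun S' => f (z + ∑ F ∈ S', sqc F) ≠ f z).Nonempty :=
    ⟨S, by rw [Finset.mem_filter]; exact ⟨Finset.mem_powerset_self S, h⟩⟩
  obtain ⟨S', hS', hmin⟩ := Finset.exists_min_image _ Finset.card hne
  rw [Finset.mem_filter, Finset.mem_powerset] at hS'
  refine ⟨S', hS'.1, hS'.1.trans hS, hS'.2, ?_⟩
  intro S'' hS''
  by_contra hc
  have := hmin S'' (by
    rw [Finset.mem_filter, Finset.mem_powerset]
    exact ⟨hS''.subset.trans hS'.1, hc⟩)
  have := Finset.card_lt_card hS''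
  omega

/-- **certificates** -/
theorem cert {n q : ℕ} {t : V D} (f : Ch D → Bool) (hf : DegLt n q t fun y => bz (f y))
    {z : Ch D} (hz : Yt n t z) (W : Finset (V D)) (hWb : W ⊆ box D n)
    (hW : W.card + 4 * (5 * q ^ 2) ^ 2 < n) :
    ∃ Q : Finset (Sq D), Q ⊆ sqs D n ∧ (∀ F ∈ Q, Av W F) ∧
      (∀ F ∈ Q, ∃ S, MinSens n f z S ∧ (∀ F' ∈ S, Av W F') ∧ F ∈ S) ∧
      (Q.biUnion verts).card ≤ 4 * (5 * q ^ 2) ^ 2 ∧
      ∀ y, Yt n t y → (∀ e, Inc (W ∪ Q.biUnion verts) e → y e = z e) → f y = f z := by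
  set fams : Finset (Finset (Finset (Sq D))) :=
    (sqs D n).powerset.powerset.filter fun Fam =>
      (∀ S ∈ Fam, ∀ S' ∈ Fam, S ≠ S' → Disjoint S S') ∧
        ∀ S ∈ Fam, MinSens n f z S ∧ ∀ F ∈ S, Av W F with hfams
  have hne : fams.Nonempty := ⟨∅, by
    rw [hfams, Finset.mem_filter]
    refine ⟨Finset.empty_mem_powerset _, ?_, ?_⟩
    · intro S hS
      exact absurd hS (Finset.notMem_empty _)
    · intro S hS
      exact absurd hS (Finset.notMem_empty _)⟩
  obtain ⟨Fam, hFam, hmax⟩ := Finset.exists_max_image fams Finset.card hne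
  rw [hfams, Finset.mem_filter, Finset.mem_powerset] at hFam
  obtain ⟨hsub, hdis, hmin⟩ := hFam
  have hsub' : ∀ S ∈ Fam, S ⊆ sqs D n := fun S hS => Finset.mem_powerset.1 (hsub hS)
  -- the family is small
  have hcard : Fam.card ≤ 5 * q ^ 2 := by
    refine bs_le f hf hz (fun i : Fin Fam.card => (Fam.equivFin.symm i).1) ?_ ?_ ?_
    · intro i
      exact hsub' _ (Fam.equivFin.symm i).2
    · intro i j hij
      refine hdis _ (Fam.equivFin.symm i).2 _ (Fam.equivFin.symm j).2 fun h => ?_
      exact hij (Fam.equivFin.symm.injective (Subtype.ext h))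
    · intro i
      exact (hmin _ (Fam.equivFin.symm i).2).1.2.1
  have hQcard : (Fam.biUnion id).card ≤ (5 * q ^ 2) ^ 2 := by
    calc (Fam.biUnion id).card ≤ Fam.card * (5 * q ^ 2) :=
          Finset.card_biUnion_le_card_mul _ _ _ fun S hS => (hmin S hS).1.card_le hf hz
      _ ≤ (5 * q ^ 2) * (5 * q ^ 2) := Nat.mul_le_mul_right _ hcard
      _ = (5 * q ^ 2) ^ 2 := by ring
  have hv4 : ∀ F : Sq D, (verts F).card ≤ 4 := by
    intro F
    unfold verts
    exact Finset.card_le_four
  have hvcard : ((Fam.biUnion id).biUnion verts).card ≤ 4 * (5 * q ^ 2) ^ 2 := by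
    calc ((Fam.biUnion id).biUnion verts).card ≤ (Fam.biUnion id).card * 4 :=
          Finset.card_biUnion_le_card_mul _ _ _ fun F _ => hv4 F
      _ ≤ (5 * q ^ 2) ^ 2 * 4 := Nat.mul_le_mul_right _ hQcard
      _ = 4 * (5 * q ^ 2) ^ 2 := by ring
  have hmemQ : ∀ F, F ∈ Fam.biUnion id ↔ ∃ S ∈ Fam, F ∈ S := by
    intro F
    rw [Finset.mem_biUnion]
    rfl
  refine ⟨Fam.biUnion id, ?_, ?_, ?_, hvcard, ?_⟩
  · intro F hF
    obtain ⟨S, hS, hFS⟩ := (hmemQ F).1 hF
    exact hsub' S hS hFS
  · intro F hF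
    obtain ⟨S, hS, hFS⟩ := (hmemQ F).1 hF
    exact (hmin S hS).2 F hFS
  · intro F hF
    obtain ⟨S, hS, hFS⟩ := (hmemQ F).1 hF
    exact ⟨S, (hmin S hS).1, (hmin S hS).2, hFS⟩
  · intro y hy hyz
    by_contra hc
    obtain ⟨hsupp, hbd⟩ := hy.sub_closed hz
    have hWn : (W ∪ (Fam.biUnion id).biUnion verts).card < n := by
      have := Finset.card_union_le W ((Fam.biUnion id).biUnion verts)
      omega
    obtain ⟨S, hS, hSav, hsum⟩ := exists_squares hWn hsupp hbd (by
      intro e he
      rw [Pi.add_apply, hyz e he]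
      exact CharTwo.add_self_eq_zero _)
    have hy2 : y = z + ∑ F ∈ S, sqc F := by
      rw [← hsum]
      have : z + (y + z) = y + (z + z) := by abel
      rw [this, add_self_fun, add_zero]
    rw [hy2] at hc
    obtain ⟨S', hS'S, hS'⟩ := exists_minSens hS hc
    have hnotQ : ∀ F ∈ S', F ∉ Fam.biUnion id := by
      intro F hF hFQ
      have hav := hSav F (hS'S hF)
      have hmemv : F.1 ∈ verts F := by simp [verts]
      apply hav F.1 hmemv
      apply cl_of_mem
      rw [Finset.mem_union]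
      right
      rw [Finset.mem_biUnion]
      exact ⟨F, hFQ, hmemv⟩
    have hne' : S'.Nonempty := by
      rw [Finset.nonempty_iff_ne_empty]
      rintro rfl
      apply hS'.2.1
      rw [Finset.sum_empty, add_zero]
    have hnot : S' ∉ Fam := by
      intro h
      obtain ⟨F, hF⟩ := hne'
      exact hnotQ F hF ((hmemQ F).2 ⟨S', h, hF⟩)
    have hd : ∀ T ∈ Fam, Disjoint S' T := by
      intro T hT
      rw [Finset.disjoint_left]
      intro F hF hFT
      exact hnotQ F hF ((hmemQ F).2 ⟨T, hT, hFT⟩)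
    have hmem : insert S' Fam ∈ fams := by
      rw [hfams, Finset.mem_filter, Finset.mem_powerset]
      refine ⟨?_, ?_, ?_⟩
      · intro T hT
        rw [Finset.mem_insert] at hT
        rcases hT with rfl | hT
        · exact Finset.mem_powerset.2 hS'.1
        · exact hsub hT
      · intro T hT T' hT' hTT'
        rw [Finset.mem_insert] at hT hT'
        rcases hT with rfl | hT
        · rcases hT' with rfl | hT'
          · exact absurd rfl hTT'
          · exact hd T' hT'
        · rcases hT' with rfl | hT'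
          · exact (hd T hT).symm
          · exact hdis T hT T' hT' hTT'
      · intro T hT
        rw [Finset.mem_insert] at hT
        rcases hT with rfl | hT
        · refine ⟨hS', fun F hF => ?_⟩
          exact Av.anti Finset.subset_union_left (hSav F (hS'S hF))
        · exact hmin T hT
    have h1 := hmax _ hmem
    rw [Finset.card_insert_of_notMem hnot] at h1
    omega

end FrS
end

section

/-!
Reference hyperplanes.
-/

set_option linter.unusedSectionVars false

namespace FrS

open Finset Fr56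
open scoped Classical

variable {D : ℕ}

namespace Refs

/-- the hyperplanes touched by a list of edges -/
noncomputable def tset (T : ℕ) (L : List (E D)) : Finset ℤ :=
  L.toFinset.biUnion fun z => Finset.Icc (z.1 0 / T - 1) (z.1 0 / T + 1)

theorem mem_tset {T : ℕ} {L : List (E D)} {h : ℤ} : h ∈ tset T L ↔ Tl T L h := by
  simp only [tset, mem_biUnion, List.mem_toFinset, Tl, Rst.tch_iff]

theorem card_tset (T : ℕ) (L : List (E D)) : (tset T L).card ≤ 3 * L.length := by
  calc (tset T L).card ≤ ∑ z ∈ L.toFinset, (Finset.Icc (z.1 0 / (T : ℤ) - 1) (z.1 0 / T + 1)).card :=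
        card_biUnion_le
    _ = ∑ z ∈ L.toFinset, 3 := by
        refine Finset.sum_congr rfl fun z _ => ?_
        rw [Int.card_Icc]
        have : z.1 0 / (T : ℤ) + 1 + 1 - (z.1 0 / (T : ℤ) - 1) = 3 := by ring
        rw [this]; rfl
    _ = L.toFinset.card * 3 := by rw [sum_const, smul_eq_mul]
    _ ≤ 3 * L.length := by
        have := L.toFinset_card_le
        omega

/-- the bad sets for `t` -/
noncomputable def bad (ρ : Rst D) (φ : TF D) (s1 : ℕ) (t : V D) : Finset (Finset ℤ) :=
  ((Finset.Ico (0 : ℤ) ρ.n).powersetCard s1).filter fun J =>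
    ∃ y, Yt ρ.n t y ∧ J ⊆ tset ρ.T (φ.rd (ρ.x y))

theorem card_bad (ρ : Rst D) (φ : TF D) {m k q s1 : ℕ} (hφ : φ.Ok m k) {t : V D}
    (ht : t ∈ box D ρ.n)
    (hdeg : ∀ J : Finset ℤ, J ⊆ Finset.Ico (0 : ℤ) ρ.n → J.card = s1 →
      DegLt ρ.n q t fun y => if ∀ h ∈ J, Tl ρ.T (φ.rd (ρ.x y)) h then 1 else 0) :
    (bad ρ φ s1 t).card ≤ 2 ^ q * (3 * (m * k)) ^ s1 := by
  rcases (bad ρ φ s1 t).eq_empty_or_nonempty with he | ⟨J₀, hJ₀⟩
  · rw [he]; simp
  obtain ⟨-, y₀, hy₀, -⟩ := mem_filter.1 hJ₀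
  have hpos : 0 < (YF ρ.n t).card := card_pos.2 ⟨y₀, mem_YF.2 hy₀⟩
  -- density
  have h1 : ∀ J ∈ bad ρ φ s1 t, (YF ρ.n t).card ≤
      2 ^ q * ((YF ρ.n t).filter fun y => J ⊆ tset ρ.T (φ.rd (ρ.x y))).card := by
    intro J hJ
    obtain ⟨hJ1, y, hy, hJ2⟩ := mem_filter.1 hJ
    obtain ⟨hJ3, hJ4⟩ := mem_powersetCard.1 hJ1
    have h2 := density ht _ (hdeg J hJ3 hJ4) hy (by
      have : ∀ h ∈ J, Tl ρ.T (φ.rd (ρ.x y)) h := fun h hh => mem_tset.1 (hJ2 hh)
      rw [if_pos this]; exact one_ne_zero)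
    refine h2.trans (Nat.mul_le_mul_left _ (card_le_card ?_))
    intro y' hy'
    rw [mem_filter] at hy' ⊢
    refine ⟨hy'.1, fun h hh => mem_tset.2 ?_⟩
    by_contra hcon
    apply hy'.2
    rw [if_neg]
    exact fun hall => hcon (hall h hh)
  have h2 : (bad ρ φ s1 t).card * (YF ρ.n t).card ≤
      2 ^ q * ∑ J ∈ bad ρ φ s1 t,
        ((YF ρ.n t).filter fun y => J ⊆ tset ρ.T (φ.rd (ρ.x y))).card := by
    rw [← smul_eq_mul, ← sum_const, Finset.mul_sum]
    exact sum_le_sum h1
  have h3 : ∑ J ∈ bad ρ φ s1 t,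
        ((YF ρ.n t).filter fun y => J ⊆ tset ρ.T (φ.rd (ρ.x y))).card =
      ∑ y ∈ YF ρ.n t,
        ((bad ρ φ s1 t).filter fun J => J ⊆ tset ρ.T (φ.rd (ρ.x y))).card := by
    simp only [card_filter]
    exact sum_comm
  have h4 : ∀ y ∈ YF ρ.n t,
      ((bad ρ φ s1 t).filter fun J => J ⊆ tset ρ.T (φ.rd (ρ.x y))).card ≤
        (3 * (m * k)) ^ s1 := by
    intro y _
    calc _ ≤ ((tset ρ.T (φ.rd (ρ.x y))).powersetCard s1).card := by
          apply card_le_card
          intro J hJ
          rw [mem_filter] at hJ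
          rw [mem_powersetCard]
          exact ⟨hJ.2, (mem_powersetCard.1 (mem_filter.1 hJ.1).1).2⟩
      _ = (tset ρ.T (φ.rd (ρ.x y))).card.choose s1 := card_powersetCard _ _
      _ ≤ (tset ρ.T (φ.rd (ρ.x y))).card ^ s1 := Nat.choose_le_pow _ _
      _ ≤ (3 * (m * k)) ^ s1 := by
          apply Nat.pow_le_pow_left
          have := card_tset ρ.T (φ.rd (ρ.x y))
          have h5 := length_rd_le hφ (ρ.x y)
          omega
  have h5 : ∑ y ∈ YF ρ.n t,
        ((bad ρ φ s1 t).filter fun J => J ⊆ tset ρ.T (φ.rd (ρ.x y))).card ≤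
      (YF ρ.n t).card * (3 * (m * k)) ^ s1 := by
    rw [← smul_eq_mul, ← sum_const]
    exact sum_le_sum h4
  rw [h3] at h2
  have h6 : (bad ρ φ s1 t).card * (YF ρ.n t).card ≤
      (2 ^ q * (3 * (m * k)) ^ s1) * (YF ρ.n t).card := by
    calc _ ≤ _ := h2
      _ ≤ 2 ^ q * ((YF ρ.n t).card * (3 * (m * k)) ^ s1) := Nat.mul_le_mul_left _ h5
      _ = _ := by ring
  exact Nat.le_of_mul_le_mul_right h6 hpos

/-- the hyperplane chosen by `g` in the interval `l` -/
def tau {stot w : ℕ} (g : Fin stot → Fin w) (l : Fin stot) : ℤ := (l : ℤ) * w + (g l : ℤ)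

theorem tau_div {stot w : ℕ} (g : Fin stot → Fin w) (l : Fin stot) : tau g l / w = l := by
  have h1 : (0 : ℤ) ≤ (g l : ℤ) := by positivity
  have h2 : ((g l : ℕ) : ℤ) < w := by exact_mod_cast (g l).2
  have hw : (0 : ℤ) < w := lt_of_le_of_lt h1 h2
  rw [tau, mul_comm, Int.mul_add_ediv_left _ _ hw.ne', Int.ediv_eq_zero_of_lt h1 h2, add_zero]

theorem tau_inj {stot w : ℕ} (g : Fin stot → Fin w) : Function.Injective (tau g) := by
  intro l l' h
  have h1 := tau_div g l
  have h2 := tau_div g l'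
  rw [h, h2] at h1
  exact Fin.ext (by exact_mod_cast h1.symm)

theorem tau_val {stot w : ℕ} {g g' : Fin stot → Fin w} {l l' : Fin stot}
    (h : tau g l = tau g' l') : l = l' ∧ g l = g' l := by
  have h1 := tau_div g l
  have h2 := tau_div g' l'
  rw [h, h2] at h1
  have h3 : l' = l := Fin.ext (by exact_mod_cast h1)
  subst h3
  refine ⟨rfl, Fin.ext ?_⟩
  simp only [tau] at h
  have : ((g l' : ℕ) : ℤ) = ((g' l' : ℕ) : ℤ) := by linarith
  exact_mod_cast this

/-- the number of `g` whose hyperplanes contain a given set -/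
theorem card_g {stot w s1 : ℕ} (J : Finset ℤ) (hJ : J.card = s1) :
    ((univ : Finset (Fin stot → Fin w)).filter fun g => ∀ h ∈ J, ∃ l, tau g l = h).card ≤
      w ^ (stot - s1) := by
  rcases ((univ : Finset (Fin stot → Fin w)).filter
    fun g => ∀ h ∈ J, ∃ l, tau g l = h).eq_empty_or_nonempty with he | ⟨g₀, hg₀⟩
  · rw [he]; simp
  have hg₀' := (mem_filter.1 hg₀).2
  -- the indices of the elements of `J`
  set L : Finset (Fin stot) := univ.filter fun l => tau g₀ l ∈ J with hL
  have hLJ : L.image (tau g₀) = J := by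
    ext h
    rw [mem_image]
    constructor
    · rintro ⟨l, hl, rfl⟩
      exact (mem_filter.1 hl).2
    · intro hh
      obtain ⟨l, hl⟩ := hg₀' h hh
      exact ⟨l, mem_filter.2 ⟨mem_univ _, by rw [hl]; exact hh⟩, hl⟩
  have hLc : L.card = s1 := by
    rw [← hJ, ← hLJ, card_image_of_injective _ (tau_inj g₀)]
  have hsub : ((univ : Finset (Fin stot → Fin w)).filter fun g => ∀ h ∈ J, ∃ l, tau g l = h) ⊆
      Fintype.piFinset fun l => if l ∈ L then {g₀ l} else univ := by
    intro g hg
    rw [Fintype.mem_piFinset]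
    intro l
    by_cases hl : l ∈ L
    · rw [if_pos hl, mem_singleton]
      obtain ⟨l', hl'⟩ := (mem_filter.1 hg).2 _ (mem_filter.1 hl).2
      obtain ⟨h1, h2⟩ := tau_val hl'
      rw [← h1]; exact h2
    · rw [if_neg hl]; exact mem_univ _
  refine (card_le_card hsub).trans (le_of_eq ?_)
  rw [Fintype.card_piFinset]
  have h1 : ∀ l : Fin stot, (if l ∈ L then {g₀ l} else (univ : Finset (Fin w))).card =
      if l ∈ L then 1 else w := by
    intro l
    split_ifs <;> simp
  rw [Finset.prod_congr rfl fun l _ => h1 l, Finset.prod_ite, Finset.prod_const_one, one_mul,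
    Finset.prod_const]
  congr 1
  rw [← hLc]
  have h2 := Finset.card_filter_add_card_filter_not (s := (univ : Finset (Fin stot)))
    (fun l => l ∈ L)
  have h3 : (univ.filter fun l => l ∈ L) = L := by ext l; simp
  rw [h3, card_univ, Fintype.card_fin] at h2
  omega

end Refs

open Refs in
/-- **references**: there are `stot` hyperplanes fewer than `s1` of which are touched at any
point -/
theorem exists_refs (ρ : Rst D) (φ : TF D) {m k q s1 stot w : ℕ} (hφ : φ.Ok m k)
    (hs1 : 1 ≤ s1)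
    (hdeg : ∀ t ∈ box D ρ.n, ∀ J : Finset ℤ, J ⊆ Finset.Ico (0 : ℤ) ρ.n → J.card = s1 →
      DegLt ρ.n q t fun y => if ∀ h ∈ J, Tl ρ.T (φ.rd (ρ.x y)) h then 1 else 0)
    (hw : stot * w ≤ ρ.n) (hnum : ρ.n ^ (D + 3) * 2 ^ q * (3 * (m * k)) ^ s1 < w ^ s1) :
    ∃ τ : Fin stot → ℤ, Function.Injective τ ∧ (∀ l, 0 ≤ τ l ∧ τ l < ρ.n) ∧
      ∀ t ∈ box D ρ.n, ∀ y, Yt ρ.n t y →
        (univ.filter fun l => Tl ρ.T (φ.rd (ρ.x y)) (τ l)).card < s1 := by
  have hw0 : 0 < w := by
    rcases Nat.eq_zero_or_pos w with h | h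
    · rw [h, zero_pow (by omega)] at hnum; exact absurd hnum (Nat.not_lt_zero _)
    · exact h
  have hrange : ∀ (g : Fin stot → Fin w) l, 0 ≤ tau g l ∧ tau g l < ρ.n := by
    intro g l
    have h1 : (l : ℕ) * w + (g l : ℕ) < stot * w := by
      have h2 : ((l : ℕ) + 1) * w ≤ stot * w := Nat.mul_le_mul_right _ l.2
      have h3 := (g l).2
      rw [add_mul, one_mul] at h2
      omega
    refine ⟨by simp only [tau]; positivity, ?_⟩
    have h2 : (l : ℕ) * w + (g l : ℕ) < ρ.n := lt_of_lt_of_le h1 hw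
    simp only [tau]
    exact_mod_cast h2
  rcases Nat.lt_or_ge stot s1 with hlt | hge
  · let g : Fin stot → Fin w := fun _ => ⟨0, hw0⟩
    refine ⟨tau g, tau_inj g, hrange g, fun t _ y _ => ?_⟩
    refine lt_of_le_of_lt (card_le_univ _) ?_
    rwa [Fintype.card_fin]
  -- all bad sets
  set B : Finset (Finset ℤ) := (box D ρ.n).biUnion (bad ρ φ s1) with hB
  have hBc : B.card ≤ ρ.n ^ (D + 3) * 2 ^ q * (3 * (m * k)) ^ s1 := by
    calc B.card ≤ ∑ t ∈ box D ρ.n, (bad ρ φ s1 t).card := card_biUnion_le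
      _ ≤ ∑ t ∈ box D ρ.n, 2 ^ q * (3 * (m * k)) ^ s1 :=
          sum_le_sum fun t ht => card_bad ρ φ hφ ht (hdeg t ht)
      _ = (box D ρ.n).card * (2 ^ q * (3 * (m * k)) ^ s1) := by rw [sum_const, smul_eq_mul]
      _ = _ := by
          rw [box, Fintype.card_piFinset]
          simp only [Int.card_Ico, sub_zero, Int.toNat_natCast, prod_const, card_univ,
            Fintype.card_fin]
          ring
  have hun : (B.biUnion fun J => (univ : Finset (Fin stot → Fin w)).filter
      fun g => ∀ h ∈ J, ∃ l, tau g l = h).card < (univ : Finset (Fin stot → Fin w)).card := by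
    calc _ ≤ ∑ J ∈ B, ((univ : Finset (Fin stot → Fin w)).filter
          fun g => ∀ h ∈ J, ∃ l, tau g l = h).card := card_biUnion_le
      _ ≤ ∑ J ∈ B, w ^ (stot - s1) := by
          refine sum_le_sum fun J hJ => card_g J ?_
          obtain ⟨t, _, hJt⟩ := mem_biUnion.1 hJ
          exact (mem_powersetCard.1 (mem_filter.1 hJt).1).2
      _ = B.card * w ^ (stot - s1) := by rw [sum_const, smul_eq_mul]
      _ < w ^ s1 * w ^ (stot - s1) :=
          Nat.mul_lt_mul_of_pos_right (lt_of_le_of_lt hBc hnum) (Nat.pow_pos hw0)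
      _ = w ^ stot := by rw [← pow_add]; congr 1; omega
      _ = _ := by simp
  obtain ⟨g, -, hg⟩ := exists_mem_notMem_of_card_lt_card hun
  refine ⟨tau g, tau_inj g, hrange g, fun t ht y hy => ?_⟩
  by_contra hcon
  push Not at hcon
  obtain ⟨A, hA, hAc⟩ := exists_subset_card_eq hcon
  apply hg
  refine mem_biUnion.2 ⟨A.image (tau g), ?_, ?_⟩
  · refine mem_biUnion.2 ⟨t, ht, mem_filter.2 ⟨mem_powersetCard.2 ⟨?_, ?_⟩, y, hy, ?_⟩⟩
    · intro h hh
      obtain ⟨l, _, rfl⟩ := mem_image.1 hh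
      exact mem_Ico.2 (hrange g l)
    · rw [card_image_of_injective _ (tau_inj g), hAc]
    · intro h hh
      obtain ⟨l, hl, rfl⟩ := mem_image.1 hh
      exact mem_tset.2 (mem_filter.1 (hA hl)).2
  · refine mem_filter.2 ⟨mem_univ _, fun h hh => ?_⟩
    obtain ⟨l, _, rfl⟩ := mem_image.1 hh
    exact ⟨l, rfl⟩

end FrS
end

section

/-!
Definitions for the certificate game.
-/

set_option linter.unusedSectionVars false

namespace FrS

open Finset
open scoped Classical

variable {D : ℕ}

/-- minimal sensitive sets at `0`-points avoid the hyperplane of `t` -/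
def Stay (n : ℕ) (t : V D) (f : Ch D → Bool) (W : Finset (V D)) (η : Ch D) : Prop :=
  ∀ z, Yt n t z → Agr W z η → f z = false → ∀ S, MinSens n f z S → (∀ F ∈ S, Av W F) →
    ∀ F ∈ S, ∀ v ∈ verts F, v 0 ≠ t 0

/-- at `1`-points there are at most `b` disjoint sensitive blocks avoiding the closure of `W` -/
def Bud (n : ℕ) (t : V D) (f : Ch D → Bool) (W : Finset (V D)) (η : Ch D) (b : ℕ) : Prop :=
  ∀ z, Yt n t z → Agr W z η → f z = true → ∀ (r : ℕ) (B : Fin r → Finset (Sq D)),
    (∀ i, B i ⊆ sqs D n) → (∀ i, ∀ F ∈ B i, Av W F) → (∀ i j, i ≠ j → Disjoint (B i) (B j)) →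
    (∀ i, f (z + ∑ F ∈ B i, sqc F) ≠ f z) → r ≤ b

/-- the label reached by a game tree at `y` is a correct state `(W', η')`: `W'` extends `W` by
endpoints of edges that are read, and `η'` is `y` on the edges meeting the closure of `W'` -/
def OkState (n : ℕ) (W : Finset (V D)) (h : ℤ) (g : ℕ) (y : Ch D) (L : List (E D))
    (s : Finset (V D) × Ch D) : Prop :=
  W ⊆ s.1 ∧ s.1 ⊆ box D n ∧ s.1.card ≤ W.card + g ∧ Off s.1 h ∧ Agr s.1 s.2 y ∧
    ∀ w ∈ s.1, w ∈ W ∨ ∃ e ∈ L, e.1 = w ∨ e.1 + ev e.2 = w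

end FrS
end

section

/-!
Lemmas for the certificate game.
-/

set_option linter.unusedSectionVars false

namespace FrS

open Finset
open scoped Classical

variable {D : ℕ}

theorem card_incf (n : ℕ) {W : Finset (V D)} {K : ℕ} (hW : W.card ≤ K) :
    (incf n W).card ≤ 2 * (D + 3) * K ^ (D + 3) := by
  set C : Finset (V D) := Fintype.piFinset fun k => W.image fun w => w k with hC
  have hCc : C.card ≤ K ^ (D + 3) := by
    rw [hC, Fintype.card_piFinset]
    calc ∏ k, (W.image fun w : V D => w k).card ≤ ∏ _k : Fin (D + 3), K :=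
          Finset.prod_le_prod' fun k _ => Finset.card_image_le.trans hW
      _ = K ^ (D + 3) := by simp
  have hmem : ∀ v : V D, Cl W v → v ∈ C := by
    intro v hv
    rw [hC, Fintype.mem_piFinset]
    intro k
    obtain ⟨w, hw, e⟩ := hv k
    exact Finset.mem_image.2 ⟨w, hw, e.symm⟩
  have hsub : incf n W ⊆ (C ×ˢ (univ : Finset (Fin (D + 3)))) ∪
      (C ×ˢ (univ : Finset (Fin (D + 3)))).image fun e => (e.1 - ev e.2, e.2) := by
    intro e he
    obtain ⟨_, hI⟩ := Finset.mem_filter.1 he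
    rcases hI with hI | hI
    · exact Finset.mem_union_left _ (Finset.mem_product.2 ⟨hmem _ hI, Finset.mem_univ _⟩)
    · refine Finset.mem_union_right _ (Finset.mem_image.2 ⟨(e.1 + ev e.2, e.2),
        Finset.mem_product.2 ⟨hmem _ hI, Finset.mem_univ _⟩, ?_⟩)
      simp
  have h1 := (Finset.card_le_card hsub).trans (Finset.card_union_le _ _)
  have h2 : (C ×ˢ (univ : Finset (Fin (D + 3)))).card = C.card * (D + 3) := by
    rw [Finset.card_product, Finset.card_univ, Fintype.card_fin]
  have h3 : ((C ×ˢ (univ : Finset (Fin (D + 3)))).image fun e => (e.1 - ev e.2, e.2)).card ≤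
      C.card * (D + 3) := Finset.card_image_le.trans h2.le
  have h4 : C.card * (D + 3) ≤ K ^ (D + 3) * (D + 3) := Nat.mul_le_mul_right _ hCc
  have h5 : 2 * (D + 3) * K ^ (D + 3) = K ^ (D + 3) * (D + 3) + K ^ (D + 3) * (D + 3) := by ring
  omega

/-- every vertex of the box is an endpoint of an edge of the box -/
theorem exists_edge_at {n : ℕ} (hn : 2 ≤ n) {w : V D} (hw : w ∈ box D n) :
    ∃ e ∈ edges D n, e.1 = w ∨ e.1 + ev e.2 = w := by
  have hw' := mem_box.1 hw
  by_cases h : w 0 + 1 < n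
  · refine ⟨(w, 0), mem_edges.2 ⟨hw, mem_box.2 fun k => ?_⟩, Or.inl rfl⟩
    by_cases hk : k = 0
    · subst hk
      have := hw' 0
      simp only [Pi.add_apply, ev_same]
      omega
    · simp only [Pi.add_apply, ev_ne hk, add_zero]
      exact hw' k
  · refine ⟨(w - ev 0, 0), mem_edges.2 ⟨mem_box.2 fun k => ?_, ?_⟩, Or.inr (by simp)⟩
    · by_cases hk : k = 0
      · subst hk
        have := hw' 0
        simp only [Pi.sub_apply, ev_same]
        omega
      · simp only [Pi.sub_apply, ev_ne hk, sub_zero]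
        exact hw' k
    · simpa using hw

private theorem char2_add_cancel (a b : Ch D) : a + (a + b) = b := by
  rw [← add_assoc, add_self_fun, zero_add]

/-- the first step: extending the state by the certificate of a `0`-point decreases the budget -/
theorem Bud.step {n : ℕ} {t : V D} {f : Ch D → Bool} {W W' : Finset (V D)} {η η' z : Ch D} {b : ℕ}
    (hb : Bud n t f W η (b + 1)) (hWW' : W ⊆ W') (hcard : W'.card < n) (hcW : W.card < n)
    (hz : Yt n t z) (hzW : Agr W z η) (hz0 : f z = false)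
    (hcert : ∀ y, Yt n t y → (∀ e, Inc W' e → y e = z e) → f y = f z) (hη : Agr W η' η) :
    Bud n t f W' η' b := by
  intro x hx hxW hx1 r B hB hAv hdis hs
  have hxη : Agr W x η := fun e he => (hxW e (he.mono hWW')).trans (hη e he)
  obtain ⟨hS0, hS1⟩ := hx.sub_closed hz
  obtain ⟨S, hSs, hSA, hSe⟩ := exists_squares hcW hS0 hS1 (fun e he => by
    rw [Pi.add_apply, hxη e he, hzW e he]
    exact CharTwo.add_self_eq_zero _)
  set B0 := S.filter fun F => ¬ Av W' F with hB0
  have hsplit : (∑ F ∈ S, sqc F : Ch D) = ∑ F ∈ S.filter (fun F => Av W' F), sqc F +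
      ∑ F ∈ B0, sqc F := (Finset.sum_filter_add_sum_filter_not S _ _).symm
  have hpt : x + ∑ F ∈ B0, sqc F = z + ∑ F ∈ S.filter (fun F => Av W' F), sqc F := by
    have h1 : x = z + ∑ F ∈ S, sqc F := by
      rw [← hSe, add_comm x z, char2_add_cancel]
    rw [h1, hsplit, ← add_assoc, add_assoc _ (∑ F ∈ B0, sqc F), add_self_fun, add_zero]
  have hB0s : B0 ⊆ sqs D n := (Finset.filter_subset _ _).trans hSs
  have hf0 : f (x + ∑ F ∈ B0, sqc F) = false := by
    rw [hcert _ (hx.add_sum hB0s), hz0]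
    intro e he
    rw [hpt, Pi.add_apply, Finset.sum_apply, Finset.sum_eq_zero, add_zero]
    intro F hF
    exact sqc_eq_zero_of_av (Finset.mem_filter.1 hF).2 he
  have h := hb x hx hxη hx1 (r + 1) (Fin.cons B0 B) ?_ ?_ ?_ ?_
  · omega
  · intro i
    refine Fin.cases ?_ (fun i => ?_) i
    · simpa using hB0s
    · simpa using hB i
  · intro i
    refine Fin.cases ?_ (fun i => ?_) i
    · intro F hF
      rw [Fin.cons_zero, hB0] at hF
      exact hSA F (Finset.mem_filter.1 hF).1
    · intro F hF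
      exact (hAv i F (by simpa using hF)).anti hWW'
  · have key : ∀ i, Disjoint B0 (B i) := fun i => by
      rw [Finset.disjoint_left]
      intro F hF hF'
      exact (Finset.mem_filter.1 hF).2 (hAv i F hF')
    intro i j
    refine Fin.cases ?_ (fun i => ?_) i
    · refine Fin.cases (fun h => absurd rfl h) (fun j _ => ?_) j
      simpa using key j
    · refine Fin.cases (fun _ => ?_) (fun j hij => ?_) j
      · simpa using (key i).symm
      · simpa using hdis i j fun h => hij (by rw [h])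
  · intro i
    refine Fin.cases ?_ (fun i => ?_) i
    · simp only [Fin.cons_zero]
      rw [hf0, hx1]
      simp
    · simpa using hs i

/-- the budget `0` forces a constant function -/
theorem Bud.const {n : ℕ} {t : V D} {f : Ch D → Bool} {W : Finset (V D)} {η : Ch D}
    (hcW : W.card < n) (hb : Bud n t f W η 0) :
    ∃ c, ∀ z, Yt n t z → Agr W z η → f z = c := by
  by_cases h : ∃ x, Yt n t x ∧ Agr W x η ∧ f x = true
  · obtain ⟨x, hx, hxη, hx1⟩ := h
    refine ⟨true, fun z hz hzη => ?_⟩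
    by_contra hz0
    rw [Bool.not_eq_true] at hz0
    obtain ⟨hS0, hS1⟩ := hx.sub_closed hz
    obtain ⟨S, hSs, hSA, hSe⟩ := exists_squares hcW hS0 hS1 (fun e he => by
      rw [Pi.add_apply, hxη e he, hzη e he]
      exact CharTwo.add_self_eq_zero _)
    have h1 := hb x hx hxη hx1 1 (fun _ => S) (fun _ => hSs) (fun _ => hSA)
      (fun i j hij => absurd (Subsingleton.elim i j) hij) (fun _ => by
        rw [← hSe, char2_add_cancel, hz0, hx1]
        simp)
    omega
  · refine ⟨false, fun z hz hzη => ?_⟩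
    by_contra hz0
    rw [Bool.not_eq_false] at hz0
    exact h ⟨z, hz, hzη, hz0⟩

theorem bud_of_deg {n q : ℕ} {t : V D} {f : Ch D → Bool} (hf : DegLt n q t fun y => bz (f y))
    (W : Finset (V D)) (η : Ch D) : Bud n t f W η (5 * q ^ 2) := by
  intro z hz _ _ r B hB _ hdis hs
  exact bs_le f hf hz B hB hdis hs

end FrS
end

section

/-!
The certificate game.
-/

set_option linter.unusedSectionVars false

namespace FrS

open Finset
open scoped Classical

variable {D : ℕ}

private theorem Agr.symm' {W : Finset (V D)} {y y' : Ch D} (h : Agr W y y') : Agr W y' y :=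
  fun e he => (h e he).symm

private theorem Agr.trans' {W : Finset (V D)} {y y' y'' : Ch D} (h : Agr W y y')
    (h' : Agr W y' y'') : Agr W y y'' := fun e he => (h e he).trans (h' e he)

private theorem Agr.mono' {W W' : Finset (V D)} (hW : W ⊆ W') {y y' : Ch D} (h : Agr W' y y') :
    Agr W y y' := fun e he => h e (he.mono hW)

private theorem Stay.step {n : ℕ} {t : V D} {f : Ch D → Bool} {W W' : Finset (V D)}
    {η η' : Ch D} (h : Stay n t f W η) (hWW' : W ⊆ W') (hη : Agr W η' η) : Stay n t f W' η' := by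
  intro z hz hzW hz0 S hS hAv F hF v hv
  exact h z hz ((Agr.mono' hWW' hzW).trans' hη) hz0 S hS (fun F' hF' => (hAv F' hF').anti hWW')
    F hF v hv

/-- a leaf is a correct game tree if `f` is constant -/
private theorem game_leaf {n : ℕ} {t : V D} {f : Ch D → Bool} {W : Finset (V D)} {η : Ch D}
    (hWb : W ⊆ box D n) (hoff : Off W (t 0)) (g : ℕ)
    (hc : ∃ c, ∀ z, Yt n t z → Agr W z η → f z = c) (y : Ch D) (hy : Agr W y η) :
    OkState n W (t 0) g y ((DT.leaf (W, η) : DT (E D) (Finset (V D) × Ch D)).reads y)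
        ((DT.leaf (W, η) : DT (E D) (Finset (V D) × Ch D)).val y) ∧
      ∃ c, ∀ z, Yt n t z →
        Agr ((DT.leaf (W, η) : DT (E D) (Finset (V D) × Ch D)).val y).1 z y → f z = c := by
  refine ⟨⟨Finset.Subset.refl _, hWb, Nat.le_add_right _ _, hoff, hy.symm', ?_⟩, ?_⟩
  · intro w hw
    exact Or.inl hw
  · obtain ⟨c, hc⟩ := hc
    exact ⟨c, fun z hz hzy => hc z hz (Agr.trans' hzy hy)⟩

/-- **the certificate game**: a tree that makes `f` constant on the states of `t` -/
theorem game {n q K : ℕ} {t : V D} (hn : 2 ≤ n) (f : Ch D → Bool)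
    (hf : DegLt n q t fun y => bz (f y)) (b : ℕ) :
    ∀ (W : Finset (V D)) (η : Ch D), W ⊆ box D n → Off W (t 0) →
      W.card + b * (4 * (5 * q ^ 2) ^ 2) < n → W.card + b * (4 * (5 * q ^ 2) ^ 2) ≤ K →
      Stay n t f W η → Bud n t f W η b →
      ∃ A : DT (E D) (Finset (V D) × Ch D), A.depth ≤ b * (2 * (D + 3) * K ^ (D + 3)) ∧
        ∀ y, Supp n y → Agr W y η →
          OkState n W (t 0) (b * (4 * (5 * q ^ 2) ^ 2)) y (A.reads y) (A.val y) ∧
          ∃ c, ∀ z, Yt n t z → Agr (A.val y).1 z y → f z = c := by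
  induction b with
  | zero =>
    intro W η hWb hoff hcn hcK hstay hbud
    refine ⟨DT.leaf (W, η), by simp [DT.depth], fun y hys hy => ?_⟩
    exact game_leaf hWb hoff _ (Bud.const (by omega) hbud) y hy
  | succ b ih =>
    intro W η hWb hoff hcn hcK hstay hbud
    set G := 4 * (5 * q ^ 2) ^ 2 with hG
    have hbG : (b + 1) * G = G + b * G := by ring
    by_cases hconst : ∃ c, ∀ z, Yt n t z → Agr W z η → f z = c
    · refine ⟨DT.leaf (W, η), by simp [DT.depth], fun y hys hy => ?_⟩
      exact game_leaf hWb hoff _ hconst y hy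
    -- a zero point
    have hz0 : ∃ z, Yt n t z ∧ Agr W z η ∧ f z = false := by
      by_contra hcon
      apply hconst
      refine ⟨true, fun z hz hzW => ?_⟩
      by_contra hne
      exact hcon ⟨z, hz, hzW, by simpa using hne⟩
    obtain ⟨z, hz, hzW, hfz⟩ := hz0
    obtain ⟨Q, hQs, hQav, hQmin, hQcard, hQcert⟩ := cert f hf hz W hWb (by omega)
    set W' : Finset (V D) := W ∪ Q.biUnion verts with hW'
    have hWW' : W ⊆ W' := Finset.subset_union_left
    have hW'b : W' ⊆ box D n := by
      refine Finset.union_subset hWb fun v hv => ?_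
      obtain ⟨F, hF, hvF⟩ := Finset.mem_biUnion.1 hv
      exact (mem_sqs.1 (hQs hF)).2 hvF
    have hoff' : Off W' (t 0) := by
      intro w hw
      rcases Finset.mem_union.1 hw with h | h
      · exact hoff w h
      · obtain ⟨F, hF, hwF⟩ := Finset.mem_biUnion.1 h
        obtain ⟨S, hS, hSav, hFS⟩ := hQmin F hF
        exact hstay z hz hzW hfz S hS hSav F hFS w hwF
    have hW'card : W'.card ≤ W.card + G :=
      (Finset.card_union_le _ _).trans (Nat.add_le_add_left hQcard _)
    have hcn' : W'.card + b * G < n := by omega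
    have hcK' : W'.card + b * G ≤ K := by omega
    have hIH : ∀ η' : Ch D, Agr W η' η →
        ∃ A : DT (E D) (Finset (V D) × Ch D), A.depth ≤ b * (2 * (D + 3) * K ^ (D + 3)) ∧
        ∀ y, Supp n y → Agr W' y η' →
          OkState n W' (t 0) (b * G) y (A.reads y) (A.val y) ∧
          ∃ c, ∀ z, Yt n t z → Agr (A.val y).1 z y → f z = c := fun η' hη' =>
      ih W' η' hW'b hoff' hcn' hcK' (hstay.step hWW' hη')
        (Bud.step hbud hWW' (by omega) (by omega) hz hzW hfz hQcert hη')
    set T : Ch D → DT (E D) (Finset (V D) × Ch D) := fun η' =>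
      if h : Agr W η' η then Classical.choose (hIH η' h) else DT.leaf (W, η) with hT
    have hTdepth : ∀ η', (T η').depth ≤ b * (2 * (D + 3) * K ^ (D + 3)) := by
      intro η'
      by_cases h : Agr W η' η
      · rw [hT]
        simp only [dif_pos h]
        exact (Classical.choose_spec (hIH η' h)).1
      · rw [hT]
        simp only [dif_neg h]
        exact Nat.zero_le _
    set l : List (E D) := (incf n W').toList with hl
    refine ⟨(DT.ask l).bind T, ?_, ?_⟩
    · refine (DT.depth_bind _ _ hTdepth).trans ?_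
      rw [DT.depth_ask, hl, Finset.length_toList]
      have h1 := card_incf n (W := W') (K := K) (by omega)
      have h2 : (b + 1) * (2 * (D + 3) * K ^ (D + 3)) =
          2 * (D + 3) * K ^ (D + 3) + b * (2 * (D + 3) * K ^ (D + 3)) := by ring
      rw [h2]
      exact Nat.add_le_add_right h1 _
    · intro y hys hy
      have hmem : ∀ e, e ∈ l ↔ e ∈ edges D n ∧ Inc W' e := by
        intro e
        rw [hl, Finset.mem_toList, incf, Finset.mem_filter]
      set η' : Ch D := (DT.ask l).val y with hη'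
      have hη'y : Agr W' η' y := by
        intro e he
        rw [hη', DT.val_ask]
        by_cases hel : e ∈ l
        · simp only [if_pos hel]
        · simp only [if_neg hel]
          have : e ∉ edges D n := fun h => hel ((hmem e).2 ⟨h, he⟩)
          exact (hys e this).symm
      have hη'η : Agr W η' η := Agr.trans' (Agr.mono' hWW' hη'y) hy
      have hTη : T η' = Classical.choose (hIH η' hη'η) := by
        rw [hT]
        simp only [dif_pos hη'η]
      have hspec := (Classical.choose_spec (hIH η' hη'η)).2 y hys hη'y.symm'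
      rw [← hTη] at hspec
      rw [DT.val_bind, DT.reads_bind, ← hη', DT.reads_ask]
      obtain ⟨⟨h1, h2, h3, h4, h5, h6⟩, hc⟩ := hspec
      refine ⟨⟨hWW'.trans h1, h2, ?_, h4, h5, ?_⟩, hc⟩
      · rw [hbG]
        omega
      · intro w hw
        rcases h6 w hw with h | ⟨e, he, hew⟩
        · by_cases hwW : w ∈ W
          · exact Or.inl hwW
          · right
            obtain ⟨e, hee, hew⟩ := exists_edge_at hn (hW'b h)
            refine ⟨e, List.mem_append_left _ ((hmem e).2 ⟨hee, ?_⟩), hew⟩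
            rcases hew with he1 | he1
            · left
              rw [he1]
              exact cl_of_mem h
            · right
              rw [he1]
              exact cl_of_mem h
        · right
          exact ⟨e, List.mem_append_right _ he, hew⟩

end FrS
end

section

/-!
The stage lemma: (stay), correctness of the output.
-/

set_option linter.unusedSectionVars false

namespace FrS

open Finset Fr56
open scoped Classical

variable {D : ℕ}

/-- is the hyperplane `h` touched? -/
noncomputable def touched (ρ : Rst D) (φ : TF D) (h : ℤ) (y : Ch D) : Bool :=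
  decide (Tl ρ.T (φ.rd (ρ.x y)) h)

private theorem rd_congr (φ : TF D) {x x' : Ch D} (h : ∀ e ∈ φ.rd x, x' e = x e) :
    φ.rd x' = φ.rd x ∧ φ.ev x' = φ.ev x := by
  obtain ⟨h1, h2⟩ := DT.congr φ.joint (x := x) (x' := x') (by rwa [reads_joint])
  rw [reads_joint, reads_joint] at h1
  exact ⟨h1, ev_congr_joint h2⟩

private theorem key_sq (ρ : Rst D) (φ : TF D) {h : ℤ} {y : Ch D} (hy : touched ρ φ h y = false)
    {F : Sq D} {v : V D} (hv : v ∈ verts F) (hvh : v 0 = h) :
    φ.rd (ρ.x (y + sqc F)) = φ.rd (ρ.x y) ∧ φ.ev (ρ.x (y + sqc F)) = φ.ev (ρ.x y) := by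
  apply rd_congr
  intro e he
  rw [Rst.x_add]
  have hP : ρ.P (sqc F) e = 0 := by
    by_contra hne
    have h1 := Rst.tch_of_sq ρ hv hne
    rw [hvh] at h1
    have h2 : ¬ Tl ρ.T (φ.rd (ρ.x y)) h := by
      simpa [touched] using hy
    exact h2 ⟨e, he, h1⟩
  rw [Pi.add_apply, hP, add_zero]

private theorem pt_zero' (h : ℤ) : (pt D h) 0 = h := by
  simp [pt]

private theorem sum_erase' {S : Finset (Sq D)} {F : Sq D} (hF : F ∈ S) (z : Ch D) :
    z + ∑ G ∈ S, sqc G = (z + ∑ G ∈ S.erase F, sqc G) + sqc F := by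
  rw [add_assoc, Finset.sum_erase_add _ _ hF]

/-- (stay) for the touch functions -/
theorem stay_touched (ρ : Rst D) (φ : TF D) {h : ℤ} (W : Finset (V D)) (η : Ch D) :
    Stay ρ.n (pt D h) (touched ρ φ h) W η := by
  intro z hz _ hf S hS _ F hF v hv heq
  rw [pt_zero'] at heq
  have h' : touched ρ φ h (z + ∑ G ∈ S.erase F, sqc G) = false := by
    rw [hS.2.2 _ (Finset.erase_ssubset hF)]; exact hf
  have h1 := (key_sq ρ φ h' hv heq).1
  rw [← sum_erase' hF] at h1
  have h2 : touched ρ φ h (z + ∑ G ∈ S, sqc G)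
      = touched ρ φ h (z + ∑ G ∈ S.erase F, sqc G) := by
    simp only [touched, h1]
  exact hS.2.1 (by rw [h2, h', hf])

/-- (stay) for the formula itself, if its reads do not touch the hyperplane -/
theorem stay_formula (ρ : Rst D) (φ : TF D) {h : ℤ} {W : Finset (V D)} {η : Ch D}
    (h0 : ∀ z, Yt ρ.n (pt D h) z → Agr W z η → touched ρ φ h z = false) :
    Stay ρ.n (pt D h) (fun y => φ.ev (ρ.x y)) W η := by
  intro z hz hag hf S hS hav F hF v hv heq
  rw [pt_zero'] at heq
  have hY : Yt ρ.n (pt D h) (z + ∑ G ∈ S.erase F, sqc G) :=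
    hz.add_sum ((Finset.erase_subset _ _).trans hS.1)
  have hA : Agr W (z + ∑ G ∈ S.erase F, sqc G) η := by
    intro e he
    rw [Pi.add_apply, Finset.sum_apply, Finset.sum_eq_zero, add_zero]
    · exact hag e he
    · intro G hG
      exact sqc_eq_zero_of_av (hav G (Finset.mem_of_mem_erase hG)) he
  have h' := h0 _ hY hA
  have h1 := (key_sq ρ φ h' hv heq).2
  rw [← sum_erase' hF] at h1
  have h3 := hS.2.2 _ (Finset.erase_ssubset hF)
  simp only at h3
  exact hS.2.1 (by simp only; rw [h1, h3])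

private theorem pt_mem' {n : ℕ} {h : ℤ} (hh : 0 ≤ h ∧ h < n) : pt D h ∈ box D n := by
  rw [mem_box]
  intro k
  by_cases hk : k = 0
  · subst hk; rw [pt_zero']; exact hh
  · have : (pt D h) k = 0 := by simp [pt, hk]
    rw [this]
    omega

/-- the output in a safe state is correct at clean points -/
theorem sim_safe (ρ : Rst D) (φ : TF D) {m k : ℕ} (hφ : φ.Ok m k) {W : Finset (V D)}
    (hc : W.card + 3 * (m * k) + 3 < ρ.n) {h : ℤ} (hh : 0 ≤ h ∧ h < ρ.n) (hWh : Off W h) {c : Bool}
    {t : V D} (ht : t ∈ box D ρ.n) {y : Ch D} (hy : Yt ρ.n t y) (hWt : Off W (t 0))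
    (h0 : ∀ z, Yt ρ.n (pt D h) z → Agr W z y → touched ρ φ h z = false)
    (h1 : ∀ z, Yt ρ.n (pt D h) z → Agr W z y → φ.ev (ρ.x z) = c)
    (hcl : ¬ Tl ρ.T (φ.rd (ρ.x y)) (t 0)) : φ.ev (ρ.x y) = c := by
  have hpt : pt D h ∈ box D ρ.n := pt_mem' hh
  have hWp : Off W ((pt D h) 0) := by rw [pt_zero']; exact hWh
  have hcl' : ¬ Tl ρ.T (φ.joint.reads (ρ.x y)) (t 0) := by rwa [reads_joint]
  have hnt : ¬ Tl ρ.T (φ.rd (ρ.x y)) h := by
    intro hT
    obtain ⟨y', hy', hag, hT'⟩ := touch_tree ρ W φ.joint (depth_joint hφ) hc ht hpt hWt hWp hy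
      hcl' (by rw [pt_zero', reads_joint]; exact hT)
    have := h0 y' hy' hag
    rw [pt_zero', reads_joint] at hT'
    simp [touched, hT'] at this
  obtain ⟨y', hy', hag, _, hv⟩ := reloc_tree ρ W φ.joint (depth_joint hφ) hc ht hpt hWt hWp hy
    hcl' (by rw [pt_zero', reads_joint]; exact hnt)
  rw [← h1 y' hy' hag]
  exact (ev_congr_joint hv).symm

/-- a reference that is touched at all its own points is touched at every clean point -/
theorem touched_of_clean (ρ : Rst D) (φ : TF D) {m k : ℕ} (hφ : φ.Ok m k) {W : Finset (V D)}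
    (hc : W.card + 3 * (m * k) + 3 < ρ.n) {h : ℤ} (hh : 0 ≤ h ∧ h < ρ.n) (hWh : Off W h)
    {t : V D} (ht : t ∈ box D ρ.n) {y : Ch D} (hy : Yt ρ.n t y) (hWt : Off W (t 0))
    (h1 : ∀ z, Yt ρ.n (pt D h) z → Agr W z y → touched ρ φ h z = true)
    (hcl : ¬ Tl ρ.T (φ.rd (ρ.x y)) (t 0)) : Tl ρ.T (φ.rd (ρ.x y)) h := by
  have hpt : pt D h ∈ box D ρ.n := pt_mem' hh
  have hWp : Off W ((pt D h) 0) := by rw [pt_zero']; exact hWh
  have hcl' : ¬ Tl ρ.T (φ.joint.reads (ρ.x y)) (t 0) := by rwa [reads_joint]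
  by_contra hnt
  obtain ⟨y', hy', hag, hr, _⟩ := reloc_tree ρ W φ.joint (depth_joint hφ) hc ht hpt hWt hWp hy
    hcl' (by rw [pt_zero', reads_joint]; exact hnt)
  have := h1 y' hy' hag
  rw [reads_joint, reads_joint] at hr
  simp only [touched, hr, decide_eq_true_eq] at this
  exact hnt this

end FrS
end

section

/-!
The stage lemma (deterministic part).
-/

set_option linter.unusedSectionVars false

namespace FrS

open Finset Fr56
open scoped Classical

variable {D : ℕ}

private theorem stage_agr_mono {W W' : Finset (V D)} (h : W ⊆ W') {y y' : Ch D}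
    (ha : Agr W' y y') : Agr W y y' := fun e he => ha e (he.mono h)

private theorem stage_agr_trans {W : Finset (V D)} {y y' y'' : Ch D}
    (h : Agr W y y') (h' : Agr W y' y'') : Agr W y y'' := fun e he => (h e he).trans (h' e he)

private theorem stage_agr_symm {W : Finset (V D)} {y y' : Ch D}
    (h : Agr W y y') : Agr W y' y := fun e he => (h e he).symm

private theorem stage_off {W W' : Finset (V D)} {L : List (E D)} {h : ℤ}
    (hW : Off W h) (hL : Far L h)
    (hW' : ∀ w ∈ W', w ∈ W ∨ ∃ e ∈ L, e.1 = w ∨ e.1 + ev e.2 = w) : Off W' h := by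
  intro w hw
  rcases hW' w hw with h1 | ⟨e, he, h1 | h1⟩
  · exact hW w h1
  · rw [← h1]
    exact (hL e he).1
  · rw [← h1]
    exact (hL e he).2

private theorem stage_pt_mem {n : ℕ} {h : ℤ} (h0 : 0 ≤ h) (h1 : h < n) : pt D h ∈ box D n := by
  rw [mem_box]
  intro k
  unfold pt
  by_cases hk : k = 0
  · subst hk
    simp [h0, h1]
  · rw [Pi.single_eq_of_ne hk]
    omega

/-- the output tree in a safe state -/
private theorem stage_safe (ρ : Rst D) (φ : TF D) {m k q K G B Dp : ℕ} (hφ : φ.Ok m k)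
    (hdeg : ∀ t ∈ box D ρ.n, DegLt ρ.n q t fun y => bz (φ.ev (ρ.x y)))
    (hB : B = 5 * q ^ 2) (hG : G = B * (4 * B ^ 2)) (hDp : Dp = 2 * (D + 3) * K ^ (D + 3))
    (hn : K + 3 * (m * k) + 3 < ρ.n) {W : Finset (V D)} {η : Ch D} {h : ℤ}
    (hh : 0 ≤ h ∧ h < ρ.n) (hWb : W ⊆ box D ρ.n) (hWo : Off W h) (hWc : W.card + G ≤ K)
    (h0 : ∀ z, Yt ρ.n (pt D h) z → Agr W z η → touched ρ φ h z = false) :
    ∃ A : DT (E D) Bool, A.depth ≤ B * Dp ∧
      ∀ t ∈ box D ρ.n, ∀ y, Yt ρ.n t y → Agr W y η → Off W (t 0) → Far (A.reads y) (t 0) →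
        ¬ Tl ρ.T (φ.rd (ρ.x y)) (t 0) → A.val y = φ.ev (ρ.x y) := by
  have hpt : (pt D h) 0 = h := by simp [pt]
  have hf : DegLt ρ.n q (pt D h) fun y => bz ((fun y => φ.ev (ρ.x y)) y) :=
    hdeg _ (stage_pt_mem hh.1 hh.2)
  obtain ⟨A, hA, hA'⟩ := game (n := ρ.n) (q := q) (K := K) (t := pt D h) (by omega)
    (fun y => φ.ev (ρ.x y)) hf B W η hWb (by rw [hpt]; exact hWo)
    (by rw [← hB, ← hG]; omega) (by rw [← hB, ← hG]; omega) (stay_formula ρ φ h0)
    (by rw [hB]; exact bud_of_deg hf W η)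
  rw [← hDp] at hA
  rw [← hB, ← hG, hpt] at hA'
  let P : Finset (V D) × Ch D → Bool → Prop := fun s c =>
    ∀ z, Yt ρ.n (pt D h) z → Agr s.1 z s.2 → φ.ev (ρ.x z) = c
  let g : Finset (V D) × Ch D → Bool := fun s => if hc : ∃ c, P s c then hc.choose else false
  refine ⟨A.map g, by rw [DT.depth_map]; exact hA, ?_⟩
  intro t ht y hy hag hWt hfar hcl
  rw [DT.reads_map] at hfar
  rw [DT.val_map]
  obtain ⟨⟨hs1, hs2, hs3, hs4, hs5, hs6⟩, c, hc⟩ := hA' y hy.1 hag
  set s := A.val y with hs
  have hoff : Off s.1 (t 0) := stage_off hWt hfar hs6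
  have hex : ∃ c, P s c := ⟨c, fun z hz hzs => hc z hz (stage_agr_trans hzs hs5)⟩
  have hg : g s = hex.choose := by
    show (if hc : ∃ c, P s c then hc.choose else false) = _
    rw [dif_pos hex]
  have hch : P s hex.choose := hex.choose_spec
  rw [← hg] at hch
  refine (sim_safe ρ φ hφ (W := s.1) (by omega) hh hs4 ht hy hoff ?_ ?_ hcl).symm
  · intro z hz hzy
    exact h0 z hz (stage_agr_trans (stage_agr_mono hs1 hzy) hag)
  · intro z hz hzy
    exact hch z hz (stage_agr_trans hzy (stage_agr_symm hs5))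

/-- **stage lemma** -/
theorem stage (ρ : Rst D) (φ : TF D) {m k q s1 stot w K : ℕ} (hφ : φ.Ok m k) (hs1 : 1 ≤ s1)
    (hdeg : ∀ t ∈ box D ρ.n, DegLt ρ.n q t fun y => bz (φ.ev (ρ.x y)))
    (hdegJ : ∀ t ∈ box D ρ.n, ∀ J : Finset ℤ, J ⊆ Finset.Ico (0 : ℤ) ρ.n →
      J.card = 1 ∨ J.card = s1 → DegLt ρ.n q t fun y => if ∀ h ∈ J, Tl ρ.T (φ.rd (ρ.x y)) h then 1 else 0)
    (hw : stot * w ≤ ρ.n) (hnum : ρ.n ^ (D + 3) * 2 ^ q * (3 * (m * k)) ^ s1 < w ^ s1)
    (hK : (s1 + 1) * (4 * (5 * q ^ 2) ^ 3) ≤ K) (hstot : K + s1 < stot)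
    (hn : K + 3 * (m * k) + 3 < ρ.n) :
    ∃ A : DT (E D) Bool,
      A.depth ≤ (s1 + 1) * (5 * q ^ 2) * (2 * (D + 3) * K ^ (D + 3)) ∧
      ∀ t ∈ box D ρ.n, ∀ y, Yt ρ.n t y → Far (A.reads y) (t 0) →
        ¬ Tl ρ.T (φ.rd (ρ.x y)) (t 0) → A.val y = φ.ev (ρ.x y) := by
  obtain ⟨τ, hτi, hτb, hτ⟩ := exists_refs ρ φ hφ hs1
    (fun t ht J hJ hJc => hdegJ t ht J hJ (Or.inr hJc)) hw hnum
  obtain ⟨B, hB⟩ : ∃ B, B = 5 * q ^ 2 := ⟨_, rfl⟩
  obtain ⟨G, hG⟩ : ∃ G, G = B * (4 * B ^ 2) := ⟨_, rfl⟩
  obtain ⟨Dp, hDp⟩ : ∃ Dp, Dp = 2 * (D + 3) * K ^ (D + 3) := ⟨_, rfl⟩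
  rw [← hB, ← hDp]
  have hK' : (s1 + 1) * G ≤ K := by
    rw [hG]
    rw [← hB] at hK
    calc (s1 + 1) * (B * (4 * B ^ 2)) = (s1 + 1) * (4 * B ^ 3) := by ring
      _ ≤ K := hK
  -- the induction
  have key : ∀ c : ℕ, ∀ (J : Finset (Fin stot)) (W : Finset (V D)) (η : Ch D),
      J.card + c = s1 → W ⊆ box D ρ.n → W.card ≤ J.card * G →
      (∀ l ∈ J, ∃ Wl ⊆ W, Off Wl (τ l) ∧
        ∀ z, Yt ρ.n (pt D (τ l)) z → Agr Wl z η → touched ρ φ (τ l) z = true) →
      ∃ A : DT (E D) Bool, A.depth ≤ (c + 1) * (B * Dp) ∧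
        ∀ t ∈ box D ρ.n, ∀ y, Yt ρ.n t y → Agr W y η → Off W (t 0) → Far (A.reads y) (t 0) →
          ¬ Tl ρ.T (φ.rd (ρ.x y)) (t 0) → A.val y = φ.ev (ρ.x y) := by
    intro c
    induction c with
    | zero =>
      intro J W η hJ hWb hWc hinv
      rw [add_zero] at hJ
      have hWK : W.card ≤ K := by
        refine hWc.trans (le_trans ?_ hK')
        exact Nat.mul_le_mul_right _ (by omega)
      refine ⟨DT.leaf false, by simp [DT.depth], ?_⟩
      intro t ht y hy hag hoff hfar hcl
      exfalso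
      have h1 := hτ t ht y hy
      have h2 : J ⊆ univ.filter fun l => Tl ρ.T (φ.rd (ρ.x y)) (τ l) := by
        intro l hl
        rw [mem_filter]
        refine ⟨mem_univ _, ?_⟩
        obtain ⟨Wl, hWl, hWlo, hWlt⟩ := hinv l hl
        have hcl' : Wl.card ≤ W.card := card_le_card hWl
        exact touched_of_clean ρ φ hφ (W := Wl) (by omega) (hτb l) hWlo ht hy
          (fun w hw => hoff w (hWl hw))
          (fun z hz hzy => hWlt z hz (stage_agr_trans hzy (stage_agr_mono hWl hag))) hcl
      have h3 := card_le_card h2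
      omega
    | succ c ih =>
      intro J W η hJ hWb hWc hinv
      -- choose a new reference
      obtain ⟨l, hlJ, hlW⟩ : ∃ l, l ∉ J ∧ Off W (τ l) := by
        by_contra hcon
        push Not at hcon
        have hWK : W.card ≤ K := by
          refine hWc.trans (le_trans ?_ hK')
          exact Nat.mul_le_mul_right _ (by omega)
        have h1 : (univ : Finset (Fin stot)).image τ ⊆ J.image τ ∪ W.image (fun w => w 0) := by
          intro a ha
          obtain ⟨l, -, rfl⟩ := mem_image.1 ha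
          rw [mem_union]
          by_cases hl : l ∈ J
          · exact Or.inl (mem_image_of_mem _ hl)
          · right
            have h2 := hcon l hl
            unfold Off at h2
            push Not at h2
            obtain ⟨w, hw, hw'⟩ := h2
            exact mem_image.2 ⟨w, hw, hw'⟩
        have h2 := card_le_card h1
        rw [card_image_of_injective _ hτi, card_univ, Fintype.card_fin] at h2
        have h3 := card_union_le (J.image τ) (W.image (fun w => w 0))
        have h4 : (J.image τ).card ≤ J.card := card_image_le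
        have h5 : (W.image (fun w => w 0)).card ≤ W.card := card_image_le
        omega
      obtain ⟨h, hh⟩ : ∃ h, h = τ l := ⟨_, rfl⟩
      have hhb : 0 ≤ h ∧ h < ρ.n := by rw [hh]; exact hτb l
      rw [← hh] at hlW
      have hpt : (pt D h) 0 = h := by simp [pt]
      have hptm : pt D h ∈ box D ρ.n := stage_pt_mem hhb.1 hhb.2
      have hf : DegLt ρ.n q (pt D h) fun y => bz (touched ρ φ h y) := by
        have h1 := hdegJ (pt D h) hptm {h} (by
          intro a ha
          rw [mem_singleton] at ha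
          subst ha
          rw [Finset.mem_Ico]
          exact hhb) (Or.inl (card_singleton _))
        have h2 : (fun y : Ch D => bz (touched ρ φ h y)) =
            fun y => if ∀ h' ∈ ({h} : Finset ℤ), Tl ρ.T (φ.rd (ρ.x y)) h' then 1 else 0 := by
          funext y
          simp only [mem_singleton, forall_eq, bz, touched, decide_eq_true_eq]
        rw [h2]
        exact h1
      have hJ1 : (J.card + 2) * G ≤ K := le_trans (Nat.mul_le_mul_right _ (by omega)) hK'
      have hJ2 : (J.card + 2) * G = J.card * G + G + G := by ring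
      obtain ⟨A1, hA1, hA1'⟩ := game (n := ρ.n) (q := q) (K := K) (t := pt D h) (by omega)
        (touched ρ φ h) hf B W η hWb (by rw [hpt]; exact hlW)
        (by rw [← hB, ← hG]; omega) (by rw [← hB, ← hG]; omega) (stay_touched ρ φ W η)
        (by rw [hB]; exact bud_of_deg hf W η)
      rw [← hDp] at hA1
      rw [← hB, ← hG, hpt] at hA1'
      -- the continuation
      have hcont : ∀ s : Finset (V D) × Ch D, ∃ A : DT (E D) Bool,
          A.depth ≤ (c + 1) * (B * Dp) ∧
          (W ⊆ s.1 → s.1 ⊆ box D ρ.n → s.1.card ≤ W.card + G → Off s.1 h → Agr W s.2 η →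
            (∃ b, ∀ z, Yt ρ.n (pt D h) z → Agr s.1 z s.2 → touched ρ φ h z = b) →
            ∀ t ∈ box D ρ.n, ∀ y, Yt ρ.n t y → Agr s.1 y s.2 → Off s.1 (t 0) →
              Far (A.reads y) (t 0) → ¬ Tl ρ.T (φ.rd (ρ.x y)) (t 0) →
                A.val y = φ.ev (ρ.x y)) := by
        intro s
        by_cases hs : W ⊆ s.1 ∧ s.1 ⊆ box D ρ.n ∧ s.1.card ≤ W.card + G ∧ Off s.1 h ∧
          Agr W s.2 η ∧
            (∃ b, ∀ z, Yt ρ.n (pt D h) z → Agr s.1 z s.2 → touched ρ φ h z = b)
        · obtain ⟨hs1, hs2, hs3, hs4, hs5, b, hb⟩ := hs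
          cases b with
          | true =>
            obtain ⟨A, hA, hA'⟩ := ih (insert l J) s.1 s.2
              (by rw [card_insert_of_notMem hlJ]; omega) hs2
              (by
                rw [card_insert_of_notMem hlJ]
                calc s.1.card ≤ W.card + G := hs3
                  _ ≤ J.card * G + G := Nat.add_le_add_right hWc _
                  _ = (J.card + 1) * G := by ring)
              (by
                intro l' hl'
                rcases mem_insert.1 hl' with h1 | h1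
                · subst h1
                  rw [← hh]
                  exact ⟨s.1, Subset.rfl, hs4, hb⟩
                · obtain ⟨Wl, hWl, hWlo, hWlt⟩ := hinv l' h1
                  exact ⟨Wl, hWl.trans hs1, hWlo, fun z hz hzs =>
                    hWlt z hz (stage_agr_trans hzs (stage_agr_mono hWl hs5))⟩)
            exact ⟨A, hA, fun _ _ _ _ _ _ => hA'⟩
          | false =>
            obtain ⟨A, hA, hA'⟩ := stage_safe ρ φ hφ hdeg hB hG hDp hn hhb hs2 hs4
              (by omega) hb
            refine ⟨A, hA.trans ?_, fun _ _ _ _ _ _ => hA'⟩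
            exact Nat.le_mul_of_pos_left _ (by omega)
        · refine ⟨DT.leaf false, by simp [DT.depth], ?_⟩
          intro h1 h2 h3 h4 h5 h6
          exact absurd ⟨h1, h2, h3, h4, h5, h6⟩ hs
      choose kk hkk1 hkk2 using hcont
      refine ⟨A1.bind kk, ?_, ?_⟩
      · refine (DT.depth_bind A1 kk hkk1).trans ?_
        calc A1.depth + (c + 1) * (B * Dp) ≤ B * Dp + (c + 1) * (B * Dp) :=
              Nat.add_le_add_right hA1 _
          _ = (c + 1 + 1) * (B * Dp) := by ring
      · intro t ht y hy hag hoff hfar hcl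
        rw [DT.reads_bind] at hfar
        rw [DT.val_bind]
        obtain ⟨⟨hs1, hs2, hs3, hs4, hs5, hs6⟩, b, hb⟩ := hA1' y hy.1 hag
        have hfar1 : Far (A1.reads y) (t 0) := fun e he => hfar e (List.mem_append_left _ he)
        have hfar2 : Far ((kk (A1.val y)).reads y) (t 0) :=
          fun e he => hfar e (List.mem_append_right _ he)
        refine hkk2 (A1.val y) hs1 hs2 hs3 hs4 ?_ ⟨b, ?_⟩ t ht y hy (stage_agr_symm hs5)
          (stage_off hoff hfar1 hs6) hfar2 hcl
        · exact stage_agr_trans (stage_agr_mono hs1 hs5) hag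
        · intro z hz hzs
          exact hb z hz (stage_agr_trans hzs hs5)
  obtain ⟨A, hA, hA'⟩ := key s1 ∅ ∅ 0 (by simp) (by simp) (by simp) (by simp)
  refine ⟨A, by rw [mul_assoc]; exact hA, ?_⟩
  intro t ht y hy hfar hcl
  exact hA' t ht y hy (fun e he => absurd he not_inc_empty) (fun w hw => by simp at hw) hfar hcl

end FrS
end
end
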