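import Pool.Agent.Lib.MP_51bb46_lc.S.SampB
import Pool.Agent.Lib.MP_51bb46_lc.B.Sound
import Pool.Agent.Lib.MP_51bb46_lc.S.Ren
import Pool.Agent.Lib.MP_51bb46_lc.S.ObjC
import Pool.Agent.Lib.MP_51bb46_lc.S.Stage
import Pool.Agent.Lib.MP_51bb46_lc.S.SemL

section

section

/-!
The numerical conditions for powers.
-/

set_option linter.unusedSectionVars false

namespace FrS

open Finset

lemma numA_pow_add_one_le (s a : ℕ) (hs : 2 ≤ s) : s ^ a + 1 ≤ s ^ (a + 1) := by
  have h1 : 1 ≤ s ^ a := Nat.one_le_pow _ _ (by omega)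
  calc s ^ a + 1 ≤ s ^ a * 2 := by omega
    _ ≤ s ^ a * s := Nat.mul_le_mul_left _ hs
    _ = s ^ (a + 1) := (pow_succ _ _).symm

/-- the condition `hunion` -/
lemma numA_union (D M s nu' : ℕ) (hs121 : 121 ≤ s) (hnu : nu' ≤ M)
    (h36 : 36 * 2 ^ (2 * (D + 3) * (D + 2)) ≤ s)
    (hexp : M * (D + 3) + 2 * (D + 3) * (D + 2) + 1 < 4 * s) :
    ((s ^ s : ℕ) : ℝ) * (2 * (((s ^ nu' : ℕ) : ℝ) + 1) ^ s) * ((s ^ nu' : ℕ) : ℝ) ^ (D + 3) *
    (18 * (2 * (s : ℝ)) ^ (2 * (D + 3) * (D + 2)) * (11 / (s : ℝ)) ^ (2 * (M + 6) * s)) < 1 := by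
  set χ := 2 * (D + 3) * (D + 2) with hχ
  have hsr : (121 : ℝ) ≤ s := by exact_mod_cast hs121
  have hs0 : (0 : ℝ) < s := by linarith
  have hs1 : (1 : ℝ) ≤ s := by linarith
  -- (11/s)^(2 (M+6) s) ≤ 1 / s^((M+6) s)
  have h1 : (11 / (s : ℝ)) ^ (2 * (M + 6) * s) ≤ 1 / (s : ℝ) ^ ((M + 6) * s) := by
    have h2 : (11 / (s : ℝ)) ^ 2 ≤ 1 / s := by
      rw [div_pow, div_le_div_iff₀ (by positivity) hs0]
      nlinarith
    calc (11 / (s : ℝ)) ^ (2 * (M + 6) * s) = ((11 / (s : ℝ)) ^ 2) ^ ((M + 6) * s) := by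
          rw [← pow_mul]; ring_nf
      _ ≤ (1 / (s : ℝ)) ^ ((M + 6) * s) := pow_le_pow_left₀ (by positivity) h2 _
      _ = _ := by rw [div_pow, one_pow]
  have h2 : (((s ^ nu' : ℕ) : ℝ) + 1) ^ s ≤ (s : ℝ) ^ ((M + 1) * s) := by
    rw [pow_mul]
    refine pow_le_pow_left₀ (by positivity) ?_ _
    have h3 : s ^ nu' + 1 ≤ s ^ (M + 1) :=
      (Nat.add_le_add_right (Nat.pow_le_pow_right (by omega) hnu) 1).trans
        (numA_pow_add_one_le s M (by omega))
    exact_mod_cast h3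
  have h3 : ((s ^ nu' : ℕ) : ℝ) ^ (D + 3) ≤ (s : ℝ) ^ (M * (D + 3)) := by
    push_cast
    rw [← pow_mul]
    exact pow_le_pow_right₀ hs1 (Nat.mul_le_mul_right _ hnu)
  have h4 : (36 * 2 ^ χ : ℝ) ≤ s := by exact_mod_cast h36
  calc ((s ^ s : ℕ) : ℝ) * (2 * (((s ^ nu' : ℕ) : ℝ) + 1) ^ s) * ((s ^ nu' : ℕ) : ℝ) ^ (D + 3) *
        (18 * (2 * (s : ℝ)) ^ χ * (11 / (s : ℝ)) ^ (2 * (M + 6) * s))
      ≤ ((s : ℝ) ^ s) * (2 * (s : ℝ) ^ ((M + 1) * s)) * (s : ℝ) ^ (M * (D + 3)) *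
        (18 * (2 * (s : ℝ)) ^ χ * (1 / (s : ℝ) ^ ((M + 6) * s))) := by
        push_cast at h2 h3 ⊢
        gcongr
    _ = ((36 * 2 ^ χ) * (s : ℝ) ^ (M * (D + 3) + χ)) *
          ((s : ℝ) ^ (s + (M + 1) * s) / (s : ℝ) ^ ((M + 6) * s)) := by
        rw [mul_pow, pow_add _ (M * (D + 3)) χ, pow_add _ s ((M + 1) * s)]
        ring
    _ ≤ ((s : ℝ) * (s : ℝ) ^ (M * (D + 3) + χ)) *
          ((s : ℝ) ^ (s + (M + 1) * s) / (s : ℝ) ^ ((M + 6) * s)) := by
        gcongr
    _ = (s : ℝ) ^ (M * (D + 3) + χ + 1) / (s : ℝ) ^ (4 * s) := by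
        rw [mul_div_assoc', div_eq_div_iff (by positivity) (by positivity), ← pow_succ', ← pow_add,
          ← pow_add, ← pow_add]
        congr 1
        ring
    _ < 1 := by
        rw [div_lt_one (by positivity)]
        exact pow_lt_pow_right₀ (by linarith) hexp

/-- the numerical conditions hold for parameters that are powers of `s`, for large `s`;
`A = 2 (D+3) (D+2)`, `T = s ^ tau`, `m = s ^ (2 * mu - 1)`, `k = s ^ (8 (D + 3) + 5)`,
`n = s ^ nu'` with `nu' ≥ nu := 2 * mu + 8 * (D + 3) + 20` and `nu' ≤ M`,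
`q = 2 * (M + 6) * s`, `s1 = s`, `K = s ^ 8`, `stot = s ^ 9`, `w = s ^ (nu - 9)`,
`H = s ^ s`, `lam = s` -/
theorem num_pow (D tau mu M : ℕ) (hmu : 1 ≤ mu)
    (htau : mu + 2 * (D + 3) * (D + 2) + 8 * (D + 3) + 6 ≤ tau * (D + 2)) :
    ∃ s₀, ∀ s ≥ s₀, ∀ nu', 2 * mu + 8 * (D + 3) + 20 ≤ nu' → nu' ≤ M →
      Num D (s ^ nu') (s ^ tau) (s ^ (2 * mu - 1)) (s ^ (8 * (D + 3) + 5)) (2 * (M + 6) * s) s
        (s ^ 9) (s ^ (2 * mu + 8 * (D + 3) + 11)) (s ^ 8) (s ^ s) (s : ℝ) := by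
  set χ := 2 * (D + 3) * (D + 2) with hχ
  obtain ⟨a1, ha1⟩ : ∃ a, a = 3200 * (D + 3) * (D + 2) * 2 ^ χ := ⟨_, rfl⟩
  obtain ⟨a2, ha2⟩ : ∃ a, a = 36 * 2 ^ χ := ⟨_, rfl⟩
  obtain ⟨a3, ha3⟩ : ∃ a, a = 64000 * (M + 6) ^ 6 := ⟨_, rfl⟩
  obtain ⟨a4, ha4⟩ : ∃ a, a = 4 ^ (M + 6) := ⟨_, rfl⟩
  obtain ⟨a5, ha5⟩ : ∃ a, a = M * (D + 3) + χ + 1 := ⟨_, rfl⟩
  obtain ⟨a7, ha7⟩ : ∃ a, a = 80 * (M + 6) ^ 2 * (D + 3) := ⟨_, rfl⟩
  refine ⟨a1 + a2 + a3 + a4 + a5 + 121 + a7, fun s hs nu' hnu1 hnu2 => ?_⟩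
  have e1 : a1 ≤ s := by omega
  have e2 : a2 ≤ s := by omega
  have e3 : a3 ≤ s := by omega
  have e4 : a4 ≤ s := by omega
  have e5 : a5 ≤ s := by omega
  have e6 : 121 ≤ s := by omega
  have e7 : a7 ≤ s := by omega
  rw [ha1] at e1
  rw [ha2] at e2
  rw [ha3] at e3
  rw [ha4] at e4
  rw [ha5] at e5
  rw [ha7] at e7
  clear hs ha1 ha2 ha3 ha4 ha5 ha7 a1 a2 a3 a4 a5 a7
  have hs0 : 0 < s := by omega
  have hs1 : 1 ≤ s := hs0
  have hsr : (121 : ℝ) ≤ s := by exact_mod_cast e6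
  have hmono : ∀ {a b : ℕ}, a ≤ b → s ^ a ≤ s ^ b := fun h => Nat.pow_le_pow_right hs1 h
  have hmk : s ^ (2 * mu - 1) * s ^ (8 * (D + 3) + 5) = s ^ (2 * mu + 8 * (D + 3) + 4) := by
    rw [← pow_add]
    congr 1
    omega
  refine ⟨Nat.pow_pos hs0, hs1, ?_, Nat.one_le_pow _ _ hs0, ?_, by linarith, ?_, ?_, ?_, ?_, ?_, ?_,
    ?_, ?_⟩
  · exact Nat.mul_pos (by omega) hs0
  · calc 2 ≤ s ^ 1 := by rw [pow_one]; omega
      _ ≤ s ^ nu' := hmono (by omega)
  · -- hb
    have hsq : Nat.sqrt (s * s ^ (2 * mu - 1)) = s ^ mu := by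
      have : s * s ^ (2 * mu - 1) = s ^ mu * s ^ mu := by
        rw [← pow_succ', ← pow_add]
        congr 1
        omega
      rw [this, Nat.sqrt_eq]
    rw [hsq]
    have h1 : (2 * s) ^ χ * (4 * (D + 3) * (D + 2) * (400 * (s ^ mu + 1) * s ^ (8 * (D + 3) + 5)))
        ≤ (s ^ tau) ^ (D + 2) := by
      have h2 : s ^ mu + 1 ≤ 2 * s ^ mu := by
        have : 1 ≤ s ^ mu := Nat.one_le_pow _ _ hs0
        omega
      calc (2 * s) ^ χ * (4 * (D + 3) * (D + 2) * (400 * (s ^ mu + 1) * s ^ (8 * (D + 3) + 5)))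
          ≤ (2 * s) ^ χ * (4 * (D + 3) * (D + 2) * (400 * (2 * s ^ mu) * s ^ (8 * (D + 3) + 5))) := by
            gcongr
        _ = (3200 * (D + 3) * (D + 2) * 2 ^ χ) * s ^ (χ + mu + (8 * (D + 3) + 5)) := by
            rw [mul_pow, pow_add, pow_add]
            ring
        _ ≤ s * s ^ (χ + mu + (8 * (D + 3) + 5)) := Nat.mul_le_mul_right _ e1
        _ = s ^ (χ + mu + (8 * (D + 3) + 5) + 1) := (pow_succ' _ _).symm
        _ ≤ s ^ (tau * (D + 2)) := hmono (by omega)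
        _ = (s ^ tau) ^ (D + 2) := by rw [← pow_mul]
    have h3 : (((2 * s) ^ χ * (4 * (D + 3) * (D + 2) *
        (400 * (s ^ mu + 1) * s ^ (8 * (D + 3) + 5))) : ℕ) : ℝ) ≤ (((s ^ tau) ^ (D + 2) : ℕ) : ℝ) := by
      exact_mod_cast h1
    push_cast at h3 ⊢
    exact h3
  · -- hunion
    have := numA_union D M s nu' e6 hnu2 e2 (by rw [← hχ]; omega)
    push_cast at this ⊢
    exact this
  · -- hw
    rw [← pow_add]
    exact hmono (by omega)
  · -- href
    rw [hmk]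
    have hmkpos : 0 < s ^ (2 * mu + 8 * (D + 3) + 4) := Nat.pow_pos hs0
    have hw : s ^ (2 * mu + 8 * (D + 3) + 11) = s ^ 7 * s ^ (2 * mu + 8 * (D + 3) + 4) := by
      rw [← pow_add]
      congr 1
      omega
    rw [hw, mul_pow, mul_pow, ← mul_assoc]
    refine Nat.mul_lt_mul_of_pos_right ?_ (Nat.pow_pos hmkpos)
    calc (s ^ nu') ^ (D + 3) * 2 ^ (2 * (M + 6) * s) * 3 ^ s
        ≤ s ^ (M * (D + 3)) * s ^ s * s ^ s := by
          refine Nat.mul_le_mul (Nat.mul_le_mul ?_ ?_) (Nat.pow_le_pow_left (by omega) _)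
          · rw [← pow_mul]
            exact hmono (Nat.mul_le_mul_right _ hnu2)
          · calc 2 ^ (2 * (M + 6) * s) = (4 ^ (M + 6)) ^ s := by
                  rw [show (4 : ℕ) = 2 ^ 2 by norm_num, ← pow_mul, ← pow_mul, mul_assoc]
              _ ≤ s ^ s := Nat.pow_le_pow_left e4 _
      _ = s ^ (M * (D + 3) + s + s) := by rw [pow_add, pow_add]
      _ < s ^ (7 * s) := Nat.pow_lt_pow_right (by omega) (by omega)
      _ = (s ^ 7) ^ s := by rw [← pow_mul]
  · -- hK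
    calc (s + 1) * (4 * (5 * (2 * (M + 6) * s) ^ 2) ^ 3)
        ≤ (2 * s) * (4 * (5 * (2 * (M + 6) * s) ^ 2) ^ 3) := Nat.mul_le_mul_right _ (by omega)
      _ = (64000 * (M + 6) ^ 6) * s ^ 7 := by ring
      _ ≤ s * s ^ 7 := Nat.mul_le_mul_right _ e3
      _ = s ^ 8 := by ring
  · -- hstot
    have h1 : s ^ 1 < s ^ 8 := Nat.pow_lt_pow_right (by omega) (by norm_num)
    have h2 : 2 * s ^ 8 ≤ s ^ 9 := by
      calc 2 * s ^ 8 ≤ s * s ^ 8 := Nat.mul_le_mul_right _ (by omega)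
        _ = s ^ 9 := by ring
    rw [pow_one] at h1
    omega
  · -- hn
    rw [hmk]
    have h0 : 1 ≤ s ^ (2 * mu + 8 * (D + 3) + 10) := Nat.one_le_pow _ _ hs0
    have h1 : s ^ 8 ≤ s ^ (2 * mu + 8 * (D + 3) + 10) := hmono (by omega)
    have h2 : s ^ (2 * mu + 8 * (D + 3) + 4) ≤ s ^ (2 * mu + 8 * (D + 3) + 10) := hmono (by omega)
    have h3 : s ^ (8 * (D + 3) + 5) ≤ s ^ (2 * mu + 8 * (D + 3) + 10) := hmono (by omega)
    have h4 : 121 * s ^ (2 * mu + 8 * (D + 3) + 10) ≤ s ^ nu' := by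
      calc 121 * s ^ (2 * mu + 8 * (D + 3) + 10) ≤ s * s ^ (2 * mu + 8 * (D + 3) + 10) :=
            Nat.mul_le_mul_right _ e6
        _ = s ^ (2 * mu + 8 * (D + 3) + 11) := (pow_succ' _ _).symm
        _ ≤ s ^ nu' := hmono (by omega)
    omega
  · -- hk
    calc (s + 1) * (5 * (2 * (M + 6) * s) ^ 2) * (2 * (D + 3) * (s ^ 8) ^ (D + 3))
        ≤ (2 * s) * (5 * (2 * (M + 6) * s) ^ 2) * (2 * (D + 3) * (s ^ 8) ^ (D + 3)) := by
          gcongr
          omega
      _ = (80 * (M + 6) ^ 2 * (D + 3)) * s ^ (8 * (D + 3) + 3) := by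
          rw [← pow_mul, pow_add]
          ring
      _ ≤ s * s ^ (8 * (D + 3) + 3) := Nat.mul_le_mul_right _ e7
      _ = s ^ (8 * (D + 3) + 4) := (pow_succ' _ _).symm
      _ ≤ s ^ (8 * (D + 3) + 5) := hmono (by omega)

end FrS
end

section

/-!
Choice of the parameters.
-/

set_option linter.unusedSectionVars false

namespace FrS

open Finset

/-- integer roots -/
theorem exists_root_nat (M N : ℕ) (hM : 1 ≤ M) : ∃ s : ℕ, s ^ M ≤ N ∧ N < (s + 1) ^ M := by
  classical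
  have hex : ∃ t : ℕ, N < (t + 1) ^ M := by
    refine ⟨N, ?_⟩
    calc N < N + 1 := Nat.lt_succ_self N
      _ = (N + 1) ^ 1 := (pow_one _).symm
      _ ≤ (N + 1) ^ M := Nat.pow_le_pow_right (Nat.succ_pos N) hM
  refine ⟨Nat.find hex, ?_, Nat.find_spec hex⟩
  by_cases h0 : Nat.find hex = 0
  · rw [h0, zero_pow (by omega)]
    exact Nat.zero_le _
  · obtain ⟨t, ht⟩ := Nat.exists_eq_succ_of_ne_zero h0
    have hlt : t < Nat.find hex := by omega
    have := Nat.find_min hex hlt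
    rw [ht]
    exact not_lt.mp this

/-- **choice of parameters** -/
theorem numeric (D : ℕ) (ε : ℝ) (hε : 0 < ε) : ∃ c : ℝ, 0 < c ∧ ∀ C : ℕ, ∃ N₀ : ℕ, ∀ N ≥ N₀,
    ∃ (L T m k q s1 stot w K H l rho : ℕ) (lam : ℝ) (nn : ℕ → ℕ),
      (∀ j < L, Num D (nn j) T m k q s1 stot w K H lam) ∧ (∀ j < L, nn j * T ≤ nn (j + 1)) ∧
      nn L = N ∧ 2 * (D + 3) < l ∧ l ≤ k ∧ 1 ≤ rho ∧ 8 * rho + 8 ≤ m ∧
      C * (2 * k) + 3 * k + 3 < nn 0 ∧
      (N : ℝ) ^ (2 * (D + 2) - ε) ≤ (l * rho ^ L : ℕ) ∧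
      N ^ (D + 3) * 2 ^ (2 * (D + 3)) * (4 * (D + 3) + 1) * 2 ≤ l * rho ^ L ∧
      ∀ P : ℕ, (P : ℝ) < 2 ^ ((N : ℝ) ^ c) →
        (P + 1) * (2 * (l * rho ^ L) * (l * rho ^ L + 1)) + 2 ≤ H := by
  -- parameters
  set e' : ℝ := min ε (1 / 2) with he'
  have he'0 : 0 < e' := lt_min hε (by norm_num)
  have he'1 : e' ≤ 1 / 2 := min_le_right _ _
  have he'ε : e' ≤ ε := min_le_left _ _
  obtain ⟨χ, hχ⟩ : ∃ χ : ℕ, χ = 2 * (D + 3) * (D + 2) := ⟨_, rfl⟩
  obtain ⟨d, hd⟩ : ∃ d : ℕ, d = D + 3 := ⟨_, rfl⟩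
  obtain ⟨tau, ht1, ht2⟩ : ∃ tau : ℕ, (2 * χ + 16 * d + 16 : ℝ) ≤ tau * e' ∧
      χ + 8 * d + 7 ≤ tau * (D + 2) := by
    refine ⟨max ⌈(2 * χ + 16 * d + 16 : ℝ) / e'⌉₊ (χ + 8 * d + 7), ?_, ?_⟩
    · rw [← div_le_iff₀ he'0]
      refine (Nat.le_ceil _).trans ?_
      exact_mod_cast le_max_left _ _
    · calc χ + 8 * d + 7 = (χ + 8 * d + 7) * 1 := (mul_one _).symm
        _ ≤ (max ⌈(2 * χ + 16 * d + 16 : ℝ) / e'⌉₊ (χ + 8 * d + 7)) * (D + 2) :=
          Nat.mul_le_mul (le_max_right _ _) (by omega)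
  obtain ⟨mu', hmu'⟩ := Nat.exists_eq_add_of_le ht2
  obtain ⟨mu, hmu⟩ : ∃ mu : ℕ, mu = mu' + 1 := ⟨_, rfl⟩
  have hmu1 : 1 ≤ mu := by omega
  have htau : mu + χ + 8 * d + 6 = tau * (D + 2) := by omega
  obtain ⟨nu, hnu⟩ : ∃ nu : ℕ, nu = 2 * mu + 8 * d + 20 := ⟨_, rfl⟩
  obtain ⟨L, hL⟩ : ∃ L : ℕ, L = 2 * (D + 2) * nu + 4 := ⟨_, rfl⟩
  obtain ⟨M, hM⟩ : ∃ M : ℕ, M = nu + tau * L := ⟨_, rfl⟩
  have hM1 : 1 ≤ M := by omega
  have hL1 : 1 ≤ L := by omega
  -- exponent inequality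
  have hexp : (M : ℝ) * (2 * (D + 2) - e') ≤ ((2 * mu - 2 : ℕ) * L : ℕ) := by
    have h1 : ((2 * mu - 2 : ℕ) : ℝ) = 2 * tau * (D + 2) - 2 * χ - 16 * d - 14 := by
      have h2 : (2 * mu - 2) + 2 * χ + 16 * d + 14 = 2 * (tau * (D + 2)) := by omega
      have h3 : ((2 * mu - 2 : ℕ) : ℝ) + 2 * χ + 16 * d + 14 = 2 * (tau * (D + 2)) := by
        exact_mod_cast h2
      linarith
    have h4 : (M : ℝ) = nu + tau * L := by rw [hM]; push_cast; ring
    have h5 : (L : ℝ) = 2 * (D + 2) * nu + 4 := by rw [hL]; push_cast; ring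
    have hnu0 : (0 : ℝ) ≤ nu := Nat.cast_nonneg _
    have hL0 : (0 : ℝ) ≤ L := Nat.cast_nonneg _
    have hD0 : (0 : ℝ) ≤ D := Nat.cast_nonneg _
    rw [Nat.cast_mul, h1, h4]
    have h6 : (0 : ℝ) ≤ L * (tau * e' - 2 * χ - 16 * d - 16) :=
      mul_nonneg hL0 (by linarith)
    have h7 : (0 : ℝ) ≤ nu * e' := mul_nonneg hnu0 he'0.le
    nlinarith [h6, h7, h5]
  have hexpD : M * (D + 3) ≤ (2 * mu - 2) * L := by
    have h1 : ((M * (D + 3) : ℕ) : ℝ) ≤ ((2 * mu - 2 : ℕ) * L : ℕ) := by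
      refine le_trans ?_ hexp
      push_cast
      have hM0 : (0 : ℝ) ≤ M := Nat.cast_nonneg _
      have hD0 : (0 : ℝ) ≤ D := Nat.cast_nonneg _
      apply mul_le_mul_of_nonneg_left _ hM0
      linarith
    exact_mod_cast h1
  refine ⟨1 / (2 * M + 2), by positivity, fun C => ?_⟩
  obtain ⟨s₀, hs₀⟩ := num_pow D tau mu M hmu1 (by rw [← htau, hχ, hd])
  obtain ⟨E, hE⟩ : ∃ E : ℕ, E = 1 + (2 * mu - 2) * L := ⟨_, rfl⟩
  obtain ⟨K₁, hK₁⟩ : ∃ K₁ : ℕ, K₁ = 2 ^ (M * (D + 3)) *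
    (2 ^ (2 * (D + 3)) * (4 * (D + 3) + 1) * 2) := ⟨_, rfl⟩
  obtain ⟨K₂, hK₂⟩ : ∃ K₂ : ℕ, K₂ = 2 ^ (2 * M * (D + 2)) := ⟨_, rfl⟩
  obtain ⟨S, hS⟩ : ∃ S : ℕ, S = s₀ + 2 * (D + 3) + 16 + (2 * C + 7) + K₁ + K₂ + (4 * E + 4) :=
    ⟨_, rfl⟩
  refine ⟨S ^ M, fun N hN => ?_⟩
  obtain ⟨s, hsN, hNs⟩ := exists_root_nat M N hM1
  have hSs : S ≤ s := by
    by_contra h
    push Not at h
    have : (s + 1) ^ M ≤ S ^ M := Nat.pow_le_pow_left h M
    omega
  have hs1 : 1 ≤ s := by omega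
  have hNs2 : N ≤ (2 * s) ^ M := hNs.le.trans (Nat.pow_le_pow_left (by omega) M)
  have hN1 : 1 ≤ N := le_trans (Nat.one_le_pow _ _ hs1) hsN
  have hX : s * (s ^ (2 * mu - 2)) ^ L = s ^ E := by
    rw [← pow_mul, hE, pow_add, pow_one]
  refine ⟨L, s ^ tau, s ^ (2 * mu - 1), s ^ (8 * (D + 3) + 5), 2 * (M + 6) * s, s, s ^ 9,
    s ^ (2 * mu + 8 * (D + 3) + 11), s ^ 8, s ^ s, s, s ^ (2 * mu - 2), (s : ℝ),
    fun j => if j < L then s ^ (nu + tau * j) else N, ?_, ?_, ?_, ?_, ?_, ?_, ?_, ?_, ?_, ?_, ?_⟩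
  · intro j hj
    simp only [if_pos hj]
    refine hs₀ s (by omega) _ (by omega) ?_
    rw [hM]
    have : tau * j ≤ tau * L := Nat.mul_le_mul_left _ hj.le
    omega
  · intro j hj
    simp only [if_pos hj]
    by_cases hj1 : j + 1 < L
    · rw [if_pos hj1, ← pow_add]
      apply le_of_eq
      congr 1
      ring
    · rw [if_neg hj1, ← pow_add]
      refine le_trans (le_of_eq ?_) hsN
      have : j + 1 = L := by omega
      rw [hM, ← this]
      congr 1
      ring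
  · simp
  · omega
  · exact Nat.le_self_pow (by omega) s
  · exact Nat.one_le_pow _ _ hs1
  · have h1 : s ^ (2 * mu - 1) = s * s ^ (2 * mu - 2) := by
      rw [← pow_succ']
      congr 1
      omega
    rw [h1]
    have h2 : 1 ≤ s ^ (2 * mu - 2) := Nat.one_le_pow _ _ hs1
    have h3 : 16 * s ^ (2 * mu - 2) ≤ s * s ^ (2 * mu - 2) :=
      Nat.mul_le_mul_right _ (by omega)
    omega
  · have h0 : (if 0 < L then s ^ (nu + tau * 0) else N) = s ^ nu := by
      rw [if_pos (by omega)]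
      simp
    simp only [h0]
    have h1 : 1 ≤ s ^ (8 * (D + 3) + 5) := Nat.one_le_pow _ _ hs1
    have h2 : s * s ^ (8 * (D + 3) + 5) ≤ s ^ nu := by
      rw [← pow_succ']
      exact Nat.pow_le_pow_right hs1 (by omega)
    have h3 : (2 * C + 7) * s ^ (8 * (D + 3) + 5) ≤ s * s ^ (8 * (D + 3) + 5) :=
      Nat.mul_le_mul_right _ (by omega)
    nlinarith
  · rw [hX]
    have hs1R : (1 : ℝ) ≤ s := by exact_mod_cast hs1
    have hN1R : (1 : ℝ) ≤ N := by exact_mod_cast hN1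
    have hD0 : (0 : ℝ) ≤ D := Nat.cast_nonneg _
    have hM0 : (0 : ℝ) ≤ M := Nat.cast_nonneg _
    calc (N : ℝ) ^ (2 * ((D : ℝ) + 2) - ε) ≤ (N : ℝ) ^ (2 * ((D : ℝ) + 2) - e') :=
          Real.rpow_le_rpow_of_exponent_le hN1R (by linarith)
      _ ≤ (((2 * s : ℕ) : ℝ) ^ M) ^ (2 * ((D : ℝ) + 2) - e') := by
          apply Real.rpow_le_rpow (by linarith) _ (by linarith)
          exact_mod_cast hNs2
      _ = ((2 * s : ℕ) : ℝ) ^ ((M : ℝ) * (2 * ((D : ℝ) + 2) - e')) := by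
          rw [← Real.rpow_natCast, ← Real.rpow_mul (Nat.cast_nonneg _)]
      _ = (2 : ℝ) ^ ((M : ℝ) * (2 * ((D : ℝ) + 2) - e')) *
            (s : ℝ) ^ ((M : ℝ) * (2 * ((D : ℝ) + 2) - e')) := by
          rw [Nat.cast_mul, Real.mul_rpow (by norm_num) (by linarith)]
          norm_num
      _ ≤ (K₂ : ℝ) * (s : ℝ) ^ (((2 * mu - 2) * L : ℕ) : ℝ) := by
          apply mul_le_mul _ _ (Real.rpow_nonneg (by linarith) _) (Nat.cast_nonneg _)
          · rw [hK₂]
            push_cast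
            rw [← Real.rpow_natCast]
            apply Real.rpow_le_rpow_of_exponent_le (by norm_num)
            push_cast
            nlinarith
          · exact Real.rpow_le_rpow_of_exponent_le hs1R hexp
      _ = ((K₂ * s ^ ((2 * mu - 2) * L) : ℕ) : ℝ) := by
          rw [Real.rpow_natCast]
          push_cast
          ring
      _ ≤ ((s ^ E : ℕ) : ℝ) := by
          apply Nat.cast_le.mpr
          rw [hE, pow_add, pow_one]
          exact Nat.mul_le_mul_right _ (by omega)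
  · rw [hX]
    calc N ^ (D + 3) * 2 ^ (2 * (D + 3)) * (4 * (D + 3) + 1) * 2
        ≤ ((2 * s) ^ M) ^ (D + 3) * 2 ^ (2 * (D + 3)) * (4 * (D + 3) + 1) * 2 := by
          gcongr
      _ = K₁ * s ^ (M * (D + 3)) := by
          rw [← pow_mul, mul_pow, hK₁]
          ring
      _ ≤ s * s ^ ((2 * mu - 2) * L) :=
          Nat.mul_le_mul (by omega) (Nat.pow_le_pow_right hs1 hexpD)
      _ = s ^ E := by rw [hE, pow_add, pow_one]
  · intro P hP
    rw [hX]
    have hs1R : (1 : ℝ) ≤ s := by exact_mod_cast hs1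
    have hM0 : (0 : ℝ) ≤ M := Nat.cast_nonneg _
    -- `N ^ c ≤ s`
    have hNc : (N : ℝ) ^ (1 / (2 * (M : ℝ) + 2)) ≤ s := by
      calc (N : ℝ) ^ (1 / (2 * (M : ℝ) + 2))
          ≤ ((((s * s : ℕ)) : ℝ) ^ M) ^ (1 / (2 * (M : ℝ) + 2)) := by
            apply Real.rpow_le_rpow (Nat.cast_nonneg _) _ (by positivity)
            have : N ≤ (s * s) ^ M :=
              hNs2.trans (Nat.pow_le_pow_left (Nat.mul_le_mul_right _ (by omega)) M)
            exact_mod_cast this
        _ = (s : ℝ) ^ (2 * (M : ℝ) * (1 / (2 * (M : ℝ) + 2))) := by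
            rw [Nat.cast_mul, ← pow_two, ← pow_mul, ← Real.rpow_natCast,
              ← Real.rpow_mul (by linarith)]
            push_cast
            rfl
        _ ≤ (s : ℝ) ^ (1 : ℝ) := by
            apply Real.rpow_le_rpow_of_exponent_le hs1R
            rw [mul_one_div, div_le_one (by positivity)]
            linarith
        _ = s := Real.rpow_one _
    have hP2 : P < 2 ^ s := by
      have : (P : ℝ) < ((2 ^ s : ℕ) : ℝ) := by
        refine hP.trans_le ?_
        push_cast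
        rw [← Real.rpow_natCast]
        exact Real.rpow_le_rpow_of_exponent_le (by norm_num) hNc
      exact_mod_cast this
    have hE1 : 1 ≤ s ^ E := Nat.one_le_pow _ _ hs1
    have h2s : 1 ≤ 2 ^ s := Nat.one_le_two_pow
    calc (P + 1) * (2 * s ^ E * (s ^ E + 1)) + 2
        ≤ 2 ^ s * (2 * s ^ E * (s ^ E + s ^ E)) + 2 * (2 ^ s * (s ^ E * s ^ E)) := by
          apply Nat.add_le_add
          · apply Nat.mul_le_mul hP2
            exact Nat.mul_le_mul_left _ (by omega)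
          · have h1 : 1 ≤ 2 ^ s * (s ^ E * s ^ E) := Nat.one_le_iff_ne_zero.mpr (by positivity)
            omega
      _ = 6 * (2 ^ s * (s ^ E * s ^ E)) := by ring
      _ ≤ 2 ^ 3 * (2 ^ s * (s ^ E * s ^ E)) := Nat.mul_le_mul_right _ (by norm_num)
      _ = 2 ^ (s + 3) * s ^ (2 * E) := by rw [pow_add, two_mul, pow_add]; ring
      _ ≤ 4 ^ (s - 2 * E) * s ^ (2 * E) := by
          apply Nat.mul_le_mul_right
          have : (4 : ℕ) = 2 ^ 2 := by norm_num
          rw [this, ← pow_mul]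
          exact Nat.pow_le_pow_right (by norm_num) (by omega)
      _ ≤ s ^ (s - 2 * E) * s ^ (2 * E) :=
          Nat.mul_le_mul_right _ (Nat.pow_le_pow_left (by omega) _)
      _ = s ^ s := by
          rw [← pow_add]
          congr 1
          omega

end FrS
end
end

section

section

/-!
Approximation of de Morgan formulas by polynomials of degree `O(√leaves)`.
-/

set_option linter.unusedSectionVars false

namespace FrS

open Finset Fr56
open scoped Classical

section filt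

variable {X : Type} {P : ℕ → Submodule ℝ (X → ℝ)}

theorem Filt.const_mem (hP : Filt P) (c : ℝ) (n : ℕ) : (fun _ : X => c) ∈ P n := by
  have h := Submodule.smul_mem _ c (hP.mono 0 n (Nat.zero_le n) hP.one)
  have e : (fun _ : X => c) = c • (1 : X → ℝ) := by
    funext y
    simp
  rw [e]
  exact h

theorem Filt.pow_mem (hP : Filt P) {d : ℕ} {Q : X → ℝ} (hQ : Q ∈ P d) (j : ℕ) :
    (fun y => Q y ^ j) ∈ P (j * d) := by
  induction j with
  | zero =>
    simp only [pow_zero, zero_mul]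
    exact hP.one
  | succ j ih =>
    have h := hP.mul _ _ _ _ ih hQ
    have e : (fun y => Q y ^ (j + 1)) = (fun y => Q y ^ j) * Q := by
      funext y
      rw [Pi.mul_apply, pow_succ]
    rw [e, Nat.succ_mul]
    exact h

theorem Filt.eval_mem (hP : Filt P) {d : ℕ} {Q : X → ℝ} (hQ : Q ∈ P d) (p : Polynomial ℝ) {n : ℕ}
    (hn : p.natDegree ≤ n) : (fun y => p.eval (Q y)) ∈ P (n * d) := by
  have e : (fun y => p.eval (Q y)) =
      ∑ j ∈ range (p.natDegree + 1), p.coeff j • fun y => Q y ^ j := by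
    funext y
    rw [Polynomial.eval_eq_sum_range]
    simp
  rw [e]
  apply Submodule.sum_mem
  intro j hj
  apply Submodule.smul_mem
  have hj' : j ≤ n := by
    have := Finset.mem_range.1 hj
    omega
  exact hP.mono _ _ (Nat.mul_le_mul_right d hj') (hP.pow_mem hQ j)

/-- entries of powers of matrices -/
theorem Filt.matrix_pow (hP : Filt P) {ι : Type} [Fintype ι] [DecidableEq ι] {d : ℕ}
    (A : X → Matrix ι ι ℝ) (hA : ∀ i j, (fun x => A x i j) ∈ P d) (n : ℕ) (i j : ι) :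
    (fun x => (A x ^ n) i j) ∈ P (n * d) := by
  induction n generalizing i j with
  | zero =>
    have e : (fun x => (A x ^ 0) i j) = fun _ => (1 : Matrix ι ι ℝ) i j := by
      funext x
      rw [pow_zero]
    rw [e]
    exact hP.const_mem _ _
  | succ n ih =>
    have e : (fun x => (A x ^ (n + 1)) i j) =
        ∑ l, (fun x => (A x ^ n) i l) * fun x => A x l j := by
      funext x
      rw [pow_succ, Matrix.mul_apply, Finset.sum_apply]
      rfl
    rw [e, Nat.succ_mul]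
    exact Submodule.sum_mem _ fun l _ => hP.mul _ _ _ _ (ih i l) (hA l j)

theorem Filt.matrix_aeval (hP : Filt P) {ι : Type} [Fintype ι] [DecidableEq ι] {d : ℕ}
    (A : X → Matrix ι ι ℝ) (hA : ∀ i j, (fun x => A x i j) ∈ P d) (p : Polynomial ℝ) {n : ℕ}
    (hn : p.natDegree ≤ n) (u : ι → ℝ) :
    (fun x => u ⬝ᵥ (Polynomial.aeval (A x) p).mulVec u) ∈ P (n * d) := by
  have e : (fun x => u ⬝ᵥ (Polynomial.aeval (A x) p).mulVec u) =
      ∑ i, ∑ j, ∑ k ∈ range (p.natDegree + 1), (u i * (p.coeff k * u j)) •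
        fun x => (A x ^ k) i j := by
    funext x
    rw [Polynomial.aeval_eq_sum_range]
    unfold dotProduct Matrix.mulVec dotProduct
    rw [Finset.sum_apply]
    apply Finset.sum_congr rfl
    intro i _
    rw [Finset.sum_apply, Finset.mul_sum]
    apply Finset.sum_congr rfl
    intro j _
    have e1 : (∑ k ∈ range (p.natDegree + 1), p.coeff k • A x ^ k : Matrix ι ι ℝ) i j =
        ∑ k ∈ range (p.natDegree + 1), p.coeff k * (A x ^ k) i j := by
      rw [Matrix.sum_apply]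
      rfl
    change u i * ((∑ k ∈ range (p.natDegree + 1), p.coeff k • A x ^ k : Matrix ι ι ℝ) i j *
      u j) = _
    rw [e1, Finset.sum_apply, Finset.sum_mul, Finset.mul_sum]
    apply Finset.sum_congr rfl
    intro k _
    simp only [Pi.smul_apply, smul_eq_mul]
    ring
  rw [e]
  apply Submodule.sum_mem
  intro i _
  apply Submodule.sum_mem
  intro j _
  apply Submodule.sum_mem
  intro k hk
  apply Submodule.smul_mem
  have hk' : k ≤ n := by
    have := Finset.mem_range.1 hk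
    omega
  exact hP.mono _ _ (Nat.mul_le_mul_right d hk') (hP.matrix_pow A hA k i j)

end filt

/-- general form, in a filtered algebra -/
theorem approx_filt {X ι : Type} {P : ℕ → Submodule ℝ (X → ℝ)} (hP : Filt P) (φ : Fm ι)
    (u : X → ι → Bool) {m k : ℕ} (hm : φ.leaves ≤ m)
    (hk : ∀ v ∈ lv φ, (fun x => if u x v = true then (1 : ℝ) else 0) ∈ P k) (r : ℕ) :
    ∃ Q ∈ P (200 * r * (Nat.sqrt m + 1) * k),
      ∀ x, |Q x - (if φ.eval (u x) = true then 1 else 0)| ≤ (1 / 2) ^ r := by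
  obtain ⟨I, hI, hId, lb, sgn, K, c, hcard, hlb, hspan⟩ := span_lemma φ true
  obtain ⟨p, hp1, hp2⟩ := exists_inv_poly φ.leaves (Fm.leaves_pos φ)
  obtain ⟨J, hJ, hJd, B₀, B, w, hspec⟩ := spectral K c φ.leaves (Fm.leaves_pos φ) p hp2
  obtain ⟨a, ha1, ha2, ha3⟩ := exists_amp_poly r
  let s : X → I → Bool := fun x q => u x (lb q) == sgn q
  let A : X → Matrix J J ℝ := fun x => B₀ + ∑ q, if s x q = true then B q else 0
  have hs : ∀ q, (fun x => if s x q = true then (1 : ℝ) else 0) ∈ P k := by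
    intro q
    have h1 := hk (lb q) (hlb q)
    by_cases hq : sgn q = true
    · have e : (fun x => if s x q = true then (1 : ℝ) else 0) =
          fun x => if u x (lb q) = true then (1 : ℝ) else 0 := by
        funext x
        simp only [s, hq]
        cases u x (lb q) <;> simp
      rw [e]
      exact h1
    · have e : (fun x => if s x q = true then (1 : ℝ) else 0) =
          (fun _ => (1 : ℝ)) - fun x => if u x (lb q) = true then (1 : ℝ) else 0 := by
        funext x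
        have hq' : sgn q = false := by simpa using hq
        simp only [s, hq', Pi.sub_apply]
        cases u x (lb q) <;> simp
      rw [e]
      exact Submodule.sub_mem _ (hP.const_mem 1 k) h1
  have hA : ∀ i j, (fun x => A x i j) ∈ P k := by
    intro i j
    have e : (fun x => A x i j) = (fun _ => B₀ i j) +
        ∑ q, (B q i j) • fun x => if s x q = true then (1 : ℝ) else 0 := by
      funext x
      simp only [A, Matrix.add_apply, Matrix.sum_apply, Pi.add_apply, Finset.sum_apply,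
        Pi.smul_apply, smul_eq_mul]
      congr 1
      apply Finset.sum_congr rfl
      intro q _
      split_ifs <;> simp
    rw [e]
    exact Submodule.add_mem _ (hP.const_mem _ _)
      (Submodule.sum_mem _ fun q _ => Submodule.smul_mem _ _ (hs q))
  set Q₀ : X → ℝ := fun x => w ⬝ᵥ (Polynomial.aeval (A x) p).mulVec w with hQ₀
  have hQ : Q₀ ∈ P (12 * (Nat.sqrt φ.leaves + 1) * k) := hP.matrix_aeval A hA p hp1 w
  refine ⟨fun x => a.eval (Q₀ x), ?_, ?_⟩
  · have h1 := hP.eval_mem hQ a ha1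
    refine hP.mono _ _ ?_ h1
    have h2 : Nat.sqrt φ.leaves ≤ Nat.sqrt m := Nat.sqrt_le_sqrt hm
    calc 16 * r * (12 * (Nat.sqrt φ.leaves + 1) * k)
        = 192 * r * (Nat.sqrt φ.leaves + 1) * k := by ring
      _ ≤ 200 * r * (Nat.sqrt m + 1) * k := by
          apply Nat.mul_le_mul_right
          apply Nat.mul_le_mul
          · exact Nat.mul_le_mul_right r (by norm_num)
          · omega
  · intro x
    have h1 := hspec (s x)
    by_cases hx : φ.eval (u x) = true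
    · obtain ⟨i, hi, hi1, hi2, hi3⟩ := (hspan (u x)).1 hx
      have h2 := h1.1 ⟨i, hi, hi1, fun q hq => hi2 q (by simpa [s] using hq), by
        rw [← hcard]; exact hi3⟩
      rw [if_pos hx]
      exact ha3 _ h2.1 h2.2
    · obtain ⟨ψ, h3, h4, h5⟩ := (hspan (u x)).2 hx
      have h2 := h1.2 ⟨ψ, fun q hq => h3 q (by simpa [s] using hq), h4, h5⟩
      rw [if_neg hx, sub_zero]
      exact ha2 _ h2.1 h2.2

/-- **Lemma P** -/
theorem approx {D : ℕ} (φ : TF D) {m k : ℕ} (hφ : φ.Ok m k) (r : ℕ) :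
    ∃ Q ∈ Pol (E D) (200 * r * (Nat.sqrt m + 1) * k),
      ∀ x, |Q x - (if φ.ev x = true then 1 else 0)| ≤ (1 / 2) ^ r :=
  approx_filt filt_Pol φ (fun x A => A.val x) hφ.1 (fun A hA => dt_mem A (hφ.2 A hA)) r

end FrS
end

section

/-!
Lemma A: after a random restriction, formulas over decision trees have low degree.
-/

set_option linter.unusedSectionVars false

namespace FrS

open Finset Fr56
open scoped Classical

variable {D : ℕ}

theorem pr_le_av {Ω : Type} [Fintype Ω] (P : Ω → Prop) (f : Ω → ℝ) (h : ∀ ω, P ω → 1 ≤ f ω)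
    (h0 : ∀ ω, 0 ≤ f ω) : pr P ≤ (∑ ω, f ω) / Fintype.card Ω := by
  unfold pr
  apply div_le_div_of_nonneg_right _ (Nat.cast_nonneg _)
  rw [Finset.cast_card]
  have h1 : ∑ ω ∈ univ.filter P, (1 : ℝ) ≤ ∑ ω ∈ univ.filter P, f ω :=
    Finset.sum_le_sum fun ω hω => h ω (Finset.mem_filter.1 hω).2
  have h2 : ∑ ω ∈ univ.filter P, f ω ≤ ∑ ω, f ω :=
    Finset.sum_le_sum_of_subset_of_nonneg (Finset.filter_subset _ _) (fun ω _ _ => h0 ω)
  exact h1.trans h2

/-- the centre of the block of `t` -/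
def ctr (T : ℕ) (t : V D) (s : Fin (D + 3) → Fin T) : V D := fun k => T * t k + ((s k : ℕ) : ℤ)

theorem cen_eq_ctr {n T : ℕ} (hT : 0 < T) {t : V D} (ht : t ∈ box D n) (a : Asg D n T)
    (β : Ch D) : (mkR hT a β).cen t = ctr T t (a ⟨t, ht⟩) := by
  funext k
  change (T : ℤ) * t k + tot a t k = (T : ℤ) * t k + ((a ⟨t, ht⟩ k : ℕ) : ℤ)
  unfold tot
  rw [dif_pos ht]

/-- the shift -/
theorem x_eq {n T : ℕ} (hT : 0 < T) (a : Asg D n T) (β : Ch D) (y : Ch D) :
    (mkR hT a β).x y = β + (mkR hT a 0).x y := by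
  have h : (mkR hT a 0).x y = cp 0 ((mkR hT a β).cen 0) + (mkR hT a β).P y := by
    change 0 + cp 0 ((mkR hT a β).cen 0) + (mkR hT a β).P y = _
    rw [zero_add]
  rw [h]
  unfold Rst.x
  rw [← add_assoc]
  rfl

/-- sums over the closed chains are sums over the coset -/
theorem sum_cyc {n T N : ℕ} (hT : 0 < T) (hN : n * T ≤ N) {t : V D} (ht : t ∈ box D n)
    (a : Asg D n T) {y : Ch D} (hy : Yt n t y) (f : Ch D → ℝ) :
    ∑ β : ↥(cyc D N), f ((mkR hT a β.1).x y) = ∑ x ∈ YF N (ctr T t (a ⟨t, ht⟩)), f x := by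
  have hmem : ∀ β ∈ cyc D N, (mkR hT a β).x y ∈ YF N (ctr T t (a ⟨t, ht⟩)) := by
    intro β hβ
    rw [mem_YF, ← cen_eq_ctr hT ht a β]
    exact Rst.Yt_x _ (mkR_good (n := n) hT hN (a, ⟨β, hβ⟩)) ht hy
  have h0 : (0 : Ch D) ∈ cyc D N := by
    rw [mem_cyc]
    exact ⟨Supp.zero, bd_zero⟩
  rw [← Finset.sum_coe_sort (YF N (ctr T t (a ⟨t, ht⟩))) f]
  apply Fintype.sum_bijective (fun β : ↥(cyc D N) =>
    (⟨(mkR hT a β.1).x y, hmem β.1 β.2⟩ : ↥(YF N (ctr T t (a ⟨t, ht⟩)))))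
  · constructor
    · intro β β' h
      have h1 : (mkR hT a β.1).x y = (mkR hT a β'.1).x y := congrArg Subtype.val h
      rw [x_eq hT a β.1, x_eq hT a β'.1] at h1
      exact Subtype.ext (add_right_cancel h1)
    · rintro ⟨x, hx⟩
      have h1 : Yt N (ctr T t (a ⟨t, ht⟩)) x := mem_YF.1 hx
      have h2 : Yt N (ctr T t (a ⟨t, ht⟩)) ((mkR hT a 0).x y) := mem_YF.1 (hmem 0 h0)
      refine ⟨⟨x + (mkR hT a 0).x y, mem_cyc.2 (h1.sub_closed h2)⟩, ?_⟩
      apply Subtype.ext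
      dsimp only
      rw [x_eq hT a (x + (mkR hT a 0).x y), add_assoc, add_self_fun, add_zero]
  · intro β
    rfl

/-- pushed squares are translations of the coset -/
theorem add_push {n T N : ℕ} (hT : 0 < T) (hN : n * T ≤ N) (a : Asg D n T) {h : V D} {F : Sq D}
    (hF : F ∈ sqs D n) {x : Ch D} (hx : x ∈ YF N h) :
    x + (mkR hT a 0).P (sqc F) ∈ YF N h := by
  rw [mem_YF] at hx ⊢
  exact hx.add_closed (Rst.supp_P _ hN _) (Rst.bd_P_closed _ (supp_sqc hF) (bd_sqc F))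

/-- iterated differences of Boolean functions are detected by approximations -/
theorem detect {S : Finset (Sq D)} {q' : ℕ} (hS : S.card = q') {n T : ℕ} (hT : 0 < T)
    (a : Asg D n T) (β : Ch D) (φ : TF D) (Q : Ch D → ℝ)
    (hQ : ∀ x, |Q x - (if φ.ev x = true then 1 else 0)| ≤ (1 / 2) ^ (q' + 1)) {y : Ch D}
    (h : Df S (fun y => bz (φ.ev ((mkR hT a β).x y))) y ≠ 0) :
    1 ≤ 4 * (∑ R ∈ S.powerset, (-1 : ℝ) ^ R.card *
      Q ((mkR hT a β).x y + ∑ F ∈ R, (mkR hT a 0).P (sqc F))) ^ 2 := by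
  set A : ℝ := ∑ R ∈ S.powerset, (-1 : ℝ) ^ R.card *
      Q ((mkR hT a β).x y + ∑ F ∈ R, (mkR hT a 0).P (sqc F)) with hA
  set B : ℤ := Df S (fun y => bz (φ.ev ((mkR hT a β).x y))) y with hB
  have hB1 : (1 : ℝ) ≤ |(B : ℝ)| := by
    have h1 : 1 ≤ |B| := Int.one_le_abs h
    exact_mod_cast h1
  have hBe : (B : ℝ) = ∑ R ∈ S.powerset, (-1 : ℝ) ^ R.card *
      (if φ.ev ((mkR hT a β).x y + ∑ F ∈ R, (mkR hT a 0).P (sqc F)) = true then 1 else 0) := by
    rw [hB]
    unfold Df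
    push_cast
    apply Finset.sum_congr rfl
    intro R _
    congr 1
    have h2 : (mkR hT a β).x (y + ∑ F ∈ R, sqc F) =
        (mkR hT a β).x y + ∑ F ∈ R, (mkR hT a 0).P (sqc F) := by
      rw [Rst.x_add, Rst.P_sum]
      rfl
    rw [h2]
    unfold bz
    split_ifs <;> simp
  have hdiff : |A - B| ≤ 1 / 2 := by
    rw [hA, hBe, ← Finset.sum_sub_distrib]
    refine (Finset.abs_sum_le_sum_abs _ _).trans ?_
    have h3 : ∀ R ∈ S.powerset, |(-1 : ℝ) ^ R.card *
        Q ((mkR hT a β).x y + ∑ F ∈ R, (mkR hT a 0).P (sqc F)) - (-1 : ℝ) ^ R.card *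
          (if φ.ev ((mkR hT a β).x y + ∑ F ∈ R, (mkR hT a 0).P (sqc F)) = true then 1 else 0)| ≤
            (1 / 2) ^ (q' + 1) := by
      intro R _
      rw [← mul_sub, abs_mul, abs_pow, abs_neg, abs_one, one_pow, one_mul]
      exact hQ _
    refine (Finset.sum_le_sum h3).trans ?_
    rw [Finset.sum_const, Finset.card_powerset, hS, nsmul_eq_mul, pow_succ]
    push_cast
    rw [← mul_assoc, ← mul_pow]
    norm_num
  have hA1 : 1 / 2 ≤ |A| := by
    have h4 : |(B : ℝ)| ≤ |A| + |A - B| := by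
      have h5 : (B : ℝ) = A - (A - B) := by ring
      calc |(B : ℝ)| = |A - (A - B)| := by rw [← h5]
        _ ≤ |A| + |A - B| := abs_sub _ _
    linarith
  have h6 : (1 / 2) ^ 2 ≤ |A| ^ 2 := pow_le_pow_left₀ (by norm_num) hA1 2
  rw [sq_abs] at h6
  linarith

/-- the contribution of the sets of `q'` squares -/
theorem lemmaA_level {n T N m k q' : ℕ} (hT : 0 < T) (hN : n * T ≤ N) {t : V D}
    (ht : t ∈ box D n) (φ : TF D) (hφ : φ.Ok m k) (hq : 1 ≤ q') {lam : ℝ} (hlam : 22 ≤ lam)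
    (hb : (2 * lam) ^ (2 * (D + 3) * (D + 2)) *
      (4 * (D + 3) * (D + 2) * (400 * (Nat.sqrt m + 1) * k)) ≤ (T : ℝ) ^ (D + 2))
    {y : Ch D} (hy : Yt n t y) :
    ∑ S ∈ (sqs D n).powersetCard q', pr (fun ω : Om D n T N =>
        Df S (fun y => bz (φ.ev ((mkR hT ω.1 ω.2.1).x y))) y ≠ 0) ≤
      9 * (2 * lam) ^ (2 * (D + 3) * (D + 2)) * (11 / lam) ^ q' := by
  have hNe : Nonempty (Fin T) := ⟨⟨0, hT⟩⟩
  have hl0 : (0 : ℝ) < lam := by linarith
  have hl1 : (1 : ℝ) ≤ lam := by linarith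
  have h2l1 : (1 : ℝ) ≤ 2 * lam := by linarith
  have h2l0 : (0 : ℝ) < 2 * lam := by linarith
  have hTpos : (0 : ℝ) < (T : ℝ) ^ (D + 2) := by positivity
  obtain ⟨Q, hQ, hQ'⟩ := approx φ hφ (q' + 1)
  -- expansions
  have hexp : ∀ s : Fin (D + 3) → Fin T, ∃ (S : Finset (Finset (E D))) (c : Finset (E D) → ℝ),
      (∀ κ ∈ S, κ.card ≤ 200 * (q' + 1) * (Nat.sqrt m + 1) * k) ∧
      (∀ κ ∈ S, ∀ κ' ∈ S, κ ≠ κ' → ∑ x ∈ YF N (ctr T t s), chi κ x * chi κ' x = 0) ∧
      ∀ x ∈ YF N (ctr T t s), Q x = ∑ κ ∈ S, c κ * chi κ x := by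
    intro s
    apply coset_expansion (Z := cyc D N)
    · intro x hx z hz
      rw [mem_YF] at hx ⊢
      rw [mem_cyc] at hz
      exact hx.add_closed hz.1 hz.2
    · intro x hx x' hx'
      rw [mem_YF] at hx hx'
      rw [mem_cyc]
      exact hx.sub_closed hx'
    · exact hQ
  choose Sx c hc1 hc2 hc3 using hexp
  set Ct : ℕ := 2 * (D + 3) * (D + 2) with hCt
  let g : Asg D n T → Sq D → Ch D := fun a F => (mkR hT a 0).P (sqc F)
  let alt : Finset (Sq D) → Asg D n T → Ch D → ℝ := fun S a x =>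
    ∑ R ∈ S.powerset, (-1 : ℝ) ^ R.card * Q (x + ∑ F ∈ R, g a F)
  let G : (Fin (D + 3) → Fin T) → Asg D n T → ℝ := fun s a =>
    ∑ κ ∈ Sx s, c s κ ^ 2 * (2 * lam) ^ nhit hT t κ a
  have hZpos : (0 : ℝ) < Fintype.card ↥(cyc D N) := by exact_mod_cast Fintype.card_pos
  have hApos : (0 : ℝ) < Fintype.card (Asg D n T) := by exact_mod_cast Fintype.card_pos
  -- number of elements of the coset
  have hcardX : ∀ a : Asg D n T, ((YF N (ctr T t (a ⟨t, ht⟩))).card : ℝ) =
      Fintype.card ↥(cyc D N) := by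
    intro a
    have h1 := sum_cyc hT hN ht a hy (fun _ => (1 : ℝ))
    rw [Finset.sum_const, Finset.sum_const, nsmul_eq_mul, nsmul_eq_mul, mul_one, mul_one,
      Finset.card_univ] at h1
    exact h1.symm
  -- step 2
  have step2 : ∀ a : Asg D n T, ∑ S ∈ (sqs D n).powersetCard q', ∑ β : ↥(cyc D N),
      alt S a ((mkR hT a β.1).x y) ^ 2 ≤
        Fintype.card ↥(cyc D N) * (4 ^ q' * ((2 * lam) ^ Ct / lam ^ q' * G (a ⟨t, ht⟩) a)) := by
    intro a
    set s := a ⟨t, ht⟩ with hs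
    have h1 : ∀ S ∈ (sqs D n).powersetCard q', ∑ β : ↥(cyc D N),
        alt S a ((mkR hT a β.1).x y) ^ 2 ≤ Fintype.card ↥(cyc D N) * (4 ^ q' *
          ∑ κ ∈ Sx s, c s κ ^ 2 * (if ∀ F ∈ S, ∃ z ∈ κ, g a F z ≠ 0 then 1 else 0)) := by
      intro S hS
      obtain ⟨hS1, hS2⟩ := Finset.mem_powersetCard.1 hS
      have h2 := sum_cyc hT hN ht a hy (fun x => alt S a x ^ 2)
      rw [h2, ← hcardX a, ← hs]
      have h3 := diff_parseval (hc2 s) (hc3 s) S (g a)
        (fun x hx F hF => add_push hT hN a (hS1 hF) hx)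
      rw [hS2] at h3
      exact h3
    refine (Finset.sum_le_sum h1).trans ?_
    rw [← Finset.mul_sum, ← Finset.mul_sum]
    apply mul_le_mul_of_nonneg_left _ hZpos.le
    apply mul_le_mul_of_nonneg_left _ (by positivity)
    rw [Finset.sum_comm]
    simp only [G]
    rw [Finset.mul_sum]
    apply Finset.sum_le_sum
    intro κ _
    rw [← Finset.mul_sum, ← Finset.sum_filter, Finset.sum_const, nsmul_eq_mul, mul_one]
    have h4 := card_hit_sets hT t κ a q' hl1
    rw [← hCt] at h4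
    calc c s κ ^ 2 * ((((sqs D n).powersetCard q').filter fun S => ∀ F ∈ S, ∃ z ∈ κ,
          g a F z ≠ 0).card : ℝ)
        ≤ c s κ ^ 2 * ((2 * lam) ^ Ct * (2 * lam) ^ nhit hT t κ a / lam ^ q') :=
          mul_le_mul_of_nonneg_left h4 (sq_nonneg _)
      _ = _ := by ring
  -- step 3: the coefficients
  have hcoef : ∀ s, ∑ κ ∈ Sx s, c s κ ^ 2 ≤ 9 / 4 := by
    intro s
    obtain ⟨a, ha⟩ : ∃ a : Asg D n T, a ⟨t, ht⟩ = s := ⟨fun _ => s, rfl⟩
    have h1 := parseval (hc2 s) (c s)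
    have h2 : ((YF N (ctr T t s)).card : ℝ) = Fintype.card ↥(cyc D N) := by
      rw [← ha]
      exact hcardX a
    have h3 : ∑ x ∈ YF N (ctr T t s), (∑ κ ∈ Sx s, c s κ * chi κ x) ^ 2 ≤
        ∑ _x ∈ YF N (ctr T t s), (9 / 4 : ℝ) := by
      apply Finset.sum_le_sum
      intro x hx
      rw [← hc3 s x hx]
      have h4 := abs_le.1 (hQ' x)
      have h5 : (1 / 2 : ℝ) ^ (q' + 1) ≤ 1 / 2 := by
        calc (1 / 2 : ℝ) ^ (q' + 1) ≤ (1 / 2) ^ 1 :=
              pow_le_pow_of_le_one (by norm_num) (by norm_num) (by omega)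
          _ = 1 / 2 := pow_one _
      have h6 : |Q x| ≤ 3 / 2 := by
        rw [abs_le]
        split_ifs at h4 <;> constructor <;> linarith [h4.1, h4.2]
      have h7 : |Q x| ^ 2 ≤ (3 / 2) ^ 2 := pow_le_pow_left₀ (abs_nonneg _) h6 2
      rw [sq_abs] at h7
      linarith
    rw [h1, Finset.sum_const, nsmul_eq_mul, h2] at h3
    exact le_of_mul_le_mul_left h3 hZpos
  -- step 4: exponential moments
  have hmgf : ∀ s, ∀ κ ∈ Sx s, ∑ a : Asg D n T, (2 * lam) ^ nhit hT t κ a ≤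
      Fintype.card (Asg D n T) * Real.exp q' := by
    intro s κ hκ
    have h1 := mgf_nhit (n := n) hT t κ h2l1
    rw [← hCt, div_le_iff₀ hApos] at h1
    refine h1.trans ?_
    rw [mul_comm]
    apply mul_le_mul_of_nonneg_left _ hApos.le
    apply Real.exp_le_exp.2
    have h2 : (κ.card : ℝ) ≤ q' * (400 * (Nat.sqrt m + 1) * k) := by
      have h3 : κ.card ≤ q' * (400 * (Nat.sqrt m + 1) * k) := by
        refine (hc1 s κ hκ).trans ?_
        calc 200 * (q' + 1) * (Nat.sqrt m + 1) * k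
            = (q' + 1) * (200 * (Nat.sqrt m + 1) * k) := by ring
          _ ≤ (2 * q') * (200 * (Nat.sqrt m + 1) * k) := Nat.mul_le_mul_right _ (by omega)
          _ = _ := by ring
      exact_mod_cast h3
    calc (2 * lam) ^ Ct * (4 * (D + 3) * (D + 2) * κ.card / (T : ℝ) ^ (D + 2))
        = (2 * lam) ^ Ct * (4 * (D + 3) * (D + 2)) * κ.card / (T : ℝ) ^ (D + 2) := by ring
      _ ≤ (2 * lam) ^ Ct * (4 * (D + 3) * (D + 2)) * (q' * (400 * (Nat.sqrt m + 1) * k)) /
          (T : ℝ) ^ (D + 2) := by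
          apply div_le_div_of_nonneg_right _ hTpos.le
          exact mul_le_mul_of_nonneg_left h2 (by positivity)
      _ = q' * ((2 * lam) ^ Ct * (4 * (D + 3) * (D + 2) * (400 * (Nat.sqrt m + 1) * k))) /
          (T : ℝ) ^ (D + 2) := by ring
      _ ≤ q' * (T : ℝ) ^ (D + 2) / (T : ℝ) ^ (D + 2) := by
          apply div_le_div_of_nonneg_right _ hTpos.le
          exact mul_le_mul_of_nonneg_left hb (Nat.cast_nonneg _)
      _ = q' := by field_simp
  have hG1 : ∀ s, ∑ a : Asg D n T, G s a ≤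
      9 / 4 * (Fintype.card (Asg D n T) * Real.exp q') := by
    intro s
    simp only [G]
    rw [Finset.sum_comm]
    calc ∑ κ ∈ Sx s, ∑ a : Asg D n T, c s κ ^ 2 * (2 * lam) ^ nhit hT t κ a
        ≤ ∑ κ ∈ Sx s, c s κ ^ 2 * (Fintype.card (Asg D n T) * Real.exp q') := by
          apply Finset.sum_le_sum
          intro κ hκ
          rw [← Finset.mul_sum]
          exact mul_le_mul_of_nonneg_left (hmgf s κ hκ) (sq_nonneg _)
      _ = (∑ κ ∈ Sx s, c s κ ^ 2) * (Fintype.card (Asg D n T) * Real.exp q') := by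
          rw [Finset.sum_mul]
      _ ≤ _ := mul_le_mul_of_nonneg_right (hcoef s) (by positivity)
  have hGu : ∀ (a : Asg D n T) (s : Fin (D + 3) → Fin T),
      G ((Function.update a ⟨t, ht⟩ s) ⟨t, ht⟩) (Function.update a ⟨t, ht⟩ s) = G s a := by
    intro a s
    rw [Function.update_self]
    simp only [G]
    apply Finset.sum_congr rfl
    intro κ _
    rw [nhit_update hT ⟨t, ht⟩ κ a s]
  have hG2 : ∑ a : Asg D n T, G (a ⟨t, ht⟩) a ≤
      9 / 4 * (Fintype.card (Asg D n T) * Real.exp q') := by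
    have h1 := sum_update (X := ↥(box D n)) (Ω := Fin (D + 3) → Fin T) ⟨t, ht⟩
      (fun a => G (a ⟨t, ht⟩) a)
    have hpos : (0 : ℝ) < Fintype.card (Fin (D + 3) → Fin T) := by
      exact_mod_cast Fintype.card_pos
    have h2 : ∑ a : Asg D n T, ∑ s : Fin (D + 3) → Fin T,
        G ((Function.update a ⟨t, ht⟩ s) ⟨t, ht⟩) (Function.update a ⟨t, ht⟩ s) =
        ∑ s : Fin (D + 3) → Fin T, ∑ a : Asg D n T, G s a := by
      rw [Finset.sum_comm]
      exact Finset.sum_congr rfl fun s _ => Finset.sum_congr rfl fun a _ => hGu a s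
    have h3 : (Fintype.card (Fin (D + 3) → Fin T) : ℝ) * ∑ a : Asg D n T, G (a ⟨t, ht⟩) a ≤
        Fintype.card (Fin (D + 3) → Fin T) *
          (9 / 4 * (Fintype.card (Asg D n T) * Real.exp q')) := by
      rw [← h1, h2]
      calc ∑ s : Fin (D + 3) → Fin T, ∑ a : Asg D n T, G s a
          ≤ ∑ _s : Fin (D + 3) → Fin T, 9 / 4 * (Fintype.card (Asg D n T) * Real.exp q') :=
            Finset.sum_le_sum fun s _ => hG1 s
        _ = _ := by rw [Finset.sum_const, Finset.card_univ, nsmul_eq_mul]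
    exact le_of_mul_le_mul_left h3 hpos
  -- step 1
  have step1 : ∀ S ∈ (sqs D n).powersetCard q', pr (fun ω : Om D n T N =>
      Df S (fun y => bz (φ.ev ((mkR hT ω.1 ω.2.1).x y))) y ≠ 0) ≤
        (∑ a : Asg D n T, ∑ β : ↥(cyc D N), 4 * alt S a ((mkR hT a β.1).x y) ^ 2) /
          (Fintype.card (Asg D n T) * Fintype.card ↥(cyc D N)) := by
    intro S hS
    obtain ⟨hS1, hS2⟩ := Finset.mem_powersetCard.1 hS
    have h1 := pr_le_av (fun ω : Om D n T N =>
      Df S (fun y => bz (φ.ev ((mkR hT ω.1 ω.2.1).x y))) y ≠ 0)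
      (fun ω : Om D n T N => 4 * alt S ω.1 ((mkR hT ω.1 ω.2.1).x y) ^ 2)
      (fun ω hω => detect hS2 hT ω.1 ω.2.1 φ Q hQ' hω) (fun ω => by positivity)
    rw [Fintype.card_prod, Nat.cast_mul] at h1
    refine h1.trans (le_of_eq ?_)
    congr 1
    exact Fintype.sum_prod_type' (f := fun (a : Asg D n T) (β : ↥(cyc D N)) =>
      4 * alt S a ((mkR hT a β.1).x y) ^ 2)
  -- conclusion
  set cA : ℝ := (Fintype.card (Asg D n T) : ℝ) with hcA
  set cZ : ℝ := (Fintype.card ↥(cyc D N) : ℝ) with hcZ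
  have f1 : ∑ S ∈ (sqs D n).powersetCard q', pr (fun ω : Om D n T N =>
        Df S (fun y => bz (φ.ev ((mkR hT ω.1 ω.2.1).x y))) y ≠ 0) ≤
      ∑ S ∈ (sqs D n).powersetCard q',
        (∑ a : Asg D n T, ∑ β : ↥(cyc D N), 4 * alt S a ((mkR hT a β.1).x y) ^ 2) / (cA * cZ) :=
    Finset.sum_le_sum step1
  have f2 : ∑ S ∈ (sqs D n).powersetCard q',
        (∑ a : Asg D n T, ∑ β : ↥(cyc D N), 4 * alt S a ((mkR hT a β.1).x y) ^ 2) / (cA * cZ) =
      4 * (∑ a : Asg D n T, ∑ S ∈ (sqs D n).powersetCard q', ∑ β : ↥(cyc D N),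
          alt S a ((mkR hT a β.1).x y) ^ 2) / (cA * cZ) := by
    rw [← Finset.sum_div, Finset.sum_comm, Finset.mul_sum]
    congr 1
    apply Finset.sum_congr rfl
    intro a _
    rw [Finset.mul_sum]
    apply Finset.sum_congr rfl
    intro S _
    rw [Finset.mul_sum]
  have f3 : 4 * (∑ a : Asg D n T, ∑ S ∈ (sqs D n).powersetCard q', ∑ β : ↥(cyc D N),
          alt S a ((mkR hT a β.1).x y) ^ 2) / (cA * cZ) ≤
      4 * (∑ a : Asg D n T, cZ * (4 ^ q' * ((2 * lam) ^ Ct / lam ^ q' * G (a ⟨t, ht⟩) a))) /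
        (cA * cZ) := by
    apply div_le_div_of_nonneg_right _ (by positivity)
    apply mul_le_mul_of_nonneg_left _ (by norm_num)
    exact Finset.sum_le_sum fun a _ => step2 a
  have f4 : 4 * (∑ a : Asg D n T, cZ * (4 ^ q' * ((2 * lam) ^ Ct / lam ^ q' *
        G (a ⟨t, ht⟩) a))) / (cA * cZ) =
      4 * 4 ^ q' * ((2 * lam) ^ Ct / lam ^ q') * (∑ a : Asg D n T, G (a ⟨t, ht⟩) a) / cA := by
    simp only [← Finset.mul_sum]
    field_simp
  have f5 : 4 * 4 ^ q' * ((2 * lam) ^ Ct / lam ^ q') * (∑ a : Asg D n T, G (a ⟨t, ht⟩) a) / cA ≤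
      4 * 4 ^ q' * ((2 * lam) ^ Ct / lam ^ q') * (9 / 4 * (cA * Real.exp q')) / cA := by
    apply div_le_div_of_nonneg_right _ hApos.le
    exact mul_le_mul_of_nonneg_left hG2 (by positivity)
  have f6 : 4 * 4 ^ q' * ((2 * lam) ^ Ct / lam ^ q') * (9 / 4 * (cA * Real.exp q')) / cA =
      9 * (2 * lam) ^ Ct * ((4 ^ q' * Real.exp q') / lam ^ q') := by
    field_simp
  have f7 : 9 * (2 * lam) ^ Ct * ((4 ^ q' * Real.exp q') / lam ^ q') ≤
      9 * (2 * lam) ^ Ct * (11 / lam) ^ q' := by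
    apply mul_le_mul_of_nonneg_left _ (by positivity)
    rw [div_pow]
    apply div_le_div_of_nonneg_right _ (by positivity)
    have h1 : Real.exp (q' : ℝ) = Real.exp 1 ^ q' := by
      rw [← Real.exp_nat_mul, mul_one]
    rw [h1, ← mul_pow]
    apply pow_le_pow_left₀ (by positivity)
    have := Real.exp_one_lt_d9
    linarith
  rw [f2] at f1
  rw [f4] at f3
  rw [f6] at f5
  exact f1.trans (f3.trans (f5.trans f7))

/-- **Lemma A** -/
theorem lemmaA {n T N m k q : ℕ} (hT : 0 < T) (hN : n * T ≤ N) {t : V D} (ht : t ∈ box D n)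
    (φ : TF D) (hφ : φ.Ok m k) (hq : 1 ≤ q) {lam : ℝ} (hlam : 22 ≤ lam)
    (hb : (2 * lam) ^ (2 * (D + 3) * (D + 2)) *
      (4 * (D + 3) * (D + 2) * (400 * (Nat.sqrt m + 1) * k)) ≤ (T : ℝ) ^ (D + 2)) :
    pr (fun ω : Om D n T N =>
        ¬ DegLt n q t fun y => bz (φ.ev ((mkR hT ω.1 ω.2.1).x y))) ≤
      18 * (2 * lam) ^ (2 * (D + 3) * (D + 2)) * (11 / lam) ^ q := by
  have hl0 : (0 : ℝ) < lam := by linarith
  obtain ⟨y0, hy0⟩ := exists_Yt ht
  set M : ℕ := (sqs D n).card with hM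
  -- union bound
  have h1 : pr (fun ω : Om D n T N =>
        ¬ DegLt n q t fun y => bz (φ.ev ((mkR hT ω.1 ω.2.1).x y))) ≤
      pr (fun ω : Om D n T N => ∃ q' ∈ (range (M + 1)).filter (fun q' => q ≤ q'),
        ∃ S ∈ (sqs D n).powersetCard q',
          Df S (fun y => bz (φ.ev ((mkR hT ω.1 ω.2.1).x y))) y0 ≠ 0) := by
    apply pr_mono
    intro ω hω
    unfold DegLt at hω
    push Not at hω
    obtain ⟨T₀, hT₀, hqT, y, hy, hne⟩ := hω
    obtain ⟨S, hTS, hS, hS'⟩ := exists_maximal ht _ hT₀ hy hne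
    have h2 := Finset.card_le_card hTS
    have h3 := Finset.card_le_card hS
    refine ⟨S.card, ?_, S, Finset.mem_powersetCard.2 ⟨hS, rfl⟩, hS' y0 hy0⟩
    rw [Finset.mem_filter, Finset.mem_range]
    omega
  refine h1.trans ((pr_exists_le _ _).trans ?_)
  have h2 : ∀ q' ∈ (range (M + 1)).filter (fun q' => q ≤ q'),
      pr (fun ω : Om D n T N => ∃ S ∈ (sqs D n).powersetCard q',
          Df S (fun y => bz (φ.ev ((mkR hT ω.1 ω.2.1).x y))) y0 ≠ 0) ≤
        9 * (2 * lam) ^ (2 * (D + 3) * (D + 2)) * ((11 / lam) ^ q * (1 / 2) ^ (q' - q)) := by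
    intro q' hq'
    have hqq : q ≤ q' := (Finset.mem_filter.1 hq').2
    refine (pr_exists_le _ _).trans
      ((lemmaA_level hT hN ht φ hφ (hq.trans hqq) hlam hb hy0).trans ?_)
    apply mul_le_mul_of_nonneg_left _ (by positivity)
    obtain ⟨j, rfl⟩ := Nat.exists_eq_add_of_le hqq
    rw [Nat.add_sub_cancel_left, pow_add]
    apply mul_le_mul_of_nonneg_left _ (by positivity)
    apply pow_le_pow_left₀ (by positivity)
    rw [div_le_div_iff₀ hl0 (by norm_num)]
    linarith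
  refine (Finset.sum_le_sum h2).trans ?_
  rw [← Finset.mul_sum, ← Finset.mul_sum]
  have h3 : ∑ q' ∈ (range (M + 1)).filter (fun q' => q ≤ q'), (1 / 2 : ℝ) ^ (q' - q) ≤ 2 := by
    calc ∑ q' ∈ (range (M + 1)).filter (fun q' => q ≤ q'), (1 / 2 : ℝ) ^ (q' - q)
        = ∑ j ∈ ((range (M + 1)).filter (fun q' => q ≤ q')).image (fun q' => q' - q),
            (1 / 2 : ℝ) ^ j := by
          rw [Finset.sum_image]
          intro i hi j hj hij
          rw [Finset.mem_coe, Finset.mem_filter] at hi hj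
          dsimp only at hij
          omega
      _ ≤ ∑ j ∈ range (M + 1), (1 / 2 : ℝ) ^ j := by
          apply Finset.sum_le_sum_of_subset_of_nonneg
          · intro j hj
            obtain ⟨i, hi, rfl⟩ := Finset.mem_image.1 hj
            rw [Finset.mem_filter, Finset.mem_range] at hi
            rw [Finset.mem_range]
            omega
          · intro j _ _
            positivity
      _ ≤ 2 := by
          have h4 := geom_sum_eq (x := (1 / 2 : ℝ)) (by norm_num) (M + 1)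
          have h5 : (0 : ℝ) ≤ (1 / 2) ^ (M + 1) := by positivity
          have h6 : ((1 / 2 : ℝ) ^ (M + 1) - 1) / (1 / 2 - 1) = 2 - 2 * (1 / 2) ^ (M + 1) := by
            ring
          rw [h4, h6]
          linarith
  calc 9 * (2 * lam) ^ (2 * (D + 3) * (D + 2)) * ((11 / lam) ^ q *
        ∑ q' ∈ (range (M + 1)).filter (fun q' => q ≤ q'), (1 / 2 : ℝ) ^ (q' - q))
      ≤ 9 * (2 * lam) ^ (2 * (D + 3) * (D + 2)) * ((11 / lam) ^ q * 2) := by
        apply mul_le_mul_of_nonneg_left _ (by positivity)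
        exact mul_le_mul_of_nonneg_left h3 (by positivity)
    _ = _ := by ring

end FrS
end

section

/-!
The stage lemma (probabilistic part): one restriction is good for a whole family of formulas.
-/

set_option linter.unusedSectionVars false

namespace FrS

open Finset Fr56
open scoped Classical

variable {D : ℕ}

theorem stageP_card_box (n : ℕ) : (box D n).card = n ^ (D + 3) := by
  unfold box
  rw [Fintype.card_piFinset]
  simp

/-- the index sets of the touch functions -/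
theorem stageP_card_J (n s1 : ℕ) (hs1 : 1 ≤ s1) :
    ((Finset.Ico (0 : ℤ) n).powerset.filter fun J => J.card = 1 ∨ J.card = s1).card + 1 ≤
      2 * (n + 1) ^ s1 := by
  have h1 : ((Finset.Ico (0 : ℤ) n).powerset.filter fun J => J.card = 1 ∨ J.card = s1) ⊆
      (Finset.Ico (0 : ℤ) n).powersetCard 1 ∪ (Finset.Ico (0 : ℤ) n).powersetCard s1 := by
    intro J hJ
    rw [Finset.mem_filter, Finset.mem_powerset] at hJ
    rw [Finset.mem_union, Finset.mem_powersetCard, Finset.mem_powersetCard]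
    rcases hJ.2 with h | h
    · exact Or.inl ⟨hJ.1, h⟩
    · exact Or.inr ⟨hJ.1, h⟩
  have h2 := (Finset.card_le_card h1).trans (Finset.card_union_le _ _)
  rw [Finset.card_powersetCard, Finset.card_powersetCard, Int.card_Ico, sub_zero,
    Int.toNat_natCast, Nat.choose_one_right] at h2
  have h3 := Nat.choose_le_pow n s1
  have h4 : n ^ s1 ≤ (n + 1) ^ s1 := Nat.pow_le_pow_left (by omega) s1
  have h5 : n + 1 ≤ (n + 1) ^ s1 := Nat.le_self_pow (by omega) _
  omega

/-- one restriction makes all formulas of a finite family low-degree, together with their touch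
functions -/
theorem exists_rst {n T N m k q s1 stot w K H : ℕ} {lam : ℝ}
    (hnum : Num D n T m k q s1 stot w K H lam) (hN : n * T ≤ N) (G : Finset (TF D))
    (hG : ∀ φ ∈ G, φ.Ok m k) (hH : G.card ≤ H) :
    ∃ ρ : Rst D, ρ.n = n ∧ ρ.T = T ∧ ρ.Good N ∧ ∀ φ ∈ G, ∀ t ∈ box D n,
      (DegLt n q t fun y => bz (φ.ev (ρ.x y))) ∧
      ∀ J : Finset ℤ, J ⊆ Finset.Ico (0 : ℤ) n → J.card = 1 ∨ J.card = s1 →
        DegLt n q t fun y => if ∀ h ∈ J, Tl T (φ.rd (ρ.x y)) h then 1 else 0 := by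
  have hT := hnum.hT
  have hs1 := hnum.hs1
  set Js : Finset (Finset ℤ) := (Finset.Ico (0 : ℤ) n).powerset.filter
    fun J => J.card = 1 ∨ J.card = s1 with hJs
  set ψ : TF D × V D × Option (Finset ℤ) → TF D := fun i =>
    match i.2.2 with
    | none => i.1
    | some J => tauF T J i.1 with hψ
  set Idx : Finset (TF D × V D × Option (Finset ℤ)) := G ×ˢ (box D n ×ˢ Finset.insertNone Js)
    with hIdx
  have hJne : ∀ J ∈ Js, J.Nonempty ∧ J.card ≤ s1 := by
    intro J hJ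
    rw [hJs, Finset.mem_filter] at hJ
    rcases hJ.2 with h | h
    · exact ⟨Finset.card_pos.1 (by omega), by omega⟩
    · exact ⟨Finset.card_pos.1 (by omega), by omega⟩
  have hok : ∀ i ∈ Idx, (ψ i).Ok (s1 * m) k := by
    rintro ⟨φ, t, o⟩ hi
    rw [hIdx, Finset.mem_product, Finset.mem_product] at hi
    obtain ⟨hφ, -, ho⟩ := hi
    obtain ⟨g1, g2⟩ := hG φ hφ
    cases o with
    | none =>
      refine ⟨g1.trans ?_, g2⟩
      exact Nat.le_mul_of_pos_left _ hs1
    | some J =>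
      have hJ : J ∈ Js := Finset.some_mem_insertNone.1 ho
      obtain ⟨h1, h2⟩ := hJne J hJ
      obtain ⟨g3, g4⟩ := ok_tauF (T := T) h1 (hG φ hφ)
      exact ⟨g3.trans (Nat.mul_le_mul_right _ h2), g4⟩
  have hbad : pr (fun ω : Om D n T N => ∃ i ∈ Idx,
      ¬ DegLt n q i.2.1 fun y => bz ((ψ i).ev ((mkR hT ω.1 ω.2.1).x y))) < 1 := by
    refine lt_of_le_of_lt (pr_exists_le Idx _) ?_
    set p : ℝ := 18 * (2 * lam) ^ (2 * (D + 3) * (D + 2)) * (11 / lam) ^ q with hp
    have hlam := hnum.hlam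
    have hp0 : 0 ≤ p := by
      rw [hp]
      have : 0 ≤ lam := by linarith
      positivity
    have h1 : ∑ i ∈ Idx, pr (fun ω : Om D n T N =>
        ¬ DegLt n q i.2.1 fun y => bz ((ψ i).ev ((mkR hT ω.1 ω.2.1).x y))) ≤ Idx.card • p := by
      refine Finset.sum_le_card_nsmul _ _ _ fun i hi => ?_
      have hti : i.2.1 ∈ box D n := by
        rw [hIdx, Finset.mem_product, Finset.mem_product] at hi
        exact hi.2.1
      exact lemmaA hT hN hti (ψ i) (hok i hi) hnum.hq hlam hnum.hb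
    refine lt_of_le_of_lt h1 ?_
    rw [nsmul_eq_mul]
    refine lt_of_le_of_lt ?_ hnum.hunion
    have h2 : (Idx.card : ℝ) ≤ (H : ℝ) * (2 * (n + 1) ^ s1) * n ^ (D + 3) := by
      have h3 : Idx.card ≤ H * (2 * (n + 1) ^ s1) * n ^ (D + 3) := by
        rw [hIdx, Finset.card_product, Finset.card_product, stageP_card_box,
          Finset.card_insertNone]
        have h4 := stageP_card_J n s1 hs1
        rw [← hJs] at h4
        calc G.card * (n ^ (D + 3) * (Js.card + 1))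
            ≤ H * (n ^ (D + 3) * (2 * (n + 1) ^ s1)) :=
              Nat.mul_le_mul hH (Nat.mul_le_mul_left _ h4)
          _ = H * (2 * (n + 1) ^ s1) * n ^ (D + 3) := by ring
      exact_mod_cast h3
    exact mul_le_mul_of_nonneg_right h2 hp0
  have : Nonempty (Fin T) := ⟨⟨0, hT⟩⟩
  obtain ⟨ω, hω⟩ := exists_of_pr_lt_one hbad
  push Not at hω
  refine ⟨mkR hT ω.1 ω.2.1, rfl, rfl, mkR_good hT hN ω, fun φ hφ t ht => ⟨?_, fun J hJ hc => ?_⟩⟩
  · exact hω (φ, t, none) (by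
      rw [hIdx, Finset.mem_product, Finset.mem_product]
      exact ⟨hφ, ht, Finset.none_mem_insertNone⟩)
  · have hJm : J ∈ Js := by
      rw [hJs, Finset.mem_filter, Finset.mem_powerset]
      exact ⟨hJ, hc⟩
    have h1 := hω (φ, t, some J) (by
      rw [hIdx, Finset.mem_product, Finset.mem_product]
      exact ⟨hφ, ht, Finset.some_mem_insertNone.2 hJm⟩)
    have h2 : (fun y => bz ((ψ (φ, t, some J)).ev ((mkR hT ω.1 ω.2.1).x y))) =
        fun y => if ∀ h ∈ J, Tl T (φ.rd ((mkR hT ω.1 ω.2.1).x y)) h then (1 : ℤ) else 0 := by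
      funext y
      have h3 := ev_tauF (T := T) (hJne J hJm).1 φ ((mkR hT ω.1 ω.2.1).x y)
      show bz ((tauF T J φ).ev _) = _
      by_cases h4 : ∀ h ∈ J, Tl T (φ.rd ((mkR hT ω.1 ω.2.1).x y)) h
      · rw [if_pos h4, h3.2 h4]
        rfl
      · rw [if_neg h4]
        have h5 : (tauF T J φ).ev ((mkR hT ω.1 ω.2.1).x y) = false := by
          rw [← Bool.not_eq_true]
          exact fun h => h4 (h3.1 h)
        rw [h5]
        rfl
    rw [← h2]
    exact h1

/-- **stage lemma, final form** -/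
theorem stageP {n T N m k q s1 stot w K H : ℕ} {lam : ℝ}
    (hnum : Num D n T m k q s1 stot w K H lam) (hN : n * T ≤ N) (G : Finset (TF D))
    (hG : ∀ φ ∈ G, φ.Ok m k) (hH : G.card ≤ H) :
    ∃ ρ : Rst D, ρ.n = n ∧ ρ.T = T ∧ ρ.Good N ∧
      ∀ φ ∈ G, ∃ A : DT (E D) Bool, A.depth ≤ k ∧ Sim ρ φ A := by
  obtain ⟨ρ, hn, hT, hgood, h⟩ := exists_rst hnum hN G hG hH
  refine ⟨ρ, hn, hT, hgood, fun φ hφ => ?_⟩
  subst hn
  subst hT
  have hn' := hnum.hn
  obtain ⟨A, hA, hA'⟩ := stage ρ φ (hG φ hφ) hnum.hs1 (fun t ht => (h φ hφ t ht).1)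
    (fun t ht => (h φ hφ t ht).2) hnum.hw hnum.href hnum.hK hnum.hstot (by omega)
  exact ⟨A, hA.trans hnum.hk, hA'⟩

end FrS
end

section

/-!
The level step.
-/

set_option linter.unusedSectionVars false

namespace FrS

open Finset Fr56
open scoped Classical

variable {D : ℕ}

theorem ok_phi {Obs Cls : Set (Ob (E D))} (hO : ObsCl Obs) {N k l rho m : ℕ} (hl : 2 ≤ l)
    (hm : 8 * rho + 8 ≤ m) {I : Ob (E D) → DT (E D) Bool} (hI : IsLvl Obs Cls N k l I)
    {O : Ob (E D)} (h : O ∈ Obs) (hv : vl2 O ≤ l * rho) : (phi l I O).Ok m k := by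
  constructor
  · rw [phi, Fm.leaves_map]
    refine le_trans ?_ hm
    have h1 := leaves_fv l hl O
    have h2 := hO.nc O h
    have h3 : l * (6 * nc O + 2) ≤ l * 8 := Nat.mul_le_mul_left _ (by omega)
    have h4 : l * (fv l O).leaves ≤ l * (8 * rho + 8) := by
      calc l * (fv l O).leaves ≤ 8 * vl2 O + l * (6 * nc O + 2) := h1
        _ ≤ 8 * (l * rho) + l * 8 := by omega
        _ = l * (8 * rho + 8) := by ring
    exact Nat.le_of_mul_le_mul_left h4 (by omega)
  · intro A hA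
    rw [phi, lv_map, List.mem_map] at hA
    obtain ⟨Q, hQ, rfl⟩ := hA
    rcases lv_fv l O Q hQ with ⟨b, rfl⟩ | ⟨P, hP, b, rfl⟩
    · rw [hI.const]
      exact Nat.zero_le _
    · refine hI.depth _ (hO.top P (hO.sub O h P hP) l b) ?_
      rw [vl2_lab]
      exact (vl_htop_le l hl P).le

theorem vl2_map_inl (f : Fm (E D)) : vl2 (f.map Sum.inl : Ob (E D)) = f.leaves := by
  induction f with
  | var v => rfl
  | neg f ih => simpa [Fm.map, vl2, Fm.leaves] using ih
  | and f g ihf ihg => simp [Fm.map, vl2, Fm.leaves, ihf, ihg]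
  | or f g ihf ihg => simp [Fm.map, vl2, Fm.leaves, ihf, ihg]

theorem far_lab {I : Ob (E D) → DT (E D) Bool} {l : ℕ} {O : Ob (E D)} {x : Ch D} {h : ℤ}
    (hfar : ∀ A ∈ lv (phi l I O), Far (A.reads x) h) (b : Bool) :
    Far ((I (lab b (htop l O))).reads x) h := by
  refine hfar _ ?_
  rw [phi, lv_map, List.mem_map]
  exact ⟨_, lab_mem_lv l O b, rfl⟩

/-- **level step** -/
theorem IsLvl.step {Obs Cls : Set (Ob (E D))} (hO : ObsCl Obs) (hfin : Obs.Finite)
    (hcls : ∀ O ∈ Cls, O ∈ Obs ∧ ∃ f : Fm (E D), O = f.map Sum.inl ∧ f.leaves ≤ 2 * (D + 3))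
    {n T N m k q s1 stot w K H : ℕ} {lam : ℝ} (hnum : Num D n T m k q s1 stot w K H lam)
    (hN : n * T ≤ N) (hH : Obs.ncard ≤ H) {l rho : ℕ} (hl : 2 * (D + 3) < l) (hrho : 1 ≤ rho)
    (hm : 8 * rho + 8 ≤ m) {I : Ob (E D) → DT (E D) Bool} (hI : IsLvl Obs Cls N k l I) :
    ∃ I', IsLvl Obs Cls n k (l * rho) I' := by
  have hl2 : 2 ≤ l := by omega
  set G : Finset (TF D) := (hfin.toFinset.filter fun O => vl2 O ≤ l * rho).image (phi l I) with hG
  have hGok : ∀ φ ∈ G, φ.Ok m k := by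
    intro φ hφ
    obtain ⟨O, hO', rfl⟩ := Finset.mem_image.1 hφ
    rw [Finset.mem_filter, Set.Finite.mem_toFinset] at hO'
    exact ok_phi hO hl2 hm hI hO'.1 hO'.2
  have hGH : G.card ≤ H := by
    refine (Finset.card_image_le.trans (Finset.card_filter_le _ _)).trans ?_
    rw [← Set.ncard_eq_toFinset_card Obs hfin]
    exact hH
  obtain ⟨ρ, hρn, -, hgood, hsim⟩ := stageP hnum hN G hGok hGH
  subst hρn
  have hc : ∀ (x : Ch D) (b : Bool), (I (.var (.inr b))).val x = b := by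
    intro x b
    rw [hI.const]
    rfl
  have hex : ∀ O : Ob (E D), ∃ A : DT (E D) Bool, (∀ b, O = .var (.inr b) → A = .leaf b) ∧
      (O ∈ Obs → vl2 O ≤ l * rho → A.depth ≤ k ∧ Sim ρ (phi l I O) A) := by
    intro O
    by_cases h1 : ∃ b, O = .var (.inr b)
    · obtain ⟨b, rfl⟩ := h1
      refine ⟨.leaf b, ?_, fun _ _ => ⟨Nat.zero_le _, ?_⟩⟩
      · intro b' hb'
        simp only [Fm.var.injEq, Sum.inr.injEq] at hb'
        rw [hb']
      · intro t _ y _ _ _
        rw [ev_phi]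
        exact (fv_const l b (fun P => (I P).val (ρ.x y)) (hc _)).symm
    · by_cases h2 : O ∈ Obs ∧ vl2 O ≤ l * rho
      · have h3 : phi l I O ∈ G := by
          rw [hG]
          refine Finset.mem_image_of_mem _ ?_
          rw [Finset.mem_filter, Set.Finite.mem_toFinset]
          exact h2
        obtain ⟨A, hA, hA'⟩ := hsim _ h3
        exact ⟨A, fun b hb => absurd ⟨b, hb⟩ h1, fun _ _ => ⟨hA, hA'⟩⟩
      · exact ⟨.leaf false, fun b hb => absurd ⟨b, hb⟩ h1, fun h3 h4 => absurd ⟨h3, h4⟩ h2⟩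
  choose I' hI'1 hI'2 using hex
  have hn := hnum.hn
  have hpair : ∀ O ∈ Obs, vl2 O ≤ l * rho →
      (phi l I O).Ok m k ∧ (I' O).depth ≤ k ∧ Sim ρ (phi l I O) (I' O) := fun O hO' hv =>
    ⟨ok_phi hO hl2 hm hI hO' hv, hI'2 O hO' hv⟩
  have hvl : ∀ O : Ob (E D), vl2 (lab true (htop l O)) ≤ l ∧ vl2 (lab false (htop l O)) ≤ l := by
    intro O
    rw [vl2_lab, vl2_lab]
    exact ⟨(vl_htop_le l hl2 O).le, (vl_htop_le l hl2 O).le⟩
  refine ⟨I', ⟨fun b => hI'1 _ b rfl, fun O h1 h2 => (hI'2 O h1 h2).1, ?_, ?_, ?_, ?_, ?_⟩⟩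
  · -- negation
    intro P hP hv t ht y hy hf1 hf2
    have hP' : P ∈ Obs := hO.sub _ hP P (by simp [Fm.subs, Fm.self_mem_subs])
    have hv' : vl2 (Fm.neg P) ≤ l * rho := hv
    obtain ⟨t', ht', x', hx', h⟩ := transfer ρ (m := m) (k := k) hgood
      [(phi l I P, I' P), (phi l I (.neg P), I' (.neg P))] (by simp)
      (by
        intro p hp
        simp only [List.mem_cons, List.not_mem_nil, or_false] at hp
        rcases hp with rfl | rfl
        · exact hpair P hP' hv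
        · exact hpair _ hP hv') (by omega) ht hy
      (by
        intro p hp
        simp only [List.mem_cons, List.not_mem_nil, or_false] at hp
        rcases hp with rfl | rfl
        · exact hf1
        · exact hf2)
    obtain ⟨e1, g1⟩ := h _ (List.mem_cons_self)
    obtain ⟨e2, g2⟩ := h _ (List.mem_cons_of_mem _ List.mem_cons_self)
    simp only at e1 g1 e2 g2
    rw [e1, e2, ev_phi, ev_phi]
    refine fv_neg l (fun P => (I P).val x') P (fun b => ?_) (fun hh => ?_)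
    · refine hI.neg (lab b (htop l P)) (hO.top _ hP l b) ?_ t' ht' x' hx' (far_lab g1 b)
        (far_lab g2 b)
      rw [vl2_lab]
      exact (vl_htop_le l hl2 P).le
    · exact hI.mono (htop l P) (one_htop l P) hh (fun b => hO.top _ hP' l b)
        (vl_htop_le l hl2 P).le t' ht' x' hx' (far_lab g1)
  · -- conjunction
    intro P Q hPQ hv t ht y hy hf1 hf2 hf3
    have hP' : P ∈ Obs := hO.sub _ hPQ P (by simp [Fm.subs, Fm.self_mem_subs])
    have hQ' : Q ∈ Obs := hO.sub _ hPQ Q (by simp [Fm.subs, Fm.self_mem_subs])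
    have hv' : vl2 (Fm.and P Q) ≤ l * rho := hv
    obtain ⟨t', ht', x', hx', h⟩ := transfer ρ (m := m) (k := k) hgood
      [(phi l I P, I' P), (phi l I Q, I' Q), (phi l I (.and P Q), I' (.and P Q))] (by simp)
      (by
        intro p hp
        simp only [List.mem_cons, List.not_mem_nil, or_false] at hp
        rcases hp with rfl | rfl | rfl
        · exact hpair P hP' (by omega)
        · exact hpair Q hQ' (by omega)
        · exact hpair _ hPQ hv') (by omega) ht hy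
      (by
        intro p hp
        simp only [List.mem_cons, List.not_mem_nil, or_false] at hp
        rcases hp with rfl | rfl | rfl
        · exact hf1
        · exact hf2
        · exact hf3)
    obtain ⟨e1, g1⟩ := h _ (List.mem_cons_self)
    obtain ⟨e2, g2⟩ := h _ (List.mem_cons_of_mem _ List.mem_cons_self)
    obtain ⟨e3, g3⟩ := h _ (List.mem_cons_of_mem _ (List.mem_cons_of_mem _ List.mem_cons_self))
    simp only at e1 g1 e2 g2 e3 g3
    rw [e1, e2, e3, ev_phi, ev_phi, ev_phi]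
    refine fv_and l (fun P => (I P).val x') (hc x') P Q (fun he b => ?_)
    have hmem : lab b (Fm.and (htop l P) (htop l Q)) ∈ Obs := by
      rw [← he]
      exact hO.top _ hPQ l b
    have hvs : vl2 (lab b (htop l P)) + vl2 (lab b (htop l Q)) ≤ l := by
      rw [vl2_lab, vl2_lab]
      have := vl_htop_le l hl2 (Fm.and P Q)
      rw [he] at this
      exact this.le
    have g3' := far_lab g3 b
    rw [he] at g3'
    exact hI.and (lab b (htop l P)) (lab b (htop l Q)) hmem hvs t' ht' x' hx' (far_lab g1 b)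
      (far_lab g2 b) g3'
  · -- disjunction
    intro P Q hPQ hv t ht y hy hf1 hf2 hf3
    have hP' : P ∈ Obs := hO.sub _ hPQ P (by simp [Fm.subs, Fm.self_mem_subs])
    have hQ' : Q ∈ Obs := hO.sub _ hPQ Q (by simp [Fm.subs, Fm.self_mem_subs])
    have hv' : vl2 (Fm.or P Q) ≤ l * rho := hv
    obtain ⟨t', ht', x', hx', h⟩ := transfer ρ (m := m) (k := k) hgood
      [(phi l I P, I' P), (phi l I Q, I' Q), (phi l I (.or P Q), I' (.or P Q))] (by simp)
      (by
        intro p hp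
        simp only [List.mem_cons, List.not_mem_nil, or_false] at hp
        rcases hp with rfl | rfl | rfl
        · exact hpair P hP' (by omega)
        · exact hpair Q hQ' (by omega)
        · exact hpair _ hPQ hv') (by omega) ht hy
      (by
        intro p hp
        simp only [List.mem_cons, List.not_mem_nil, or_false] at hp
        rcases hp with rfl | rfl | rfl
        · exact hf1
        · exact hf2
        · exact hf3)
    obtain ⟨e1, g1⟩ := h _ (List.mem_cons_self)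
    obtain ⟨e2, g2⟩ := h _ (List.mem_cons_of_mem _ List.mem_cons_self)
    obtain ⟨e3, g3⟩ := h _ (List.mem_cons_of_mem _ (List.mem_cons_of_mem _ List.mem_cons_self))
    simp only at e1 g1 e2 g2 e3 g3
    rw [e1, e2, e3, ev_phi, ev_phi, ev_phi]
    refine fv_or l (fun P => (I P).val x') (hc x') P Q (fun he b => ?_)
    have hmem : lab b (Fm.or (htop l P) (htop l Q)) ∈ Obs := by
      rw [← he]
      exact hO.top _ hPQ l b
    have hvs : vl2 (lab b (htop l P)) + vl2 (lab b (htop l Q)) ≤ l := by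
      rw [vl2_lab, vl2_lab]
      have := vl_htop_le l hl2 (Fm.or P Q)
      rw [he] at this
      exact this.le
    have g3' := far_lab g3 b
    rw [he] at g3'
    exact hI.or (lab b (htop l P)) (lab b (htop l Q)) hmem hvs t' ht' x' hx' (far_lab g1 b)
      (far_lab g2 b) g3'
  · -- monotonicity
    intro C hC hh hmem hv t ht y hy hfar
    have hv1 : ∀ b, vl2 (lab b C) ≤ l * rho := fun b => by rw [vl2_lab]; exact hv
    obtain ⟨t', ht', x', hx', h⟩ := transfer ρ (m := m) (k := k) hgood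
      [(phi l I (lab false C), I' (lab false C)), (phi l I (lab true C), I' (lab true C))] (by simp)
      (by
        intro p hp
        simp only [List.mem_cons, List.not_mem_nil, or_false] at hp
        rcases hp with rfl | rfl
        · exact hpair _ (hmem false) (hv1 false)
        · exact hpair _ (hmem true) (hv1 true)) (by omega) ht hy
      (by
        intro p hp
        simp only [List.mem_cons, List.not_mem_nil, or_false] at hp
        rcases hp with rfl | rfl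
        · exact hfar false
        · exact hfar true)
    obtain ⟨e1, g1⟩ := h _ (List.mem_cons_self)
    obtain ⟨e2, g2⟩ := h _ (List.mem_cons_of_mem _ List.mem_cons_self)
    simp only at e1 g1 e2 g2
    rw [e1, e2, ev_phi, ev_phi]
    exact fv_mono l (fun P => (I P).val x') (hc x') C hC hh
  · -- clauses
    intro O hOc t ht y hy hfar
    obtain ⟨hOO, f, hf, hfl⟩ := hcls O hOc
    have hv1 : vl2 O ≤ l * rho := by
      rw [hf, vl2_map_inl]
      calc f.leaves ≤ l * 1 := by omega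
        _ ≤ l * rho := Nat.mul_le_mul_left _ hrho
    obtain ⟨t', ht', x', hx', h⟩ := transfer ρ (m := m) (k := k) hgood
      [(phi l I O, I' O)] (by simp)
      (by
        intro p hp
        simp only [List.mem_cons, List.not_mem_nil, or_false] at hp
        subst hp
        exact hpair _ hOO hv1) (by omega) ht hy
      (by
        intro p hp
        simp only [List.mem_cons, List.not_mem_nil, or_false] at hp
        subst hp
        exact hfar)
    obtain ⟨e1, g1⟩ := h _ (List.mem_cons_self)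
    simp only at e1 g1
    have hfv : fv l O = .var O := fv_small l f (by omega) O hf
    rw [e1, ev_phi, hfv]
    refine hI.cls O hOc t' ht' x' hx' (g1 _ ?_)
    rw [phi, hfv]
    simp [Fm.map, lv]

end FrS
end

section

/-!
Iteration of the level step; the class of objects of a derivation.
-/

set_option linter.unusedSectionVars false

namespace FrS

open Finset Fr56
open scoped Classical

variable {D : ℕ}

/-- iteration of the level step -/
theorem iterate {Obs : Set (Ob (E D))} (hO : ObsCl Obs) (hfin : Obs.Finite) {N : ℕ} (hN : 2 ≤ N)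
    (hcls : ∀ O ∈ ClsOf D N, O ∈ Obs) {L T m k q s1 stot w K H : ℕ} {lam : ℝ} {nn : ℕ → ℕ}
    (hnum : ∀ j < L, Num D (nn j) T m k q s1 stot w K H lam)
    (hnn : ∀ j < L, nn j * T ≤ nn (j + 1)) (hnL : nn L = N) (hH : Obs.ncard ≤ H)
    {l rho : ℕ} (hl : 2 * (D + 3) < l) (hlk : l ≤ k) (hrho : 1 ≤ rho) (hm : 8 * rho + 8 ≤ m) :
    ∃ I, IsLvl Obs (ClsOf D N) (nn 0) k (l * rho ^ L) I := by
  have key : ∀ i, i ≤ L → ∃ I, IsLvl Obs (ClsOf D N) (nn (L - i)) k (l * rho ^ i) I := by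
    intro i
    induction i with
    | zero =>
      intro _
      refine ⟨evT, ?_⟩
      rw [Nat.sub_zero, hnL, pow_zero, mul_one]
      exact base Obs hN hlk
    | succ i ih =>
      intro hi
      obtain ⟨I, hI⟩ := ih (by omega)
      have hj : L - (i + 1) < L := by omega
      have hj' : L - (i + 1) + 1 = L - i := by omega
      have hN' : nn (L - (i + 1)) * T ≤ nn (L - i) := by
        have := hnn _ hj
        rwa [hj'] at this
      have hl' : 2 * (D + 3) < l * rho ^ i :=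
        lt_of_lt_of_le hl (Nat.le_mul_of_pos_right _ (Nat.pow_pos (by omega)))
      obtain ⟨I', hI'⟩ := IsLvl.step hO hfin (fun O hO' => ⟨hcls O hO', by
        obtain ⟨p, _, hp⟩ := hO'
        exact ⟨_, hp, leaves_clause _ _ _⟩⟩) (hnum _ hj) hN' hH hl' hrho hm hI
      refine ⟨I', ?_⟩
      rw [pow_succ, ← mul_assoc]
      exact hI'
  obtain ⟨I, hI⟩ := key L le_rfl
  rw [Nat.sub_self] at hI
  exact ⟨I, hI⟩

/-- the objects of a list of formulas -/
def ObsOf (π : List (Fm (E D))) : Set (Ob (E D)) :=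
  {O | (∃ b, O = .var (.inr b)) ∨ ∃ A ∈ π, ∃ B ∈ A.subs, O ∈ obs B}

theorem obsCl_obsOf (π : List (Fm (E D))) : ObsCl (ObsOf π) where
  sub := by
    rintro O (⟨b, rfl⟩ | ⟨A, hA, B, hB, hO⟩) P hP
    · simp only [Fm.subs, List.mem_singleton] at hP
      subst hP
      exact Or.inl ⟨b, rfl⟩
    · obtain ⟨B', hB', hP'⟩ := subs_obs hO hP
      exact Or.inr ⟨A, hA, B', Fm.subs_trans hB' hB, hP'⟩
  top := by
    rintro O (⟨b', rfl⟩ | ⟨A, hA, B, hB, hO⟩) l b
    · exact Or.inl ⟨b, rfl⟩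
    · exact Or.inr ⟨A, hA, B, hB, lab_htop_mem hO l b⟩
  nc := by
    rintro O (⟨b', rfl⟩ | ⟨A, hA, B, hB, hO⟩)
    · exact le_rfl
    · exact nc_obs hO
  const := fun b => Or.inl ⟨b, rfl⟩

/-- a list that contains all objects -/
def obsList (π : List (Fm (E D))) : List (Ob (E D)) :=
  .var (.inr false) :: .var (.inr true) :: π.flatMap fun A => A.subs.flatMap obs

theorem obsOf_subset (π : List (Fm (E D))) : ObsOf π ⊆ {O | O ∈ obsList π} := by
  rintro O (⟨b, rfl⟩ | ⟨A, hA, B, hB, hO⟩)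
  · cases b <;> simp [obsList]
  · simp only [obsList, Set.mem_ofPred_eq, List.mem_cons, List.mem_flatMap]
    exact Or.inr (Or.inr ⟨A, hA, B, hB, hO⟩)

theorem finite_obsOf (π : List (Fm (E D))) : (ObsOf π).Finite :=
  (List.finite_toSet (obsList π)).subset (obsOf_subset π)

theorem length_flatMap_le {α β : Type} (l : List α) (f : α → List β) {c : ℕ}
    (h : ∀ a ∈ l, (f a).length ≤ c) : (l.flatMap f).length ≤ l.length * c := by
  induction l with
  | nil => simp
  | cons a l ih =>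
    simp only [List.flatMap_cons, List.length_append, List.length_cons]
    have h1 := h a (by simp)
    have h2 := ih fun b hb => h b (by simp [hb])
    rw [add_mul, one_mul]
    omega

theorem ncard_obsOf (π : List (Fm (E D))) {X : ℕ} (hX : ∀ A ∈ π, A.size ≤ X) :
    (ObsOf π).ncard ≤ π.length * (2 * X * (X + 1)) + 2 := by
  have h1 : (ObsOf π).ncard ≤ (obsList π).length := by
    calc (ObsOf π).ncard ≤ ((obsList π).toFinset : Set (Ob (E D))).ncard := by
          apply Set.ncard_le_ncard _ (Finset.finite_toSet _)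
          intro O hO
          have := obsOf_subset π hO
          simpa using this
      _ = (obsList π).toFinset.card := Set.ncard_coe_finset _
      _ ≤ (obsList π).length := List.toFinset_card_le _
  refine h1.trans ?_
  have h2 : (π.flatMap fun A => A.subs.flatMap obs).length ≤ π.length * (2 * X * (X + 1)) := by
    apply length_flatMap_le
    intro A hA
    calc (A.subs.flatMap obs).length ≤ A.subs.length * (2 * (X + 1)) := by
          apply length_flatMap_le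
          intro B hB
          rw [length_obs]
          have h3 := Fm.size_le_of_mem_subs hB
          have h4 := hX A hA
          omega
      _ = A.size * (2 * (X + 1)) := by rw [Fm.length_subs]
      _ ≤ X * (2 * (X + 1)) := Nat.mul_le_mul_right _ (hX A hA)
      _ = 2 * X * (X + 1) := by ring
  simp only [obsList, List.length_cons]
  omega

theorem mem_subs_conj {V : Type} (d : Fm V) (l : List (Fm V)) {f : Fm V} (hf : f ∈ l) :
    f ∈ (Fm.conj d l).subs := by
  induction l with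
  | nil => simp at hf
  | cons g l ih =>
    cases l with
    | nil =>
      simp only [List.mem_singleton] at hf
      subst hf
      exact Fm.self_mem_subs _
    | cons g' l' =>
      simp only [Fm.conj, Fm.subs, List.mem_cons, List.mem_append]
      rcases List.mem_cons.1 hf with rfl | hf
      · exact Or.inr (Or.inl (Fm.self_mem_subs _))
      · exact Or.inr (Or.inr (ih hf))

/-- **no short refutation with small lines** -/
theorem no_short_refutation {N : ℕ} (hN : 2 ≤ N) {L T m k q s1 stot w K H C : ℕ} {lam : ℝ}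
    {nn : ℕ → ℕ} (hnum : ∀ j < L, Num D (nn j) T m k q s1 stot w K H lam)
    (hnn : ∀ j < L, nn j * T ≤ nn (j + 1)) (hnL : nn L = N) {l rho : ℕ} (hl : 2 * (D + 3) < l)
    (hlk : l ≤ k) (hrho : 1 ≤ rho) (hm : 8 * rho + 8 ≤ m) (R : List Rule)
    (hR : ∀ r ∈ R, r.Sound) (b : Fm ℕ) (hb : b.Unsat) (hC : ∀ r ∈ R, r.nodes + 1 ≤ C)
    (hCb : b.size + 1 ≤ C) (hC4 : 4 ≤ C) (hn : C * (2 * k) + 3 * k + 3 < nn 0) (τ : ℕ → E D)
    (π : List (Fm (E D))) (hπ : IsDerivation R (Ts D N) π) (hlast : b.map τ ∈ π)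
    (hTs : (Ts D N).size ≤ l * rho ^ L) (hsize : ∀ A ∈ π, A.size ≤ l * rho ^ L)
    (hH : (π.length + 1) * (2 * (l * rho ^ L) * (l * rho ^ L + 1)) + 2 ≤ H) : False := by
  have hall : ∀ A ∈ Ts D N :: π, A.size ≤ l * rho ^ L := by
    intro A hA
    rcases List.mem_cons.1 hA with rfl | hA
    · exact hTs
    · exact hsize A hA
  have hself : ∀ A ∈ Ts D N :: π, ∀ B ∈ A.subs, B.map Sum.inl ∈ ObsOf (Ts D N :: π) :=
    fun A hA B hB => Or.inr ⟨A, hA, B, hB, self_mem_obs B⟩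
  have hcls : ∀ O ∈ ClsOf D N, O ∈ ObsOf (Ts D N :: π) := by
    rintro O ⟨p, hp, rfl⟩
    refine hself (Ts D N) List.mem_cons_self _ ?_
    apply mem_subs_conj
    rw [List.mem_map]
    exact ⟨p, Finset.mem_toList.2 hp, rfl⟩
  have hcard : (ObsOf (Ts D N :: π)).ncard ≤ H := by
    refine (ncard_obsOf _ hall).trans ?_
    rw [List.length_cons]
    exact hH
  obtain ⟨I, hI⟩ := iterate (obsCl_obsOf _) (finite_obsOf _) hN hcls hnum hnn hnL hcard hl hlk
    hrho hm
  exact no_refutation_level hN hI (by omega) R hR b hb hC hCb hC4 hn τ π hπ hlast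
    fun A hA B hB => ⟨hself A hA B hB,
      (Fm.leaves_le_size B).trans ((Fm.size_le_of_mem_subs hB).trans (hall A hA))⟩

end FrS
end

section

/-!
The final theorems.
-/

set_option linter.unusedSectionVars false

namespace FrS

open Finset Fr56
open scoped Classical

/-- the Tseitin formula of the grid of side `N` in dimension `D + 3`, over the variables `ℕ` -/
noncomputable def TsN (D N : ℕ) : Fm ℕ := (Ts D N).map Encodable.encode

/-- decoding of the variables -/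
noncomputable def decE (D : ℕ) (k : ℕ) : E D := (Encodable.decode k).getD (0, 0)

theorem decE_encode {D : ℕ} (e : E D) : decE D (Encodable.encode e) = e := by
  simp [decE]

theorem TsN_dec (D N : ℕ) : (TsN D N).map (decE D) = Ts D N := by
  rw [TsN, fm_map_map]
  exact fm_map_id _ (fun e => decE_encode e) _

theorem TsN_size (D N : ℕ) : (TsN D N).size = (Ts D N).size := by
  rw [TsN, Fm.size_map]

/-- **Theorem S, grid form** -/
theorem main_grid (D : ℕ) (ε : ℝ) (hε : 0 < ε) : ∃ c : ℝ, 0 < c ∧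
    ∀ R : List Rule, (∀ r ∈ R, r.Sound) → ∀ b : Fm ℕ, b.Unsat →
      ∃ N₀, ∀ N ≥ N₀, ∀ π : List (Fm ℕ), IsDerivation R (TsN D N) π → b ∈ π →
        (∀ A ∈ π, (A.size : ℝ) ≤ (N : ℝ) ^ (2 * (D + 2) - ε)) →
        (2 : ℝ) ^ ((N : ℝ) ^ c) ≤ π.length := by
  obtain ⟨c, hc, hnumeric⟩ := numeric D ε hε
  refine ⟨c, hc, fun R hR b hb => ?_⟩
  obtain ⟨C, hC, hCb, hC4⟩ : ∃ C, (∀ r ∈ R, r.nodes + 1 ≤ C) ∧ b.size + 1 ≤ C ∧ 4 ≤ C := by
    refine ⟨(R.map fun r => r.nodes + 1).sum + (b.size + 1) + 4, fun r hr => ?_, by omega,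
      by omega⟩
    have := List.single_le_sum (l := R.map fun r => r.nodes + 1) (by simp) _
      (List.mem_map_of_mem hr)
    omega
  obtain ⟨N₁, hN₁⟩ := hnumeric C
  refine ⟨N₁ + 2, fun N hN π hπ hbπ hs => ?_⟩
  by_contra hlt
  push Not at hlt
  obtain ⟨L, T, m, k, q, s1, stot, w, K, H, l, rho, lam, nn, h1, h2, h3, h4, h5, h6, h7, h8, h9,
    h10, h11⟩ := hN₁ N (by omega)
  refine no_short_refutation (N := N) (by omega) h1 h2 h3 h4 h5 h6 h7 R hR b hb hC hCb hC4 h8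
    (decE D) (π.map (Fm.map (decE D))) ?_ ?_ ?_ ?_ ?_
  · have := isDerivation_map (decE D) hπ
    rw [TsN_dec] at this
    exact this
  · exact List.mem_map_of_mem hbπ
  · exact (Ts_size (by omega)).trans h10
  · intro A hA
    obtain ⟨B, hB, rfl⟩ := List.mem_map.1 hA
    rw [Fm.size_map]
    exact_mod_cast (hs B hB).trans h9
  · rw [List.length_map]
    exact h11 _ hlt

theorem TsN_unsat (D : ℕ) {N : ℕ} (hN : 2 ≤ N) : (TsN D N).Unsat := by
  intro x
  rw [TsN, Fm.eval_map]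
  exact Ts_unsat hN _

theorem TsN_cnf (D : ℕ) {N : ℕ} (hN : 2 ≤ N) : (TsN D N).IsCNF (2 * (D + 3)) :=
  isCNF_map _ (Ts_cnf hN)

/-- a power of `N` beats a constant -/
theorem eventually_const_le (C a : ℝ) (ha : 0 < a) : ∃ N₀ : ℕ, ∀ N ≥ N₀, C ≤ (N : ℝ) ^ a := by
  have h := (tendsto_rpow_atTop ha).comp tendsto_natCast_atTop_atTop
  obtain ⟨N₀, hN₀⟩ := Filter.eventually_atTop.1 (h.eventually_ge_atTop C)
  exact ⟨N₀, fun N hN => hN₀ N hN⟩

/-- **Theorem S, exponent `2 - ε`** -/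
theorem main_exp (ε : ℝ) (hε : 0 < ε) : ∃ (k : ℕ) (c : ℝ) (F : ℕ → Fm ℕ), 0 < c ∧
    (∀ n, (F n).Unsat ∧ (F n).IsCNF k ∧ n ≤ (F n).size) ∧
    ∀ R : List Rule, (∀ r ∈ R, r.Sound) → ∀ b : Fm ℕ, b.Unsat →
      ∃ n₀, ∀ n ≥ n₀, ∀ π : List (Fm ℕ), IsDerivation R (F n) π → b ∈ π →
        (∀ A ∈ π, (A.size : ℝ) ≤ ((F n).size : ℝ) ^ (2 - ε)) →
        (2 : ℝ) ^ (((F n).size : ℝ) ^ c) ≤ π.length := by
  -- the dimension
  obtain ⟨D, hD⟩ : ∃ D : ℕ, 4 ≤ ((D : ℝ) + 3) * ε := by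
    obtain ⟨D, hD⟩ := exists_nat_ge (4 / ε)
    refine ⟨D, ?_⟩
    rw [div_le_iff₀ hε] at hD
    nlinarith
  obtain ⟨c, hc, hmain⟩ := main_grid D 1 one_pos
  set c' : ℝ := c / (2 * (D + 3)) with hc'
  have hc'0 : 0 < c' := by positivity
  set K : ℝ := 2 ^ (2 * (D + 3)) * (4 * (D + 3) + 1) * 2 with hK
  have hK1 : 1 ≤ K := by
    rw [hK]
    have h1 : (1 : ℝ) ≤ 2 ^ (2 * (D + 3)) := one_le_pow₀ (by norm_num)
    have h2 : (1 : ℝ) ≤ 4 * (D + 3) + 1 := by
      have : (0 : ℝ) ≤ D := Nat.cast_nonneg D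
      linarith
    nlinarith [mul_le_mul h1 h2 zero_le_one (zero_le_one.trans h1)]
  have hsize : ∀ n : ℕ, ((TsN D (n + 2)).size : ℝ) ≤ K * ((n + 2 : ℕ) : ℝ) ^ (D + 3) := by
    intro n
    rw [TsN_size]
    have h := Ts_size (D := D) (N := n + 2) (by omega)
    have h' : ((Ts D (n + 2)).size : ℝ) ≤
        (((n + 2) ^ (D + 3) * 2 ^ (2 * (D + 3)) * (4 * (D + 3) + 1) * 2 : ℕ) : ℝ) := by
      exact_mod_cast h
    refine h'.trans (le_of_eq ?_)
    rw [hK]
    push_cast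
    ring
  refine ⟨2 * (D + 3), c', fun n => TsN D (n + 2), hc'0, fun n => ⟨TsN_unsat D (by omega),
    TsN_cnf D (by omega), ?_⟩, fun R hR b hb => ?_⟩
  · rw [TsN_size]
    refine le_trans ?_ (le_Ts_size (by omega))
    calc n ≤ n + 2 := by omega
      _ = (n + 2) ^ 1 := (pow_one _).symm
      _ ≤ (n + 2) ^ (D + 3) := Nat.pow_le_pow_right (by omega) (by omega)
  · obtain ⟨N₀, hN₀⟩ := hmain R hR b hb
    obtain ⟨N₁, hN₁⟩ := eventually_const_le (K ^ (2 : ℝ)) 1 one_pos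
    obtain ⟨N₂, hN₂⟩ := eventually_const_le (K ^ c') (c / 2) (by positivity)
    refine ⟨N₀ + N₁ + N₂, fun n hn π hπ hbπ hs => ?_⟩
    set N : ℕ := n + 2 with hN
    have hNpos : (0 : ℝ) < (N : ℝ) := by rw [hN]; positivity
    have hN1 : (1 : ℝ) ≤ (N : ℝ) := by rw [hN]; push_cast; linarith [(Nat.cast_nonneg n : (0:ℝ) ≤ n)]
    have hF := hsize n
    have hF1 : (1 : ℝ) ≤ ((TsN D N).size : ℝ) := by
      have h1 := le_Ts_size (D := D) (N := N) (by omega)
      have h2 : 1 ≤ N ^ (D + 3) := Nat.one_le_pow _ _ (by omega)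
      rw [TsN_size]
      exact_mod_cast h2.trans h1
    have key : ∀ a : ℝ, 0 ≤ a → ((TsN D N).size : ℝ) ^ a ≤ K ^ a * (N : ℝ) ^ ((D + 3) * a) := by
      intro a ha
      calc ((TsN D N).size : ℝ) ^ a ≤ (K * ((N : ℕ) : ℝ) ^ (D + 3)) ^ a := by
            apply Real.rpow_le_rpow (by linarith) _ ha
            exact hF
        _ = K ^ a * (N : ℝ) ^ ((D + 3) * a) := by
            rw [Real.mul_rpow (by linarith) (by positivity), ← Real.rpow_natCast,
              ← Real.rpow_mul hNpos.le]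
            push_cast
            rfl
    have hlen := hN₀ N (by omega) π hπ hbπ (fun A hA => (hs A hA).trans ?_)
    · refine le_trans ?_ hlen
      apply Real.rpow_le_rpow_of_exponent_le (by norm_num)
      calc ((TsN D N).size : ℝ) ^ c' ≤ K ^ c' * (N : ℝ) ^ ((D + 3) * c') := key c' hc'0.le
        _ ≤ (N : ℝ) ^ (c / 2) * (N : ℝ) ^ (c / 2) := by
            have h1 := hN₂ N (by omega)
            have h2 : ((D : ℝ) + 3) * c' = c / 2 := by
              rw [hc']
              field_simp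
            rw [h2]
            gcongr
        _ = (N : ℝ) ^ c := by
            rw [← Real.rpow_add hNpos]
            congr 1
            ring
    · by_cases h2ε : 0 ≤ 2 - ε
      · calc ((TsN D N).size : ℝ) ^ (2 - ε) ≤ K ^ (2 - ε) * (N : ℝ) ^ ((D + 3) * (2 - ε)) :=
              key _ h2ε
          _ ≤ (N : ℝ) ^ (1 : ℝ) * (N : ℝ) ^ (2 * ((D : ℝ) + 2) - 2) := by
              have h1 : K ^ (2 - ε) ≤ (N : ℝ) ^ (1 : ℝ) :=
                (Real.rpow_le_rpow_of_exponent_le hK1 (by linarith)).trans (hN₁ N (by omega))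
              have h2 : (N : ℝ) ^ (((D : ℝ) + 3) * (2 - ε)) ≤ (N : ℝ) ^ (2 * ((D : ℝ) + 2) - 2) := by
                apply Real.rpow_le_rpow_of_exponent_le hN1
                nlinarith
              gcongr
          _ = (N : ℝ) ^ (2 * ((D : ℝ) + 2) - 1) := by
              rw [← Real.rpow_add hNpos]
              congr 1
              ring
      · push Not at h2ε
        calc ((TsN D N).size : ℝ) ^ (2 - ε) ≤ 1 :=
              Real.rpow_le_one_of_one_le_of_nonpos hF1 h2ε.le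
          _ ≤ (N : ℝ) ^ (2 * ((D : ℝ) + 2) - 1) := by
              apply Real.one_le_rpow hN1
              have : (0 : ℝ) ≤ D := Nat.cast_nonneg D
              linarith

end FrS
end
end
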